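import Pool.Agent.H73.PC.Df
import Pool.Agent.H69.PG.Qfb

/-!
# MP_028722, clusters: definitions for the mean values

* `Cd`: a function `θ · (divisor sum)` of one linear form with mean value `s`, with all bounds needed by the sieve.
* `Mv`: the mean values of all products of at most `J` such functions over the set `Ts` (about `Y` elements).
* `Bl`: the block functions of the cluster coordinates.
* `Sd`: the data of the two parts (P: the shifts outside the cluster, H: the cluster).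
* `sc`, `Zs`: the scales.
-/

open Finset EG H69PG

namespace H73PC

/-- a function of one form of the shape `θ · (divisor sum)`, mean value `s`, moduli at most `sz` -/
def Cd (w z M : ℕ) (Γ : ℝ) (sz : ℕ) (P : ℕ → ℝ) (s : ℝ) : Prop :=
  ∃ (D : Finset ℕ) (f : ℕ → ℝ), Good (primorial z) D ∧ (∀ B ∈ D, B ≤ z ^ M ∧ B ≤ sz) ∧ Ctrl 10 (10 * Γ) 1 D f ∧
    (∀ B ∈ D, |f B| ≤ 4 * Γ ^ 2 * 3 ^ B.primeFactors.card) ∧ (∑ B ∈ D, |f B| / (B : ℝ) ≤ 4 * Γ ^ 5) ∧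
    (∀ L, P L = th0 w z L * Fn D f L) ∧ SS D f 1 = s

/-- mean values of products over sets `U ⊆ S` with at most `J` elements and total size of the moduli at most `Sm` -/
def Mv {ι : Type} (w z W M J Sm : ℕ) (Γ η : ℝ) (Ts : Finset ℕ) (Y : ℝ) (S : Finset ι) (c : ι → ℕ) : Prop :=
  0 ≤ Y ∧ 0 ≤ η ∧ ∀ U ⊆ S, U.card ≤ J → ∀ (P : ι → ℕ → ℝ) (s : ι → ℝ) (sz : ι → ℕ),
    (∀ i ∈ U, Cd w z M Γ (sz i) (P i) (s i)) → ∏ i ∈ U, sz i ≤ Sm →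
    |∑ t ∈ Ts, ∏ i ∈ U, P i (W * t + c i) - Y * VV w z 1 ^ U.card * ∏ i ∈ U, s i| ≤ η * (Y * VV w z 1 ^ U.card)

/-- the blocks of a cluster coordinate -/
noncomputable def Bl {κ : Type} (w z W : ℕ) (Z : ℕ → ℕ) (c : κ → ℕ) (h : κ) (a t : ℕ) : ℝ :=
  th0 w z (W * t + c h) * Fn (sq (primorial z) (Z a)) (lamA Z (primorial z) a) (W * t + c h)

/-- the data: `N`, `mP`, `ZP`, `vP`, `lP`, `f0`, `R` for the shifts outside the cluster, `mH`, `ZH`, `vH`, `lH`, `y` for the cluster -/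
structure Sd (κ ι : Type) [Fintype κ] [DecidableEq κ] [Fintype ι] [DecidableEq ι] (N mP mH M z R Sm : ℕ) (ZP ZH : ℕ → ℕ)
    (vP vH f0 y : ℕ → ℝ) (lP lH Γ : ℝ) : Prop where
  z2 : 2 ≤ z
  hM : 2 * M ≤ z
  Z0P : ZP 0 = 1
  Z0H : ZH 0 = 1
  ZmP : Monotone ZP
  ZmH : Monotone ZH
  ZMP : ∀ a ≤ mP, ZP a ≤ z ^ M
  ZMH : ∀ a ≤ mH, ZH a ≤ z ^ M
  RM : R ≤ z ^ M
  R_pos : 1 ≤ R
  Γ_one : 1 ≤ Γ
  ΓP : ∀ a ≤ mP, GG (primorial z) (ZP a) ≤ Γ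
  ΓH : ∀ a ≤ mH, GG (primorial z) (ZH a) ≤ Γ
  ΓR : GG (primorial z) R ≤ Γ
  f0_nonneg : ∀ a, 0 ≤ f0 a
  f0_le : ∀ a, f0 a ≤ 1
  y_nonneg : ∀ a, 0 ≤ y a
  lev : ∀ n1 ∈ Ad κ mH vH lH, ∀ n1' ∈ Ad κ mH vH lH, ∀ n ∈ Cf ι mP N vP lP, ∀ n' ∈ Cf ι mP N vP lP,
    (∏ h, ZH (n1 h) * ZH (n1' h)) * (∏ i, ZP (n i) * ZP (n' i)) * (R * R) ≤ Sm

/-- `V U = v1 ^ |U|` -/
noncomputable def Vu {ι : Type} (v1 : ℝ) (U : Finset ι) : ℝ := v1 ^ U.card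

/-- the scales: `vt / B^(m-a)`, `a ≥ 1` -/
noncomputable def sc (vt B : ℝ) (m a : ℕ) : ℝ := if a = 0 then 0 else vt / B ^ (m - a)

/-- the corresponding moduli -/
noncomputable def Zs (x vt B : ℝ) (m a : ℕ) : ℕ := if a = 0 then 1 else ⌊x ^ (sc vt B m a)⌋₊

end H73PC
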