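import Pool.Agent.H69.PG.Qfa
import Pool.Agent.H73.PC.Dg
import Mathlib.Algebra.Order.Antidiag.Nat

/-!
# ROW CdA: products of two blocks

PROOF. `D = DAB Z Q a a'`, `f B = φ * fAB Z Q a a' B` (`Q = primorial z`). `Good`: `fAB_good`. `B = lcm(d, d')` with `d ≤ Z a`, `d' ≤ Z a'`, so `B ≤ Z a * Z a' ≤ z^(2M)`. `Ctrl`: `fAB_ctrl` (`|φ| ≤ 1`). `|fAB B| ≤ (2Γ)² #{(d, d') : lcm(d,d') = B}` (`lamA_abs`) and for squarefree `B` the
number of these pairs is at most `3^ω(B)` (`d ↦` the pair of the sets of prime factors; every prime of `B` divides `d` only, `d'` only, or both: injection into functions `B.primeFactors → Fin 3`; or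
`Nat.Coprime.card_divisors`/induction; also available: search for `lcm` counting lemmas `card_pair_lcm_eq` in Mathlib: `ArithmeticFunction`/`Nat.card_pair_lcm_eq`). `∑ |f B|/B ≤ 4 Γ^5`: `fAB_sum`.
`P L = th0 * Fn D f L`: `fn_mul` (product of two `Fn`, see `H1v.lean`). `SS D f 1 = φ * (if a = a' then wA else 0)`: `fAB_one`.
-/

open Finset EG H69PG

namespace H73PC

theorem CdA_pairs {D D' : Finset ℕ} {B : ℕ} (hB : Squarefree B) :
    (((D ×ˢ D').filter (fun p => Nat.lcm p.1 p.2 = B)).card : ℝ) ≤ 3 ^ B.primeFactors.card := by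
  have h1 := Nat.card_pair_lcm_eq hB
  have h2 : (D ×ˢ D').filter (fun p => Nat.lcm p.1 p.2 = B) ⊆
      (B.divisors ×ˢ B.divisors).filter (fun p => Nat.lcm p.1 p.2 = B) := by
    intro p hp
    rw [mem_filter] at hp ⊢
    refine ⟨mem_product.2 ⟨Nat.mem_divisors.2 ⟨?_, hB.ne_zero⟩, Nat.mem_divisors.2 ⟨?_, hB.ne_zero⟩⟩, hp.2⟩
    · rw [← hp.2]
      exact Nat.dvd_lcm_left _ _
    · rw [← hp.2]
      exact Nat.dvd_lcm_right _ _
  have h3 := card_le_card h2
  rw [show ((B.divisors ×ˢ B.divisors).filter (fun p => Nat.lcm p.1 p.2 = B)).card =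
    3 ^ B.primeFactors.card from h1] at h3
  exact_mod_cast h3

theorem CdA_sq_le {Q z d : ℕ} (h : d ∈ sq Q z) : 1 ≤ d ∧ d ≤ z ∧ Squarefree d := by
  have := mem_filter.1 h
  have h2 := mem_Icc.1 this.1
  exact ⟨h2.1, h2.2, this.2.1⟩

theorem cdA {w z M a a' : ℕ} {Z : ℕ → ℕ} {Γ φ : ℝ} (hz : 1 ≤ z) (hM : 2 * M ≤ z) (hZ0 : Z 0 = 1) (hZ : Monotone Z) (hZa : Z a ≤ z ^ M)
    (hZa' : Z a' ≤ z ^ M) (hΓ : 1 ≤ Γ) (hG : GG (primorial z) (Z a) ≤ Γ) (hG' : GG (primorial z) (Z a') ≤ Γ) (hφ : |φ| ≤ 1) :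
    Cd w z (2 * M) Γ (Z a * Z a') (fun L => φ * (th0 w z L * (Fn (sq (primorial z) (Z a)) (lamA Z (primorial z) a) L *
      Fn (sq (primorial z) (Z a')) (lamA Z (primorial z) a') L))) (φ * (if a = a' then wA Z (primorial z) a else 0)) := by
  have hΓ0 : 0 ≤ Γ := by linarith
  refine ⟨DAB Z (primorial z) a a', fun B => φ * fAB Z (primorial z) a a' B, fAB_good Z _ a a', ?_, ?_, ?_, ?_, ?_, ?_⟩
  · intro B hB
    unfold DAB lcD at hB
    rw [mem_image] at hB
    obtain ⟨⟨d, d'⟩, hp, rfl⟩ := hB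
    rw [mem_product] at hp
    have h1 := CdA_sq_le hp.1
    have h2 := CdA_sq_le hp.2
    have h3 : Nat.lcm d d' ≤ d * d' := Nat.le_of_dvd (Nat.mul_pos h1.1 h2.1) (Nat.lcm_dvd_mul d d')
    have h4 : d * d' ≤ Z a * Z a' := Nat.mul_le_mul h1.2.1 h2.2.1
    refine ⟨h3.trans (h4.trans ?_), h3.trans h4⟩
    rw [two_mul, pow_add]
    exact Nat.mul_le_mul hZa hZa'
  · intro b hb
    have h1 := fAB_ctrl hG hG' hΓ0 b hb
    have h2 : SS (DAB Z (primorial z) a a') (fun B => φ * fAB Z (primorial z) a a' B) b =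
        φ * SS (DAB Z (primorial z) a a') (fAB Z (primorial z) a a') b := by
      unfold SS
      rw [mul_sum]
      exact sum_congr rfl fun B _ => mul_div_assoc _ _ _
    rw [h2, abs_mul]
    refine le_trans (mul_le_mul hφ h1 (abs_nonneg _) zero_le_one) ?_
    rw [one_mul]
  · intro B hB
    have hBs : Squarefree B := (fAB_good Z (primorial z) a a' B hB).1
    have h1 : |fAB Z (primorial z) a a' B| ≤ 4 * Γ ^ 2 * 3 ^ B.primeFactors.card := by
      unfold fAB lcf
      refine (abs_sum_le_sum_abs _ _).trans ?_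
      have h2 : ∀ p ∈ (sq (primorial z) (Z a) ×ˢ sq (primorial z) (Z a')).filter (fun p => Nat.lcm p.1 p.2 = B),
          |lamA Z (primorial z) a p.1 * lamA Z (primorial z) a' p.2| ≤ 4 * Γ ^ 2 := by
        intro p _
        rw [abs_mul]
        have h3 := lamA_abs hz hZa hM hG p.1
        have h4 := lamA_abs hz hZa' hM hG' p.2
        calc |lamA Z (primorial z) a p.1| * |lamA Z (primorial z) a' p.2| ≤ (2 * Γ) * (2 * Γ) :=
              mul_le_mul h3 h4 (abs_nonneg _) (by positivity)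
          _ = 4 * Γ ^ 2 := by ring
      refine (sum_le_sum h2).trans ?_
      rw [sum_const, nsmul_eq_mul, mul_comm]
      exact mul_le_mul_of_nonneg_left (CdA_pairs hBs) (by positivity)
    show |φ * fAB Z (primorial z) a a' B| ≤ _
    rw [abs_mul]
    refine le_trans (mul_le_mul hφ h1 (abs_nonneg _) zero_le_one) ?_
    rw [one_mul]
  · have h1 := fAB_sum hz hZa hZa' hM hG hG'
    refine le_trans (sum_le_sum fun B _ => ?_) h1
    refine div_le_div_of_nonneg_right ?_ (Nat.cast_nonneg _)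
    rw [abs_mul]
    refine (mul_le_mul_of_nonneg_right hφ (abs_nonneg _)).trans ?_
    rw [one_mul]
  · intro L
    show φ * (th0 w z L * (Fn (sq (primorial z) (Z a)) (lamA Z (primorial z) a) L *
      Fn (sq (primorial z) (Z a')) (lamA Z (primorial z) a') L)) = _
    rw [fn_mul]
    have h1 : Fn (DAB Z (primorial z) a a') (fun B => φ * fAB Z (primorial z) a a' B) L =
        φ * Fn (DAB Z (primorial z) a a') (fAB Z (primorial z) a a') L := by
      unfold Fn
      rw [mul_sum]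
    rw [h1]
    show φ * (th0 w z L * Fn (DAB Z (primorial z) a a') (fAB Z (primorial z) a a') L) = _
    ring
  · rw [← fAB_one (primorial z) hZ0 hZ a a']
    unfold SS
    rw [mul_sum]
    exact sum_congr rfl fun B _ => mul_div_assoc _ _ _

end H73PC
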