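import Pool.Agent.H69.PG.Qfb
import Pool.Agent.H69.PG.H4v
import Pool.Agent.H73.PC.Dg

/-!
# ROW CdB: the Selberg majorant, and the constant
-/

open Finset EG H69PG

namespace H73PC

theorem CdB_count {B : ℕ} (hB : Squarefree B) (D D' : Finset ℕ) :
    (((D ×ˢ D').filter (fun p => Nat.lcm p.1 p.2 = B)).card : ℝ) ≤ 3 ^ B.primeFactors.card := by
  have h1 : (D ×ˢ D').filter (fun p => Nat.lcm p.1 p.2 = B) ⊆
      (B.divisors ×ˢ B.divisors).filter (fun p => Nat.lcm p.1 p.2 = B) := by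
    intro p hp
    rw [mem_filter] at hp ⊢
    refine ⟨?_, hp.2⟩
    rw [mem_product, Nat.mem_divisors, Nat.mem_divisors]
    refine ⟨⟨?_, hB.ne_zero⟩, ⟨?_, hB.ne_zero⟩⟩
    · rw [← hp.2]; exact Nat.dvd_lcm_left _ _
    · rw [← hp.2]; exact Nat.dvd_lcm_right _ _
  have h2 := card_le_card h1
  rw [Nat.card_pair_lcm_eq hB, ArithmeticFunction.cardDistinctFactors_apply, ← List.card_toFinset] at h2
  exact_mod_cast h2

theorem cdB {w z M R : ℕ} {Γ : ℝ} (hz : 1 ≤ z) (hR : 1 ≤ R) (hRM : R ≤ z ^ M) (hΓ : 1 ≤ Γ) (hG : GG (primorial z) R ≤ Γ) :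
    Cd w z (2 * M) Γ (R * R) (fun L => th0 w z L * be (primorial z) R L) (1 / GG (primorial z) R) := by
  refine ⟨DB (primorial z) R, fB (primorial z) R, fB_good _ _, ?_, fB_ctrl hR hΓ, ?_, ?_, ?_, fB_one hR⟩
  · intro B hB
    unfold DB lcD at hB
    rw [mem_image] at hB
    obtain ⟨⟨d, d'⟩, hp, rfl⟩ := hB
    rw [mem_product] at hp
    have h1 : d ≤ R := (selT_mem.1 hp.1).1.2
    have h2 : d' ≤ R := (selT_mem.1 hp.2).1.2
    have h3 : 0 < d := (selT_mem.1 hp.1).1.1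
    have h4 : 0 < d' := (selT_mem.1 hp.2).1.1
    have h5 : Nat.lcm d d' ≤ d * d' := Nat.le_of_dvd (Nat.mul_pos h3 h4) (Nat.lcm_dvd_mul d d')
    have h6 : Nat.lcm d d' ≤ R * R := h5.trans (Nat.mul_le_mul h1 h2)
    refine ⟨h6.trans ?_, h6⟩
    rw [two_mul, pow_add]
    exact Nat.mul_le_mul hRM hRM
  · intro B hB
    have hsq : Squarefree B := (fB_good _ _ B hB).1
    unfold fB lcf
    refine (abs_sum_le_sum_abs _ _).trans ?_
    have h1 : ∑ p ∈ (sq (primorial z) R ×ˢ sq (primorial z) R).filter (fun p => Nat.lcm p.1 p.2 = B),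
        |lb (primorial z) R p.1 * lb (primorial z) R p.2| ≤
        ∑ p ∈ (sq (primorial z) R ×ˢ sq (primorial z) R).filter (fun p => Nat.lcm p.1 p.2 = B), (1 : ℝ) := by
      refine sum_le_sum fun p _ => ?_
      rw [abs_mul]
      exact mul_le_one₀ (Qfb_lb hR p.1) (abs_nonneg _) (Qfb_lb hR p.2)
    refine h1.trans ?_
    rw [sum_const, nsmul_eq_mul, mul_one]
    refine (CdB_count hsq _ _).trans ?_
    have h2 : (1 : ℝ) ≤ 4 * Γ ^ 2 := by nlinarith
    have h3 : (0 : ℝ) < 3 ^ B.primeFactors.card := by positivity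
    nlinarith
  · refine (fB_sum hR hG).trans ?_
    have h0 : (0 : ℝ) < Γ := by linarith
    have h1 : Γ ^ 3 ≤ Γ ^ 5 := pow_le_pow_right₀ hΓ (by norm_num)
    have h2 : 0 < Γ ^ 5 := by positivity
    linarith
  · intro L
    rw [fB_be]

theorem cd1 {w z M : ℕ} {Γ : ℝ} (hz : 1 ≤ z) (hΓ : 1 ≤ Γ) : Cd w z M Γ 1 (th0 w z) 1 := by
  refine ⟨{1}, fun _ => 1, H4v_good _, ?_, ?_, ?_, ?_, ?_, ?_⟩
  · intro B hB
    rw [mem_singleton] at hB
    subst hB
    exact ⟨Nat.one_le_pow _ _ hz, le_rfl⟩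
  · intro b hb
    refine (H4v_ctrl b hb).trans ?_
    refine div_le_div_of_nonneg_right ?_ (Nat.cast_nonneg _)
    refine mul_le_mul_of_nonneg_right ?_ (Nat.cast_nonneg _)
    refine mul_le_mul_of_nonneg_right ?_ (by positivity)
    linarith
  · intro B hB
    rw [mem_singleton] at hB
    subst hB
    simp only [abs_one, Nat.primeFactors_one, card_empty, pow_zero, mul_one]
    nlinarith
  · rw [sum_singleton]
    have h1 : (1 : ℝ) ≤ Γ ^ 5 := one_le_pow₀ hΓ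
    simp only [abs_one, Nat.cast_one, div_one]
    linarith
  · intro L
    rw [H4v_Fn, mul_one]
  · rw [H4v_SS, if_pos (one_dvd 1)]

end H73PC
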