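import Pool.Agent.H73.PC.If0
import Pool.Agent.H69.PG.Crt

/-!
# ROW DsA: all integers `t < T`

* `dsA`. PROOF. `Ph none d = ∏_{p ∣ d} p = d` for squarefree `d`; `#{t < T : t ≡ a mod d} = T/d + O(1)` (`Nat.count_modEq_card` or blocks of length `d`). `al W none p t` holds trivially.
* `erA`. PROOF. `ErS Dm C 1 = ∑_{d ≤ Dm, squarefree} C^ω(d)`; `C^ω(d) ≤ C^(C^8+1) d^(1/8)`: the primes `p ≥ C^8` satisfy `C ≤ p^(1/8)`, the others are at most `C^8 + 1` in number. So `ErS ≤ C^(C^8+1) Dm^(9/8) ≤ C' x^(27/64)`, and `To x ≥ x/(8 W) ≥ x^(1/2)` for large `x`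
(`W = WW (yy x) ≤ log x` by `WW_yy_pow_le`).
-/

open Finset EG H69PG Pool.Agent.H17

namespace H73PC

theorem dsA (w Dm W T : ℕ) : Dst w Dm W none (range T) (T : ℝ) (fun _ => 1) where
  Y_nonneg := Nat.cast_nonneg T
  E_nonneg := fun _ => zero_le_one
  mem := by
    intro t _ p _ _ _ k hk
    simp at hk
  cnt := by
    intro d hd _ _ a _
    have hPh : Ph none d = (d : ℝ) := by
      unfold Ph ph
      simp only [if_true]
      conv_rhs => rw [← Nat.prod_primeFactors_of_squarefree hd]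
      rw [Nat.cast_prod]
    rw [hPh]
    exact Crt_count (Nat.pos_of_ne_zero hd.ne_zero) a T

/-- `C^ω(d) ≤ C^⌈C^8⌉ d^(1/8)` -/
theorem DsA_om {C : ℝ} (hC : 1 ≤ C) {d : ℕ} (hd : 0 < d) :
    C ^ d.primeFactors.card ≤ C ^ (⌈C ^ 8⌉₊) * (d : ℝ) ^ (1 / 8 : ℝ) := by
  classical
  have hC0 : (0 : ℝ) ≤ C := by linarith
  have hsplit : C ^ d.primeFactors.card =
      C ^ (d.primeFactors.filter (fun p : ℕ => p < ⌈C ^ 8⌉₊)).card *
      C ^ (d.primeFactors.filter (fun p : ℕ => ¬ p < ⌈C ^ 8⌉₊)).card := by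
    rw [← pow_add, Finset.card_filter_add_card_filter_not]
  rw [hsplit]
  have h1 : C ^ (d.primeFactors.filter (fun p : ℕ => p < ⌈C ^ 8⌉₊)).card ≤ C ^ (⌈C ^ 8⌉₊) := by
    refine pow_le_pow_right₀ hC ?_
    have : d.primeFactors.filter (fun p : ℕ => p < ⌈C ^ 8⌉₊) ⊆ range ⌈C ^ 8⌉₊ := by
      intro p hp
      exact mem_range.2 (mem_filter.1 hp).2
    simpa using Finset.card_le_card this
  have h2 : C ^ (d.primeFactors.filter (fun p : ℕ => ¬ p < ⌈C ^ 8⌉₊)).card ≤ (d : ℝ) ^ (1 / 8 : ℝ) := by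
    have h3 : C ^ (d.primeFactors.filter (fun p : ℕ => ¬ p < ⌈C ^ 8⌉₊)).card ≤
        ∏ p ∈ d.primeFactors.filter (fun p : ℕ => ¬ p < ⌈C ^ 8⌉₊), (p : ℝ) ^ (1 / 8 : ℝ) := by
      rw [← Finset.prod_const]
      refine Finset.prod_le_prod (fun _ _ => hC0) (fun p hp => ?_)
      have hp2 : C ^ 8 ≤ (p : ℝ) := by
        have := (mem_filter.1 hp).2
        push Not at this
        exact (Nat.le_ceil _).trans (by exact_mod_cast this)
      have e : C = (C ^ 8) ^ (1 / 8 : ℝ) := by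
        rw [← Real.rpow_natCast C 8, ← Real.rpow_mul hC0]
        norm_num
      calc C = (C ^ 8) ^ (1 / 8 : ℝ) := e
        _ ≤ (p : ℝ) ^ (1 / 8 : ℝ) := Real.rpow_le_rpow (by positivity) hp2 (by norm_num)
    have h4 : ∏ p ∈ d.primeFactors.filter (fun p : ℕ => ¬ p < ⌈C ^ 8⌉₊), (p : ℝ) ^ (1 / 8 : ℝ) ≤
        ∏ p ∈ d.primeFactors, (p : ℝ) ^ (1 / 8 : ℝ) := by
      rw [← Finset.prod_filter_mul_prod_filter_not d.primeFactors (fun p : ℕ => ¬ p < ⌈C ^ 8⌉₊)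
        (fun p : ℕ => (p : ℝ) ^ (1 / 8 : ℝ))]
      refine le_mul_of_one_le_right (Finset.prod_nonneg (fun p _ => by positivity)) ?_
      have h7 := Finset.prod_le_prod (s := d.primeFactors.filter (fun p : ℕ => ¬ ¬ p < ⌈C ^ 8⌉₊))
        (f := fun _ : ℕ => (1 : ℝ)) (g := fun p : ℕ => (p : ℝ) ^ (1 / 8 : ℝ)) (fun _ _ => zero_le_one)
        (fun p hp => Real.one_le_rpow
          (by exact_mod_cast (Nat.prime_of_mem_primeFactors (mem_filter.1 hp).1).one_le) (by norm_num))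
      rw [Finset.prod_const_one] at h7
      exact h7
    have h5 : ∏ p ∈ d.primeFactors, (p : ℝ) ^ (1 / 8 : ℝ) = ((∏ p ∈ d.primeFactors, p : ℕ) : ℝ) ^ (1 / 8 : ℝ) := by
      rw [Nat.cast_prod, Real.finsetProd_rpow _ _ (fun p _ => Nat.cast_nonneg p)]
    have h6 : ((∏ p ∈ d.primeFactors, p : ℕ) : ℝ) ^ (1 / 8 : ℝ) ≤ (d : ℝ) ^ (1 / 8 : ℝ) := by
      refine Real.rpow_le_rpow (Nat.cast_nonneg _) ?_ (by norm_num)
      exact_mod_cast Nat.le_of_dvd hd (Nat.prod_primeFactors_dvd d)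
    rw [h5] at h4
    exact h3.trans (h4.trans h6)
  exact mul_le_mul h1 h2 (by positivity) (by positivity)

theorem DsA_ErS {C : ℝ} (hC : 1 ≤ C) (Dm : ℕ) :
    ErS Dm C (fun _ => 1) ≤ C ^ (⌈C ^ 8⌉₊) * (Dm : ℝ) ^ (9 / 8 : ℝ) := by
  have hC0 : (0 : ℝ) ≤ C := by linarith
  unfold ErS
  have h1 : ∑ d ∈ (Icc 1 Dm).filter (fun d => Squarefree d), C ^ d.primeFactors.card * 1 ≤
      ∑ _d ∈ (Icc 1 Dm).filter (fun d => Squarefree d), C ^ (⌈C ^ 8⌉₊) * (Dm : ℝ) ^ (1 / 8 : ℝ) := by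
    refine Finset.sum_le_sum (fun d hd => ?_)
    obtain ⟨hd1, hd2⟩ := mem_Icc.1 (mem_filter.1 hd).1
    rw [mul_one]
    refine (DsA_om hC hd1).trans ?_
    refine mul_le_mul_of_nonneg_left ?_ (by positivity)
    exact Real.rpow_le_rpow (Nat.cast_nonneg _) (by exact_mod_cast hd2) (by norm_num)
  refine h1.trans ?_
  rw [Finset.sum_const, nsmul_eq_mul]
  have h2 : (((Icc 1 Dm).filter (fun d => Squarefree d)).card : ℝ) ≤ Dm := by
    have : ((Icc 1 Dm).filter (fun d => Squarefree d)).card ≤ (Icc 1 Dm).card :=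
      Finset.card_filter_le _ _
    rw [Nat.card_Icc] at this
    exact_mod_cast (by omega : ((Icc 1 Dm).filter (fun d => Squarefree d)).card ≤ Dm)
  refine (mul_le_mul_of_nonneg_right h2 (by positivity)).trans (le_of_eq ?_)
  rcases Nat.eq_zero_or_pos Dm with h0 | h0
  · rw [h0]
    simp
  · have hD : (0 : ℝ) < Dm := by exact_mod_cast h0
    have e : (Dm : ℝ) ^ (9 / 8 : ℝ) = (Dm : ℝ) * (Dm : ℝ) ^ (1 / 8 : ℝ) := by
      conv_rhs => rw [← Real.rpow_one (Dm : ℝ), Real.rpow_one (Dm : ℝ)]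
      rw [show (9 / 8 : ℝ) = 1 + 1 / 8 by norm_num, Real.rpow_add hD, Real.rpow_one]
    rw [e]
    ring

theorem erA (C : ℝ) (hC : 1 ≤ C) (A : ℕ) : ∃ x0 : ℝ, ∀ x : ℝ, x0 ≤ x → ∀ Dm : ℕ, (Dm : ℝ) ≤ x ^ (3 / 8 : ℝ) →
    ErS Dm C (fun _ => 1) ≤ (To x : ℝ) / Real.log x ^ A := by
  obtain ⟨Kc, hKc⟩ : ∃ Kc : ℝ, Kc = C ^ (⌈C ^ 8⌉₊) := ⟨_, rfl⟩
  have hKc0 : 0 ≤ Kc := by rw [hKc]; have : (0 : ℝ) ≤ C := by linarith
                           positivity
  have ev1 : ∀ᶠ x : ℝ in Filter.atTop, ‖Real.log x ^ ((A + 1 : ℕ) : ℝ)‖ ≤ (1 / (8 * (Kc + 1))) * ‖x ^ (37 / 64 : ℝ)‖ :=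
    (isLittleO_log_rpow_rpow_atTop ((A + 1 : ℕ) : ℝ) (by norm_num : (0 : ℝ) < 37 / 64)).bound (by positivity)
  have ev2 : ∀ᶠ x : ℝ in Filter.atTop, ‖Real.log x‖ ≤ (1 / 8) * ‖x‖ := by
    have := Real.isLittleO_log_id_atTop.bound (by norm_num : (0 : ℝ) < 1 / 8)
    simpa using this
  obtain ⟨x0, hx0⟩ := Filter.eventually_atTop.1 ((ev1.and ev2).and (Filter.eventually_ge_atTop (Real.exp 1)))
  refine ⟨x0, fun x hx Dm hDm => ?_⟩
  obtain ⟨⟨h1, h2⟩, h3⟩ := hx0 x hx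
  have hxpos : 0 < x := (Real.exp_pos 1).trans_le h3
  have hlog1 : 1 ≤ Real.log x := by
    rw [Real.le_log_iff_exp_le hxpos]
    exact h3
  have hlog0 : 0 < Real.log x := by linarith
  rw [Real.norm_of_nonneg (by positivity), Real.norm_of_nonneg (by positivity), Real.rpow_natCast] at h1
  rw [Real.norm_of_nonneg hlog0.le, Real.norm_of_nonneg hxpos.le] at h2
  -- the bound for `W`
  have hW34 := WW_yy_pow_le hlog1
  obtain ⟨W, hW⟩ : ∃ W : ℕ, W = WW (yy x) := ⟨_, rfl⟩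
  have hWpos : 1 ≤ W := by
    rw [hW]
    exact WW_pos (yy x)
  rw [← hW] at hW34
  have hWr : (1 : ℝ) ≤ W := by exact_mod_cast hWpos
  have hWlog : (W : ℝ) ≤ Real.log x := by
    calc (W : ℝ) = (W : ℝ) ^ 1 := (pow_one _).symm
      _ ≤ (W : ℝ) ^ 34 := pow_le_pow_right₀ hWr (by norm_num)
      _ ≤ Real.sqrt (Real.log x) := hW34
      _ ≤ Real.log x := by
        rw [Real.sqrt_le_left hlog0.le]
        nlinarith
  have hTo : x / (8 * Real.log x) ≤ (To x : ℝ) := by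
    unfold To
    rw [← hW]
    have e1 : x / (4 * (W : ℝ)) - 1 ≤ (⌊x / (4 * (W : ℝ))⌋₊ : ℝ) := by
      have := Nat.lt_floor_add_one (x / (4 * (W : ℝ)))
      linarith
    refine le_trans ?_ e1
    have e2 : x / (4 * Real.log x) ≤ x / (4 * (W : ℝ)) := by
      apply div_le_div_of_nonneg_left hxpos.le (by positivity)
      linarith
    have e3 : 1 ≤ x / (8 * Real.log x) := by
      rw [le_div_iff₀ (by positivity)]
      linarith
    have e4 : x / (4 * Real.log x) = x / (8 * Real.log x) + x / (8 * Real.log x) := by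
      field_simp
      norm_num
    linarith
  have hE := DsA_ErS hC Dm
  rw [← hKc] at hE
  have hD : (Dm : ℝ) ^ (9 / 8 : ℝ) ≤ x ^ (27 / 64 : ℝ) := by
    calc (Dm : ℝ) ^ (9 / 8 : ℝ) ≤ (x ^ (3 / 8 : ℝ)) ^ (9 / 8 : ℝ) :=
          Real.rpow_le_rpow (Nat.cast_nonneg _) hDm (by norm_num)
      _ = x ^ (27 / 64 : ℝ) := by
          rw [← Real.rpow_mul hxpos.le]
          norm_num
  rw [le_div_iff₀ (by positivity)]
  calc ErS Dm C (fun _ => 1) * Real.log x ^ A ≤ (Kc * x ^ (27 / 64 : ℝ)) * Real.log x ^ A := by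
        refine mul_le_mul_of_nonneg_right (hE.trans (mul_le_mul_of_nonneg_left hD hKc0)) (by positivity)
    _ ≤ x / (8 * Real.log x) := by
        rw [le_div_iff₀ (by positivity)]
        have e5 : x ^ (27 / 64 : ℝ) * x ^ (37 / 64 : ℝ) = x := by
          rw [← Real.rpow_add hxpos]
          norm_num
        have e6 : Kc * x ^ (27 / 64 : ℝ) * Real.log x ^ A * (8 * Real.log x) =
            8 * Kc * x ^ (27 / 64 : ℝ) * Real.log x ^ (A + 1) := by ring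
        rw [e6]
        have e7 : 8 * Kc * x ^ (27 / 64 : ℝ) * Real.log x ^ (A + 1) ≤
            8 * Kc * x ^ (27 / 64 : ℝ) * (1 / (8 * (Kc + 1)) * x ^ (37 / 64 : ℝ)) :=
          mul_le_mul_of_nonneg_left h1 (by positivity)
        refine e7.trans ?_
        have e8 : 8 * Kc * x ^ (27 / 64 : ℝ) * (1 / (8 * (Kc + 1)) * x ^ (37 / 64 : ℝ)) =
            (Kc / (Kc + 1)) * (x ^ (27 / 64 : ℝ) * x ^ (37 / 64 : ℝ)) := by
          field_simp
        rw [e8, e5]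
        have e9 : Kc / (Kc + 1) ≤ 1 := by
          rw [div_le_one (by positivity)]
          linarith
        nlinarith
    _ ≤ (To x : ℝ) := hTo

end H73PC
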