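import Pool.Agent.H73.PC.If0
import Pool.Agent.H17.BV.Pii

/-!
# ROW DsB: the `t < T` for which `W t + k` is prime

`dsb_one`: one modulus `d`, from the prime number theorem for the arithmetic progression `W a + k` modulo `W d` with error `e`.
`dsb_gen`: the structure `Dst` from the errors `E q`, `q ≤ W Dm`.
-/

open Finset EG H69PG Pool.Agent.H17

namespace H73PC

/-- one modulus -/
theorem dsb_one {W k T N d a : ℕ} {e : ℝ} (hW : 1 ≤ W) (hk : 3 ≤ k) (hN : k + W * T ≤ N + 1)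
    (hWd : Nat.Coprime W d)
    (hE : ∀ y : ℕ, 2 ≤ y → y ≤ N → |((((Icc 1 y).filter (fun p => p.Prime ∧ p ≡ W * a + k [MOD W * d])).card : ℕ) : ℝ) -
        Pool.Agent.H17.ZB.Li y / (Nat.totient (W * d) : ℝ)| ≤ e) :
    |(((((range T).filter (fun t => (W * t + k).Prime)).filter (fun t => t ≡ a [MOD d])).card : ℕ) : ℝ) -
      (Pool.Agent.H17.ZB.Li ((k + W * T - 1 : ℕ) : ℝ) - Pool.Agent.H17.ZB.Li ((k - 1 : ℕ) : ℝ)) / (Nat.totient W : ℝ) /
        (Nat.totient d : ℝ)| ≤ 2 * e := by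
  classical
  set y1 := k - 1 with hy1
  set y2 := k + W * T - 1 with hy2
  have h12 : y1 ≤ y2 := by omega
  set S : ℕ → Finset ℕ := fun y => (Icc 1 y).filter (fun p => p.Prime ∧ p ≡ W * a + k [MOD W * d]) with hS
  have hsub : S y1 ⊆ S y2 := by
    intro p hp
    rw [hS, mem_filter, mem_Icc] at hp ⊢
    exact ⟨⟨hp.1.1, hp.1.2.trans h12⟩, hp.2⟩
  have himg : (((range T).filter (fun t => (W * t + k).Prime)).filter (fun t => t ≡ a [MOD d])).image
      (fun t => W * t + k) = S y2 \ S y1 := by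
    ext p
    rw [mem_image, mem_sdiff]
    constructor
    · rintro ⟨t, ht, rfl⟩
      rw [mem_filter, mem_filter, mem_range] at ht
      obtain ⟨⟨htT, hpr⟩, hta⟩ := ht
      have h1 : W * t + W ≤ W * T := by
        calc W * t + W = W * (t + 1) := by ring
          _ ≤ W * T := Nat.mul_le_mul_left _ htT
      constructor
      · rw [hS, mem_filter, mem_Icc]
        refine ⟨⟨by omega, by omega⟩, hpr, ?_⟩
        exact (Nat.ModEq.mul_left' W hta).add_right k
      · intro h2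
        rw [hS, mem_filter, mem_Icc] at h2
        omega
    · rintro ⟨h1, h2⟩
      rw [hS, mem_filter, mem_Icc] at h1
      obtain ⟨⟨h3, h4⟩, h5, h6⟩ := h1
      have h7 : k ≤ p := by
        by_contra h7
        apply h2
        rw [hS, mem_filter, mem_Icc]
        exact ⟨⟨h3, by omega⟩, h5, h6⟩
      have h8 : k ≡ p [MOD W] := by
        have h9 : p ≡ W * a + k [MOD W] := h6.of_dvd (Dvd.intro _ rfl)
        have h10 : W * a + k ≡ k [MOD W] := by
          have : W * a ≡ 0 [MOD W] := (Nat.modEq_zero_iff_dvd).2 (Dvd.intro _ rfl)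
          simpa using this.add_right k
        exact (h9.trans h10).symm
      obtain ⟨t, ht⟩ := (Nat.modEq_iff_dvd' h7).1 h8
      have hpt : W * t + k = p := by omega
      refine ⟨t, ?_, hpt⟩
      rw [mem_filter, mem_filter, mem_range]
      refine ⟨⟨?_, by rw [hpt]; exact h5⟩, ?_⟩
      · by_contra h11
        push Not at h11
        have h12 : W * T ≤ W * t := Nat.mul_le_mul_left _ h11
        omega
      · rw [← hpt] at h6
        have h13 : W * t ≡ W * a [MOD W * d] := Nat.ModEq.add_right_cancel' k h6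
        exact Nat.ModEq.mul_left_cancel' (by omega) h13
  have hinj : Set.InjOn (fun t => W * t + k)
      (((range T).filter (fun t => (W * t + k).Prime)).filter (fun t => t ≡ a [MOD d]) : Finset ℕ) := by
    intro t _ s _ h
    have h1 : W * t = W * s := by
      simpa using h
    exact Nat.eq_of_mul_eq_mul_left (by omega) h1
  have hcard : ((((range T).filter (fun t => (W * t + k).Prime)).filter (fun t => t ≡ a [MOD d])).card : ℝ) =
      ((S y2).card : ℝ) - ((S y1).card : ℝ) := by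
    have h1 := card_image_of_injOn hinj
    rw [himg] at h1
    rw [← h1, card_sdiff_of_subset hsub, Nat.cast_sub (card_le_card hsub)]
  have hE2 := hE y2 (by omega) (by omega)
  have hE1 := hE y1 (by omega) (by omega)
  have hL : (Pool.Agent.H17.ZB.Li (y2 : ℝ) - Pool.Agent.H17.ZB.Li (y1 : ℝ)) / (Nat.totient W : ℝ) / (Nat.totient d : ℝ) =
      Pool.Agent.H17.ZB.Li (y2 : ℝ) / (Nat.totient (W * d) : ℝ) - Pool.Agent.H17.ZB.Li (y1 : ℝ) / (Nat.totient (W * d) : ℝ) := by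
    rw [Nat.totient_mul hWd]
    push_cast
    rw [div_div, sub_div]
  rw [hcard, hL]
  have e1 : ((S y2).card : ℝ) - ((S y1).card : ℝ) -
      (Pool.Agent.H17.ZB.Li (y2 : ℝ) / (Nat.totient (W * d) : ℝ) - Pool.Agent.H17.ZB.Li (y1 : ℝ) / (Nat.totient (W * d) : ℝ)) =
      (((S y2).card : ℝ) - Pool.Agent.H17.ZB.Li (y2 : ℝ) / (Nat.totient (W * d) : ℝ)) -
      (((S y1).card : ℝ) - Pool.Agent.H17.ZB.Li (y1 : ℝ) / (Nat.totient (W * d) : ℝ)) := by ring
  rw [e1]
  refine (abs_sub _ _).trans ?_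
  linarith

/-- the logarithmic integral on `[k-1, k-1+W T]` -/
theorem dsb_li {W k T : ℕ} {x : ℝ} (hk : 3 ≤ k) (hN : ((k + W * T : ℕ) : ℝ) ≤ x + 1) :
    (W * T : ℝ) / Real.log x ≤
      Pool.Agent.H17.ZB.Li ((k + W * T - 1 : ℕ) : ℝ) - Pool.Agent.H17.ZB.Li ((k - 1 : ℕ) : ℝ) := by
  have hk1 : ((k - 1 : ℕ) : ℝ) = (k : ℝ) - 1 := by
    rw [Nat.cast_sub (by omega)]; simp
  have hk2 : ((k + W * T - 1 : ℕ) : ℝ) = (k : ℝ) + W * T - 1 := by
    rw [Nat.cast_sub (by omega)]; push_cast; ring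
  have hk3 : (3 : ℝ) ≤ k := by exact_mod_cast hk
  have hWT : (0 : ℝ) ≤ (W : ℝ) * T := by positivity
  have hx : (k : ℝ) + W * T - 1 ≤ x := by
    push_cast at hN
    linarith
  rw [hk1, hk2, Pool.Agent.H17.ZB.Li, Pool.Agent.H17.ZB.Li]
  have hcont : ∀ b : ℝ, 2 ≤ b → IntervalIntegrable (fun t : ℝ => 1 / Real.log t) MeasureTheory.volume 2 b := by
    intro b hb
    apply ContinuousOn.intervalIntegrable
    intro t ht
    rw [Set.uIcc_of_le hb] at ht
    apply ContinuousAt.continuousWithinAt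
    have h1 : (1 : ℝ) < t := by linarith [ht.1]
    exact continuousAt_const.div (Real.continuousAt_log (by linarith)) (Real.log_pos h1).ne'
  rw [intervalIntegral.integral_interval_sub_left (hcont _ (by linarith)) (hcont _ (by linarith))]
  have h2 : ∀ t ∈ Set.Icc ((k : ℝ) - 1) (k + W * T - 1), 1 / Real.log x ≤ 1 / Real.log t := by
    intro t ht
    have h3 : (1 : ℝ) < t := by linarith [ht.1]
    exact one_div_le_one_div_of_le (Real.log_pos h3) (Real.log_le_log (by linarith) (ht.2.trans hx))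
  have h4 : IntervalIntegrable (fun t : ℝ => 1 / Real.log t) MeasureTheory.volume ((k : ℝ) - 1) (k + W * T - 1) :=
    (hcont _ (by linarith)).symm.trans (hcont _ (by linarith))
  have h5 := intervalIntegral.integral_mono_on (by linarith) (intervalIntegrable_const (c := 1 / Real.log x)) h4 h2
  rw [intervalIntegral.integral_const] at h5
  refine le_trans (le_of_eq ?_) h5
  rw [smul_eq_mul]
  ring

theorem Ph_some (k : ℕ) {d : ℕ} (hd : Squarefree d) : Ph (some k) d = (Nat.totient d : ℝ) := by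
  have h1 := Nat.totient_mul_prod_primeFactors d
  rw [Nat.prod_primeFactors_of_squarefree hd, mul_comm] at h1
  have h2 := Nat.eq_of_mul_eq_mul_left (Nat.pos_of_ne_zero hd.ne_zero) h1
  rw [h2, Ph]
  push_cast
  refine prod_congr rfl fun p hp => ?_
  have h3 := (Nat.prime_of_mem_primeFactors hp).one_le
  rw [ph, Nat.cast_sub h3]
  simp

/-- the equidistribution of the `t` with `W t + k` prime, from the errors for the moduli `q ≤ W Dm` -/
theorem dsb_gen {w Dm W k T N Q : ℕ} {E : ℕ → ℝ} (hW : 1 ≤ W) (hWw : ∀ p : ℕ, p.Prime → p ∣ W → p ≤ w) (hk : 3 ≤ k)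
    (hDk : Dm < k) (hkW : Nat.Coprime k W) (hN : k + W * T ≤ N + 1) (hQ : W * Dm ≤ Q) (hE0 : ∀ q, 0 ≤ E q)
    (hE : ∀ q : ℕ, 1 ≤ q → q ≤ Q → ∀ a : ℕ, Nat.Coprime a q → ∀ y : ℕ, 2 ≤ y → y ≤ N →
      |((((Icc 1 y).filter (fun p => p.Prime ∧ p ≡ a [MOD q])).card : ℕ) : ℝ) -
        Pool.Agent.H17.ZB.Li y / (Nat.totient q : ℝ)| ≤ E q) :
    Dst w Dm W (some k) ((range T).filter (fun t => (W * t + k).Prime))
      ((Pool.Agent.H17.ZB.Li ((k + W * T - 1 : ℕ) : ℝ) - Pool.Agent.H17.ZB.Li ((k - 1 : ℕ) : ℝ)) / (Nat.totient W : ℝ))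
      (fun d => 2 * E (W * d)) := by
  refine ⟨?_, fun d => mul_nonneg (by norm_num) (hE0 _), ?_, ?_⟩
  · refine div_nonneg ?_ (Nat.cast_nonneg _)
    have h1 := dsb_li (W := W) (k := k) (T := T) (x := ((k + W * T : ℕ) : ℝ)) hk (by linarith)
    refine le_trans ?_ h1
    refine div_nonneg (by positivity) (Real.log_nonneg ?_)
    have : 1 ≤ k + W * T := by omega
    exact_mod_cast this
  · intro t ht p hp _ hpD j hj hd
    have hj' : k = j := by simpa using hj
    subst hj'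
    rw [mem_filter, mem_range] at ht
    have h1 := (Nat.prime_dvd_prime_iff_eq hp ht.2).1 hd
    have h2 : k ≤ W * t + k := Nat.le_add_left _ _
    omega
  · intro d hdsq hdD hdw a ha
    have hWd : Nat.Coprime W d := by
      rw [Nat.coprime_comm]
      refine Nat.coprime_of_dvd fun p hp hpd hpW => ?_
      have h1 := hdw p hp hpd
      have h2 := hWw p hp hpW
      omega
    have hd1 : 1 ≤ d := Nat.pos_of_ne_zero hdsq.ne_zero
    rw [Ph_some k hdsq]
    refine dsb_one hW hk hN hWd fun y hy hyN => ?_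
    refine hE (W * d) (Nat.mul_pos hW hd1) ((Nat.mul_le_mul_left W hdD).trans hQ) _ ?_ y hy hyN
    refine Nat.Coprime.mul_right ?_ ?_
    · have h3 : Nat.Coprime (W * a + k) W ↔ Nat.Coprime k W := by
        rw [Nat.coprime_mul_left_add_left]
      exact h3.2 hkW
    · refine Nat.coprime_of_dvd fun p hp h1 h2 => ?_
      exact ha p hp h2 k (by simp) h1

theorem WW_pr (y : ℕ) : ∀ p : ℕ, p.Prime → p ∣ Pool.Agent.H17.WW y → p ≤ y := by
  intro p hp h
  rw [Pool.Agent.H17.WW, hp.prime.dvd_finsetProd_iff] at h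
  obtain ⟨q, hq, hpq⟩ := h
  have h1 := mem_PP.1 hq
  rw [(Nat.prime_dvd_prime_iff_eq hp h1.2).1 hpq]
  exact h1.1

theorem dsb_ev (A : ℕ) (X : ℝ) : ∃ x0 : ℝ, ∀ x : ℝ, x0 ≤ x → 2 ^ (A + 7) ≤ Real.log x ∧ Real.log x ≤ x ^ (1 / 16 : ℝ) / 2 ∧
    Real.log x ≤ x / 8 ∧ 24 ≤ x ∧ X ≤ x := by
  have h1 : ∀ᶠ x : ℝ in Filter.atTop, (2 : ℝ) ^ (A + 7) ≤ Real.log x :=
    Real.tendsto_log_atTop.eventually_ge_atTop _
  have h2 : ∀ᶠ x : ℝ in Filter.atTop, ‖Real.log x‖ ≤ 1 / 2 * ‖x ^ (1 / 16 : ℝ)‖ :=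
    (isLittleO_log_rpow_atTop (by norm_num : (0 : ℝ) < 1 / 16)).bound (by norm_num)
  have h3 : ∀ᶠ x : ℝ in Filter.atTop, ‖Real.log x‖ ≤ 1 / 8 * ‖x ^ (1 : ℝ)‖ :=
    (isLittleO_log_rpow_atTop (by norm_num : (0 : ℝ) < 1)).bound (by norm_num)
  obtain ⟨x0, hx0⟩ := Filter.eventually_atTop.mp
    (h1.and (h2.and (h3.and ((Filter.eventually_ge_atTop (24 : ℝ)).and (Filter.eventually_ge_atTop X)))))
  refine ⟨x0, fun x hx => ?_⟩
  obtain ⟨g1, g2, g3, g4, g5⟩ := hx0 x hx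
  have hx0 : (0 : ℝ) ≤ x := by linarith
  rw [Real.norm_of_nonneg (Real.rpow_nonneg hx0 _)] at g2 g3
  rw [Real.rpow_one] at g3
  refine ⟨g1, ?_, ?_, g4, g5⟩
  · have := Real.le_norm_self (Real.log x)
    linarith
  · have := Real.le_norm_self (Real.log x)
    linarith

open Classical in
theorem dsB (C : ℝ) (hC : 1 ≤ C) (A : ℕ) : ∃ x0 : ℝ, ∀ x : ℝ, x0 ≤ x → ∀ k : ℕ, x / 3 ≤ (k : ℝ) → (k : ℝ) ≤ 2 * x / 3 →
    Nat.Coprime k (WW (yy x)) → ∃ (Y : ℝ) (E : ℕ → ℝ),
    Dst (yy x) ⌊x ^ (3 / 8 : ℝ)⌋₊ (primorial (yy x)) (some k)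
      ((range (To x)).filter (fun t => (primorial (yy x) * t + k).Prime)) Y E ∧
    (To x : ℝ) * Vo x ≤ Y ∧ ErS ⌊x ^ (3 / 8 : ℝ)⌋₊ C E ≤ Y / Real.log x ^ A := by
  obtain ⟨N0, hN0⟩ := BVL.bv_pi (ε := 1 / 16) (by norm_num) ((A + 3 : ℕ) : ℝ) C
  obtain ⟨x0, hx0⟩ := dsb_ev A ((N0 : ℝ) + 1)
  refine ⟨x0, fun x hx k hk1 hk2 hkW => ?_⟩
  obtain ⟨hA, hL16, hL8, hx24, hxN0⟩ := hx0 x hx
  set L := Real.log x with hLdef
  have hL128 : (128 : ℝ) ≤ L := by
    refine le_trans ?_ hA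
    have h1 : (2 : ℝ) ^ 7 ≤ 2 ^ (A + 7) := pow_le_pow_right₀ (by norm_num) (by omega)
    norm_num at h1 ⊢
    exact h1
  set W := Pool.Agent.H17.WW (yy x) with hWdef
  have hWprim : primorial (yy x) = W := rfl
  rw [hWprim]
  have hW0 : 0 < W := WW_pos (yy x)
  have hW1 : (1 : ℝ) ≤ (W : ℝ) := by exact_mod_cast hW0
  have hWs : (W : ℝ) ≤ Real.sqrt L := by
    have h4 := WW_yy_pow_le (x := x) (by linarith)
    exact (le_self_pow₀ hW1 (by norm_num)).trans h4
  have hsq : Real.sqrt L ≤ L := by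
    rw [Real.sqrt_le_left (by linarith)]
    exact le_self_pow₀ (by linarith) (by norm_num)
  have hWL : (W : ℝ) ≤ L := hWs.trans hsq
  set N := ⌊x⌋₊ with hNdef
  have hNx : (N : ℝ) ≤ x := Nat.floor_le (by linarith)
  have hNx2 : x - 1 ≤ (N : ℝ) := by
    have := Nat.lt_floor_add_one x
    linarith
  have hNN0 : N0 ≤ N := by
    have h1 : (N0 : ℝ) ≤ N := by linarith
    exact_mod_cast h1
  obtain ⟨E, hE0, hE1, hE2⟩ := hN0 N hNN0
  -- sizes
  have hx38 : x ^ (3 / 8 : ℝ) * L ≤ x ^ (7 / 16 : ℝ) / 2 := by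
    have h1 : x ^ (7 / 16 : ℝ) = x ^ (3 / 8 : ℝ) * x ^ (1 / 16 : ℝ) := by
      rw [← Real.rpow_add (by linarith)]
      norm_num
    rw [h1, mul_div_assoc]
    exact mul_le_mul_of_nonneg_left hL16 (Real.rpow_nonneg (by linarith) _)
  have hx38p : 0 ≤ x ^ (3 / 8 : ℝ) := Real.rpow_nonneg (by linarith) _
  have hx716 : x ^ (7 / 16 : ℝ) ≤ x := by
    calc x ^ (7 / 16 : ℝ) ≤ x ^ (1 : ℝ) := Real.rpow_le_rpow_of_exponent_le (by linarith) (by norm_num)
      _ = x := Real.rpow_one x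
  set Dm := ⌊x ^ (3 / 8 : ℝ)⌋₊ with hDm
  have hDmx : (Dm : ℝ) ≤ x ^ (3 / 8 : ℝ) := Nat.floor_le hx38p
  have hDk : Dm < k := by
    have h1 : (Dm : ℝ) < k := by
      have h2 : x ^ (3 / 8 : ℝ) * 128 ≤ x ^ (3 / 8 : ℝ) * L := mul_le_mul_of_nonneg_left hL128 hx38p
      linarith
    exact_mod_cast h1
  have hk3 : 3 ≤ k := by
    have h1 : (3 : ℝ) ≤ k := by linarith
    exact_mod_cast h1
  have hNhalf : x / 2 ≤ (N : ℝ) := by linarith
  have hQ : (W : ℝ) * Dm ≤ (N : ℝ) ^ (1 / 2 - 1 / 16 : ℝ) := by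
    have h1 : (W : ℝ) * Dm ≤ x ^ (7 / 16 : ℝ) / 2 := by
      calc (W : ℝ) * Dm ≤ L * x ^ (3 / 8 : ℝ) := mul_le_mul hWL hDmx (Nat.cast_nonneg _) (by linarith)
        _ = x ^ (3 / 8 : ℝ) * L := mul_comm _ _
        _ ≤ _ := hx38
    have h2 : x ^ (7 / 16 : ℝ) / 2 ≤ (x / 2) ^ (7 / 16 : ℝ) := by
      rw [Real.div_rpow (by linarith) (by norm_num)]
      have h3 : (2 : ℝ) ^ (7 / 16 : ℝ) ≤ 2 := by
        calc (2 : ℝ) ^ (7 / 16 : ℝ) ≤ (2 : ℝ) ^ (1 : ℝ) := Real.rpow_le_rpow_of_exponent_le (by norm_num) (by norm_num)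
          _ = 2 := Real.rpow_one 2
      have h4 : (0 : ℝ) < 2 ^ (7 / 16 : ℝ) := Real.rpow_pos_of_pos (by norm_num) _
      have h5 : (0 : ℝ) ≤ x ^ (7 / 16 : ℝ) := Real.rpow_nonneg (by linarith) _
      exact div_le_div_of_nonneg_left h5 h4 h3
    have h6 : (x / 2) ^ (7 / 16 : ℝ) ≤ (N : ℝ) ^ (7 / 16 : ℝ) :=
      Real.rpow_le_rpow (by linarith) hNhalf (by norm_num)
    have h7 : (1 / 2 - 1 / 16 : ℝ) = 7 / 16 := by norm_num
    rw [h7]
    linarith
  have hQn : W * Dm ≤ ⌊(N : ℝ) ^ (1 / 2 - 1 / 16 : ℝ)⌋₊ := by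
    apply Nat.le_floor
    push_cast
    exact hQ
  have hT : (To x : ℝ) ≤ x / (4 * (W : ℝ)) := Nat.floor_le (by positivity)
  have hT2 : x / (4 * (W : ℝ)) < (To x : ℝ) + 1 := Nat.lt_floor_add_one _
  have hWT : (W : ℝ) * To x ≤ x / 4 := by
    calc (W : ℝ) * To x ≤ W * (x / (4 * (W : ℝ))) := mul_le_mul_of_nonneg_left hT (by linarith)
      _ = x / 4 := by field_simp
  have hWT2 : x / 8 ≤ (W : ℝ) * To x := by
    have h1 : W * (x / (4 * (W : ℝ))) ≤ W * ((To x : ℝ) + 1) := mul_le_mul_of_nonneg_left hT2.le (by linarith)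
    have h2 : W * (x / (4 * (W : ℝ))) = x / 4 := by field_simp
    rw [h2] at h1
    linarith
  have hkN : k + W * To x ≤ N + 1 := by
    have h1 : ((k + W * To x : ℕ) : ℝ) ≤ x := by
      push_cast
      linarith
    have h2 := Nat.le_floor h1
    omega
  have hD := dsb_gen (w := yy x) (Dm := Dm) (W := W) (k := k) (T := To x) (N := N)
    (Q := ⌊(N : ℝ) ^ (1 / 2 - 1 / 16 : ℝ)⌋₊) (E := E) hW0 (WW_pr (yy x)) hk3 hDk hkW hkN hQn hE0
    (fun q hq1 hqQ a ha y hy hyN => hE1 q hq1 ((Nat.le_floor_iff (Real.rpow_nonneg (Nat.cast_nonneg _) _)).1 hqQ) a ha y hy hyN)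
  set Y := (Pool.Agent.H17.ZB.Li ((k + W * To x - 1 : ℕ) : ℝ) - Pool.Agent.H17.ZB.Li ((k - 1 : ℕ) : ℝ)) / (Nat.totient W : ℝ)
    with hY
  have hφ : (0 : ℝ) < (Nat.totient W : ℝ) := by exact_mod_cast Nat.totient_pos.2 hW0
  have hφW : (Nat.totient W : ℝ) ≤ W := by exact_mod_cast Nat.totient_le W
  have hL0 : 0 < L := by linarith
  have hYlow : (To x : ℝ) * Vo x ≤ Y := by
    have h1 := dsb_li (W := W) (k := k) (T := To x) (x := x) hk3 (by
      push_cast
      linarith)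
    rw [hY, Vo, le_div_iff₀ hφ]
    refine le_trans (le_of_eq ?_) h1
    rw [← hWdef, ← hLdef]
    field_simp
  refine ⟨Y, fun d => 2 * E (W * d), hD, hYlow, ?_⟩
  -- the errors
  have hErS : ErS Dm C (fun d => 2 * E (W * d)) ≤ 2 * ((N : ℝ) / Real.log N ^ (A + 3)) := by
    have h1 : ∀ d ∈ (Icc 1 Dm).filter (fun d => Squarefree d), C ^ d.primeFactors.card * (2 * E (W * d)) ≤
        2 * (|C| ^ (W * d).primeFactors.card * E (W * d)) := by
      intro d hd
      rw [mem_filter, mem_Icc] at hd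
      have h2 : d.primeFactors.card ≤ (W * d).primeFactors.card :=
        card_le_card (Nat.primeFactors_mono (Dvd.intro_left _ rfl) (mul_ne_zero (by omega) (by omega)))
      have h3 : C ^ d.primeFactors.card ≤ |C| ^ (W * d).primeFactors.card := by
        rw [abs_of_nonneg (by linarith)]
        exact pow_le_pow_right₀ hC h2
      have h4 := mul_le_mul_of_nonneg_right h3 (hE0 (W * d))
      linarith
    rw [ErS]
    refine (sum_le_sum h1).trans ?_
    rw [← mul_sum]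
    refine mul_le_mul_of_nonneg_left ?_ (by norm_num)
    have h5 : ∑ d ∈ (Icc 1 Dm).filter (fun d => Squarefree d), |C| ^ (W * d).primeFactors.card * E (W * d) =
        ∑ q ∈ ((Icc 1 Dm).filter (fun d => Squarefree d)).image (fun d => W * d), |C| ^ q.primeFactors.card * E q := by
      rw [sum_image]
      intro a _ b _ hab
      exact Nat.eq_of_mul_eq_mul_left hW0 hab
    rw [h5]
    have h6 : ((A + 3 : ℕ) : ℝ) = ((A : ℝ) + 3) := by push_cast; ring
    rw [Real.rpow_natCast] at hE2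
    refine le_trans (sum_le_sum_of_subset_of_nonneg ?_ ?_) hE2
    · intro q hq
      rw [mem_image] at hq
      obtain ⟨d, hd, rfl⟩ := hq
      rw [mem_filter, mem_Icc] at hd
      rw [mem_Icc]
      exact ⟨Nat.mul_pos hW0 hd.1.1, (Nat.mul_le_mul_left W hd.1.2).trans hQn⟩
    · intro q _ _
      exact mul_nonneg (pow_nonneg (abs_nonneg _) _) (hE0 q)
  refine hErS.trans ?_
  have hlogN : L / 2 ≤ Real.log N := by
    have h1 : Real.log (x / 2) ≤ Real.log N := Real.log_le_log (by linarith) hNhalf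
    rw [Real.log_div (by linarith) (by norm_num)] at h1
    have h2 : Real.log 2 ≤ 1 := by
      have := Real.log_two_lt_d9
      linarith
    linarith
  have hlogN0 : 0 < Real.log N := by linarith
  have hY2 : x / (8 * L * L) ≤ Y := by
    refine le_trans ?_ hYlow
    rw [Vo, ← hWdef, ← hLdef]
    have h1 : (To x : ℝ) * ((W : ℝ) / ((Nat.totient W : ℝ) * L)) = (W * To x) / ((Nat.totient W : ℝ) * L) := by ring
    rw [h1, div_le_div_iff₀ (by positivity) (by positivity)]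
    have h2 : (Nat.totient W : ℝ) ≤ L := hφW.trans hWL
    calc x * ((Nat.totient W : ℝ) * L) ≤ x * (L * L) := by
          refine mul_le_mul_of_nonneg_left (mul_le_mul_of_nonneg_right h2 hL0.le) (by linarith)
      _ = x / 8 * (8 * L * L) := by ring
      _ ≤ W * To x * (8 * L * L) := mul_le_mul_of_nonneg_right hWT2 (by positivity)
  have hY3 : x / (8 * L * L) / L ^ A ≤ Y / L ^ A := by gcongr
  refine le_trans ?_ hY3
  have h8 : (N : ℝ) / Real.log N ^ (A + 3) ≤ x / (L / 2) ^ (A + 3) := by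
    gcongr
  have h9 : 2 * (x / (L / 2) ^ (A + 3)) ≤ x / (8 * L * L) / L ^ A := by
    rw [div_pow, div_div_eq_mul_div, div_div, ← mul_div_assoc, div_le_div_iff₀ (by positivity) (by positivity)]
    have h10 : x * L ^ (A + 3) = (x * L ^ (A + 2)) * L := by ring
    have h11 : 2 * (x * 2 ^ (A + 3)) * (8 * L * L * L ^ A) = (x * L ^ (A + 2)) * 2 ^ (A + 7) := by ring
    rw [h10, h11]
    exact mul_le_mul_of_nonneg_left hA (by positivity)
  linarith

end H73PC
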