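import Pool.Agent.H73.PC.Df

/-!
# ROW Pb: `Ph` of numbers with large prime factors, and the sum of the errors

* `phb`. PROOF. `B ∈ Ds i` is squarefree with all prime factors `> z` (`Good (primorial z)`) and `B ≤ z^M`, so it has at most `M` prime factors and `1/B ≤ 1/Ph c0 B ≤ (1 + 1/z)^M/B` (`p/(p-1) ≤ (z+1)/z`).
So `∏ 1/B_i ≤ ∏ 1/Ph(B_i) ≤ (1 + 1/z)^(jM) ∏ 1/B_i ≤ (1 + 2 j M/z) ∏ 1/B_i` (`e^u ≤ 1 + 2u` for `0 ≤ u ≤ 1`). `Mm Ds f 1 = ∑_{B ∈ PC Ds} ∏ f_i(B_i)/B_i`, and `∑_{B ∈ PC} ∏ |f_i(B_i)|/B_i ≤ ∏_i ∑_B |f_i(B)|/B`.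
* `erg`. PROOF. For `B ∈ PC Ds`, `S ∈ Sb w z e` the number `d = (∏ B_i) ∏ S` is squarefree, `≤ Dm`; every prime factor of `d` divides exactly one of the `B_i` or belongs to `S`, and these data determine `(B, S)` (the `B_i` are
squarefree): so at most `(j+1)^ω(d)` pairs `(B, S)` give the same `d`. The weight is `∏ |f_i(B_i)| j^|S| ≤ Fc^j C0^(∑ ω(B_i)) j^|S| ≤ Fc^j (C0 (j+1))^ω(d)` (`ω(d) = ∑ ω(B_i) + |S|`, `C0 ≥ 1`).
(To count: the map `(B, S) ↦ (d, φ)`, `φ : d.primeFactors → Option ι`, is injective; or group by `Finset.sum_fiberwise`.)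
-/

open Finset EG H69PG

namespace H73PC

theorem Pb_big {z B p : ℕ} (h : Nat.Coprime B (primorial z)) (hp : p.Prime) (hpB : p ∣ B) : z < p := by
  by_contra hcon
  have h1 : p ∣ primorial z := by
    unfold primorial
    refine Finset.dvd_prod_of_mem (fun q => q) ?_
    rw [Finset.mem_filter, Finset.mem_range]
    exact ⟨by omega, hp⟩
  exact Nat.Prime.one_lt hp |>.ne' (Nat.eq_one_of_dvd_coprimes h hpB h1)

theorem Pb_omega {z M B : ℕ} (hz : 1 ≤ z) (hB : Squarefree B) (hc : Nat.Coprime B (primorial z))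
    (hM : B ≤ z ^ M) : B.primeFactors.card ≤ M := by
  have h1 : (z + 1) ^ B.primeFactors.card ≤ ∏ p ∈ B.primeFactors, p := by
    rw [← Finset.prod_const]
    refine Finset.prod_le_prod' fun p hp => ?_
    exact Pb_big hc (Nat.prime_of_mem_primeFactors hp) (Nat.dvd_of_mem_primeFactors hp)
  rw [Nat.prod_primeFactors_of_squarefree hB] at h1
  have h2 : (z + 1) ^ B.primeFactors.card ≤ (z + 1) ^ M :=
    (h1.trans hM).trans (Nat.pow_le_pow_left (Nat.le_succ z) M)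
  exact (Nat.pow_le_pow_iff_right (by omega)).1 h2

theorem Pb_ph (c0 : Option ℕ) {z p : ℕ} (hz : 1 ≤ z) (hp : z < p) :
    0 < ph c0 p ∧ ph c0 p ≤ p ∧ (p : ℝ) ≤ (1 + 1 / (z : ℝ)) * ph c0 p := by
  have hz1 : (1 : ℝ) ≤ z := by exact_mod_cast hz
  have hp1 : (z : ℝ) + 1 ≤ p := by exact_mod_cast hp
  have hz0 : (0 : ℝ) < z := by linarith
  have hz2 : (0 : ℝ) < 1 / (z : ℝ) := by positivity
  unfold ph
  split_ifs
  · refine ⟨by linarith, le_refl _, ?_⟩
    nlinarith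
  · refine ⟨by linarith, by linarith, ?_⟩
    have h1 : 1 ≤ 1 / (z : ℝ) * ((p : ℝ) - 1) := by
      rw [one_div, inv_mul_eq_div, le_div_iff₀ hz0]
      linarith
    linarith

theorem Pb_Ph (c0 : Option ℕ) {z M B : ℕ} (hz : 1 ≤ z) (hB : Squarefree B)
    (hc : Nat.Coprime B (primorial z)) (hM : B ≤ z ^ M) :
    0 < Ph c0 B ∧ 1 ≤ (B : ℝ) / Ph c0 B ∧ (B : ℝ) / Ph c0 B ≤ (1 + 1 / (z : ℝ)) ^ M := by
  have hz1 : (1 : ℝ) ≤ z := by exact_mod_cast hz
  have hz2 : (0 : ℝ) < 1 / (z : ℝ) := by positivity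
  have hpr : ∀ p ∈ B.primeFactors, z < p := fun p hp =>
    Pb_big hc (Nat.prime_of_mem_primeFactors hp) (Nat.dvd_of_mem_primeFactors hp)
  have hBe : (B : ℝ) = ∏ p ∈ B.primeFactors, (p : ℝ) := by
    rw [← Nat.cast_prod, Nat.prod_primeFactors_of_squarefree hB]
  have hpos : 0 < Ph c0 B := Finset.prod_pos fun p hp => (Pb_ph c0 hz (hpr p hp)).1
  refine ⟨hpos, ?_, ?_⟩
  · rw [le_div_iff₀ hpos, one_mul, hBe]
    unfold Ph
    exact Finset.prod_le_prod (fun p hp => (Pb_ph c0 hz (hpr p hp)).1.le)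
      fun p hp => (Pb_ph c0 hz (hpr p hp)).2.1
  · rw [div_le_iff₀ hpos]
    have h1 : (B : ℝ) ≤ (1 + 1 / (z : ℝ)) ^ B.primeFactors.card * Ph c0 B := by
      rw [hBe]
      unfold Ph
      rw [← Finset.prod_const, ← Finset.prod_mul_distrib]
      exact Finset.prod_le_prod (fun p _ => Nat.cast_nonneg _)
        fun p hp => (Pb_ph c0 hz (hpr p hp)).2.2
    refine h1.trans (mul_le_mul_of_nonneg_right ?_ hpos.le)
    exact pow_le_pow_right₀ (by linarith) (Pb_omega hz hB hc hM)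

theorem Pb_exp {z n : ℕ} (hz : 1 ≤ z) (h : n ≤ z) :
    (1 + 1 / (z : ℝ)) ^ n ≤ 1 + 2 * (n : ℝ) / z := by
  have hz0 : (0 : ℝ) < z := by exact_mod_cast hz
  have hn : (n : ℝ) ≤ z := by exact_mod_cast h
  have hu0 : 0 ≤ (n : ℝ) / z := by positivity
  have hu1 : (n : ℝ) / z ≤ 1 := by
    rw [div_le_one hz0]
    exact hn
  have h1 : 1 + 1 / (z : ℝ) ≤ Real.exp (1 / z) := by
    have := Real.add_one_le_exp (1 / (z : ℝ))
    linarith
  have h2 : (1 + 1 / (z : ℝ)) ^ n ≤ Real.exp ((n : ℝ) / z) := by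
    calc (1 + 1 / (z : ℝ)) ^ n ≤ Real.exp (1 / z) ^ n := pow_le_pow_left₀ (by positivity) h1 n
      _ = Real.exp ((n : ℝ) / z) := by
          rw [← Real.exp_nat_mul]
          congr 1
          ring
  have h3 := Real.abs_exp_sub_one_sub_id_le (x := (n : ℝ) / z) (by
    rw [abs_of_nonneg hu0]
    exact hu1)
  have h4 := (abs_le.1 h3).2
  have h5 : ((n : ℝ) / z) ^ 2 ≤ (n : ℝ) / z := by nlinarith
  have h6 : 2 * (n : ℝ) / z = (n : ℝ) / z + (n : ℝ) / z := by ring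
  rw [h6]
  linarith

theorem Pb_PC {ι : Type} [Fintype ι] [DecidableEq ι] {Ds : ι → Finset ℕ} {f : ι → ℕ → ℝ} {A1 : ℝ}
    (hA : ∀ i, ∑ B ∈ Ds i, |f i B| / (B : ℝ) ≤ A1) :
    ∑ B ∈ PC Ds, ∏ i, (|f i (B i)| / (B i : ℝ)) ≤ A1 ^ Fintype.card ι := by
  have h1 : ∑ B ∈ PC Ds, ∏ i, (|f i (B i)| / (B i : ℝ)) ≤
      ∑ B ∈ Fintype.piFinset Ds, ∏ i, (|f i (B i)| / (B i : ℝ)) := by
    unfold PC
    exact Finset.sum_le_sum_of_subset_of_nonneg (Finset.filter_subset _ _)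
      fun B _ _ => Finset.prod_nonneg fun i _ => div_nonneg (abs_nonneg _) (Nat.cast_nonneg _)
  refine h1.trans ?_
  rw [← Finset.prod_univ_sum (t := Ds) (f := fun i B => |f i B| / (B : ℝ))]
  calc ∏ i, ∑ B ∈ Ds i, |f i B| / (B : ℝ) ≤ ∏ _i : ι, A1 :=
        Finset.prod_le_prod (fun i _ => Finset.sum_nonneg fun B _ =>
          div_nonneg (abs_nonneg _) (Nat.cast_nonneg _)) fun i _ => hA i
    _ = A1 ^ Fintype.card ι := by
        rw [Finset.prod_const, Finset.card_univ]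

theorem phb {ι : Type} [Fintype ι] [DecidableEq ι] {z M : ℕ} (hz : 1 ≤ z) (hzM : Fintype.card ι * M ≤ z) (c0 : Option ℕ)
    {Ds : ι → Finset ℕ} {f : ι → ℕ → ℝ} {A1 : ℝ} (hG : ∀ i, Good (primorial z) (Ds i)) (hM : ∀ i, ∀ B ∈ Ds i, B ≤ z ^ M)
    (hA : ∀ i, ∑ B ∈ Ds i, |f i B| / (B : ℝ) ≤ A1) :
    |∑ B ∈ PC Ds, ∏ i, (f i (B i) / Ph c0 (B i)) - Mm Ds f 1| ≤
        2 * ((Fintype.card ι : ℝ) * M) / z * A1 ^ Fintype.card ι ∧
      ∑ B ∈ PC Ds, ∏ i, (|f i (B i)| / Ph c0 (B i)) ≤ 3 * A1 ^ Fintype.card ι := by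
  have hz0 : (0 : ℝ) < z := by exact_mod_cast hz
  have hz2 : (0 : ℝ) < 1 / (z : ℝ) := by positivity
  have hPC := Pb_PC hA
  have hmem : ∀ B ∈ PC Ds, ∀ i, 0 < (B i : ℝ) ∧ 0 < Ph c0 (B i) ∧ 1 ≤ (B i : ℝ) / Ph c0 (B i) ∧
      (B i : ℝ) / Ph c0 (B i) ≤ (1 + 1 / (z : ℝ)) ^ M := by
    intro B hB i
    unfold PC at hB
    rw [Finset.mem_filter, Fintype.mem_piFinset] at hB
    have h1 := hG i (B i) (hB.1 i)
    have h2 := Pb_Ph c0 hz h1.1 h1.2 (hM i _ (hB.1 i))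
    refine ⟨?_, h2⟩
    have : B i ≠ 0 := h1.1.ne_zero
    exact_mod_cast Nat.pos_of_ne_zero this
  have hg : ∀ B ∈ PC Ds, 1 ≤ ∏ i, ((B i : ℝ) / Ph c0 (B i)) ∧
      ∏ i, ((B i : ℝ) / Ph c0 (B i)) ≤ 1 + 2 * ((Fintype.card ι : ℝ) * M) / z := by
    intro B hB
    constructor
    · calc (1 : ℝ) = ∏ _i : ι, (1 : ℝ) := by rw [Finset.prod_const_one]
        _ ≤ _ := Finset.prod_le_prod (fun _ _ => zero_le_one) fun i _ => (hmem B hB i).2.2.1
    · calc ∏ i, ((B i : ℝ) / Ph c0 (B i)) ≤ ∏ _i : ι, (1 + 1 / (z : ℝ)) ^ M :=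
            Finset.prod_le_prod (fun i _ => le_trans zero_le_one (hmem B hB i).2.2.1)
              fun i _ => (hmem B hB i).2.2.2
        _ = (1 + 1 / (z : ℝ)) ^ (Fintype.card ι * M) := by
            rw [Finset.prod_const, Finset.card_univ, ← pow_mul, mul_comm]
        _ ≤ 1 + 2 * ((Fintype.card ι * M : ℕ) : ℝ) / z := Pb_exp hz hzM
        _ = _ := by push_cast; rfl
  have hfac : ∀ (F : ι → ℕ → ℝ), ∀ B ∈ PC Ds, ∏ i, (F i (B i) / Ph c0 (B i)) =
      (∏ i, (F i (B i) / (B i : ℝ))) * ∏ i, ((B i : ℝ) / Ph c0 (B i)) := by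
    intro F B hB
    rw [← Finset.prod_mul_distrib]
    refine Finset.prod_congr rfl fun i _ => ?_
    have h1 := (hmem B hB i).1
    have h2 := (hmem B hB i).2.1
    field_simp
  have hδ : 0 ≤ 2 * ((Fintype.card ι : ℝ) * M) / z := by positivity
  have hδ2 : 2 * ((Fintype.card ι : ℝ) * M) / z ≤ 2 := by
    rw [div_le_iff₀ hz0]
    have : ((Fintype.card ι * M : ℕ) : ℝ) ≤ z := by exact_mod_cast hzM
    push_cast at this
    linarith
  have hnn : ∀ B : ι → ℕ, 0 ≤ ∏ i, (|f i (B i)| / (B i : ℝ)) := fun B =>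
    Finset.prod_nonneg fun i _ => div_nonneg (abs_nonneg _) (Nat.cast_nonneg _)
  constructor
  · have hMm : Mm Ds f 1 = ∑ B ∈ PC Ds, ∏ i, (f i (B i) / (B i : ℝ)) := by
      unfold Mm PC
      refine Finset.sum_congr ?_ fun _ _ => rfl
      ext B
      simp only [Finset.mem_filter, Nat.coprime_one_right_eq_true, and_congr_right_iff]
      intro _
      constructor
      · exact fun hh => hh.1
      · exact fun hh => ⟨hh, fun _ => trivial⟩
    rw [hMm, ← Finset.sum_sub_distrib]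
    refine (Finset.abs_sum_le_sum_abs _ _).trans ?_
    have h1 : ∀ B ∈ PC Ds, |∏ i, (f i (B i) / Ph c0 (B i)) - ∏ i, (f i (B i) / (B i : ℝ))| ≤
        2 * ((Fintype.card ι : ℝ) * M) / z * ∏ i, (|f i (B i)| / (B i : ℝ)) := by
      intro B hB
      rw [hfac f B hB]
      have e1 : (∏ i, (f i (B i) / (B i : ℝ))) * ∏ i, ((B i : ℝ) / Ph c0 (B i)) -
          ∏ i, (f i (B i) / (B i : ℝ)) =
          (∏ i, ((B i : ℝ) / Ph c0 (B i)) - 1) * ∏ i, (f i (B i) / (B i : ℝ)) := by ring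
      have e2 : |∏ i, (f i (B i) / (B i : ℝ))| = ∏ i, (|f i (B i)| / (B i : ℝ)) := by
        rw [Finset.abs_prod]
        refine Finset.prod_congr rfl fun i _ => ?_
        rw [abs_div, Nat.abs_cast]
      rw [e1, abs_mul, e2]
      refine mul_le_mul_of_nonneg_right ?_ (hnn B)
      obtain ⟨g1, g2⟩ := hg B hB
      rw [abs_of_nonneg (by linarith)]
      linarith
    refine (Finset.sum_le_sum h1).trans ?_
    rw [← Finset.mul_sum]
    exact mul_le_mul_of_nonneg_left hPC hδ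
  · have h1 : ∀ B ∈ PC Ds, ∏ i, (|f i (B i)| / Ph c0 (B i)) ≤
        3 * ∏ i, (|f i (B i)| / (B i : ℝ)) := by
      intro B hB
      rw [hfac (fun i B => |f i B|) B hB, mul_comm]
      refine mul_le_mul_of_nonneg_right ?_ (hnn B)
      obtain ⟨g1, g2⟩ := hg B hB
      linarith
    refine (Finset.sum_le_sum h1).trans ?_
    rw [← Finset.mul_sum]
    exact mul_le_mul_of_nonneg_left hPC (by norm_num)

theorem Pb_Sb {w z e : ℕ} {S : Finset ℕ} (h : S ∈ Sb w z e) :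
    (∀ p ∈ S, p.Prime ∧ p ≤ z) ∧ ∏ p ∈ S, p ≤ z ^ e := by
  unfold Sb at h
  rw [Finset.mem_filter, Finset.mem_powerset] at h
  refine ⟨fun p hp => ?_, h.2⟩
  have h1 := h.1 hp
  unfold PK at h1
  rw [Finset.mem_filter, Finset.mem_Ioc] at h1
  exact ⟨h1.2, h1.1.2⟩

open ArithmeticFunction in
theorem Pb_fiber {ι : Type} [Fintype ι] [DecidableEq ι] {w z e : ℕ} (X : Finset ((ι → ℕ) × Finset ℕ))
    (hX : ∀ x ∈ X, x.2 ∈ Sb w z e) {d : ℕ} (hd : Squarefree d) :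
    (X.filter (fun x => (∏ i, x.1 i) * ∏ p ∈ x.2, p = d)).card ≤
      (Fintype.card ι + 1) ^ d.primeFactors.card := by
  classical
  let E := Fintype.equivFin (Option ι)
  let Φ : ((ι → ℕ) × Finset ℕ) → (Fin (Fintype.card (Option ι)) → ℕ) := fun x k =>
    Option.elim (E.symm k) (∏ p ∈ x.2, p) x.1
  have h1 := Finset.card_le_card_of_injOn (s := X.filter (fun x => (∏ i, x.1 i) * ∏ p ∈ x.2, p = d))
    (t := Nat.finMulAntidiag (Fintype.card (Option ι)) d) Φ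
    (by
      intro x hx
      have hx' := (Finset.mem_filter.1 (Finset.mem_coe.1 hx)).2
      rw [Finset.mem_coe, Nat.mem_finMulAntidiag]
      refine ⟨?_, hd.ne_zero⟩
      have e1 : ∏ k, Φ x k = ∏ o : Option ι, Option.elim o (∏ p ∈ x.2, p) x.1 :=
        Equiv.prod_comp E.symm (fun o : Option ι => Option.elim o (∏ p ∈ x.2, p) x.1)
      rw [e1, Fintype.prod_option, mul_comm]
      exact hx')
    (by
      intro x hx y hy hxy
      have hx1 := hX x (Finset.mem_filter.1 (Finset.mem_coe.1 hx)).1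
      have hy1 := hX y (Finset.mem_filter.1 (Finset.mem_coe.1 hy)).1
      have h2 : ∀ o : Option ι, Option.elim o (∏ p ∈ x.2, p) x.1 = Option.elim o (∏ p ∈ y.2, p) y.1 := by
        intro o
        have h3 := congrFun hxy (E o)
        simp only [Φ, Equiv.symm_apply_apply] at h3
        exact h3
      have h4 : x.1 = y.1 := funext fun i => h2 (some i)
      have h5 : ∏ p ∈ x.2, p = ∏ p ∈ y.2, p := h2 none
      have h6 : x.2 = y.2 := by
        rw [← Nat.primeFactors_prod (s := x.2) (fun p hp => ((Pb_Sb hx1).1 p hp).1), h5,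
          Nat.primeFactors_prod (s := y.2) (fun p hp => ((Pb_Sb hy1).1 p hp).1)]
      exact Prod.ext h4 h6)
  rw [Nat.card_finMulAntidiag_of_squarefree hd, Fintype.card_option,
    ArithmeticFunction.cardDistinctFactors_apply, ← List.card_toFinset] at h1
  exact h1

theorem erg {ι : Type} [Fintype ι] [DecidableEq ι] {w z Dm e : ℕ} (hwz : w ≤ z) {Ds : ι → Finset ℕ} {f : ι → ℕ → ℝ} {Fc C0 : ℝ}
    (hFc : 1 ≤ Fc) (hC0 : 1 ≤ C0) (hG : ∀ i, Good (primorial z) (Ds i))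
    (hf : ∀ i, ∀ B ∈ Ds i, |f i B| ≤ Fc * C0 ^ B.primeFactors.card) {E : ℕ → ℝ} (hE : ∀ d, 0 ≤ E d)
    (hDm : ∀ B ∈ Fintype.piFinset Ds, (∏ i, B i) * z ^ e ≤ Dm) :
    ∑ B ∈ PC Ds, (∏ i, |f i (B i)|) * ∑ S ∈ Sb w z e, (Fintype.card ι : ℝ) ^ S.card * E ((∏ i, B i) * ∏ p ∈ S, p) ≤
      Fc ^ Fintype.card ι * ErS Dm (((Fintype.card ι : ℝ) + 1) ^ 2 * C0) E := by
  classical
  obtain ⟨j, hj⟩ : ∃ j : ℝ, j = (Fintype.card ι : ℝ) := ⟨_, rfl⟩
  have hj0 : 0 ≤ j := by rw [hj]; exact Nat.cast_nonneg _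
  rw [← hj]
  let dd : (ι → ℕ) × Finset ℕ → ℕ := fun x => (∏ i, x.1 i) * ∏ p ∈ x.2, p
  let Wt : ℕ → ℝ := fun d => Fc ^ Fintype.card ι * ((C0 * (j + 1)) ^ d.primeFactors.card * E d)
  have hWt0 : ∀ d, 0 ≤ Wt d := fun d => by
    have := hE d
    show 0 ≤ Fc ^ Fintype.card ι * ((C0 * (j + 1)) ^ d.primeFactors.card * E d)
    positivity
  -- facts on the members
  have hfac : ∀ x ∈ PC Ds ×ˢ Sb w z e, Squarefree (dd x) ∧ dd x ≤ Dm ∧
      ∑ i, (x.1 i).primeFactors.card ≤ (dd x).primeFactors.card ∧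
      x.2.card ≤ (dd x).primeFactors.card := by
    intro x hx
    rw [Finset.mem_product] at hx
    obtain ⟨hB, hS⟩ := hx
    unfold PC at hB
    rw [Finset.mem_filter] at hB
    obtain ⟨hB1, hB2⟩ := hB
    have hB1' := Fintype.mem_piFinset.1 hB1
    obtain ⟨hS1, hS2⟩ := Pb_Sb hS
    have hsB : Squarefree (∏ i, x.1 i) := by
      refine Finset.squarefree_prod_of_pairwise_isCoprime ?_ fun i _ => (hG i _ (hB1' i)).1
      intro a _ b _ hab
      show IsRelPrime (x.1 a) (x.1 b)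
      rw [← Nat.coprime_iff_isRelPrime]
      exact hB2 a b hab
    have hsS : Squarefree (∏ p ∈ x.2, p) := by
      refine Finset.squarefree_prod_of_pairwise_isCoprime ?_ fun p hp => (hS1 p hp).1.squarefree
      intro p hp q hq hpq
      show IsRelPrime p q
      rw [← Nat.coprime_iff_isRelPrime]
      exact (Nat.coprime_primes (hS1 p hp).1 (hS1 q hq).1).2 hpq
    have hcop : Nat.Coprime (∏ i, x.1 i) (∏ p ∈ x.2, p) := by
      refine Nat.Coprime.prod_left fun i _ => Nat.Coprime.prod_right fun p hp => ?_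
      rw [Nat.coprime_comm, Nat.Prime.coprime_iff_not_dvd (hS1 p hp).1]
      intro hdv
      have := Pb_big (hG i _ (hB1' i)).2 (hS1 p hp).1 hdv
      have := (hS1 p hp).2
      omega
    have hsq : Squarefree (dd x) := (Nat.squarefree_mul hcop).2 ⟨hsB, hsS⟩
    refine ⟨hsq, ?_, ?_, ?_⟩
    · exact (Nat.mul_le_mul_left _ hS2).trans (hDm x.1 hB1)
    · have h1 : ∑ i, (x.1 i).primeFactors.card = (univ.biUnion fun i => (x.1 i).primeFactors).card := by
        rw [Finset.card_biUnion]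
        intro a _ b _ hab
        exact (hB2 a b hab).disjoint_primeFactors
      rw [h1]
      refine Finset.card_le_card ?_
      intro p hp
      rw [Finset.mem_biUnion] at hp
      obtain ⟨i, _, hp⟩ := hp
      refine Nat.mem_primeFactors.2 ⟨Nat.prime_of_mem_primeFactors hp, ?_, hsq.ne_zero⟩
      exact ((Nat.dvd_of_mem_primeFactors hp).trans (Finset.dvd_prod_of_mem _ (Finset.mem_univ i))).trans
        (Nat.dvd_mul_right _ _)
    · refine Finset.card_le_card fun p hp => ?_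
      refine Nat.mem_primeFactors.2 ⟨(hS1 p hp).1, ?_, hsq.ne_zero⟩
      exact (Finset.dvd_prod_of_mem (fun q => q) hp).trans (Nat.dvd_mul_left _ _)
  -- the bound of one term
  have hterm : ∀ x ∈ PC Ds ×ˢ Sb w z e,
      (∏ i, |f i (x.1 i)|) * (j ^ x.2.card * E (dd x)) ≤ Wt (dd x) := by
    intro x hx
    obtain ⟨_, _, h3, h4⟩ := hfac x hx
    rw [Finset.mem_product] at hx
    obtain ⟨hB, hS⟩ := hx
    unfold PC at hB
    rw [Finset.mem_filter] at hB
    have hB1' := Fintype.mem_piFinset.1 hB.1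
    have h5 : ∏ i, |f i (x.1 i)| ≤ Fc ^ Fintype.card ι * C0 ^ (dd x).primeFactors.card := by
      calc ∏ i, |f i (x.1 i)| ≤ ∏ i, (Fc * C0 ^ (x.1 i).primeFactors.card) :=
            Finset.prod_le_prod (fun i _ => abs_nonneg _) fun i _ => hf i _ (hB1' i)
        _ = Fc ^ Fintype.card ι * C0 ^ ∑ i, (x.1 i).primeFactors.card := by
            rw [Finset.prod_mul_distrib, Finset.prod_const, Finset.card_univ, Finset.prod_pow_eq_pow_sum]
        _ ≤ _ := mul_le_mul_of_nonneg_left (pow_le_pow_right₀ hC0 h3) (by positivity)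
    have h6 : j ^ x.2.card ≤ (j + 1) ^ (dd x).primeFactors.card :=
      (pow_le_pow_left₀ hj0 (by linarith) _).trans (pow_le_pow_right₀ (by linarith) h4)
    have h7 := hE (dd x)
    calc (∏ i, |f i (x.1 i)|) * (j ^ x.2.card * E (dd x))
        ≤ (Fc ^ Fintype.card ι * C0 ^ (dd x).primeFactors.card) *
          ((j + 1) ^ (dd x).primeFactors.card * E (dd x)) :=
          mul_le_mul h5 (mul_le_mul_of_nonneg_right h6 h7) (by positivity) (by positivity)
      _ = Wt (dd x) := by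
          show _ = Fc ^ Fintype.card ι * ((C0 * (j + 1)) ^ (dd x).primeFactors.card * E (dd x))
          rw [mul_pow]
          ring
  have hL : ∑ B ∈ PC Ds, (∏ i, |f i (B i)|) * ∑ S ∈ Sb w z e, j ^ S.card * E ((∏ i, B i) * ∏ p ∈ S, p) =
      ∑ x ∈ PC Ds ×ˢ Sb w z e, (∏ i, |f i (x.1 i)|) * (j ^ x.2.card * E (dd x)) := by
    rw [Finset.sum_product]
    refine Finset.sum_congr rfl fun B _ => ?_
    rw [Finset.mul_sum]
  rw [hL]
  refine (Finset.sum_le_sum hterm).trans ?_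
  rw [← Finset.sum_fiberwise_of_maps_to (s := PC Ds ×ˢ Sb w z e)
    (t := (Icc 1 Dm).filter (fun d => Squarefree d)) (g := dd) (fun x hx => by
      obtain ⟨h1, h2, _, _⟩ := hfac x hx
      rw [Finset.mem_filter, Finset.mem_Icc]
      exact ⟨⟨Nat.pos_of_ne_zero h1.ne_zero, h2⟩, h1⟩)]
  unfold ErS
  rw [Finset.mul_sum]
  refine Finset.sum_le_sum fun d hd => ?_
  have hsd := (Finset.mem_filter.1 hd).2
  have h1 : ∑ x ∈ (PC Ds ×ˢ Sb w z e).filter (fun x => dd x = d), Wt (dd x) =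
      (((PC Ds ×ˢ Sb w z e).filter (fun x => dd x = d)).card : ℝ) * Wt d := by
    rw [← nsmul_eq_mul, ← Finset.sum_const]
    refine Finset.sum_congr rfl fun x hx => ?_
    rw [(Finset.mem_filter.1 hx).2]
  rw [h1]
  have h2 : (((PC Ds ×ˢ Sb w z e).filter (fun x => dd x = d)).card : ℝ) ≤
      (j + 1) ^ d.primeFactors.card := by
    have h3 := Pb_fiber (PC Ds ×ˢ Sb w z e) (fun x hx => (Finset.mem_product.1 hx).2) hsd
    rw [hj]
    exact_mod_cast h3
  refine (mul_le_mul_of_nonneg_right h2 (hWt0 d)).trans (le_of_eq ?_)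
  show (j + 1) ^ d.primeFactors.card *
    (Fc ^ Fintype.card ι * ((C0 * (j + 1)) ^ d.primeFactors.card * E d)) = _
  have e : ((j + 1) ^ 2 * C0) ^ d.primeFactors.card =
      (j + 1) ^ d.primeFactors.card * (C0 * (j + 1)) ^ d.primeFactors.card := by
    rw [← mul_pow]
    congr 1
    ring
  rw [e]
  ring

end H73PC
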