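import Pool.Agent.H73.PC.Ra
import Pool.Agent.H73.PC.Dg

/-!
# ROW Rat: the ratio of the masses for the scales

`s_a = sc (1/64) B mH a = (1/64)/B^(mH-a)`, `v = s`, `y a = 1/s_a`, `l = 1/32`, `K = card κ`; `A2 = ∑ y² w`, `Yw = ∑ y w` (over `a = 1..mH`).
PROOF. `Yw ≥ mH/(4 Cg e1)`, `Yw ≤ 2 Cg mH/e1`, `A2 ≥ y_1² w_1 ≥ 1/(4 Cg e1 s_1)`, `A2 ≤ ∑ 2 Cg/(e1 s_a) = 2 Cg/(e1 s_1) ∑_a B^(-(a-1)) ≤ 4 Cg/(e1 s_1)` (`B ≥ 2`, `s_a = s_1 B^(a-1)`).
* The hypothesis of `ip_ge`: `4 (K-1) Yw ≤ 8 K Cg mH/e1 ≤ (1/32)/(4 Cg e1 s_1) ≤ (1/32) A2` by `hK` (`1024 = 32 * 32`); `s_a ≤ 1/64 = l/2`.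
* `I0 ≥ 1`: the configuration `n = 1` (constant) has cost `K s_1 ≤ 1/32` (by `hK`, as `1024 Cg² mH ≥ 32`), and all terms of `I0` are `≥ 0`; its term is `(y_1² w_1)^K ≥ 1` as `y_1² w_1 ≥ 1/(4 Cg e1 s_1) ≥ 1`.
* `Ip ≥ 1`: the pair `n = n' = 1`: `(y_1 w_1)² (y_1² w_1)^(K-1) ≥ 1`, `y_1 w_1 ≥ 1/(4 Cg e1) ≥ 1`.
* the ratio: `I0 ≤ A2^K` (`i0_le`), `Ip ≥ (Yw²/2) A2^(K-1)` (`ip_ge`): enough `4 (m'+1) A2 (Cv/e1) ≤ K Yw²`, which follows from `4 (m'+1) (4 Cg/(e1 s_1)) (Cv/e1) ≤ K mH²/(16 Cg² e1²)`, i.e. `256 (m'+1) Cg³ Cv ≤ K mH² s_1`.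
-/

open Finset EG H69PG

namespace H73PC

theorem Rat_geo {r : ℝ} (h0 : 0 ≤ r) (h1 : r ≤ 1 / 2) (m : ℕ) :
    ∑ a ∈ Icc 1 m, r ^ (a - 1) ≤ 2 - 2 * (1 / 2 : ℝ) ^ m := by
  induction m with
  | zero => simp
  | succ m ih =>
    rw [sum_Icc_succ_top (by omega)]
    have h2 : r ^ (m + 1 - 1) ≤ (1 / 2 : ℝ) ^ m := by
      rw [Nat.add_sub_cancel]
      exact pow_le_pow_left₀ h0 h1 m
    have h3 : (1 / 2 : ℝ) ^ (m + 1) = (1 / 2) ^ m * (1 / 2) := pow_succ _ _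
    linarith

theorem rat {κ : Type} [Fintype κ] [DecidableEq κ] {Cg Cv B e1 : ℝ} {m' mH : ℕ} {w : ℕ → ℝ} (hCg : 1 ≤ Cg) (hCv : 1 ≤ Cv)
    (hB : 2 ≤ B) (hmH : 1 ≤ mH) (he1 : 0 < e1) (he1' : 4 * Cg * e1 ≤ 1) (hw0 : ∀ a, 0 ≤ w a)
    (hw : ∀ a ∈ Icc 1 mH, sc (1 / 64) B mH a / (4 * Cg * e1) ≤ w a ∧ w a ≤ 2 * Cg * sc (1 / 64) B mH a / e1)
    (hK1 : 1 ≤ Fintype.card κ) (hK : (Fintype.card κ : ℝ) * (1024 * Cg ^ 2 * mH * sc (1 / 64) B mH 1) ≤ 1)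
    (hm : 256 * ((m' : ℝ) + 1) * Cg ^ 3 * Cv ≤ (Fintype.card κ : ℝ) * (mH : ℝ) ^ 2 * sc (1 / 64) B mH 1) :
    1 ≤ I0 κ mH (sc (1 / 64) B mH) (1 / 32) (fun a => 1 / sc (1 / 64) B mH a) w ∧
    (∀ h0 : κ, 1 ≤ Ip mH (sc (1 / 64) B mH) (1 / 32) (fun a => 1 / sc (1 / 64) B mH a) w h0) ∧
    ∀ h0 : κ, 2 * ((m' : ℝ) + 1) * I0 κ mH (sc (1 / 64) B mH) (1 / 32) (fun a => 1 / sc (1 / 64) B mH a) w * (Cv / e1) ≤
      (Fintype.card κ : ℝ) * Ip mH (sc (1 / 64) B mH) (1 / 32) (fun a => 1 / sc (1 / 64) B mH a) w h0 := by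
  set s : ℕ → ℝ := sc (1 / 64) B mH with hs
  set K : ℕ := Fintype.card κ with hKd
  have hB0 : 0 < B := by linarith
  have hB1 : 1 ≤ B := by linarith
  have hsv : ∀ a, 1 ≤ a → s a = (1 / 64) / B ^ (mH - a) := by
    intro a ha
    rw [hs]
    unfold sc
    rw [if_neg (by omega)]
  have hspos : ∀ a, 1 ≤ a → 0 < s a := by
    intro a ha
    rw [hsv a ha]
    positivity
  have hsnn : ∀ a, 0 ≤ s a := by
    intro a
    rcases Nat.eq_zero_or_pos a with h | h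
    · rw [h, hs]
      unfold sc
      rw [if_pos rfl]
    · exact (hspos a h).le
  have hsle : ∀ a, 1 ≤ a → s a ≤ 1 / 64 := by
    intro a ha
    rw [hsv a ha]
    exact div_le_self (by norm_num) (one_le_pow₀ hB1)
  have hinv : ∀ a ∈ Icc 1 mH, 1 / s a = 1 / s 1 * (1 / B) ^ (a - 1) := by
    intro a ha
    obtain ⟨h1, h2⟩ := mem_Icc.1 ha
    rw [hsv a h1, hsv 1 le_rfl]
    have h3 : B ^ (mH - 1) = B ^ (mH - a) * B ^ (a - 1) := by
      rw [← pow_add]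
      congr 1
      omega
    rw [h3, one_div_pow]
    have h4 : B ^ (mH - a) ≠ 0 := by positivity
    have h5 : B ^ (a - 1) ≠ 0 := by positivity
    field_simp
  have hs1 : 0 < s 1 := hspos 1 le_rfl
  have hC0 : 0 < Cg := by linarith
  have hCe : 0 < 4 * Cg * e1 := by positivity
  have hynn : ∀ a, 0 ≤ 1 / s a := fun a => div_nonneg zero_le_one (hsnn a)
  -- single terms
  have hyw1 : ∀ a ∈ Icc 1 mH, 1 / (4 * Cg * e1) ≤ 1 / s a * w a := by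
    intro a ha
    have h1 := (hw a ha).1
    have h2 := hspos a (mem_Icc.1 ha).1
    have h3 : 1 / (4 * Cg * e1) = 1 / s a * (s a / (4 * Cg * e1)) := by
      field_simp
    rw [h3]
    exact mul_le_mul_of_nonneg_left h1 (hynn a)
  have hyw2 : ∀ a ∈ Icc 1 mH, 1 / s a * w a ≤ 2 * Cg / e1 := by
    intro a ha
    have h1 := (hw a ha).2
    have h2 := hspos a (mem_Icc.1 ha).1
    have h3 : 2 * Cg / e1 = 1 / s a * (2 * Cg * s a / e1) := by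
      field_simp
    rw [h3]
    exact mul_le_mul_of_nonneg_left h1 (hynn a)
  have hyy : ∀ a, (1 / s a) ^ 2 * w a = 1 / s a * (1 / s a * w a) := fun a => by ring
  have hone : 1 ≤ 1 / (4 * Cg * e1) := by
    rw [le_div_iff₀ hCe]
    linarith
  have h1m : (1 : ℕ) ∈ Icc 1 mH := mem_Icc.2 ⟨le_rfl, hmH⟩
  set Yw : ℝ := ∑ a ∈ Icc 1 mH, 1 / s a * w a with hYw
  set A2 : ℝ := ∑ a ∈ Icc 1 mH, (1 / s a) ^ 2 * w a with hA2
  have hYlo : mH / (4 * Cg * e1) ≤ Yw := by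
    have h1 : ∑ a ∈ Icc 1 mH, 1 / (4 * Cg * e1) ≤ Yw := sum_le_sum hyw1
    rw [sum_const, Nat.card_Icc, nsmul_eq_mul, Nat.add_sub_cancel] at h1
    refine le_trans (le_of_eq ?_) h1
    ring
  have hYhi : Yw ≤ 2 * Cg / e1 * mH := by
    have h1 : Yw ≤ ∑ a ∈ Icc 1 mH, 2 * Cg / e1 := sum_le_sum hyw2
    rw [sum_const, Nat.card_Icc, nsmul_eq_mul, Nat.add_sub_cancel] at h1
    linarith
  have hY0 : 0 ≤ Yw := le_trans (by positivity) hYlo
  have hAlo : 1 / s 1 * (1 / (4 * Cg * e1)) ≤ A2 := by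
    have h1 : (1 / s 1) ^ 2 * w 1 ≤ A2 :=
      single_le_sum (f := fun a => (1 / s a) ^ 2 * w a)
        (fun a _ => mul_nonneg (sq_nonneg _) (hw0 a)) h1m
    rw [hyy] at h1
    exact (mul_le_mul_of_nonneg_left (hyw1 1 h1m) (hynn 1)).trans h1
  have hA0 : 0 < A2 := lt_of_lt_of_le (by positivity) hAlo
  have hAhi : A2 ≤ 4 * Cg / (e1 * s 1) := by
    have h1 : A2 ≤ ∑ a ∈ Icc 1 mH, 1 / s 1 * (2 * Cg / e1) * (1 / B) ^ (a - 1) := by
      refine sum_le_sum fun a ha => ?_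
      rw [hyy, hinv a ha]
      have h2 := hyw2 a ha
      rw [hinv a ha] at h2
      have h3 : 0 ≤ 1 / s 1 * (1 / B) ^ (a - 1) := by positivity
      have h4 := mul_le_mul_of_nonneg_left h2 h3
      refine h4.trans (le_of_eq ?_)
      ring
    rw [← mul_sum] at h1
    have h2 : (1 : ℝ) / B ≤ 1 / 2 := one_div_le_one_div_of_le (by norm_num) hB
    have h3 := Rat_geo (by positivity : 0 ≤ 1 / B) h2 mH
    have h4 : ∑ a ∈ Icc 1 mH, (1 / B) ^ (a - 1) ≤ 2 := by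
      have : (0 : ℝ) ≤ (1 / 2) ^ mH := by positivity
      linarith
    have h5 : 0 ≤ 1 / s 1 * (2 * Cg / e1) := by positivity
    refine (h1.trans (mul_le_mul_of_nonneg_left h4 h5)).trans (le_of_eq ?_)
    field_simp
    ring
  have hKr : (1 : ℝ) ≤ K := by exact_mod_cast hK1
  have hmr : (1 : ℝ) ≤ mH := by exact_mod_cast hmH
  -- the cost of the constant configuration
  have hcost : (K : ℝ) * s 1 ≤ 1 / 32 := by
    have h1 : 1 ≤ Cg ^ 2 * mH := by nlinarith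
    have h2 : (K : ℝ) * s 1 * (1024 * 1) ≤ (K : ℝ) * s 1 * (1024 * (Cg ^ 2 * mH)) := by
      refine mul_le_mul_of_nonneg_left (by linarith) (by positivity)
    have h3 : (K : ℝ) * s 1 * (1024 * (Cg ^ 2 * mH)) = (K : ℝ) * (1024 * Cg ^ 2 * mH * s 1) := by
      ring
    linarith
  set n1 : κ → Fin (mH + 1) := fun _ => ⟨1, by omega⟩ with hn1
  have hn1A : n1 ∈ Ad κ mH s (1 / 32) := by
    unfold Ad
    rw [mem_filter]
    refine ⟨mem_univ _, fun h => ?_, ?_⟩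
    · rw [hn1]
      intro h2
      have := congrArg Fin.val h2
      simp at this
    · have h1 : ∑ h : κ, s ((n1 h : Fin (mH + 1)) : ℕ) = K * s 1 := by
        rw [hn1]
        simp only
        rw [sum_const, card_univ, nsmul_eq_mul]
      rw [h1]
      exact hcost
  have ht1 : 1 ≤ (1 / s 1) ^ 2 * w 1 := by
    rw [hyy]
    have h1 := hone.trans (hyw1 1 h1m)
    have h2 : 1 ≤ 1 / s 1 := by
      rw [le_div_iff₀ hs1]
      have := hsle 1 le_rfl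
      linarith
    nlinarith
  have ht2 : 1 ≤ 1 / s 1 * w 1 := hone.trans (hyw1 1 h1m)
  have hI0 : 1 ≤ I0 κ mH s (1 / 32) (fun a => 1 / s a) w := by
    unfold I0
    have h1 := single_le_sum (f := fun n : κ → Fin (mH + 1) =>
      ∏ h, ((1 / s (n h)) ^ 2 * w (n h))) (s := Ad κ mH s (1 / 32))
      (fun n _ => prod_nonneg fun h _ => mul_nonneg (sq_nonneg _) (hw0 _)) hn1A
    refine le_trans ?_ h1
    rw [hn1]
    simp only
    rw [prod_const]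
    exact one_le_pow₀ ht1
  have hIp : ∀ h0 : κ, 1 ≤ Ip mH s (1 / 32) (fun a => 1 / s a) w h0 := by
    intro h0
    unfold Ip
    have hnn : ∀ n n' : κ → Fin (mH + 1), 0 ≤ (if (∀ h, h ≠ h0 → n h = n' h) then
        ((fun a => 1 / s a) (n h0) * w (n h0)) * ((fun a => 1 / s a) (n' h0) * w (n' h0)) *
          ∏ h ∈ univ.erase h0, ((fun a => 1 / s a) (n h) ^ 2 * w (n h)) else 0) := by
      intro n n'
      split_ifs
      · refine mul_nonneg (mul_nonneg (mul_nonneg (hynn _) (hw0 _)) (mul_nonneg (hynn _) (hw0 _))) ?_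
        exact prod_nonneg fun h _ => mul_nonneg (sq_nonneg _) (hw0 _)
      · exact le_rfl
    have h1 := single_le_sum (f := fun n : κ → Fin (mH + 1) =>
      ∑ n' ∈ Ad κ mH s (1 / 32), (if (∀ h, h ≠ h0 → n h = n' h) then
        ((fun a => 1 / s a) (n h0) * w (n h0)) * ((fun a => 1 / s a) (n' h0) * w (n' h0)) *
          ∏ h ∈ univ.erase h0, ((fun a => 1 / s a) (n h) ^ 2 * w (n h)) else 0))
      (s := Ad κ mH s (1 / 32)) (fun n _ => sum_nonneg fun n' _ => hnn n n') hn1A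
    have h2 := single_le_sum (f := fun n' : κ → Fin (mH + 1) =>
      (if (∀ h, h ≠ h0 → n1 h = n' h) then
        ((fun a => 1 / s a) (n1 h0) * w (n1 h0)) * ((fun a => 1 / s a) (n' h0) * w (n' h0)) *
          ∏ h ∈ univ.erase h0, ((fun a => 1 / s a) (n1 h) ^ 2 * w (n1 h)) else 0))
      (s := Ad κ mH s (1 / 32)) (fun n' _ => hnn n1 n') hn1A
    refine le_trans ?_ (h2.trans h1)
    rw [if_pos (fun _ _ => rfl), hn1]
    simp only
    rw [prod_const]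
    have h3 : 1 ≤ 1 / s 1 * w 1 * (1 / s 1 * w 1) := by nlinarith
    have h4 : 1 ≤ ((1 / s 1) ^ 2 * w 1) ^ (univ.erase h0).card := one_le_pow₀ ht1
    calc (1 : ℝ) = 1 * 1 := (one_mul 1).symm
      _ ≤ _ := mul_le_mul h3 h4 zero_le_one (le_trans zero_le_one h3)
  refine ⟨hI0, hIp, fun h0 => ?_⟩
  have hi0 := i0_le (κ := κ) (m := mH) (v := s) (l := 1 / 32) (y := fun a => 1 / s a) hw0
  have hip := ip_ge (κ := κ) (m := mH) (v := s) (l := 1 / 32) (y := fun a => 1 / s a) (w := w)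
    hynn hw0 hsnn (by norm_num)
    (fun a ha => by
      have := hsle a (mem_Icc.1 ha).1
      linarith)
    (fun a ha => by
      have := (hspos a (mem_Icc.1 ha).1).ne'
      exact one_div_mul_cancel this) h0 (by
      change 4 * ((K : ℝ) - 1) * Yw ≤ 1 / 32 * A2
      have h1 : 4 * ((K : ℝ) - 1) * Yw ≤ 4 * (K : ℝ) * (2 * Cg / e1 * mH) := by
        have : 4 * ((K : ℝ) - 1) * Yw ≤ 4 * (K : ℝ) * Yw := by nlinarith
        exact this.trans (mul_le_mul_of_nonneg_left hYhi (by positivity))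
      have h2 : 4 * (K : ℝ) * (2 * Cg / e1 * mH) ≤ 1 / 32 * (1 / s 1 * (1 / (4 * Cg * e1))) := by
        have h3 : 1 / 32 * (1 / s 1 * (1 / (4 * Cg * e1))) - 4 * (K : ℝ) * (2 * Cg / e1 * mH) =
            (1 - (K : ℝ) * (1024 * Cg ^ 2 * mH * s 1)) / (128 * s 1 * Cg * e1) := by
          field_simp
          ring
        have h4 : 0 ≤ (1 - (K : ℝ) * (1024 * Cg ^ 2 * mH * s 1)) / (128 * s 1 * Cg * e1) :=
          div_nonneg (by linarith) (by positivity)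
        linarith
      have h5 := mul_le_mul_of_nonneg_left hAlo (by norm_num : (0 : ℝ) ≤ 1 / 32)
      linarith)
  change Yw ^ 2 / 2 * A2 ^ (K - 1) ≤ _ at hip
  change _ ≤ A2 ^ K at hi0
  have hAK : A2 ^ K = A2 ^ (K - 1) * A2 := by
    rw [← pow_succ]
    congr 1
    omega
  have hAp : 0 < A2 ^ (K - 1) := by positivity
  have hkey : 4 * ((m' : ℝ) + 1) * A2 * (Cv / e1) ≤ K * Yw ^ 2 := by
    have h1 : 4 * ((m' : ℝ) + 1) * A2 * (Cv / e1) ≤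
        4 * ((m' : ℝ) + 1) * (4 * Cg / (e1 * s 1)) * (Cv / e1) := by
      refine mul_le_mul_of_nonneg_right (mul_le_mul_of_nonneg_left hAhi (by positivity))
        (by positivity)
    have h2 : (mH / (4 * Cg * e1)) ^ 2 ≤ Yw ^ 2 := pow_le_pow_left₀ (by positivity) hYlo 2
    have h3 : (K : ℝ) * (mH / (4 * Cg * e1)) ^ 2 ≤ K * Yw ^ 2 :=
      mul_le_mul_of_nonneg_left h2 (by positivity)
    have h4 : 4 * ((m' : ℝ) + 1) * (4 * Cg / (e1 * s 1)) * (Cv / e1) ≤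
        (K : ℝ) * (mH / (4 * Cg * e1)) ^ 2 := by
      have h5 : (K : ℝ) * (mH / (4 * Cg * e1)) ^ 2 -
          4 * ((m' : ℝ) + 1) * (4 * Cg / (e1 * s 1)) * (Cv / e1) =
          ((K : ℝ) * (mH : ℝ) ^ 2 * s 1 - 256 * ((m' : ℝ) + 1) * Cg ^ 3 * Cv) /
            (16 * Cg ^ 2 * e1 ^ 2 * s 1) := by
        field_simp
        ring
      have h6 : 0 ≤ ((K : ℝ) * (mH : ℝ) ^ 2 * s 1 - 256 * ((m' : ℝ) + 1) * Cg ^ 3 * Cv) /
            (16 * Cg ^ 2 * e1 ^ 2 * s 1) := div_nonneg (by linarith) (by positivity)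
      linarith
    linarith
  calc 2 * ((m' : ℝ) + 1) * I0 κ mH s (1 / 32) (fun a => 1 / s a) w * (Cv / e1)
      ≤ 2 * ((m' : ℝ) + 1) * (A2 ^ (K - 1) * A2) * (Cv / e1) := by
        rw [← hAK]
        refine mul_le_mul_of_nonneg_right (mul_le_mul_of_nonneg_left hi0 (by positivity))
          (by positivity)
    _ = A2 ^ (K - 1) * (4 * ((m' : ℝ) + 1) * A2 * (Cv / e1)) / 2 := by ring
    _ ≤ A2 ^ (K - 1) * (K * Yw ^ 2) / 2 := by
        refine div_le_div_of_nonneg_right (mul_le_mul_of_nonneg_left hkey hAp.le) (by norm_num)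
    _ = K * (Yw ^ 2 / 2 * A2 ^ (K - 1)) := by ring
    _ ≤ K * Ip mH s (1 / 32) (fun a => 1 / s a) w h0 :=
        mul_le_mul_of_nonneg_left hip (by positivity)

end H73PC
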