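import Pool.Agent.H73.PC.Df

/-!
# ROW Om: from products to the square of the cluster amplitude

PROOF. `La t ^ 2 = ∑_{n, n' ∈ Ad} ∏_h (y(n h) Bf h (n h) t) ∏_h (y(n' h) Bf h (n' h) t) = ∑_{n,n'} Y(n) Y(n') ∏_h (Bf h (n h) t * Bf h (n' h) t)`, `Y(n) = ∏_h y(n h) ≥ 0`.
Multiply by `F t`, sum over `t`, insert `h1`.
* `om1`: main terms: `∑_{n,n'} Y(n) Y(n') [n = n'] ∏ w(n h) * X = I0 * X` (`Y(n)² = ∏ y(n h)²`), errors `≤ ε (∑_n Y(n))²`.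
* `om3`: the same with the matrix `[n = n' off h0] (w(n h0) w(n' h0)) ∏_{h ≠ h0} w(n h)` in place of `[n = n'] ∏ w`: `Y(n) Y(n')` splits off the coordinate `h0`, and
  off `h0` it is `∏ y(n h)²`, so the sum of the main terms is `Ip h0 * X`. Here on `T` one has `Bf h0 a t = w a` for all `a ≥ 1`
  (`n h0 ≠ 0` on `Ad`), and `∏_h = (coordinate h0) * ∏_{h ≠ h0}`.
* `La_sum`: `(∑_{n ∈ Ad} ∏ y(n h)) ≤ (∑_{a=1}^m y a)^K` (`Ad` is a subset of the functions with values `≥ 1`; `Finset.prod_univ_sum`).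
-/

open Finset H69PG

namespace H73PC

variable {κ : Type} [Fintype κ] [DecidableEq κ]

/-- expansion of the square -/
private theorem Om_exp {ι : Type} (A : Finset ι) (T : Finset ℕ) (Y : ι → ℝ) (P : ι → ℕ → ℝ)
    (F : ℕ → ℝ) : ∑ t ∈ T, (∑ n ∈ A, Y n * P n t) ^ 2 * F t =
      ∑ n ∈ A, ∑ n' ∈ A, Y n * Y n' * ∑ t ∈ T, (P n t * P n' t) * F t := by
  have h1 : ∀ t ∈ T, (∑ n ∈ A, Y n * P n t) ^ 2 * F t =
      ∑ n ∈ A, ∑ n' ∈ A, Y n * Y n' * ((P n t * P n' t) * F t) := by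
    intro t _
    rw [sq, sum_mul_sum, sum_mul]
    refine sum_congr rfl fun n _ => ?_
    rw [sum_mul]
    refine sum_congr rfl fun n' _ => ?_
    ring
  rw [sum_congr rfl h1, sum_comm]
  refine sum_congr rfl fun n _ => ?_
  rw [sum_comm]
  refine sum_congr rfl fun n' _ => ?_
  rw [mul_sum]

/-- comparison of two quadratic forms -/
private theorem Om_cmp {ι : Type} (A : Finset ι) {Y : ι → ℝ} (hY : ∀ n ∈ A, 0 ≤ Y n)
    {S M : ι → ι → ℝ} {ε : ℝ} (h : ∀ n ∈ A, ∀ n' ∈ A, |S n n' - M n n'| ≤ ε) :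
    |∑ n ∈ A, ∑ n' ∈ A, Y n * Y n' * S n n' - ∑ n ∈ A, ∑ n' ∈ A, Y n * Y n' * M n n'| ≤
      ε * (∑ n ∈ A, Y n) ^ 2 := by
  have h1 : ∑ n ∈ A, ∑ n' ∈ A, Y n * Y n' * S n n' - ∑ n ∈ A, ∑ n' ∈ A, Y n * Y n' * M n n' =
      ∑ n ∈ A, ∑ n' ∈ A, Y n * Y n' * (S n n' - M n n') := by
    rw [← sum_sub_distrib]
    refine sum_congr rfl fun n _ => ?_
    rw [← sum_sub_distrib]
    refine sum_congr rfl fun n' _ => ?_
    ring
  have h2 : ε * (∑ n ∈ A, Y n) ^ 2 = ∑ n ∈ A, ∑ n' ∈ A, Y n * Y n' * ε := by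
    rw [sq, sum_mul_sum, mul_sum]
    refine sum_congr rfl fun n _ => ?_
    rw [mul_sum]
    refine sum_congr rfl fun n' _ => ?_
    ring
  rw [h1, h2]
  refine (abs_sum_le_sum_abs _ _).trans (sum_le_sum fun n hn => ?_)
  refine (abs_sum_le_sum_abs _ _).trans (sum_le_sum fun n' hn' => ?_)
  have h3 : 0 ≤ Y n * Y n' := mul_nonneg (hY n hn) (hY n' hn')
  rw [abs_mul, abs_of_nonneg h3]
  exact mul_le_mul_of_nonneg_left (h n hn n' hn') h3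

private theorem Om_mem {m : ℕ} {v : ℕ → ℝ} {l : ℝ} {n : κ → Fin (m + 1)} (hn : n ∈ Ad κ m v l)
    (h : κ) : (n h : ℕ) ∈ Icc 1 m := by
  unfold Ad at hn
  rw [mem_filter] at hn
  have h1 : (n h : ℕ) ≠ 0 := fun h2 => hn.2.1 h (Fin.ext h2)
  have h2 := (n h).2
  rw [mem_Icc]
  omega

theorem om1 {m : ℕ} {v : ℕ → ℝ} {l : ℝ} {y w : ℕ → ℝ} (hy : ∀ a, 0 ≤ y a) {Bf : κ → ℕ → ℕ → ℝ} {T : Finset ℕ}
    {F : ℕ → ℝ} {X ε : ℝ}
    (h1 : ∀ n ∈ Ad κ m v l, ∀ n' ∈ Ad κ m v l,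
      |∑ t ∈ T, (∏ h, (Bf h (n h) t * Bf h (n' h) t)) * F t - (if n = n' then (∏ h, w (n h)) * X else 0)| ≤ ε) :
    |∑ t ∈ T, La m v l y Bf t ^ 2 * F t - I0 κ m v l y w * X| ≤ ε * (∑ n ∈ Ad κ m v l, ∏ h, y (n h)) ^ 2 := by
  have e1 : ∑ t ∈ T, La m v l y Bf t ^ 2 * F t =
      ∑ n ∈ Ad κ m v l, ∑ n' ∈ Ad κ m v l, (∏ h, y (n h)) * (∏ h, y (n' h)) *
        ∑ t ∈ T, (∏ h, (Bf h (n h) t * Bf h (n' h) t)) * F t := by
    have h2 := Om_exp (Ad κ m v l) T (fun n => ∏ h, y (n h)) (fun n t => ∏ h, Bf h (n h) t) F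
    have h3 : ∀ t, La m v l y Bf t =
        ∑ n ∈ Ad κ m v l, (∏ h, y (n h)) * ∏ h, Bf h (n h) t := fun t => by
      unfold La
      exact sum_congr rfl fun n _ => prod_mul_distrib
    simp only [h3]
    rw [h2]
    simp only [prod_mul_distrib]
  have e2 : I0 κ m v l y w * X =
      ∑ n ∈ Ad κ m v l, ∑ n' ∈ Ad κ m v l, (∏ h, y (n h)) * (∏ h, y (n' h)) *
        (if n = n' then (∏ h, w (n h)) * X else 0) := by
    unfold I0
    rw [sum_mul]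
    refine sum_congr rfl fun n hn => ?_
    simp only [mul_ite, mul_zero]
    rw [sum_ite_eq, if_pos hn, prod_mul_distrib, prod_pow]
    ring
  rw [e1, e2]
  exact Om_cmp (Ad κ m v l) (fun n _ => prod_nonneg fun h _ => hy _) h1

open Classical in
theorem om3 {m : ℕ} {v : ℕ → ℝ} {l : ℝ} {y w : ℕ → ℝ} (hy : ∀ a, 0 ≤ y a) {Bf : κ → ℕ → ℕ → ℝ} {T : Finset ℕ}
    {F : ℕ → ℝ} {X ε : ℝ} (h0 : κ) (hw : ∀ a, 0 ≤ w a) (hB : ∀ t ∈ T, ∀ a ∈ Icc 1 m, Bf h0 a t = w a)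
    (h1 : ∀ n ∈ Ad κ m v l, ∀ n' ∈ Ad κ m v l,
      |∑ t ∈ T, (∏ h ∈ univ.erase h0, (Bf h (n h) t * Bf h (n' h) t)) * F t -
        (if (∀ h, h ≠ h0 → n h = n' h) then (∏ h ∈ univ.erase h0, w (n h)) * X else 0)| ≤ ε) :
    |∑ t ∈ T, La m v l y Bf t ^ 2 * F t - Ip m v l y w h0 * X| ≤
      ε * (∑ n ∈ Ad κ m v l, (∏ h, y (n h)) * w (n h0)) ^ 2 := by
  have e1 : ∑ t ∈ T, La m v l y Bf t ^ 2 * F t =
      ∑ n ∈ Ad κ m v l, ∑ n' ∈ Ad κ m v l,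
        ((∏ h, y (n h)) * w (n h0)) * ((∏ h, y (n' h)) * w (n' h0)) *
        ∑ t ∈ T, (∏ h ∈ univ.erase h0, (Bf h (n h) t * Bf h (n' h) t)) * F t := by
    have h2 := Om_exp (Ad κ m v l) T (fun n => (∏ h, y (n h)) * w (n h0))
      (fun n t => ∏ h ∈ univ.erase h0, Bf h (n h) t) F
    have h3 : ∀ t ∈ T, La m v l y Bf t ^ 2 * F t =
        (∑ n ∈ Ad κ m v l, ((∏ h, y (n h)) * w (n h0)) *
          ∏ h ∈ univ.erase h0, Bf h (n h) t) ^ 2 * F t := fun t ht => by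
      congr 2
      unfold La
      refine sum_congr rfl fun n hn => ?_
      rw [prod_mul_distrib, ← mul_prod_erase univ (fun h => Bf h (n h) t) (mem_univ h0),
        hB t ht _ (Om_mem hn h0)]
      ring
    rw [sum_congr rfl h3, h2]
    simp only [prod_mul_distrib]
  have e2 : Ip m v l y w h0 * X =
      ∑ n ∈ Ad κ m v l, ∑ n' ∈ Ad κ m v l,
        ((∏ h, y (n h)) * w (n h0)) * ((∏ h, y (n' h)) * w (n' h0)) *
        (if (∀ h, h ≠ h0 → n h = n' h) then (∏ h ∈ univ.erase h0, w (n h)) * X else 0) := by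
    unfold Ip
    rw [sum_mul]
    refine sum_congr rfl fun n hn => ?_
    rw [sum_mul]
    refine sum_congr rfl fun n' hn' => ?_
    by_cases hc : ∀ h, h ≠ h0 → n h = n' h
    · rw [if_pos hc, if_pos hc, ← mul_prod_erase univ (fun h => y (n h)) (mem_univ h0),
        ← mul_prod_erase univ (fun h => y (n' h)) (mem_univ h0)]
      have h4 : ∏ h ∈ univ.erase h0, y (n' h) = ∏ h ∈ univ.erase h0, y (n h) :=
        prod_congr rfl fun h hh => by rw [hc h (ne_of_mem_erase hh)]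
      rw [h4, prod_mul_distrib, prod_pow]
      ring
    · rw [if_neg hc, if_neg hc]
      ring
  rw [e1, e2]
  exact Om_cmp (Ad κ m v l) (fun n _ => mul_nonneg (prod_nonneg fun h _ => hy _) (hw _)) h1

theorem La_sum {m : ℕ} {v : ℕ → ℝ} {l : ℝ} {y : ℕ → ℝ} (hy : ∀ a, 0 ≤ y a) :
    ∑ n ∈ Ad κ m v l, ∏ h, y (n h) ≤ (∑ a ∈ Icc 1 m, y a) ^ Fintype.card κ := by
  classical
  have h1 : (∑ a ∈ Icc 1 m, y a) ^ Fintype.card κ =
      ∑ x ∈ Fintype.piFinset (fun _ : κ => Icc 1 m), ∏ h, y (x h) := by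
    rw [← prod_univ_sum, prod_const, card_univ]
  have hinj : Function.Injective (fun (n : κ → Fin (m + 1)) (h : κ) => (n h : ℕ)) := by
    intro n n' h
    funext k
    exact Fin.ext (congrFun h k)
  have h2 : ∑ n ∈ Ad κ m v l, ∏ h, y (n h) =
      ∑ x ∈ (Ad κ m v l).image (fun (n : κ → Fin (m + 1)) (h : κ) => (n h : ℕ)),
        ∏ h, y (x h) := by
    rw [sum_image fun n _ n' _ h => hinj h]
  rw [h1, h2]
  refine sum_le_sum_of_subset_of_nonneg ?_ fun x _ _ => prod_nonneg fun h _ => hy _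
  intro x hx
  obtain ⟨n, hn, rfl⟩ := mem_image.1 hx
  rw [Fintype.mem_piFinset]
  exact fun h => Om_mem hn h

theorem La_abs {m : ℕ} {v : ℕ → ℝ} {l : ℝ} {y : ℕ → ℝ} (hy : ∀ a, 0 ≤ y a) {Bf : κ → ℕ → ℕ → ℝ} {t : ℕ} {C0 : ℝ}
    (hC0 : 0 ≤ C0) {th : κ → ℝ} (hth : ∀ h, th h = 0 ∨ th h = 1) (hB : ∀ h, ∀ a ∈ Icc 1 m, |Bf h a t| ≤ C0 * th h) :
    |La m v l y Bf t| ≤ (C0 * ∑ a ∈ Icc 1 m, y a) ^ Fintype.card κ * ∏ h, th h := by
  have ht0 : ∀ h, 0 ≤ th h := fun h => by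
    rcases hth h with h1 | h1 <;> rw [h1]
    exact zero_le_one
  have hP : 0 ≤ ∏ h, th h := prod_nonneg fun h _ => ht0 h
  unfold La
  have h1 : ∀ n ∈ Ad κ m v l, |∏ h, (y (n h) * Bf h (n h) t)| ≤
      (C0 ^ Fintype.card κ * ∏ h, th h) * ∏ h, y (n h) := by
    intro n hn
    rw [abs_prod]
    have h2 : ∏ h, |y (n h) * Bf h (n h) t| ≤ ∏ h, (y (n h) * (C0 * th h)) := by
      refine prod_le_prod (fun h _ => abs_nonneg _) fun h _ => ?_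
      rw [abs_mul, abs_of_nonneg (hy _)]
      exact mul_le_mul_of_nonneg_left (hB h _ (Om_mem hn h)) (hy _)
    refine h2.trans (le_of_eq ?_)
    rw [prod_mul_distrib, prod_mul_distrib, prod_const, card_univ]
    ring
  refine (abs_sum_le_sum_abs _ _).trans ((sum_le_sum h1).trans ?_)
  rw [← mul_sum, mul_pow]
  have h3 := La_sum (κ := κ) (m := m) (v := v) (l := l) hy
  have h4 : 0 ≤ C0 ^ Fintype.card κ * ∏ h, th h := mul_nonneg (pow_nonneg hC0 _) hP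
  refine (mul_le_mul_of_nonneg_left h3 h4).trans (le_of_eq ?_)
  ring

end H73PC
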