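import Pool.Agent.H69.PG.Ar0
import Pool.Agent.H17.AvgMain

/-!
# MP_028722: exactly `m` primes in `(n, n + λ log n]` for a positive proportion of `n`. Definitions.

Overview with the complete proof: /team-store/H73_T.md
-/

open Finset EG H69PG

namespace H73PC

/-! ### abstract part -/

open Classical in
/-- configurations of the cluster: every coordinate has a scale `≥ 1`, total cost at most `l` -/
noncomputable def Ad (κ : Type) [Fintype κ] [DecidableEq κ] (m : ℕ) (v : ℕ → ℝ) (l : ℝ) :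
    Finset (κ → Fin (m + 1)) :=
  univ.filter (fun n => (∀ h, n h ≠ 0) ∧ ∑ h, v (n h) ≤ l)

/-- the amplitude of the cluster -/
noncomputable def La {κ : Type} [Fintype κ] [DecidableEq κ] (m : ℕ) (v : ℕ → ℝ) (l : ℝ) (y : ℕ → ℝ)
    (Bf : κ → ℕ → ℕ → ℝ) (t : ℕ) : ℝ :=
  ∑ n ∈ Ad κ m v l, ∏ h, (y (n h) * Bf h (n h) t)

/-- the mass of the cluster -/
noncomputable def I0 (κ : Type) [Fintype κ] [DecidableEq κ] (m : ℕ) (v : ℕ → ℝ) (l : ℝ) (y w : ℕ → ℝ) : ℝ :=
  ∑ n ∈ Ad κ m v l, ∏ h, (y (n h) ^ 2 * w (n h))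

open Classical in
/-- the mass of the cluster when the form at `h0` takes a prime value -/
noncomputable def Ip {κ : Type} [Fintype κ] [DecidableEq κ] (m : ℕ) (v : ℕ → ℝ) (l : ℝ) (y w : ℕ → ℝ) (h0 : κ) : ℝ :=
  ∑ n ∈ Ad κ m v l, ∑ n' ∈ Ad κ m v l, if (∀ h, h ≠ h0 → n h = n' h) then
    (y (n h0) * w (n h0)) * (y (n' h0) * w (n' h0)) * ∏ h ∈ univ.erase h0, (y (n h) ^ 2 * w (n h)) else 0

/-! ### arithmetic part -/

/-- the class of `t` modulo `p` is alive -/
def al (W : ℕ) (c0 : Option ℕ) (p t : ℕ) : Prop := ∀ k ∈ c0, ¬ p ∣ W * t + k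

/-- the number of alive classes modulo `p` -/
noncomputable def ph (c0 : Option ℕ) (p : ℕ) : ℝ := if c0 = none then (p : ℝ) else (p : ℝ) - 1

/-- the number of alive classes modulo a squarefree `d` -/
noncomputable def Ph (c0 : Option ℕ) (d : ℕ) : ℝ := ∏ p ∈ d.primeFactors, ph c0 p

/-- A finite set `Ts` of about `Y` integers `t`, equidistributed in the alive residue classes modulo the squarefree
`d ≤ Dm` with all prime factors `> w` (for `c0 = none` all classes are alive; for `c0 = some k` those where `W t + k` is a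
unit), with error `E d`. -/
structure Dst (w Dm W : ℕ) (c0 : Option ℕ) (Ts : Finset ℕ) (Y : ℝ) (E : ℕ → ℝ) : Prop where
  Y_nonneg : 0 ≤ Y
  E_nonneg : ∀ d, 0 ≤ E d
  mem : ∀ t ∈ Ts, ∀ p : ℕ, p.Prime → w < p → p ≤ Dm → al W c0 p t
  cnt : ∀ d : ℕ, Squarefree d → d ≤ Dm → (∀ p : ℕ, p.Prime → p ∣ d → w < p) → ∀ a : ℕ,
    (∀ p : ℕ, p.Prime → p ∣ d → al W c0 p a) →
    |((Ts.filter (fun t => t ≡ a [MOD d])).card : ℝ) - Y / Ph c0 d| ≤ E d

/-- linear forms `W t + c i` -/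
structure Fw {ι : Type} (w z D W : ℕ) (c0 : Option ℕ) (c : ι → ℕ) : Prop where
  pos : 1 ≤ W
  pr : ∀ p : ℕ, p.Prime → p ∣ W → p ≤ w
  inj : Function.Injective c
  df : ∀ i j, |(c i : ℤ) - c j| ≤ D
  Dz : D ≤ z
  cpos : ∀ i, 1 ≤ c i
  df0 : ∀ k ∈ c0, ∀ i, c i ≠ k ∧ |(c i : ℤ) - k| ≤ D

open Classical in
/-- the number of alive classes `a` modulo `p` such that `p` divides one of the `W a + c i` -/
noncomputable def nu {ι : Type} (W : ℕ) (c0 : Option ℕ) (c : ι → ℕ) (p : ℕ) : ℕ :=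
  ((range p).filter (fun a => al W c0 p a ∧ ∃ i, p ∣ W * a + c i)).card

/-- the local density -/
noncomputable def gd {ι : Type} (W : ℕ) (c0 : Option ℕ) (c : ι → ℕ) (p : ℕ) : ℝ := (nu W c0 c p : ℝ) / ph c0 p

/-- the product of the local factors -/
noncomputable def VG {ι : Type} (w z W : ℕ) (c0 : Option ℕ) (c : ι → ℕ) : ℝ := ∏ p ∈ PK w z, (1 - gd W c0 c p)

/-- pairwise coprime tuples -/
noncomputable def PC {ι : Type} [Fintype ι] [DecidableEq ι] (Ds : ι → Finset ℕ) : Finset (ι → ℕ) :=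
  (Fintype.piFinset Ds).filter (fun B => ∀ i j, i ≠ j → Nat.Coprime (B i) (B j))

/-- products of small primes used by the sieve -/
noncomputable def Sb (w z e : ℕ) : Finset (Finset ℕ) := (PK w z).powerset.filter (fun S => ∏ p ∈ S, p ≤ z ^ e)

/-- weighted sum of the errors -/
noncomputable def ErS (Dm : ℕ) (C : ℝ) (E : ℕ → ℝ) : ℝ :=
  ∑ d ∈ (Icc 1 Dm).filter (fun d => Squarefree d), C ^ d.primeFactors.card * E d

end H73PC
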