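import Pool.Agent.H60.PP.BhG
import Pool.Agent.H73.PC.Df

/-!
# ROW Bg: the fundamental lemma with a general density and few blocks

Corollary of `H60PP.bhG`.
-/

open Finset EG H69PG

namespace H73PC

open Classical in
theorem bhg (j : ℕ) : ∃ C : ℕ, ∀ b0 : ℕ, C ≤ b0 → ∀ w z : ℕ, C ≤ w → 2 ≤ w → w ≤ z → ∀ g : ℕ → ℝ,
    (∀ p ∈ PK w z, 0 ≤ g p ∧ g p ≤ 2 * (j : ℝ) / p) →
    ∀ (T : Finset ℕ) (B : ℕ → ℕ → Prop) (Y : ℝ) (R : Finset ℕ → ℝ), 0 ≤ Y → (∀ S, 0 ≤ R S) →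
    (∀ S ∈ Sb w z (4 * b0 + 10), |((T.filter (fun t => ∀ p ∈ S, B t p)).card : ℝ) - Y * ∏ p ∈ S, g p| ≤ R S) →
    |((T.filter (fun t => ∀ p ∈ PK w z, ¬ B t p)).card : ℝ) - Y * ∏ p ∈ PK w z, (1 - g p)| ≤
      Real.exp (-(b0 : ℝ)) * (Y * ∏ p ∈ PK w z, (1 - g p)) + (3 * Real.log z + 4) * ∑ S ∈ Sb w z (4 * b0 + 10), R S := by
  obtain ⟨C0, hC0, h⟩ := H60PP.bhG
  refine ⟨max (C0 * (j + 1)) (4 * j), fun b0 hb0 w z hCw hw hwz g hg T B Y R hY hR hN => ?_⟩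
  have h1 := h j b0 ((le_max_left _ _).trans hb0) w z ((le_max_right _ _).trans hCw) hw hwz g hg T B Y R hY hR
    (fun S hS hS' => hN S (by
      rw [Sb, mem_filter, mem_powerset]
      exact ⟨hS, hS'⟩))
  refine h1.trans (add_le_add le_rfl ?_)
  have hz : 2 ≤ z := hw.trans hwz
  have hz0 : (0 : ℝ) < z := by
    have : 0 < z := by omega
    exact_mod_cast this
  have h2 : (Nat.log 2 z : ℝ) * Real.log 2 ≤ Real.log z := by
    have h3 : ((2 ^ Nat.log 2 z : ℕ) : ℝ) ≤ z := by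
      exact_mod_cast Nat.pow_log_le_self 2 (by omega)
    have h4 := Real.log_le_log (by positivity) h3
    push_cast at h4
    rwa [Real.log_pow] at h4
  have h5 : (Nat.log 2 z : ℝ) + 2 ≤ 3 * Real.log z + 4 := by
    have h6 : (0 : ℝ) ≤ Nat.log 2 z := Nat.cast_nonneg _
    have h7 : (0.6931471803 : ℝ) < Real.log 2 := Real.log_two_gt_d9
    nlinarith
  have h8 : (PK w z).powerset.filter (fun S => ∏ p ∈ S, p ≤ z ^ (4 * b0 + 10)) = Sb w z (4 * b0 + 10) := rfl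
  rw [h8]
  exact mul_le_mul_of_nonneg_right h5 (sum_nonneg (fun S _ => hR S))

end H73PC
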