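import Pool.Agent.H73.PC.Cr
import Pool.Agent.H73.PC.Bg

/-!
# ROW Eg: means of products of divisor sums

PROOF. Expand `∏_i Fn (Ds i) (f i) (L_i) = ∑_{B ∈ piFinset Ds} ∏ f_i(B_i) [B_i ∣ L_i]`, `L_i = W t + c i`. If `B_i` and `B_i'` (`i ≠ i'`) have a common prime factor `p`, then `p > z`, and `p ∣ L_i, L_i'` would give `p ∣ c i - c i'`,
`0 < |c i - c i'| ≤ D ≤ z < p`: impossible, so these `B` contribute `0` for every `t`. For `B ∈ PC Ds` use `bhg` for the finite set `{t ∈ Ts : ∀ i, B i ∣ L_i}`, the predicate `∃ i, p ∣ L_i`, `Y/∏ Ph (B i)` instead of `Y`, `g = gd W c0 c`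
(`gd_bd`; `C ≥` the constant of `bhg`), `R S = j^|S| E((∏ B i) ∏ S)`; the hypothesis is `crg` (for `S ∈ Sb`, `(∏ B i) ∏ S ≤ (∏ B i) z^(4 b0 + 10) ≤ Dm`). `∏ i, th0 w z (L_i)` is the indicator of: no `p ∈ PK w z` divides some `L_i`.
Multiply by `∏ f_i(B_i)` and add up. (`VG = ∏ (1 - gd) ≥ 0`.)
-/

open Finset EG H69PG

namespace H73PC

/-- product of the indicators -/
lemma ega_th {ι : Type} [Fintype ι] (w z W : ℕ) (c : ι → ℕ) (t : ℕ) :
    ∏ i, th0 w z (W * t + c i) =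
      (open Classical in if ∀ p ∈ PK w z, ¬ ∃ i, p ∣ W * t + c i then (1 : ℝ) else 0) := by
  classical
  by_cases h : ∀ p ∈ PK w z, ¬ ∃ i, p ∣ W * t + c i
  · rw [if_pos h]
    refine prod_eq_one fun i _ => ?_
    unfold th0
    rw [if_pos]
    intro p hp hd
    exact h p hp ⟨i, hd⟩
  · rw [if_neg h]
    push Not at h
    obtain ⟨p, hp, i, hd⟩ := h
    refine prod_eq_zero (mem_univ i) ?_
    unfold th0
    rw [if_neg]
    intro h'
    exact h' p hp hd

/-- expansion of the product of the divisor sums -/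
lemma ega_Fn {ι : Type} [Fintype ι] [DecidableEq ι] (Ds : ι → Finset ℕ) (f : ι → ℕ → ℝ) (L : ι → ℕ) :
    ∏ i, Fn (Ds i) (f i) (L i) =
      ∑ B ∈ Fintype.piFinset Ds, (∏ i, f i (B i)) *
        (open Classical in if ∀ i, B i ∣ L i then (1 : ℝ) else 0) := by
  classical
  have h1 : ∀ i, Fn (Ds i) (f i) (L i) = ∑ B ∈ Ds i, if B ∣ L i then f i B else 0 := by
    intro i
    unfold Fn
    rw [sum_filter]
  simp only [h1]
  rw [prod_univ_sum]
  refine sum_congr rfl fun B _ => ?_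
  by_cases h : ∀ i, B i ∣ L i
  · rw [if_pos h, mul_one]
    exact prod_congr rfl fun i _ => if_pos (h i)
  · rw [if_neg h, mul_zero]
    push Not at h
    obtain ⟨i, hi⟩ := h
    exact prod_eq_zero (mem_univ i) (if_neg hi)

/-- two of the forms have no common large prime factor -/
lemma ega_cop {ι : Type} {w z D W : ℕ} {c0 : Option ℕ} {c : ι → ℕ} (hF : Fw w z D W c0 c) {B : ι → ℕ}
    (hB : ∀ i, Squarefree (B i) ∧ Nat.Coprime (B i) (primorial z)) {t : ℕ} (ht : ∀ i, B i ∣ W * t + c i)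
    {i i' : ι} (hi : i ≠ i') : Nat.Coprime (B i) (B i') := by
  by_contra hcon
  obtain ⟨p, hp, h1, h2⟩ := Nat.Prime.not_coprime_iff_dvd.1 hcon
  have hzp : z < p := by
    by_contra hle
    have h3 : p ∣ primorial z := (Nat.Prime.dvd_primorial_iff hp).2 (not_lt.1 hle)
    have h4 := Nat.dvd_gcd h1 h3
    rw [(hB i).2] at h4
    exact hp.one_lt.ne' (Nat.dvd_one.1 h4)
  have h3 : (p : ℤ) ∣ ((W * t + c i : ℕ) : ℤ) := by exact_mod_cast h1.trans (ht i)
  have h4 : (p : ℤ) ∣ ((W * t + c i' : ℕ) : ℤ) := by exact_mod_cast h2.trans (ht i')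
  have h5 : (p : ℤ) ∣ (c i : ℤ) - c i' := by
    have := dvd_sub h3 h4
    push_cast at this
    have e : (W * t + c i : ℤ) - (W * t + c i') = (c i : ℤ) - c i' := by ring
    rwa [e] at this
  have h6 := hF.df i i'
  have h7 : (c i : ℤ) - c i' ≠ 0 := by
    intro h0
    apply hi
    apply hF.inj
    have : (c i : ℤ) = c i' := by linarith
    exact_mod_cast this
  have h8 := Int.le_of_dvd (abs_pos.2 h7) ((dvd_abs _ _).2 h5)
  have h9 := hF.Dz
  have h10 : (p : ℤ) ≤ D := h8.trans h6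
  have h11 : p ≤ D := by exact_mod_cast h10
  omega

theorem ega (j : ℕ) : ∃ C : ℕ, ∀ b0 : ℕ, C ≤ b0 → ∀ (ι : Type) [Fintype ι] [DecidableEq ι], Fintype.card ι = j →
    ∀ w z D W Dm : ℕ, C ≤ w → 2 ≤ w → w ≤ z → ∀ (c0 : Option ℕ) (c : ι → ℕ) (Ts : Finset ℕ) (Y : ℝ) (E : ℕ → ℝ),
    Fw w z D W c0 c → Dst w Dm W c0 Ts Y E → ∀ (Ds : ι → Finset ℕ) (f : ι → ℕ → ℝ), (∀ i, Good (primorial z) (Ds i)) →
    (∀ B ∈ Fintype.piFinset Ds, (∏ i, B i) * z ^ (4 * b0 + 10) ≤ Dm) →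
    0 ≤ VG w z W c0 c ∧
    |∑ t ∈ Ts, ∏ i, (th0 w z (W * t + c i) * Fn (Ds i) (f i) (W * t + c i)) -
        Y * VG w z W c0 c * ∑ B ∈ PC Ds, ∏ i, (f i (B i) / Ph c0 (B i))| ≤
      Real.exp (-(b0 : ℝ)) * (Y * VG w z W c0 c * ∑ B ∈ PC Ds, ∏ i, (|f i (B i)| / Ph c0 (B i))) +
        (3 * Real.log z + 4) * ∑ B ∈ PC Ds, (∏ i, |f i (B i)|) *
          ∑ S ∈ Sb w z (4 * b0 + 10), (j : ℝ) ^ S.card * E ((∏ i, B i) * ∏ p ∈ S, p) := by
  classical
  obtain ⟨C0, hC0⟩ := bhg j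
  refine ⟨max C0 (2 * j), fun b0 hb0 ι _ _ hj w z D W Dm hCw hw hwz c0 c Ts Y E hF hD Ds f hG hDm => ?_⟩
  have hY := hD.Y_nonneg
  have hgd : ∀ p ∈ PK w z, 0 ≤ gd W c0 c p ∧ gd W c0 c p ≤ 2 * (j : ℝ) / p := by
    intro p hp
    have := gd_bd hF hp
    rwa [hj] at this
  have hVG : 0 ≤ VG w z W c0 c := by
    unfold VG
    refine prod_nonneg fun p hp => ?_
    have h1 := (hgd p hp).2
    have h2 : w < p := by
      unfold PK at hp
      rw [mem_filter, mem_Ioc] at hp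
      exact hp.1.1
    have h3 : 2 * j ≤ p := ((le_max_right _ _).trans hCw).trans h2.le
    have h4 : (2 : ℝ) * j ≤ p := by exact_mod_cast h3
    have h5 : (0 : ℝ) < p := by
      have : 0 < p := by omega
      exact_mod_cast this
    have h6 : 2 * (j : ℝ) / p ≤ 1 := by
      rw [div_le_one h5]
      exact h4
    linarith
  refine ⟨hVG, ?_⟩
  -- the number of `t` for the tuple `B`
  set Nn : (ι → ℕ) → ℝ := fun B =>
    (((Ts.filter (fun t => ∀ i, B i ∣ W * t + c i)).filter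
      (fun t => ∀ p ∈ PK w z, ¬ ∃ i, p ∣ W * t + c i)).card : ℝ) with hNn
  have hexp : ∑ t ∈ Ts, ∏ i, (th0 w z (W * t + c i) * Fn (Ds i) (f i) (W * t + c i)) =
      ∑ B ∈ Fintype.piFinset Ds, (∏ i, f i (B i)) * Nn B := by
    have h1 : ∀ t ∈ Ts, ∏ i, (th0 w z (W * t + c i) * Fn (Ds i) (f i) (W * t + c i)) =
        ∑ B ∈ Fintype.piFinset Ds, (∏ i, f i (B i)) *
          (if (∀ i, B i ∣ W * t + c i) ∧ ∀ p ∈ PK w z, ¬ ∃ i, p ∣ W * t + c i then (1 : ℝ) else 0) := by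
      intro t _
      rw [prod_mul_distrib, ega_th, ega_Fn, mul_sum]
      refine sum_congr rfl fun B _ => ?_
      by_cases h1 : ∀ p ∈ PK w z, ¬ ∃ i, p ∣ W * t + c i
      · by_cases h2 : ∀ i, B i ∣ W * t + c i
        · rw [if_pos h1, if_pos h2, if_pos ⟨h2, h1⟩]
          ring
        · have h3 : ¬ ((∀ i, B i ∣ W * t + c i) ∧ ∀ p ∈ PK w z, ¬ ∃ i, p ∣ W * t + c i) :=
            fun h => h2 h.1
          rw [if_neg h3, if_neg h2]
          ring
      · have h3 : ¬ ((∀ i, B i ∣ W * t + c i) ∧ ∀ p ∈ PK w z, ¬ ∃ i, p ∣ W * t + c i) :=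
          fun h => h1 h.2
        rw [if_neg h3, if_neg h1]
        ring
    rw [sum_congr rfl h1, sum_comm]
    refine sum_congr rfl fun B _ => ?_
    rw [← mul_sum, sum_boole]
    have e : Nn B = ((Ts.filter (fun t => (∀ i, B i ∣ W * t + c i) ∧
        ∀ p ∈ PK w z, ¬ ∃ i, p ∣ W * t + c i)).card : ℝ) := by
      rw [hNn]
      beta_reduce
      rw [filter_filter]
    rw [e]
  have hPC : ∑ B ∈ Fintype.piFinset Ds, (∏ i, f i (B i)) * Nn B =
      ∑ B ∈ PC Ds, (∏ i, f i (B i)) * Nn B := by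
    symm
    unfold PC
    apply sum_subset (filter_subset _ _)
    intro B hB hB'
    have hBD := Fintype.mem_piFinset.1 hB
    have h1 : Nn B = 0 := by
      rw [hNn]
      simp only [Nat.cast_eq_zero, card_eq_zero]
      rw [filter_filter, filter_eq_empty_iff]
      rintro t _ ⟨ht, _⟩
      apply hB'
      rw [mem_filter]
      exact ⟨hB, fun i i' hii => ega_cop hF (fun i => hG i (B i) (hBD i)) ht hii⟩
    rw [h1, mul_zero]
  rw [hexp, hPC]
  -- the estimate for one tuple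
  have hone : ∀ B ∈ PC Ds, |Nn B - Y / (∏ i, Ph c0 (B i)) * VG w z W c0 c| ≤
      Real.exp (-(b0 : ℝ)) * (Y / (∏ i, Ph c0 (B i)) * VG w z W c0 c) +
        (3 * Real.log z + 4) * ∑ S ∈ Sb w z (4 * b0 + 10), (j : ℝ) ^ S.card * E ((∏ i, B i) * ∏ p ∈ S, p) := by
    intro B hB
    unfold PC at hB
    rw [mem_filter] at hB
    obtain ⟨hB1, hB2⟩ := hB
    have hBD := Fintype.mem_piFinset.1 hB1
    have hPh : 0 < ∏ i, Ph c0 (B i) := prod_pos fun i _ => Ph_pos c0 (B i)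
    have h1 := hC0 b0 ((le_max_left _ _).trans hb0) w z ((le_max_left _ _).trans hCw) hw hwz
      (gd W c0 c) hgd (Ts.filter (fun t => ∀ i, B i ∣ W * t + c i)) (fun t p => ∃ i, p ∣ W * t + c i)
      (Y / (∏ i, Ph c0 (B i))) (fun S => (j : ℝ) ^ S.card * E ((∏ i, B i) * ∏ p ∈ S, p))
      (by positivity) (fun S => mul_nonneg (by positivity) (hD.E_nonneg _)) (by
        intro S hS
        have hS' := hS
        unfold Sb at hS'
        rw [mem_filter, mem_powerset] at hS'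
        have h2 := crg hwz hF hD B (fun i => hG i (B i) (hBD i)) (fun i i' h => hB2 i i' h) S hS'.1
          ((Nat.mul_le_mul_left _ hS'.2).trans (hDm B hB1))
        rw [hj] at h2
        rw [filter_filter]
        convert h2)
    rw [hNn]
    unfold VG
    convert h1
  have hRS0 : ∀ B : ι → ℕ, 0 ≤ ∑ S ∈ Sb w z (4 * b0 + 10), (j : ℝ) ^ S.card * E ((∏ i, B i) * ∏ p ∈ S, p) :=
    fun B => sum_nonneg fun S _ => mul_nonneg (by positivity) (hD.E_nonneg _)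
  have e1 : ∑ B ∈ PC Ds, (∏ i, f i (B i)) * Nn B -
      Y * VG w z W c0 c * ∑ B ∈ PC Ds, ∏ i, (f i (B i) / Ph c0 (B i)) =
      ∑ B ∈ PC Ds, (∏ i, f i (B i)) * (Nn B - Y / (∏ i, Ph c0 (B i)) * VG w z W c0 c) := by
    rw [mul_sum, ← sum_sub_distrib]
    refine sum_congr rfl fun B _ => ?_
    rw [prod_div_distrib]
    ring
  rw [e1]
  calc |∑ B ∈ PC Ds, (∏ i, f i (B i)) * (Nn B - Y / (∏ i, Ph c0 (B i)) * VG w z W c0 c)|
      ≤ ∑ B ∈ PC Ds, (∏ i, |f i (B i)|) * (Real.exp (-(b0 : ℝ)) * (Y / (∏ i, Ph c0 (B i)) * VG w z W c0 c) +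
        (3 * Real.log z + 4) * ∑ S ∈ Sb w z (4 * b0 + 10), (j : ℝ) ^ S.card * E ((∏ i, B i) * ∏ p ∈ S, p)) := by
        refine (abs_sum_le_sum_abs _ _).trans (sum_le_sum fun B hB => ?_)
        rw [abs_mul, abs_prod]
        exact mul_le_mul_of_nonneg_left (hone B hB) (prod_nonneg fun i _ => abs_nonneg _)
    _ = _ := by
        rw [mul_sum, mul_sum, mul_sum, ← sum_add_distrib]
        refine sum_congr rfl fun B _ => ?_
        rw [prod_div_distrib]
        ring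

end H73PC
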