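import Pool.Agent.H73.PC.Eva
import Pool.Agent.H73.PC.Om

/-!
# ROW HyA: the first two hypotheses of the abstract theorem

`S1 = ∑_{a=1}^mH y a`, `Wm ≥ 1` a bound for the norms, `K = card κ`, `X = I0 * (Y * v1^K)`.
PROOF of `hyA1`. `om1` (`Om.lean`) with `T = Ts`, `F t = ∏_i (g g')`, `w = wA ZH Q`, `X = Y v1^K (if n = n' then ms .. else 0)`, `ε = η (Y v1^K V(sp n ∪ sp n'))`; its hypothesis is `evA` with `κ0 = univ` (`∀ h ∈ univ, n1 h = n1' h` iff `n1 = n1'`; `∏_{h ∈ univ}`). So the difference is at most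
`ε (∑_{Ad} ∏ y)² ≤ ε S1^(2K)` (`La_sum`), and `I0 ≥ 1`, `Wm ≥ 1`.
`hyA2` in the same way from `evB`.
-/

open Finset EG H69PG

namespace H73PC

variable {κ ι : Type} [Fintype κ] [DecidableEq κ] [Fintype ι] [DecidableEq ι]

open Classical in
theorem HyA_main {mH : ℕ} {vH y ws : ℕ → ℝ} {lH η Y Wm v1 X V : ℝ} {Bf : κ → ℕ → ℕ → ℝ} {Ts : Finset ℕ} {F : ℕ → ℝ}
    (hy : ∀ a, 0 ≤ y a) (hWm : 1 ≤ Wm) (hv : 0 ≤ v1) (hη : 0 ≤ η) (hY : 0 ≤ Y) (hV : 0 ≤ V)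
    (hI0 : 1 ≤ I0 κ mH vH lH y ws)
    (h1 : ∀ n1 ∈ Ad κ mH vH lH, ∀ n1' ∈ Ad κ mH vH lH,
      |∑ t ∈ Ts, (∏ h ∈ (univ : Finset κ), (Bf h (n1 h) t * Bf h (n1' h) t)) * F t -
        (if ∀ h ∈ (univ : Finset κ), n1 h = n1' h then (∏ h ∈ (univ : Finset κ), ws (n1 h)) *
          (Y * v1 ^ (univ : Finset κ).card * X) else 0)| ≤ η * (Y * v1 ^ (univ : Finset κ).card * V)) :
    |∑ t ∈ Ts, La mH vH lH y Bf t ^ 2 * F t - (I0 κ mH vH lH y ws * (Y * v1 ^ Fintype.card κ)) * X| ≤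
      (I0 κ mH vH lH y ws * (Y * v1 ^ Fintype.card κ)) *
        ((η * (Wm * (∑ a ∈ Icc 1 mH, y a) ^ Fintype.card κ) ^ 2) * V) := by
  have hε : 0 ≤ η * (Y * v1 ^ Fintype.card κ * V) := by positivity
  have h2 := om1 (m := mH) (v := vH) (l := lH) (y := y) (w := ws) (Bf := Bf) (T := Ts) (F := F)
    (X := Y * v1 ^ Fintype.card κ * X) (ε := η * (Y * v1 ^ Fintype.card κ * V)) hy (by
      intro n hn n' hn'
      have h3 := h1 n hn n' hn'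
      rw [Finset.card_univ] at h3
      by_cases heq : n = n'
      · rw [if_pos (fun h _ => congrFun heq h)] at h3
        rw [if_pos heq]
        exact h3
      · rw [if_neg (fun hh => heq (funext fun h => hh h (Finset.mem_univ h)))] at h3
        rw [if_neg heq]
        exact h3)
  have hS0 : 0 ≤ ∑ n ∈ Ad κ mH vH lH, ∏ h, y (n h) :=
    Finset.sum_nonneg fun n _ => Finset.prod_nonneg fun h _ => hy _
  have hS1 : (∑ n ∈ Ad κ mH vH lH, ∏ h, y (n h)) ^ 2 ≤ ((∑ a ∈ Icc 1 mH, y a) ^ Fintype.card κ) ^ 2 :=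
    pow_le_pow_left₀ hS0 (La_sum hy) 2
  have hW2 : 1 ≤ Wm ^ 2 := one_le_pow₀ hWm
  have e1 : (I0 κ mH vH lH y ws * (Y * v1 ^ Fintype.card κ)) * X =
      I0 κ mH vH lH y ws * (Y * v1 ^ Fintype.card κ * X) := by ring
  rw [e1]
  refine h2.trans ?_
  calc η * (Y * v1 ^ Fintype.card κ * V) * (∑ n ∈ Ad κ mH vH lH, ∏ h, y (n h)) ^ 2
      ≤ η * (Y * v1 ^ Fintype.card κ * V) * ((∑ a ∈ Icc 1 mH, y a) ^ Fintype.card κ) ^ 2 :=
        mul_le_mul_of_nonneg_left hS1 hε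
    _ = 1 * (η * (Y * v1 ^ Fintype.card κ * V) * ((∑ a ∈ Icc 1 mH, y a) ^ Fintype.card κ) ^ 2) := (one_mul _).symm
    _ ≤ (I0 κ mH vH lH y ws * Wm ^ 2) *
        (η * (Y * v1 ^ Fintype.card κ * V) * ((∑ a ∈ Icc 1 mH, y a) ^ Fintype.card κ) ^ 2) := by
        refine mul_le_mul_of_nonneg_right ?_ (by positivity)
        nlinarith
    _ = _ := by ring

theorem hyA1 {N mP mH M w z W R Sm J : ℕ} {ZP ZH : ℕ → ℕ} {vP vH f0 y : ℕ → ℝ} {lP lH Γ η Y Wm : ℝ}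
    (hS : Sd κ ι N mP mH M z R Sm ZP ZH vP vH f0 y lP lH Γ) (hWm : 1 ≤ Wm) (hv : 0 ≤ VV w z 1) {cH : κ → ℕ} {c : ι → ℕ} {Ts : Finset ℕ}
    (hJ : Fintype.card κ + 4 * N + 2 ≤ J) (hMv : Mv w z W (2 * M) J Sm Γ η Ts Y univ (Sum.elim cH c))
    (hI0 : 1 ≤ I0 κ mH vH lH y (wA ZH (primorial z)))
    {n n' : ι → Fin (mP + 1)} (hn : n ∈ Cf ι mP N vP lP) (hn' : n' ∈ Cf ι mP N vP lP) :
    |∑ t ∈ Ts, La mH vH lH y (Bl w z W ZH cH) t ^ 2 * (∏ i, (gA w z W ZP f0 c i (n i) t * gA w z W ZP f0 c i (n' i) t)) -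
        (I0 κ mH vH lH y (wA ZH (primorial z)) * (Y * VV w z 1 ^ Fintype.card κ)) *
          (if n = n' then ms (Vu (VV w z 1)) (sA ZP (primorial z) f0) n else 0)| ≤
      (I0 κ mH vH lH y (wA ZH (primorial z)) * (Y * VV w z 1 ^ Fintype.card κ)) *
        ((η * (Wm * (∑ a ∈ Icc 1 mH, y a) ^ Fintype.card κ) ^ 2) * Vu (VV w z 1) (sp n ∪ sp n')) := by
  refine HyA_main (F := fun t => ∏ i, (gA w z W ZP f0 c i (n i) t * gA w z W ZP f0 c i (n' i) t))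
    hS.y_nonneg hWm hv hMv.2.1 hMv.1 (pow_nonneg hv _) hI0 ?_
  intro n1 hn1 n1' hn1'
  exact evA hS hJ hMv univ (fun _ _ => Finset.mem_univ _) (fun _ => Finset.mem_univ _) hn1 hn1' hn hn'

theorem hyA2 {N mP mH M w z W R Sm J : ℕ} {ZP ZH : ℕ → ℕ} {vP vH f0 y : ℕ → ℝ} {lP lH Γ η Y Wm : ℝ}
    (hS : Sd κ ι N mP mH M z R Sm ZP ZH vP vH f0 y lP lH Γ) (hWm : 1 ≤ Wm) (hv : 0 ≤ VV w z 1) {cH : κ → ℕ} {c : ι → ℕ} {Ts : Finset ℕ}
    (hJ : Fintype.card κ + 4 * N + 2 ≤ J) (hMv : Mv w z W (2 * M) J Sm Γ η Ts Y univ (Sum.elim cH c))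
    (hI0 : 1 ≤ I0 κ mH vH lH y (wA ZH (primorial z)))
    {n n' : ι → Fin (mP + 1)} (hn : n ∈ Cf ι mP N vP lP) (hn' : n' ∈ Cf ι mP N vP lP) (k : ι) (hk : n k = 0) (hk' : n' k = 0) :
    |∑ t ∈ Ts, La mH vH lH y (Bl w z W ZH cH) t ^ 2 *
          ((∏ i, (gA w z W ZP f0 c i (n i) t * gA w z W ZP f0 c i (n' i) t)) * bA w z W R c k t) -
        (I0 κ mH vH lH y (wA ZH (primorial z)) * (Y * VV w z 1 ^ Fintype.card κ)) *
          (if n = n' then 1 / GG (primorial z) R * (Vu (VV w z 1) (insert k (sp n)) *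
            ∏ i, sA ZP (primorial z) f0 (n i)) else 0)| ≤
      (I0 κ mH vH lH y (wA ZH (primorial z)) * (Y * VV w z 1 ^ Fintype.card κ)) *
        ((η * (Wm * (∑ a ∈ Icc 1 mH, y a) ^ Fintype.card κ) ^ 2) * Vu (VV w z 1) (insert k (sp n ∪ sp n'))) := by
  refine HyA_main (F := fun t => (∏ i, (gA w z W ZP f0 c i (n i) t * gA w z W ZP f0 c i (n' i) t)) * bA w z W R c k t)
    hS.y_nonneg hWm hv hMv.2.1 hMv.1 (pow_nonneg hv _) hI0 ?_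
  intro n1 hn1 n1' hn1'
  exact evB hS hJ hMv univ (fun _ _ => Finset.mem_univ _) (fun _ => Finset.mem_univ _) hn1 hn1' hn hn' k hk hk'

end H73PC
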