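import Pool.Agent.H73.PC.Eva
import Pool.Agent.H73.PC.Om
import Pool.Agent.H69.PG.H4v

/-!
# ROW HyB: the hypothesis for the prime values

`S1 = ∑_{a=1}^mH y a`, `Wm ≥ 1` a bound for the norms `wA ZH Q a`, `K = card κ`, `Ts` = a set of `t` for which `W t + cH h0` is a prime larger than `z` and all `ZH a`.
PROOF of `blp`: if `p = W t + cH h0` is a prime `> z` and `> ZH a` then `th0 = 1`, and the only divisor of `p` in `sq Q (ZH a)` is `1`, so `Bl = lamA 1 = wA` (`lamA_one`, `H4v_filter` in `Pool/Agent/H69/PG/H4v.lean`).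
PROOF of `hyB`. `om3` (`Om.lean`) with `T = Ts`, `F t = ∏_i (g g')`, `w = wA ZH Q`, `X = Y v1^(K-1) (if n = n' then ms .. else 0)`, `ε = η (Y v1^(K-1) V(sp n ∪ sp n'))`; its hypothesis is `evA` with `κ0 = univ.erase h0`, `S = univ.erase (inl h0)`. So the difference is at most
`ε (∑_{Ad} (∏ y) w(n h0))² ≤ ε (Wm S1^K)²` (`La_sum`, `y ≥ 0`), and `Ip ≥ 1`.
-/

open Finset EG H69PG

namespace H73PC

variable {κ ι : Type} [Fintype κ] [DecidableEq κ] [Fintype ι] [DecidableEq ι]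

theorem blp {w z W a t : ℕ} {ZH : ℕ → ℕ} {cH : κ → ℕ} {h0 : κ} (hZ0 : ZH 0 = 1) (hZ : Monotone ZH)
    (hp : (W * t + cH h0).Prime) (hpz : z < W * t + cH h0) (hpZ : ZH a < W * t + cH h0) :
    Bl w z W ZH cH h0 a t = wA ZH (primorial z) a := by
  have hth : th0 w z (W * t + cH h0) = 1 := by
    unfold th0
    rw [if_pos]
    intro p hp'
    unfold PK at hp'
    rw [Finset.mem_filter, Finset.mem_Ioc] at hp'
    intro hd
    have := (Nat.prime_dvd_prime_iff_eq hp'.2 hp).1 hd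
    omega
  have hZa : 1 ≤ ZH a := by
    have := hZ (Nat.zero_le a)
    rw [hZ0] at this
    exact this
  unfold Bl
  rw [hth, one_mul]
  unfold Fn
  rw [H4v_filter (y := ZH a) hZa le_rfl ?_, Finset.sum_singleton, lamA_one _ hZ0 hZ]
  intro p hp1 hp2 hd
  have := (Nat.prime_dvd_prime_iff_eq hp1 hp).1 hd
  omega

theorem hyB {N mP mH M w z W R Sm J : ℕ} {ZP ZH : ℕ → ℕ} {vP vH f0 y : ℕ → ℝ} {lP lH Γ η Y Wm : ℝ}
    (hS : Sd κ ι N mP mH M z R Sm ZP ZH vP vH f0 y lP lH Γ) (hWm : 1 ≤ Wm) (hwm : ∀ a ≤ mH, wA ZH (primorial z) a ≤ Wm)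
    (hv : 0 ≤ VV w z 1) {cH : κ → ℕ} {c : ι → ℕ} {Ts : Finset ℕ} (h0 : κ)
    (hTs : ∀ t ∈ Ts, (W * t + cH h0).Prime ∧ z < W * t + cH h0 ∧ ∀ a ≤ mH, ZH a < W * t + cH h0)
    (hJ : Fintype.card κ + 4 * N + 2 ≤ J)
    (hMv : Mv w z W (2 * M) J Sm Γ η Ts Y (univ.erase (Sum.inl h0)) (Sum.elim cH c))
    (hIp : 1 ≤ Ip mH vH lH y (wA ZH (primorial z)) h0)
    {n n' : ι → Fin (mP + 1)} (hn : n ∈ Cf ι mP N vP lP) (hn' : n' ∈ Cf ι mP N vP lP) :
    |∑ t ∈ Ts, La mH vH lH y (Bl w z W ZH cH) t ^ 2 * (∏ i, (gA w z W ZP f0 c i (n i) t * gA w z W ZP f0 c i (n' i) t)) -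
        (Ip mH vH lH y (wA ZH (primorial z)) h0 * (Y * VV w z 1 ^ (Fintype.card κ - 1))) *
          (if n = n' then ms (Vu (VV w z 1)) (sA ZP (primorial z) f0) n else 0)| ≤
      (Ip mH vH lH y (wA ZH (primorial z)) h0 * (Y * VV w z 1 ^ (Fintype.card κ - 1))) *
        ((η * (Wm * (∑ a ∈ Icc 1 mH, y a) ^ Fintype.card κ) ^ 2) * Vu (VV w z 1) (sp n ∪ sp n')) := by
  have hY : 0 ≤ Y := hMv.1
  have hη : 0 ≤ η := hMv.2.1
  have hw0 : ∀ a, 0 ≤ wA ZH (primorial z) a := fun a => wA_nonneg _ hS.ZmH a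
  have hy : ∀ a, 0 ≤ y a := hS.y_nonneg
  have hVu : 0 ≤ Vu (VV w z 1) (sp n ∪ sp n') := by
    unfold Vu
    exact pow_nonneg hv _
  have hcard : (univ.erase h0 : Finset κ).card = Fintype.card κ - 1 := by
    rw [Finset.card_erase_of_mem (Finset.mem_univ _), Finset.card_univ]
  have h3 := om3 (κ := κ) (m := mH) (v := vH) (l := lH) (y := y) (w := wA ZH (primorial z)) hy
    (Bf := Bl w z W ZH cH) (T := Ts)
    (F := fun t => ∏ i, (gA w z W ZP f0 c i (n i) t * gA w z W ZP f0 c i (n' i) t))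
    (X := Y * VV w z 1 ^ (Fintype.card κ - 1) * (if n = n' then ms (Vu (VV w z 1)) (sA ZP (primorial z) f0) n else 0))
    (ε := η * (Y * VV w z 1 ^ (Fintype.card κ - 1) * Vu (VV w z 1) (sp n ∪ sp n'))) h0 hw0
    (by
      intro t ht a ha
      rw [Finset.mem_Icc] at ha
      obtain ⟨h1, h2, h4⟩ := hTs t ht
      exact blp hS.Z0H hS.ZmH h1 h2 (h4 a ha.2))
    (by
      intro n1 hn1 n1' hn1'
      have h := evA hS hJ hMv (univ.erase h0) (by
        intro h hh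
        rw [Finset.mem_erase] at hh ⊢
        exact ⟨fun he => hh.1 (Sum.inl.inj he), Finset.mem_univ _⟩) (by
        intro i
        rw [Finset.mem_erase]
        exact ⟨Sum.inr_ne_inl, Finset.mem_univ _⟩) hn1 hn1' hn hn'
      rw [hcard] at h
      by_cases hc : ∀ h, h ≠ h0 → n1 h = n1' h
      · rw [if_pos hc]
        rw [if_pos (fun h hh => hc h (Finset.ne_of_mem_erase hh))] at h
        exact h
      · rw [if_neg hc]
        rw [if_neg (fun hh => hc (fun h hne => hh h (Finset.mem_erase.2 ⟨hne, Finset.mem_univ _⟩)))] at h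
        exact h)
  have hSum : ∑ n1 ∈ Ad κ mH vH lH, (∏ h, y (n1 h)) * wA ZH (primorial z) (n1 h0) ≤
      Wm * (∑ a ∈ Icc 1 mH, y a) ^ Fintype.card κ := by
    calc ∑ n1 ∈ Ad κ mH vH lH, (∏ h, y (n1 h)) * wA ZH (primorial z) (n1 h0)
        ≤ ∑ n1 ∈ Ad κ mH vH lH, Wm * (∏ h, y (n1 h)) := by
          refine Finset.sum_le_sum fun n1 _ => ?_
          rw [mul_comm]
          exact mul_le_mul_of_nonneg_right (hwm _ (Nat.lt_succ_iff.1 (n1 h0).isLt))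
            (Finset.prod_nonneg fun h _ => hy _)
      _ = Wm * ∑ n1 ∈ Ad κ mH vH lH, ∏ h, y (n1 h) := by rw [Finset.mul_sum]
      _ ≤ Wm * (∑ a ∈ Icc 1 mH, y a) ^ Fintype.card κ :=
          mul_le_mul_of_nonneg_left (La_sum hy) (by linarith)
  have hSum0 : 0 ≤ ∑ n1 ∈ Ad κ mH vH lH, (∏ h, y (n1 h)) * wA ZH (primorial z) (n1 h0) :=
    Finset.sum_nonneg fun n1 _ => mul_nonneg (Finset.prod_nonneg fun h _ => hy _) (hw0 _)
  have hsq := pow_le_pow_left₀ hSum0 hSum 2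
  have hYV : 0 ≤ Y * VV w z 1 ^ (Fintype.card κ - 1) := mul_nonneg hY (pow_nonneg hv _)
  have hE : 0 ≤ η * (Y * VV w z 1 ^ (Fintype.card κ - 1) * Vu (VV w z 1) (sp n ∪ sp n')) :=
    mul_nonneg hη (mul_nonneg hYV hVu)
  have h4 : Ip mH vH lH y (wA ZH (primorial z)) h0 *
      (Y * VV w z 1 ^ (Fintype.card κ - 1) * (if n = n' then ms (Vu (VV w z 1)) (sA ZP (primorial z) f0) n else 0)) =
      (Ip mH vH lH y (wA ZH (primorial z)) h0 * (Y * VV w z 1 ^ (Fintype.card κ - 1))) *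
          (if n = n' then ms (Vu (VV w z 1)) (sA ZP (primorial z) f0) n else 0) := by ring
  rw [h4] at h3
  refine h3.trans ?_
  set A := (Wm * (∑ a ∈ Icc 1 mH, y a) ^ Fintype.card κ) ^ 2 with hA
  have hA0 : 0 ≤ A := sq_nonneg _
  calc η * (Y * VV w z 1 ^ (Fintype.card κ - 1) * Vu (VV w z 1) (sp n ∪ sp n')) *
        (∑ n1 ∈ Ad κ mH vH lH, (∏ h, y (n1 h)) * wA ZH (primorial z) (n1 h0)) ^ 2
      ≤ η * (Y * VV w z 1 ^ (Fintype.card κ - 1) * Vu (VV w z 1) (sp n ∪ sp n')) * A :=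
        mul_le_mul_of_nonneg_left hsq hE
    _ = 1 * (η * (Y * VV w z 1 ^ (Fintype.card κ - 1) * Vu (VV w z 1) (sp n ∪ sp n')) * A) := by ring
    _ ≤ Ip mH vH lH y (wA ZH (primorial z)) h0 *
          (η * (Y * VV w z 1 ^ (Fintype.card κ - 1) * Vu (VV w z 1) (sp n ∪ sp n')) * A) :=
        mul_le_mul_of_nonneg_right hIp (mul_nonneg hE hA0)
    _ = (Ip mH vH lH y (wA ZH (primorial z)) h0 * (Y * VV w z 1 ^ (Fintype.card κ - 1))) *
        ((η * A) * Vu (VV w z 1) (sp n ∪ sp n')) := by ring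

end H73PC
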