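import Pool.Agent.H73.PC.Clx

/-!
# Assembly: the interface theorem
-/

open Finset EG H69PG Pool.Agent.H17 Filter

namespace H73PC

open Classical in
theorem clxf (m : ℕ) : ∃ K : ℕ, m + 1 ≤ K ∧ ∀ Λ : ℝ, 1 ≤ Λ → ∃ e1 c C x0 : ℝ, 0 < e1 ∧ e1 ≤ 1 ∧ 0 < c ∧ 0 < C ∧
    ∀ x : ℝ, x0 ≤ x → ∀ b : ℕ, b < WW (yy x) →
    (∀ H : Finset ℕ, H.card = K → (∀ h ∈ H, 1 ≤ h ∧ (h : ℝ) ≤ Λ * Real.log x ∧ Nat.Coprime (Xo x + b + h) (WW (yy x))) →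
      c * (To x : ℝ) * Vo x ^ K ≤ (((range (To x)).filter (fun t =>
        m + 1 ≤ (H.filter (fun h => (Xo x + b + WW (yy x) * t + h).Prime)).card ∧
        (∀ k : ℕ, 1 ≤ k → (k : ℝ) ≤ Λ * Real.log x → k ∉ H → ¬ (Xo x + b + WW (yy x) * t + k).Prime) ∧
        ∀ h ∈ H, Ro (yy x) (x ^ e1) (Xo x + b + WW (yy x) * t + h))).card : ℝ)) ∧
    (∀ U : Finset ℕ, U.card ≤ 2 * K → (∀ h ∈ U, 1 ≤ h ∧ (h : ℝ) ≤ Λ * Real.log x ∧ Nat.Coprime (Xo x + b + h) (WW (yy x))) →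
      (((range (To x)).filter (fun t => ∀ h ∈ U, Ro (yy x) (x ^ e1) (Xo x + b + WW (yy x) * t + h))).card : ℝ) ≤
        C * (To x : ℝ) * Vo x ^ U.card) := by
  obtain ⟨Cg, hCg, hw1, hw2⟩ := wsb
  obtain ⟨Cv, hCv, hmub⟩ := mub
  obtain ⟨B, mH, K, hB2, hB8, hmH, hmK, hK1, hK2⟩ := parK Cg Cv hCg hCv m
  refine ⟨K, hmK, fun Λ hΛ => ?_⟩
  obtain ⟨mP, N, hmP, hN, hPar⟩ := parP Cg Cv Λ B K hB2
  obtain ⟨C0, hC0⟩ := mvX (2 * K + 4 * N + 2)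
  have hCg0 : 0 < Cg := by linarith
  have hCv0 : 0 < Cv := by linarith
  have hsH := Clx_sc_pos hB2 (m := mH) (a := 1) le_rfl
  have hsP := Clx_sc_pos hB2 (m := mP) (a := 1) le_rfl
  have hsH' := Clx_sc_le hB2 mH 1
  have hsP' := Clx_sc_le hB2 mP 1
  have he0 : 0 < min (sc (1 / 64) B mH 1 / (4 * Cg)) (sc (1 / 64) B mP 1 / (4 * Cg)) :=
    lt_min (by positivity) (by positivity)
  have hS1 : 0 < ∑ a ∈ Icc 1 mH, 1 / sc (1 / 64) B mH a := by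
    refine Finset.sum_pos (fun a ha => ?_) ⟨1, mem_Icc.2 ⟨le_rfl, hmH⟩⟩
    have := Clx_sc_pos hB2 (m := mH) (mem_Icc.1 ha).1
    positivity
  obtain ⟨e1, b0, he1, he1', hb0, hlev, hη1, hη2⟩ := parE Cg Cv Λ (∑ a ∈ Icc 1 mH, 1 / sc (1 / 64) B mH a)
    (min (sc (1 / 64) B mH 1 / (4 * Cg)) (sc (1 / 64) B mP 1 / (4 * Cg))) hCg hCv hΛ hS1.le he0 K N mP (2 * K + 4 * N + 2) C0
  have heH : 4 * Cg * e1 ≤ sc (1 / 64) B mH 1 := by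
    have := he1'.trans (min_le_left _ _)
    rw [le_div_iff₀ (by positivity)] at this
    linarith
  have heP : 4 * Cg * e1 ≤ sc (1 / 64) B mP 1 := by
    have := he1'.trans (min_le_right _ _)
    rw [le_div_iff₀ (by positivity)] at this
    linarith
  have he64 : e1 ≤ 1 / 64 := by
    have : 1 * e1 ≤ Cg * e1 := mul_le_mul_of_nonneg_right hCg he1.le
    linarith
  have hΓ1 : 1 ≤ 2 * Cg / e1 := by
    rw [le_div_iff₀ he1]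
    linarith
  obtain ⟨M, hM⟩ : ∃ M : ℕ, 1 + e1 ≤ e1 * M := by
    obtain ⟨M, hM⟩ := exists_nat_ge ((1 + e1) / e1)
    refine ⟨M, ?_⟩
    rw [div_le_iff₀ he1] at hM
    linarith
  obtain ⟨x1, hx1⟩ := hC0 b0 hb0 (2 * M) e1 (2 * Cg / e1) Λ he1 (by linarith) hΓ1 hΛ hlev
  obtain ⟨x2, hx2⟩ := hw1 B e1 mH hB2 hB8 hmH he1 heH
  obtain ⟨x3, hx3⟩ := hw1 B e1 mP hB2 hB8 hmP he1 heP
  obtain ⟨x4, hx4⟩ := hw2 (1 / 64) e1 he1 he64 (by norm_num)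
  obtain ⟨x5, hx5⟩ := hmub Λ e1 hΛ he1 (by linarith)
  obtain ⟨x6, hx6⟩ := rgX Λ hΛ
  obtain ⟨x7, hx7⟩ := Clx_ev he1 he64 hM
  obtain ⟨A, hA⟩ : ∃ A : ℝ, A = Clx_A K N mP M (2 * Cg / e1) (∑ a ∈ Icc 1 mH, 1 / sc (1 / 64) B mH a) (2 * Λ * Cv / e1) := ⟨_, rfl⟩
  have hA0 : 0 < A := by
    rw [hA]
    exact Clx_A_pos (by omega) hΓ1 hS1 (by positivity)
  refine ⟨e1, 1 / (Cv * e1) ^ K / A, 2 * (Cv / e1) ^ (2 * K + 4 * N + 2), max x1 (max x2 (max x3 (max x4 (max x5 (max x6 x7))))), he1,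
    by linarith, by positivity, by positivity, fun x hx b hb => ?_⟩
  simp only [max_le_iff] at hx
  obtain ⟨y1, y2, y3, y4, y5, y6, y7⟩ := hx
  obtain ⟨g1, g2, g3, g4, g5, g6, g7⟩ := hx7 x y7
  obtain ⟨hTo, hWL, hrg⟩ := hx6 x y6
  obtain ⟨hVo, hv1, hv2, hmu⟩ := hx5 x y5
  obtain ⟨hG1, hG2⟩ := hx4 x y4
  have hlog : 0 ≤ Λ * Real.log x := by
    have := Real.log_nonneg g1
    positivity
  have hsub : ∀ U : Finset ℕ, (∀ h ∈ U, 1 ≤ h ∧ (h : ℝ) ≤ Λ * Real.log x ∧ Nat.Coprime (Xo x + b + h) (WW (yy x))) → U ⊆ Rk x Λ b := by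
    intro U hU h hh
    obtain ⟨h1, h2, h3⟩ := hU h hh
    unfold Rk
    rw [mem_filter, mem_Icc]
    exact ⟨⟨h1, (Nat.le_floor_iff hlog).2 h2⟩, h3⟩
  constructor
  · intro H hHK hH
    have hHR := hsub H hH
    obtain ⟨hMv, hMp⟩ := hx1 x y1 b hb H hHR
    have key := Clx_low (m := m) (J0 := 2 * K + 4 * N + 2) hCg hCv hB2 hΛ hmH hmP hN (by omega) (by omega) hK1 hK2 hPar he1 heH heP hη1 hη2
      g1 g2 g3 g4 g5 g6 g7 hTo (hrg b hb) (hx2 x y2) (hx3 x y3) hG1 hG2 hVo hv1 hv2 (hmu b) hHK hHR hMv hMp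
    rw [← hA] at key
    have e2 : 1 / (Cv * e1) ^ K / A * (To x : ℝ) * Vo x ^ K = ((To x : ℝ) * (Vo x / (Cv * e1)) ^ K) / A := by
      rw [div_pow]
      ring
    rw [e2, div_le_iff₀ hA0]
    linarith
  · intro U hUK hU
    have hUR := hsub U hU
    obtain ⟨hMv, -⟩ := hx1 x y1 b hb U hUR
    have hv0 : 0 ≤ VV (yy x) ⌊x ^ e1⌋₊ 1 := le_trans (by positivity) hv1
    exact upz (by omega) hΓ1 he1 (by linarith) hCv g1 hv2 hv0 hη1 (by omega) hUR hMv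

end H73PC
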