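import Pool.Agent.H73.PC.Dg

/-!
# ROW Rob: the amplitudes outside the cluster, and the term of the rough values

`s_a = sc (1/64) B m a`, `κ0 = 1/∑_{a=1}^m w_a/s_a ≤ 4 Cg e1/m`, `f0 a = κ0/s_a` for `a ∈ Icc 1 m`, else `0`.
PROOF. `∑ f0 w = 1`; `f0 a ≤ κ0/s_1 ≤ 4 Cg e1/s_1 ≤ 1`; `∑ f0² w s = κ0² ∑ w/s = κ0`, `∑ f0² w = κ0² ∑ w/s² ≤ κ0/s_1` (`s_a ≥ s_1`). Hence the last quantity is at most `G μ² (κ0/(s_1 N) + κ0/(3/64)) ≤ (128 Cg e1) (2 Λ Cv/e1)² (4 Cg e1/m) (1/(s_1 N) + 64/3)`.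
-/

open Finset EG H69PG

namespace H73PC

/-- the amplitudes -/
noncomputable def f0r (B : ℝ) (m : ℕ) (w : ℕ → ℝ) (a : ℕ) : ℝ :=
  if a ∈ Icc 1 m then (1 / sc (1 / 64) B m a) / ∑ b ∈ Icc 1 m, w b / sc (1 / 64) B m b else 0

theorem Rob_sc {B : ℝ} {m a : ℕ} (hB : 2 ≤ B) (ha : a ∈ Icc 1 m) :
    0 < sc (1 / 64) B m a ∧ sc (1 / 64) B m 1 ≤ sc (1 / 64) B m a := by
  obtain ⟨h1, h2⟩ := mem_Icc.1 ha
  have hB0 : 0 < B := by linarith
  have hB1 : 1 ≤ B := by linarith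
  unfold sc
  rw [if_neg (by omega), if_neg (by omega)]
  constructor
  · positivity
  · have h3 : B ^ (m - a) ≤ B ^ (m - 1) := pow_le_pow_right₀ hB1 (by omega)
    exact div_le_div_of_nonneg_left (by norm_num) (by positivity) h3

theorem rob {Cg Cv Λ B e1 μ G : ℝ} {m N : ℕ} {w : ℕ → ℝ} (hCg : 1 ≤ Cg) (hCv : 1 ≤ Cv) (hΛ : 1 ≤ Λ) (hB : 2 ≤ B) (hm : 1 ≤ m) (hN : 1 ≤ N)
    (he1 : 0 < e1) (he1' : 4 * Cg * e1 ≤ sc (1 / 64) B m 1) (hw0 : ∀ a, 0 ≤ w a)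
    (hw : ∀ a ∈ Icc 1 m, sc (1 / 64) B m a / (4 * Cg * e1) ≤ w a) (hμ : 0 ≤ μ) (hμ' : μ ≤ 2 * Λ * Cv / e1)
    (hG : 0 ≤ G) (hG' : G ≤ 128 * Cg * e1) :
    (∀ a, 0 ≤ f0r B m w a ∧ f0r B m w a ≤ 1) ∧ ∑ a ∈ Icc 1 m, f0r B m w a * w a = 1 ∧
    G * (μ * (μ * (∑ a ∈ Icc 1 m, f0r B m w a ^ 2 * w a) / N +
        μ * (∑ a ∈ Icc 1 m, f0r B m w a ^ 2 * w a * sc (1 / 64) B m a) / (1 / 16 - 1 / 64))) ≤
      2048 * Cg ^ 2 * Λ ^ 2 * Cv ^ 2 / m * (1 / (sc (1 / 64) B m 1 * N) + 64 / 3) := by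
  have hCg0 : 0 < Cg := by linarith
  have hs : ∀ a ∈ Icc 1 m, 0 < sc (1 / 64) B m a ∧ sc (1 / 64) B m 1 ≤ sc (1 / 64) B m a :=
    fun a ha => Rob_sc hB ha
  have h1m : 1 ∈ Icc 1 m := mem_Icc.2 ⟨le_rfl, hm⟩
  have hs1 := (hs 1 h1m).1
  have hm0 : (1 : ℝ) ≤ m := by exact_mod_cast hm
  have hN0 : (0 : ℝ) < N := by exact_mod_cast hN
  have hD : 0 < 4 * Cg * e1 := by positivity
  set S := ∑ b ∈ Icc 1 m, w b / sc (1 / 64) B m b with hS
  have hSlow : (m : ℝ) / (4 * Cg * e1) ≤ S := by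
    have h1 : ∀ b ∈ Icc 1 m, 1 / (4 * Cg * e1) ≤ w b / sc (1 / 64) B m b := by
      intro b hb
      have h2 := (hs b hb).1
      rw [le_div_iff₀ h2]
      refine le_trans (le_of_eq ?_) (hw b hb)
      ring
    have h2 := sum_le_sum h1
    rw [sum_const, Nat.card_Icc, Nat.add_sub_cancel, nsmul_eq_mul, mul_one_div] at h2
    exact h2
  have hSpos : 0 < S := lt_of_lt_of_le (by positivity) hSlow
  have hSinv : 1 / S ≤ 4 * Cg * e1 / m := by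
    rw [div_le_div_iff₀ hSpos (by linarith)]
    rw [div_le_iff₀ hD] at hSlow
    linarith
  have hf0 : ∀ a ∈ Icc 1 m, f0r B m w a = (1 / sc (1 / 64) B m a) / S := by
    intro a ha
    unfold f0r
    rw [if_pos ha, ← hS]
  have hS1 : 1 / sc (1 / 64) B m 1 ≤ S := by
    refine le_trans ?_ hSlow
    rw [div_le_div_iff₀ hs1 hD]
    nlinarith
  refine ⟨fun a => ?_, ?_, ?_⟩
  · by_cases ha : a ∈ Icc 1 m
    · rw [hf0 a ha]
      obtain ⟨h1, h2⟩ := hs a ha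
      refine ⟨by positivity, (div_le_one hSpos).2 (le_trans ?_ hS1)⟩
      exact one_div_le_one_div_of_le hs1 h2
    · unfold f0r
      rw [if_neg ha]
      exact ⟨le_rfl, zero_le_one⟩
  · have h1 : ∀ a ∈ Icc 1 m, f0r B m w a * w a = (w a / sc (1 / 64) B m a) / S := by
      intro a ha
      rw [hf0 a ha]
      ring
    rw [sum_congr rfl h1, ← sum_div, ← hS, div_self hSpos.ne']
  · have hX : ∑ a ∈ Icc 1 m, f0r B m w a ^ 2 * w a ≤ 1 / S * (1 / sc (1 / 64) B m 1) := by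
      have h1 : ∀ a ∈ Icc 1 m, f0r B m w a ^ 2 * w a ≤
          (w a / sc (1 / 64) B m a) * (1 / S ^ 2 * (1 / sc (1 / 64) B m 1)) := by
        intro a ha
        obtain ⟨h1, h2⟩ := hs a ha
        rw [hf0 a ha]
        have h3 : (1 / sc (1 / 64) B m a / S) ^ 2 * w a =
            (w a / sc (1 / 64) B m a) * (1 / S ^ 2 * (1 / sc (1 / 64) B m a)) := by
          field_simp
        rw [h3]
        refine mul_le_mul_of_nonneg_left (mul_le_mul_of_nonneg_left ?_ (by positivity))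
          (div_nonneg (hw0 a) h1.le)
        exact one_div_le_one_div_of_le hs1 h2
      refine (sum_le_sum h1).trans (le_of_eq ?_)
      rw [← sum_mul, ← hS]
      field_simp
    have hY : ∑ a ∈ Icc 1 m, f0r B m w a ^ 2 * w a * sc (1 / 64) B m a = 1 / S := by
      have h1 : ∀ a ∈ Icc 1 m, f0r B m w a ^ 2 * w a * sc (1 / 64) B m a =
          (w a / sc (1 / 64) B m a) * (1 / S ^ 2) := by
        intro a ha
        obtain ⟨h1, h2⟩ := hs a ha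
        rw [hf0 a ha]
        field_simp
      rw [sum_congr rfl h1, ← sum_mul, ← hS]
      field_simp
    rw [hY]
    set X := ∑ a ∈ Icc 1 m, f0r B m w a ^ 2 * w a with hXd
    set s1 := sc (1 / 64) B m 1 with hs1d
    have hμ2 : μ ^ 2 ≤ (2 * Λ * Cv / e1) ^ 2 := pow_le_pow_left₀ hμ hμ' 2
    have hE : 0 ≤ 1 / (s1 * N) + 64 / 3 := by positivity
    have hXN : X / N ≤ 1 / S * (1 / (s1 * N)) := by
      rw [div_le_iff₀ hN0]
      refine hX.trans (le_of_eq ?_)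
      field_simp
    calc G * (μ * (μ * X / N + μ * (1 / S) / (1 / 16 - 1 / 64)))
        = G * μ ^ 2 * (X / N + 1 / S * (64 / 3)) := by ring
      _ ≤ G * μ ^ 2 * (1 / S * (1 / (s1 * N) + 64 / 3)) := by
          refine mul_le_mul_of_nonneg_left ?_ (by positivity)
          rw [mul_add]
          linarith
      _ ≤ (128 * Cg * e1) * (2 * Λ * Cv / e1) ^ 2 * (4 * Cg * e1 / m * (1 / (s1 * N) + 64 / 3)) := by
          refine mul_le_mul (mul_le_mul hG' hμ2 (by positivity) (by positivity))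
            (mul_le_mul_of_nonneg_right hSinv hE) (by positivity) (by positivity)
      _ = 2048 * Cg ^ 2 * Λ ^ 2 * Cv ^ 2 / m * (1 / (s1 * N) + 64 / 3) := by
          field_simp
          ring

end H73PC
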