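import Pool.Agent.H73.PC.Dg

/-!
# ROW SdX: the data for the scales

PROOF. `Zs x (1/64) B m a = ⌊x^(s_a)⌋`, `s_a ≤ 1/64`, `s` is monotone (`B ≥ 1`; natural subtraction), `x ≥ 1`. `Zs ≤ x^(1/64) ≤ z^M`.
`lev`: `ZH a ≤ x^(sc a)` for all `a` (also `a = 0`: `1 = x^0`), so `∏_h ZH(n1 h) ZH(n1' h) ≤ x^(∑ sc(n1 h) + ∑ sc(n1' h)) ≤ x^(2/32)` by the definition of `Ad`, similarly `∏_i ZP(n i) ZP(n' i) ≤ x^(2/16)` by the definition of `Cf`, `R * R ≤ x^(2/64)`;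
the product is a natural number `≤ x^(1/16 + 1/8 + 1/32) = x^(7/32)`.
-/

open Finset EG H69PG

namespace H73PC

theorem SdX_sc {B : ℝ} (hB : 1 ≤ B) (m a : ℕ) : 0 ≤ sc (1 / 64) B m a ∧ sc (1 / 64) B m a ≤ 1 / 64 := by
  unfold sc
  split_ifs
  · exact ⟨le_rfl, by norm_num⟩
  · have h1 : (1 : ℝ) ≤ B ^ (m - a) := one_le_pow₀ hB
    exact ⟨by positivity, div_le_self (by norm_num) h1⟩

theorem SdX_scm {B : ℝ} (hB : 1 ≤ B) (m : ℕ) : Monotone (sc (1 / 64) B m) := by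
  intro a b hab
  by_cases ha : a = 0
  · have h0 : sc (1 / 64) B m a = 0 := by rw [sc, if_pos ha]
    rw [h0]
    exact (SdX_sc hB m b).1
  · have hb : b ≠ 0 := by omega
    unfold sc
    rw [if_neg ha, if_neg hb]
    have h1 : (0 : ℝ) < B ^ (m - b) := by positivity
    exact div_le_div_of_nonneg_left (by norm_num) h1 (pow_le_pow_right₀ hB (by omega))

theorem SdX_Z1 {x B : ℝ} (hx : 1 ≤ x) (hB : 1 ≤ B) (m a : ℕ) :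
    1 ≤ Zs x (1 / 64) B m a ∧ (Zs x (1 / 64) B m a : ℝ) ≤ x ^ sc (1 / 64) B m a := by
  have hs := SdX_sc hB m a
  have h1 : 1 ≤ x ^ sc (1 / 64) B m a := Real.one_le_rpow hx hs.1
  unfold Zs
  split_ifs with h
  · exact ⟨le_rfl, by rw [Nat.cast_one]; exact h1⟩
  · exact ⟨Nat.le_floor (by rw [Nat.cast_one]; exact h1), Nat.floor_le (by linarith)⟩

theorem SdX_Zm {x B : ℝ} (hx : 1 ≤ x) (hB : 1 ≤ B) (m : ℕ) : Monotone (Zs x (1 / 64) B m) := by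
  intro a b hab
  by_cases ha : a = 0
  · have h0 : Zs x (1 / 64) B m a = 1 := by rw [Zs, if_pos ha]
    rw [h0]
    exact (SdX_Z1 hx hB m b).1
  · have hb : b ≠ 0 := by omega
    unfold Zs
    rw [if_neg ha, if_neg hb]
    exact Nat.floor_mono (Real.rpow_le_rpow_of_exponent_le hx (SdX_scm hB m hab))

theorem SdX_prod {x B : ℝ} (hx : 1 ≤ x) (hB : 1 ≤ B) (m : ℕ) {α : Type} [Fintype α]
    (n n' : α → Fin (m + 1)) {l : ℝ} (h : ∑ i, sc (1 / 64) B m (n i) ≤ l)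
    (h' : ∑ i, sc (1 / 64) B m (n' i) ≤ l) :
    ∏ i, ((Zs x (1 / 64) B m (n i) : ℝ) * (Zs x (1 / 64) B m (n' i) : ℝ)) ≤ x ^ (2 * l) := by
  have hx0 : 0 < x := by linarith
  calc ∏ i, ((Zs x (1 / 64) B m (n i) : ℝ) * (Zs x (1 / 64) B m (n' i) : ℝ))
      ≤ ∏ i, (x ^ sc (1 / 64) B m (n i) * x ^ sc (1 / 64) B m (n' i)) := by
        refine Finset.prod_le_prod (fun i _ => by positivity) fun i _ => ?_
        exact mul_le_mul (SdX_Z1 hx hB m _).2 (SdX_Z1 hx hB m _).2 (by positivity) (by positivity)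
    _ = x ^ (∑ i, sc (1 / 64) B m (n i) + ∑ i, sc (1 / 64) B m (n' i)) := by
        rw [Finset.prod_mul_distrib, Real.rpow_add hx0, Real.rpow_sum_of_pos hx0,
          Real.rpow_sum_of_pos hx0]
    _ ≤ x ^ (2 * l) := Real.rpow_le_rpow_of_exponent_le hx (by linarith)

theorem sdX (κ ι : Type) [Fintype κ] [DecidableEq κ] [Fintype ι] [DecidableEq ι] {x e1 B Γ : ℝ} {N mP mH M : ℕ} {f0 : ℕ → ℝ}
    (hx : 1 ≤ x) (hB : 1 ≤ B) (hz : 2 ≤ ⌊x ^ e1⌋₊) (hM : 2 * M ≤ ⌊x ^ e1⌋₊) (hzM : x ^ (1 / 64 : ℝ) ≤ (⌊x ^ e1⌋₊ : ℝ) ^ M) (hΓ : 1 ≤ Γ)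
    (hGP : ∀ a ≤ mP, GG (primorial ⌊x ^ e1⌋₊) (Zs x (1 / 64) B mP a) ≤ Γ)
    (hGH : ∀ a ≤ mH, GG (primorial ⌊x ^ e1⌋₊) (Zs x (1 / 64) B mH a) ≤ Γ)
    (hGR : GG (primorial ⌊x ^ e1⌋₊) ⌊x ^ (1 / 64 : ℝ)⌋₊ ≤ Γ) (hf0 : ∀ a, 0 ≤ f0 a ∧ f0 a ≤ 1) :
    Sd κ ι N mP mH M ⌊x ^ e1⌋₊ ⌊x ^ (1 / 64 : ℝ)⌋₊ ⌊x ^ (7 / 32 : ℝ)⌋₊ (Zs x (1 / 64) B mP) (Zs x (1 / 64) B mH)
      (sc (1 / 64) B mP) (sc (1 / 64) B mH) f0 (fun a => 1 / sc (1 / 64) B mH a) (1 / 16) (1 / 32) Γ := by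
  have hx0 : 0 < x := by linarith
  have hZM : ∀ m a : ℕ, Zs x (1 / 64) B m a ≤ ⌊x ^ e1⌋₊ ^ M := by
    intro m a
    have h1 := (SdX_Z1 hx hB m a).2
    have h2 : x ^ sc (1 / 64) B m a ≤ x ^ (1 / 64 : ℝ) :=
      Real.rpow_le_rpow_of_exponent_le hx (SdX_sc hB m a).2
    have h3 : (Zs x (1 / 64) B m a : ℝ) ≤ ((⌊x ^ e1⌋₊ ^ M : ℕ) : ℝ) := by
      push_cast
      exact h1.trans (h2.trans hzM)
    exact_mod_cast h3
  have hR : 1 ≤ x ^ (1 / 64 : ℝ) := Real.one_le_rpow hx (by norm_num)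
  have hRle : ((⌊x ^ (1 / 64 : ℝ)⌋₊ : ℕ) : ℝ) ≤ x ^ (1 / 64 : ℝ) := Nat.floor_le (by positivity)
  refine
    { z2 := hz
      hM := hM
      Z0P := by rw [Zs, if_pos rfl]
      Z0H := by rw [Zs, if_pos rfl]
      ZmP := SdX_Zm hx hB mP
      ZmH := SdX_Zm hx hB mH
      ZMP := fun a _ => hZM mP a
      ZMH := fun a _ => hZM mH a
      RM := ?_
      R_pos := Nat.le_floor (by rw [Nat.cast_one]; exact hR)
      Γ_one := hΓ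
      ΓP := hGP
      ΓH := hGH
      ΓR := hGR
      f0_nonneg := fun a => (hf0 a).1
      f0_le := fun a => (hf0 a).2
      y_nonneg := fun a => div_nonneg zero_le_one (SdX_sc hB mH a).1
      lev := ?_ }
  · have h3 : ((⌊x ^ (1 / 64 : ℝ)⌋₊ : ℕ) : ℝ) ≤ ((⌊x ^ e1⌋₊ ^ M : ℕ) : ℝ) := by
      push_cast
      exact hRle.trans hzM
    exact_mod_cast h3
  · intro n1 h1 n1' h1' n hn n' hn'
    unfold Ad at h1 h1'
    unfold Cf at hn hn'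
    have a1 := (Finset.mem_filter.1 h1).2.2
    have a2 := (Finset.mem_filter.1 h1').2.2
    have a3 := (Finset.mem_filter.1 hn).2.2
    have a4 := (Finset.mem_filter.1 hn').2.2
    apply Nat.le_floor
    push_cast
    have b1 := SdX_prod hx hB mH n1 n1' a1 a2
    have b2 := SdX_prod hx hB mP n n' a3 a4
    have b3 : ((⌊x ^ (1 / 64 : ℝ)⌋₊ : ℕ) : ℝ) * ((⌊x ^ (1 / 64 : ℝ)⌋₊ : ℕ) : ℝ) ≤
        x ^ (1 / 32 : ℝ) := by
      calc ((⌊x ^ (1 / 64 : ℝ)⌋₊ : ℕ) : ℝ) * ((⌊x ^ (1 / 64 : ℝ)⌋₊ : ℕ) : ℝ) ≤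
            x ^ (1 / 64 : ℝ) * x ^ (1 / 64 : ℝ) :=
            mul_le_mul hRle hRle (by positivity) (by positivity)
        _ = x ^ (1 / 32 : ℝ) := by
            rw [← Real.rpow_add hx0]
            norm_num
    have p1 : 0 ≤ ∏ i, ((Zs x (1 / 64) B mP (n i) : ℝ) * (Zs x (1 / 64) B mP (n' i) : ℝ)) :=
      Finset.prod_nonneg fun i _ => by positivity
    calc (∏ h, ((Zs x (1 / 64) B mH (n1 h) : ℝ) * (Zs x (1 / 64) B mH (n1' h) : ℝ))) *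
          (∏ i, ((Zs x (1 / 64) B mP (n i) : ℝ) * (Zs x (1 / 64) B mP (n' i) : ℝ))) *
          (((⌊x ^ (1 / 64 : ℝ)⌋₊ : ℕ) : ℝ) * ((⌊x ^ (1 / 64 : ℝ)⌋₊ : ℕ) : ℝ))
        ≤ x ^ (2 * (1 / 32 : ℝ)) * x ^ (2 * (1 / 16 : ℝ)) * x ^ (1 / 32 : ℝ) := by
          refine mul_le_mul (mul_le_mul b1 b2 p1 (by positivity)) b3 (by positivity) (by positivity)
      _ = x ^ (7 / 32 : ℝ) := by
          rw [← Real.rpow_add hx0, ← Real.rpow_add hx0]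
          norm_num

end H73PC
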