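import Pool.Agent.H73.PC.MvX
import Pool.Agent.H73.PC.Eva

/-!
# ROW Upz: upper bound for rough tuples, and bookkeeping

* `upz`. PROOF. `mvX` with `H = U` and `evC` with `κ = {h // h ∈ U}`, `κ0 = univ`, `U = ∅`: `∑_{t < T} ∏_{h ∈ U} th0 w z (W t + Xo x + b + h) ≤ 2 T VV^|U|`, and the summand is `1` for every `t` in the set (`Ro`: no prime factor in `(w, x^e1]`, hence none in `(w, z]`). `VV ≤ (Cv/e1) Vo` (`mub`), `Cv/e1 ≥ 1`.
* `bkl`. PROOF. For `h ∈ H`: `th0 = 1` means that no prime in `(w, z]` divides `L`; a prime `p > z = ⌊x^e1⌋` satisfies `p > x^e1`. For `k ∉ H`, `1 ≤ k ≤ Λ L`: if `(Xo x + b + k, W) = 1` then `k ∈ Rk \ H` and `L = W t + Xo x + b + k` has a prime factor `≤ y0 < x/3 ≤ L`, so it is not prime; otherwise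
a prime `p ≤ w` divides `W` and `Xo x + b + k`, so it divides `L > w`. The number of `h ∈ H` with `L_h` prime is the same for `H` and the subtype.
-/

open Finset EG H69PG Pool.Agent.H17

namespace H73PC

theorem Upz_th0_one {w z L : ℕ} (h : ∀ p : ℕ, p.Prime → w < p → p ≤ z → ¬ p ∣ L) : th0 w z L = 1 := by
  unfold th0
  rw [if_pos]
  intro p hp
  unfold PK at hp
  rw [Finset.mem_filter, Finset.mem_Ioc] at hp
  exact h p hp.2 hp.1.1 hp.1.2

theorem Upz_th0_of_one {w z L : ℕ} (h : th0 w z L = 1) {p : ℕ} (hp : p.Prime) (hw : w < p) (hz : p ≤ z) : ¬ p ∣ L := by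
  unfold th0 at h
  by_contra hcon
  rw [if_neg] at h
  · norm_num at h
  · intro hall
    refine hall p ?_ hcon
    unfold PK
    rw [Finset.mem_filter, Finset.mem_Ioc]
    exact ⟨⟨hw, hz⟩, hp⟩

theorem Upz_th0_nonneg (w z L : ℕ) : 0 ≤ th0 w z L := by
  unfold th0
  split_ifs
  · exact zero_le_one
  · exact le_rfl

open Classical in
theorem upz {J0 M b b0 : ℕ} {x e1 Λ Γ Cv : ℝ} (hz : 1 ≤ ⌊x ^ e1⌋₊) (hΓ : 1 ≤ Γ) (he1 : 0 < e1) (he1' : e1 ≤ 1) (hCv : 1 ≤ Cv) (hx : 1 ≤ x)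
    (hv : VV (yy x) ⌊x ^ e1⌋₊ 1 ≤ Cv / e1 * Vo x) (hv0 : 0 ≤ VV (yy x) ⌊x ^ e1⌋₊ 1) (hη : 8 * Real.exp (-(b0 : ℝ)) * (4 * Γ ^ 5) ^ J0 ≤ 1)
    {U : Finset ℕ} (hU : U.card ≤ J0) (hUR : U ⊆ Rk x Λ b)
    (hMv : Mv (yy x) ⌊x ^ e1⌋₊ (WW (yy x)) M J0 ⌊x ^ (7 / 32 : ℝ)⌋₊ Γ (8 * Real.exp (-(b0 : ℝ)) * (4 * Γ ^ 5) ^ J0) (range (To x)) (To x : ℝ)
      univ (cf x Λ b U)) :
    (((range (To x)).filter (fun t => ∀ h ∈ U, Ro (yy x) (x ^ e1) (Xo x + b + WW (yy x) * t + h))).card : ℝ) ≤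
      2 * (Cv / e1) ^ J0 * (To x : ℝ) * Vo x ^ U.card := by
  have hSm : 1 ≤ ⌊x ^ (7 / 32 : ℝ)⌋₊ := by
    rw [Nat.one_le_floor_iff]
    exact Real.one_le_rpow hx (by norm_num)
  have hcU : (univ : Finset {h // h ∈ U}).card = U.card := by
    rw [Finset.card_univ, Fintype.card_coe]
  have h1 := evC (κ := {h // h ∈ U}) (ι := {k // k ∈ Rk x Λ b \ U}) (J := J0) hz hΓ hSm
    (cH := fun h => Xo x + b + h) (c := fun k => Xo x + b + k) (Ts := range (To x)) (S := univ) hMv hη univ ∅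
    (by rw [hcU]; simpa using hU) (fun _ _ => Finset.mem_univ _) (fun _ => Finset.mem_univ _)
  simp only [Finset.prod_empty, mul_one] at h1
  rw [hcU] at h1
  have hVu : Vu (VV (yy x) ⌊x ^ e1⌋₊ 1) (∅ : Finset {k // k ∈ Rk x Λ b \ U}) = 1 := by
    unfold Vu
    simp
  rw [hVu, mul_one] at h1
  have hVo : 0 ≤ Vo x := by
    unfold Vo
    have := Real.log_nonneg hx
    positivity
  have h2 : (((range (To x)).filter (fun t => ∀ h ∈ U, Ro (yy x) (x ^ e1) (Xo x + b + WW (yy x) * t + h))).card : ℝ) ≤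
      ∑ t ∈ range (To x), ∏ h : {h // h ∈ U}, th0 (yy x) ⌊x ^ e1⌋₊ (WW (yy x) * t + (Xo x + b + h)) := by
    rw [Finset.card_eq_sum_ones, Nat.cast_sum, Finset.sum_filter]
    refine Finset.sum_le_sum fun t _ => ?_
    split_ifs with ht
    · have h3 : ∏ h : {h // h ∈ U}, th0 (yy x) ⌊x ^ e1⌋₊ (WW (yy x) * t + (Xo x + b + h)) = 1 := by
        refine Finset.prod_eq_one fun h _ => ?_
        refine Upz_th0_one fun p hp hw hz' hd => ?_
        have h4 := ht h.1 h.2 p hp (by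
          have e : Xo x + b + WW (yy x) * t + (h : ℕ) = WW (yy x) * t + (Xo x + b + h) := by ring
          rw [e]
          exact hd) hw
        have h5 : (p : ℝ) ≤ x ^ e1 := (Nat.le_floor_iff (by positivity)).1 hz'
        exact absurd h4 (not_lt.2 h5)
      rw [h3]
      simp
    · exact Finset.prod_nonneg fun h _ => Upz_th0_nonneg _ _ _
  refine h2.trans (h1.trans ?_)
  have hCe : 1 ≤ Cv / e1 := by
    rw [le_div_iff₀ he1]
    linarith
  have h6 : VV (yy x) ⌊x ^ e1⌋₊ 1 ^ U.card ≤ (Cv / e1) ^ J0 * Vo x ^ U.card := by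
    refine (pow_le_pow_left₀ hv0 hv _).trans ?_
    rw [mul_pow]
    exact mul_le_mul_of_nonneg_right (pow_le_pow_right₀ hCe hU) (by positivity)
  calc 2 * ((To x : ℝ) * VV (yy x) ⌊x ^ e1⌋₊ 1 ^ U.card) ≤ 2 * ((To x : ℝ) * ((Cv / e1) ^ J0 * Vo x ^ U.card)) := by
        gcongr
    _ = 2 * (Cv / e1) ^ J0 * (To x : ℝ) * Vo x ^ U.card := by ring

open Classical in
theorem bkl {m b y0 : ℕ} {x e1 Λ : ℝ} (hx : 1 ≤ x) (hw : (yy x : ℝ) < x / 3) (hy0 : (y0 : ℝ) < x / 3)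
    (hX : x / 3 ≤ ((Xo x + b : ℕ) : ℝ)) {H : Finset ℕ} (hH : H ⊆ Rk x Λ b) :
    (((range (To x)).filter (fun t => (∀ h : {h // h ∈ H}, th0 (yy x) ⌊x ^ e1⌋₊ (WW (yy x) * t + (Xo x + b + h)) = 1) ∧
        (∀ i : {k // k ∈ Rk x Λ b \ H}, ∃ p : ℕ, p.Prime ∧ p ≤ y0 ∧ p ∣ WW (yy x) * t + (Xo x + b + i)) ∧
        m + 1 ≤ ((univ : Finset {h // h ∈ H}).filter (fun h => (WW (yy x) * t + (Xo x + b + h)).Prime)).card)).card : ℝ) ≤
      (((range (To x)).filter (fun t =>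
        m + 1 ≤ (H.filter (fun h => (Xo x + b + WW (yy x) * t + h).Prime)).card ∧
        (∀ k : ℕ, 1 ≤ k → (k : ℝ) ≤ Λ * Real.log x → k ∉ H → ¬ (Xo x + b + WW (yy x) * t + k).Prime) ∧
        ∀ h ∈ H, Ro (yy x) (x ^ e1) (Xo x + b + WW (yy x) * t + h))).card : ℝ) := by
  have e : ∀ t k : ℕ, Xo x + b + WW (yy x) * t + k = WW (yy x) * t + (Xo x + b + k) := fun t k => by ring
  have hcard : ((range (To x)).filter (fun t => (∀ h : {h // h ∈ H}, th0 (yy x) ⌊x ^ e1⌋₊ (WW (yy x) * t + (Xo x + b + h)) = 1) ∧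
        (∀ i : {k // k ∈ Rk x Λ b \ H}, ∃ p : ℕ, p.Prime ∧ p ≤ y0 ∧ p ∣ WW (yy x) * t + (Xo x + b + i)) ∧
        m + 1 ≤ ((univ : Finset {h // h ∈ H}).filter (fun h => (WW (yy x) * t + (Xo x + b + h)).Prime)).card)).card ≤
      ((range (To x)).filter (fun t =>
        m + 1 ≤ (H.filter (fun h => (Xo x + b + WW (yy x) * t + h).Prime)).card ∧
        (∀ k : ℕ, 1 ≤ k → (k : ℝ) ≤ Λ * Real.log x → k ∉ H → ¬ (Xo x + b + WW (yy x) * t + k).Prime) ∧
        ∀ h ∈ H, Ro (yy x) (x ^ e1) (Xo x + b + WW (yy x) * t + h))).card := by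
    refine Finset.card_le_card fun t ht => ?_
    rw [Finset.mem_filter] at ht ⊢
    obtain ⟨htT, h1, h2, h3⟩ := ht
    refine ⟨htT, ?_, ?_, ?_⟩
    · refine h3.trans ?_
      refine Finset.card_le_card fun h hh => ?_
      rw [Finset.mem_filter] at hh ⊢
      refine ⟨?_, by rw [e]; exact hh.2⟩
      have h4 := hh.1
      simp only [Finset.bind_def, Finset.pure_def, Finset.mem_sup, Finset.mem_univ, Finset.mem_singleton, true_and] at h4
      obtain ⟨a, rfl⟩ := h4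
      exact a.2
    · intro k hk1 hk2 hkH hprime
      rw [e] at hprime
      have hL : ((Xo x + b : ℕ) : ℝ) ≤ ((WW (yy x) * t + (Xo x + b + k) : ℕ) : ℝ) := by
        have : Xo x + b ≤ WW (yy x) * t + (Xo x + b + k) := by omega
        exact_mod_cast this
      by_cases hcop : Nat.Coprime (Xo x + b + k) (WW (yy x))
      · have hkR : k ∈ Rk x Λ b \ H := by
          rw [Finset.mem_sdiff]
          refine ⟨?_, hkH⟩
          unfold Rk
          rw [Finset.mem_filter, Finset.mem_Icc]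
          exact ⟨⟨hk1, Nat.le_floor hk2⟩, hcop⟩
        obtain ⟨p, hp1, hp2, hp3⟩ := h2 ⟨k, hkR⟩
        have h4 : p = WW (yy x) * t + (Xo x + b + k) := (Nat.prime_dvd_prime_iff_eq hp1 hprime).1 hp3
        have h5 : (p : ℝ) ≤ y0 := by exact_mod_cast hp2
        have h6 : (p : ℝ) = ((WW (yy x) * t + (Xo x + b + k) : ℕ) : ℝ) := by exact_mod_cast h4
        linarith
      · obtain ⟨p, hp, hp1, hp2⟩ := Nat.Prime.not_coprime_iff_dvd.1 hcop
        have hpw : p ≤ yy x := by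
          have h7 : p ∣ primorial (yy x) := hp2
          exact (hp.dvd_primorial_iff).1 h7
        have h8 : p ∣ WW (yy x) * t + (Xo x + b + k) := (Dvd.dvd.mul_right hp2 t).add hp1
        have h4 : p = WW (yy x) * t + (Xo x + b + k) := (Nat.prime_dvd_prime_iff_eq hp hprime).1 h8
        have h5 : (p : ℝ) ≤ yy x := by exact_mod_cast hpw
        have h6 : (p : ℝ) = ((WW (yy x) * t + (Xo x + b + k) : ℕ) : ℝ) := by exact_mod_cast h4
        linarith
    · intro h hh p hp hd hwp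
      rw [e] at hd
      by_contra hcon
      push Not at hcon
      exact Upz_th0_of_one (h1 ⟨h, hh⟩) hp hwp (Nat.le_floor hcon) hd
  exact_mod_cast hcard

open Classical in
/-- `bkl` with the count taken over the subtype (in `bkl` the filter is elaborated over `ℕ` by a coercion of `univ`) -/
theorem Upz_bkl_sub {m b y0 : ℕ} {x e1 Λ : ℝ} (hx : 1 ≤ x) (hw : (yy x : ℝ) < x / 3) (hy0 : (y0 : ℝ) < x / 3)
    (hX : x / 3 ≤ ((Xo x + b : ℕ) : ℝ)) {H : Finset ℕ} (hH : H ⊆ Rk x Λ b) :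
    (((range (To x)).filter (fun t => (∀ h : {h // h ∈ H}, th0 (yy x) ⌊x ^ e1⌋₊ (WW (yy x) * t + (Xo x + b + h)) = 1) ∧
        (∀ i : {k // k ∈ Rk x Λ b \ H}, ∃ p : ℕ, p.Prime ∧ p ≤ y0 ∧ p ∣ WW (yy x) * t + (Xo x + b + i)) ∧
        m + 1 ≤ (univ.filter (fun h : {h // h ∈ H} => (WW (yy x) * t + (Xo x + b + (h : ℕ))).Prime)).card)).card : ℝ) ≤
      (((range (To x)).filter (fun t =>
        m + 1 ≤ (H.filter (fun h => (Xo x + b + WW (yy x) * t + h).Prime)).card ∧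
        (∀ k : ℕ, 1 ≤ k → (k : ℝ) ≤ Λ * Real.log x → k ∉ H → ¬ (Xo x + b + WW (yy x) * t + k).Prime) ∧
        ∀ h ∈ H, Ro (yy x) (x ^ e1) (Xo x + b + WW (yy x) * t + h))).card : ℝ) := by
  have e : ∀ t k : ℕ, Xo x + b + WW (yy x) * t + k = WW (yy x) * t + (Xo x + b + k) := fun t k => by ring
  have hcard : ((range (To x)).filter (fun t => (∀ h : {h // h ∈ H}, th0 (yy x) ⌊x ^ e1⌋₊ (WW (yy x) * t + (Xo x + b + h)) = 1) ∧
        (∀ i : {k // k ∈ Rk x Λ b \ H}, ∃ p : ℕ, p.Prime ∧ p ≤ y0 ∧ p ∣ WW (yy x) * t + (Xo x + b + i)) ∧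
        m + 1 ≤ (univ.filter (fun h : {h // h ∈ H} => (WW (yy x) * t + (Xo x + b + (h : ℕ))).Prime)).card)).card ≤
      ((range (To x)).filter (fun t =>
        m + 1 ≤ (H.filter (fun h => (Xo x + b + WW (yy x) * t + h).Prime)).card ∧
        (∀ k : ℕ, 1 ≤ k → (k : ℝ) ≤ Λ * Real.log x → k ∉ H → ¬ (Xo x + b + WW (yy x) * t + k).Prime) ∧
        ∀ h ∈ H, Ro (yy x) (x ^ e1) (Xo x + b + WW (yy x) * t + h))).card := by
    refine Finset.card_le_card fun t ht => ?_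
    rw [Finset.mem_filter] at ht ⊢
    obtain ⟨htT, h1, h2, h3⟩ := ht
    refine ⟨htT, ?_, ?_, ?_⟩
    · refine h3.trans ?_
      refine Finset.card_le_card_of_injOn (fun h : {h // h ∈ H} => (h : ℕ)) ?_ ?_
      · intro h hh
        rw [Finset.mem_coe, Finset.mem_filter] at hh
        rw [Finset.mem_coe, Finset.mem_filter, e]
        exact ⟨h.2, hh.2⟩
      · intro h _ h' _ hhh
        exact Subtype.ext hhh
    · intro k hk1 hk2 hkH hprime
      rw [e] at hprime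
      have hL : ((Xo x + b : ℕ) : ℝ) ≤ ((WW (yy x) * t + (Xo x + b + k) : ℕ) : ℝ) := by
        have : Xo x + b ≤ WW (yy x) * t + (Xo x + b + k) := by omega
        exact_mod_cast this
      by_cases hcop : Nat.Coprime (Xo x + b + k) (WW (yy x))
      · have hkR : k ∈ Rk x Λ b \ H := by
          rw [Finset.mem_sdiff]
          refine ⟨?_, hkH⟩
          unfold Rk
          rw [Finset.mem_filter, Finset.mem_Icc]
          exact ⟨⟨hk1, Nat.le_floor hk2⟩, hcop⟩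
        obtain ⟨p, hp1, hp2, hp3⟩ := h2 ⟨k, hkR⟩
        have h4 : p = WW (yy x) * t + (Xo x + b + k) := (Nat.prime_dvd_prime_iff_eq hp1 hprime).1 hp3
        have h5 : (p : ℝ) ≤ y0 := by exact_mod_cast hp2
        have h6 : (p : ℝ) = ((WW (yy x) * t + (Xo x + b + k) : ℕ) : ℝ) := by exact_mod_cast h4
        linarith
      · obtain ⟨p, hp, hp1, hp2⟩ := Nat.Prime.not_coprime_iff_dvd.1 hcop
        have hpw : p ≤ yy x := by
          have h7 : p ∣ primorial (yy x) := hp2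
          exact (hp.dvd_primorial_iff).1 h7
        have h8 : p ∣ WW (yy x) * t + (Xo x + b + k) := (Dvd.dvd.mul_right hp2 t).add hp1
        have h4 : p = WW (yy x) * t + (Xo x + b + k) := (Nat.prime_dvd_prime_iff_eq hp hprime).1 h8
        have h5 : (p : ℝ) ≤ yy x := by exact_mod_cast hpw
        have h6 : (p : ℝ) = ((WW (yy x) * t + (Xo x + b + k) : ℕ) : ℝ) := by exact_mod_cast h4
        linarith
    · intro h hh p hp hd hwp
      rw [e] at hd
      by_contra hcon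
      push Not at hcon
      exact Upz_th0_of_one (h1 ⟨h, hh⟩) hp hwp (Nat.le_floor hcon) hd
  exact_mod_cast hcard

end H73PC
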