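import Pool.Agent.H69.PG.Ggb
import Pool.Agent.H73.PC.Dg

/-!
# ROW Wsb: the norms of the blocks for the scales

PROOF. `Cg` = the constant of `ggb`. For large `x`: `log z, log Z_a, log R` are within a factor `2` of `e1 L`, `s_a L`, `r L` (`L = log x`, `⌊x^e⌋ ≥ x^e/2 ≥ x^(e/2)`), and at most these; `2 ≤ z ≤ Z_a` as `e1 ≤ s_1 ≤ s_a`.
Upper bounds: `GG(Z_a) ≤ Cg log Z_a/log z ≤ 2 Cg s_a/e1`, `wA ≤ GG(Z_a)`. Lower bound for `a ≥ 2`: `wA = GG(Z_a) - GG(Z_(a-1)) ≥ log Z_a/(Cg log z) - Cg log Z_(a-1)/log z ≥ s_a/(2 Cg e1) - 2 Cg s_a/(B e1) ≥ s_a/(4 Cg e1)` (`B ≥ 8 Cg²`, `s_(a-1) = s_a/B`);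
for `a = 1`: `GG(Z_0) = GG(1) = 1` (`gg_one`), `wA = GG(Z_1) - 1 ≥ s_1/(2 Cg e1) - 1 ≥ s_1/(4 Cg e1)` as `4 Cg e1 ≤ s_1`. `GG(R) ≥ log R/(Cg log z) ≥ r/(2 Cg e1)`.
-/

open Finset EG H69PG

namespace H73PC

/-- auxiliary: the logarithm of the integral part of a power -/
theorem Wsb_fl {e : ℝ} (he : 0 < e) : ∀ᶠ x : ℝ in Filter.atTop,
    2 ≤ ⌊x ^ e⌋₊ ∧ e / 2 * Real.log x ≤ Real.log (⌊x ^ e⌋₊ : ℝ) ∧
      Real.log (⌊x ^ e⌋₊ : ℝ) ≤ e * Real.log x ∧ 0 < Real.log x := by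
  have h1 : ∀ᶠ x : ℝ in Filter.atTop, (4 : ℝ) ≤ x ^ e :=
    (tendsto_rpow_atTop he).eventually_ge_atTop 4
  filter_upwards [h1, Filter.eventually_gt_atTop (1 : ℝ)] with x hx hx1
  have hx0 : 0 < x := by linarith
  have hL : 0 < Real.log x := Real.log_pos hx1
  have h2 : x ^ e - 1 < (⌊x ^ e⌋₊ : ℝ) := Nat.sub_one_lt_floor _
  have h3 : (⌊x ^ e⌋₊ : ℝ) ≤ x ^ e := Nat.floor_le (by linarith)
  have h4 : x ^ e / 2 ≤ (⌊x ^ e⌋₊ : ℝ) := by linarith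
  have hle : Real.log (x ^ e) = e * Real.log x := Real.log_rpow hx0 e
  have hp : 0 < (⌊x ^ e⌋₊ : ℝ) := by linarith
  refine ⟨?_, ?_, ?_, hL⟩
  · exact Nat.le_floor (by push_cast; linarith)
  · have h5 : Real.log (x ^ e / 2) ≤ Real.log (⌊x ^ e⌋₊ : ℝ) :=
      Real.log_le_log (by linarith) h4
    rw [Real.log_div (by linarith) (by norm_num), hle] at h5
    have h6 : Real.log 4 ≤ e * Real.log x := by
      rw [← hle]
      exact Real.log_le_log (by norm_num) hx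
    have h7 : Real.log 4 = 2 * Real.log 2 := by
      rw [show (4 : ℝ) = 2 ^ 2 by norm_num, Real.log_pow]
      push_cast
      ring
    linarith
  · rw [← hle]
    exact Real.log_le_log hp h3

theorem Wsb_gg {C : ℝ} (hC : 1 ≤ C)
    (hg : ∀ z y : ℕ, 2 ≤ z → z ≤ y →
      Real.log y / (C * Real.log z) ≤ GG (primorial z) y ∧
        GG (primorial z) y ≤ C * (Real.log y / Real.log z))
    {e1 s : ℝ} (he : 0 < e1) (hs : e1 ≤ s) : ∀ᶠ x : ℝ in Filter.atTop,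
    s / (2 * C * e1) ≤ GG (primorial ⌊x ^ e1⌋₊) ⌊x ^ s⌋₊ ∧
      GG (primorial ⌊x ^ e1⌋₊) ⌊x ^ s⌋₊ ≤ 2 * C * s / e1 := by
  filter_upwards [Wsb_fl he, Wsb_fl (lt_of_lt_of_le he hs), Filter.eventually_ge_atTop (1 : ℝ)]
    with x h1 h2 hx1
  obtain ⟨a1, a2, a3, hL⟩ := h1
  obtain ⟨b1, b2, b3, _⟩ := h2
  have hzy : ⌊x ^ e1⌋₊ ≤ ⌊x ^ s⌋₊ :=
    Nat.floor_le_floor (Real.rpow_le_rpow_of_exponent_le hx1 hs)
  obtain ⟨g1, g2⟩ := hg _ _ a1 hzy
  have hs0 : 0 < s := lt_of_lt_of_le he hs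
  have hC0 : 0 < C := by linarith
  have hz0 : 0 < Real.log (⌊x ^ e1⌋₊ : ℝ) := lt_of_lt_of_le (by positivity) a2
  have hy0 : 0 < Real.log (⌊x ^ s⌋₊ : ℝ) := lt_of_lt_of_le (by positivity) b2
  constructor
  · refine le_trans ?_ g1
    have e : s / (2 * C * e1) = s / 2 * Real.log x / (C * (e1 * Real.log x)) := by
      field_simp
    rw [e]
    exact div_le_div₀ hy0.le b2 (by positivity) (mul_le_mul_of_nonneg_left a3 hC0.le)
  · refine le_trans g2 ?_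
    have e : 2 * C * s / e1 = C * (s * Real.log x / (e1 / 2 * Real.log x)) := by
      field_simp
    rw [e]
    refine mul_le_mul_of_nonneg_left ?_ hC0.le
    exact div_le_div₀ (by positivity) b3 (by positivity) a2

theorem Wsb_pos (Q y : ℕ) : 0 ≤ GG Q y := by
  unfold GG
  exact sum_nonneg (fun r _ => by positivity)

theorem wsb : ∃ Cg : ℝ, 1 ≤ Cg ∧
    (∀ (B e1 : ℝ) (m : ℕ), 2 ≤ B → 8 * Cg ^ 2 ≤ B → 1 ≤ m → 0 < e1 → 4 * Cg * e1 ≤ sc (1 / 64) B m 1 → ∃ x0 : ℝ, ∀ x : ℝ, x0 ≤ x →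
      ∀ a ∈ Icc 1 m, sc (1 / 64) B m a / (4 * Cg * e1) ≤ wA (Zs x (1 / 64) B m) (primorial ⌊x ^ e1⌋₊) a ∧
        wA (Zs x (1 / 64) B m) (primorial ⌊x ^ e1⌋₊) a ≤ 2 * Cg * sc (1 / 64) B m a / e1 ∧
        GG (primorial ⌊x ^ e1⌋₊) (Zs x (1 / 64) B m a) ≤ 2 * Cg * sc (1 / 64) B m a / e1) ∧
    (∀ r e1 : ℝ, 0 < e1 → e1 ≤ r → r ≤ 1 → ∃ x0 : ℝ, ∀ x : ℝ, x0 ≤ x →
      r / (2 * Cg * e1) ≤ GG (primorial ⌊x ^ e1⌋₊) ⌊x ^ r⌋₊ ∧ GG (primorial ⌊x ^ e1⌋₊) ⌊x ^ r⌋₊ ≤ 2 * Cg * r / e1) := by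
  obtain ⟨C, hC, hg⟩ := ggb
  have hC0 : 0 < C := by linarith
  refine ⟨C, hC, ?_, ?_⟩
  · intro B e1 m hB hB2 hm he hs1
    have hB0 : 0 < B := by linarith
    have hB1 : 1 ≤ B := by linarith
    have hsc : ∀ a ∈ Icc 1 m, sc (1 / 64) B m a = 1 / 64 / B ^ (m - a) := by
      intro a ha
      have h1 := (mem_Icc.1 ha).1
      unfold sc
      rw [if_neg (by omega)]
    have hsp : ∀ a ∈ Icc 1 m, 0 < sc (1 / 64) B m a := by
      intro a ha
      rw [hsc a ha]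
      positivity
    have hsle : ∀ a ∈ Icc 1 m, sc (1 / 64) B m 1 ≤ sc (1 / 64) B m a := by
      intro a ha
      rw [hsc a ha, hsc 1 (mem_Icc.2 ⟨le_rfl, hm⟩)]
      have h1 : m - a ≤ m - 1 := by
        have := (mem_Icc.1 ha).1
        omega
      exact div_le_div_of_nonneg_left (by norm_num) (by positivity) (pow_le_pow_right₀ hB1 h1)
    have hes : ∀ a ∈ Icc 1 m, e1 ≤ sc (1 / 64) B m a := by
      intro a ha
      have h1 := hsle a ha
      have h2 : e1 ≤ 4 * C * e1 := by nlinarith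
      linarith
    have hev : ∀ᶠ x : ℝ in Filter.atTop, ∀ a ∈ Icc 1 m,
        sc (1 / 64) B m a / (2 * C * e1) ≤
          GG (primorial ⌊x ^ e1⌋₊) ⌊x ^ (sc (1 / 64) B m a)⌋₊ ∧
        GG (primorial ⌊x ^ e1⌋₊) ⌊x ^ (sc (1 / 64) B m a)⌋₊ ≤
          2 * C * sc (1 / 64) B m a / e1 :=
      (Finset.eventually_all _).2 (fun a ha => Wsb_gg hC hg he (hes a ha))
    obtain ⟨x0, hx0⟩ := Filter.eventually_atTop.1 hev
    refine ⟨x0, fun x hx a ha => ?_⟩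
    have hZ : ∀ b ∈ Icc 1 m, Zs x (1 / 64) B m b = ⌊x ^ (sc (1 / 64) B m b)⌋₊ := by
      intro b hb
      have h1 := (mem_Icc.1 hb).1
      unfold Zs
      rw [if_neg (by omega)]
    obtain ⟨h1, h2⟩ := hx0 x hx a ha
    rw [← hZ a ha] at h1 h2
    have ha1 := (mem_Icc.1 ha).1
    have ham := (mem_Icc.1 ha).2
    have hwA : wA (Zs x (1 / 64) B m) (primorial ⌊x ^ e1⌋₊) a =
        GG (primorial ⌊x ^ e1⌋₊) (Zs x (1 / 64) B m a) -
          GG (primorial ⌊x ^ e1⌋₊) (Zs x (1 / 64) B m (a - 1)) := by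
      unfold wA
      rw [if_neg (by omega)]
    have hnn := Wsb_pos (primorial ⌊x ^ e1⌋₊) (Zs x (1 / 64) B m (a - 1))
    have hsa := hsp a ha
    have hprev : GG (primorial ⌊x ^ e1⌋₊) (Zs x (1 / 64) B m (a - 1)) ≤
        sc (1 / 64) B m a / (4 * C * e1) := by
      by_cases h : a = 1
      · have hZ0 : Zs x (1 / 64) B m (a - 1) = 1 := by
          rw [h]
          rfl
        rw [hZ0, gg_one, h, le_div_iff₀ (by positivity), one_mul]
        exact hs1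
      · have hb : a - 1 ∈ Icc 1 m := mem_Icc.2 ⟨by omega, by omega⟩
        obtain ⟨_, h4⟩ := hx0 x hx (a - 1) hb
        rw [← hZ (a - 1) hb] at h4
        refine le_trans h4 ?_
        have hss : sc (1 / 64) B m (a - 1) = sc (1 / 64) B m a / B := by
          rw [hsc a ha, hsc (a - 1) hb]
          have e : m - (a - 1) = (m - a) + 1 := by omega
          rw [e, pow_succ, ← div_div (1 / 64 : ℝ)]
        rw [hss]
        obtain ⟨σ, hσ⟩ : ∃ σ, σ = sc (1 / 64) B m a := ⟨_, rfl⟩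
        rw [← hσ] at hsa ⊢
        rw [div_le_div_iff₀ he (by positivity)]
        have h5 : 2 * C * (σ / B) * (4 * C * e1) = 8 * C ^ 2 / B * (σ * e1) := by
          field_simp
          ring
        rw [h5]
        have h6 : 8 * C ^ 2 / B ≤ 1 := by
          rw [div_le_one hB0]
          exact hB2
        have h7 : 0 ≤ σ * e1 := by positivity
        nlinarith
    refine ⟨?_, ?_, h2⟩
    · rw [hwA]
      have e : sc (1 / 64) B m a / (2 * C * e1) =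
          sc (1 / 64) B m a / (4 * C * e1) + sc (1 / 64) B m a / (4 * C * e1) := by
        rw [← add_div, div_eq_div_iff (by positivity) (by positivity)]
        ring
      rw [e] at h1
      linarith
    · rw [hwA]
      linarith
  · intro r e1 he her _
    exact Filter.eventually_atTop.1 (Wsb_gg hC hg he her)

end H73PC
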