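import Pool.Agent.H73.PC.CoB
import Pool.Agent.H73.PC.Par
import Pool.Agent.H73.PC.Rat
import Pool.Agent.H73.PC.Rob
import Pool.Agent.H73.PC.Wsb
import Pool.Agent.H73.PC.SdX
import Pool.Agent.H73.PC.Upz

/-!
# Assembly: the interface theorem `clx`
-/

open Finset EG H69PG Pool.Agent.H17 Filter

namespace H73PC

theorem Clx_sc_pos {B : ℝ} (hB : 2 ≤ B) {m a : ℕ} (ha : 1 ≤ a) : 0 < sc (1 / 64) B m a := by
  unfold sc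
  rw [if_neg (by omega)]
  have : 0 < B := by linarith
  positivity

theorem Clx_sc_nonneg {B : ℝ} (hB : 2 ≤ B) (m a : ℕ) : 0 ≤ sc (1 / 64) B m a := by
  rcases Nat.eq_zero_or_pos a with h | h
  · subst h
    unfold sc
    simp
  · exact (Clx_sc_pos hB h).le

theorem Clx_sc_le {B : ℝ} (hB : 2 ≤ B) (m a : ℕ) : sc (1 / 64) B m a ≤ 1 / 64 := by
  unfold sc
  split_ifs
  · norm_num
  · have h1 : (1 : ℝ) ≤ B ^ (m - a) := one_le_pow₀ (by linarith)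
    rw [div_le_iff₀ (by linarith)]
    linarith

theorem Clx_Zs_le {B : ℝ} (hB : 2 ≤ B) {x : ℝ} (hx : 1 ≤ x) (m a : ℕ) : Zs x (1 / 64) B m a ≤ ⌊x ^ (1 / 64 : ℝ)⌋₊ := by
  unfold Zs
  split_ifs
  · exact Nat.le_floor (by
      rw [Nat.cast_one]
      exact Real.one_le_rpow hx (by norm_num))
  · exact Nat.floor_le_floor (Real.rpow_le_rpow_of_exponent_le hx (Clx_sc_le hB m a))

theorem Clx_Zs_zero (x B : ℝ) (m : ℕ) : Zs x (1 / 64) B m 0 = 1 := by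
  unfold Zs
  simp

theorem Clx_Zs_mono {B : ℝ} (hB : 2 ≤ B) {x : ℝ} (hx : 1 ≤ x) (m : ℕ) : Monotone (Zs x (1 / 64) B m) := by
  intro a a' h
  unfold Zs
  split_ifs with h1 h2 h2
  · exact le_rfl
  · exact Nat.le_floor (by
      rw [Nat.cast_one]
      exact Real.one_le_rpow hx (Clx_sc_nonneg hB m a'))
  · omega
  · refine Nat.floor_le_floor (Real.rpow_le_rpow_of_exponent_le hx ?_)
    unfold sc
    rw [if_neg h1, if_neg h2]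
    have hB0 : 0 < B := by linarith
    have h3 : B ^ (m - a') ≤ B ^ (m - a) := pow_le_pow_right₀ (by linarith) (by omega)
    exact div_le_div_of_nonneg_left (by norm_num) (by positivity) h3

/-- facts for large `x` -/
theorem Clx_ev {e1 : ℝ} (he1 : 0 < e1) (he1' : e1 ≤ 1 / 64) {M : ℕ} (hM : 1 + e1 ≤ e1 * M) : ∃ x0 : ℝ, ∀ x : ℝ, x0 ≤ x →
    1 ≤ x ∧ 2 ≤ ⌊x ^ e1⌋₊ ∧ 2 * M ≤ ⌊x ^ e1⌋₊ ∧ x ≤ (⌊x ^ e1⌋₊ : ℝ) ^ M ∧ ((yy x : ℕ) : ℝ) < x / 3 ∧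
    ((⌊x ^ (1 / 64 : ℝ)⌋₊ : ℕ) : ℝ) < x / 3 ∧ ⌊x ^ e1⌋₊ ≤ ⌊x ^ (1 / 64 : ℝ)⌋₊ := by
  have h1 : ∀ᶠ x : ℝ in atTop, (2 : ℝ) ^ M ≤ x ^ e1 := (tendsto_rpow_atTop he1).eventually_ge_atTop _
  have h2 : ∀ᶠ x : ℝ in atTop, (2 * (M : ℝ) + 4) ≤ x ^ e1 := (tendsto_rpow_atTop he1).eventually_ge_atTop _
  have h3 : ∀ᶠ x : ℝ in atTop, (4 : ℝ) ≤ x ^ (63 / 64 : ℝ) := (tendsto_rpow_atTop (by norm_num)).eventually_ge_atTop _
  have h4 : ∀ᶠ x : ℝ in atTop, (100 : ℝ) ≤ x := eventually_ge_atTop _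
  obtain ⟨x0, hx0⟩ := eventually_atTop.1 (h1.and (h2.and (h3.and h4)))
  refine ⟨x0, fun x hx => ?_⟩
  obtain ⟨g1, g2, g3, g4⟩ := hx0 x hx
  have hx1 : 1 ≤ x := by linarith
  have hx0' : 0 < x := by linarith
  have e2 : x ^ e1 ≤ 2 * (⌊x ^ e1⌋₊ : ℝ) := by
    have := (Nat.lt_floor_add_one (x ^ e1))
    have h5 : (1 : ℝ) ≤ (⌊x ^ e1⌋₊ : ℝ) := by
      have : 1 ≤ ⌊x ^ e1⌋₊ := Nat.le_floor (by
        rw [Nat.cast_one]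
        have : (0 : ℝ) ≤ (M : ℝ) := Nat.cast_nonneg _
        linarith)
      exact_mod_cast this
    linarith
  refine ⟨hx1, ?_, ?_, ?_, ?_, ?_, ?_⟩
  · apply Nat.le_floor
    have : (0 : ℝ) ≤ (M : ℝ) := Nat.cast_nonneg _
    push_cast
    linarith
  · apply Nat.le_floor
    push_cast
    linarith
  · have h5 : (x ^ e1) ^ M ≤ (2 * (⌊x ^ e1⌋₊ : ℝ)) ^ M := pow_le_pow_left₀ (by positivity) e2 M
    rw [mul_pow] at h5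
    have h6 : (x ^ e1) ^ M = x ^ (e1 * M) := by
      rw [← Real.rpow_natCast, ← Real.rpow_mul hx0'.le]
    have h7 : x * x ^ e1 ≤ x ^ (e1 * M) := by
      calc x * x ^ e1 = x ^ (1 : ℝ) * x ^ e1 := by rw [Real.rpow_one]
        _ = x ^ (1 + e1) := by rw [← Real.rpow_add hx0']
        _ ≤ x ^ (e1 * M) := Real.rpow_le_rpow_of_exponent_le hx1 hM
    have h8 : x * (2 : ℝ) ^ M ≤ x * x ^ e1 := mul_le_mul_of_nonneg_left g1 hx0'.le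
    have h9 : x * (2 : ℝ) ^ M ≤ 2 ^ M * (⌊x ^ e1⌋₊ : ℝ) ^ M := by
      rw [h6] at h5
      linarith
    have h10 : (0 : ℝ) < 2 ^ M := by positivity
    exact le_of_mul_le_mul_left (by linarith) h10
  · have h5 : ((yy x : ℕ) : ℝ) ≤ Real.log (Real.log x) / 100 := by
      unfold yy
      refine Nat.floor_le ?_
      have h6 : 1 ≤ Real.log x := by
        have : Real.log (Real.exp 1) ≤ Real.log x := by
          apply Real.log_le_log (Real.exp_pos 1)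
          have := Real.exp_one_lt_d9
          linarith
        rwa [Real.log_exp] at this
      have := Real.log_nonneg h6
      positivity
    have h6 : Real.log x ≤ x := (Real.log_le_sub_one_of_pos hx0').trans (by linarith)
    have h7 : Real.log (Real.log x) ≤ Real.log x := by
      by_cases h8 : 0 < Real.log x
      · exact (Real.log_le_sub_one_of_pos h8).trans (by linarith)
      · have : 0 ≤ Real.log x := Real.log_nonneg hx1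
        have h9 : Real.log x = 0 := le_antisymm (not_lt.1 h8) this
        rw [h9, Real.log_zero]
    linarith
  · have h5 : ((⌊x ^ (1 / 64 : ℝ)⌋₊ : ℕ) : ℝ) ≤ x ^ (1 / 64 : ℝ) := Nat.floor_le (by positivity)
    have h6 : x ^ (1 / 64 : ℝ) * x ^ (63 / 64 : ℝ) = x := by
      rw [← Real.rpow_add hx0']
      norm_num
    have h7 : 0 < x ^ (1 / 64 : ℝ) := by positivity
    have h8 := mul_le_mul_of_nonneg_left g3 h7.le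
    rw [h6] at h8
    linarith
  · exact Nat.floor_le_floor (Real.rpow_le_rpow_of_exponent_le hx1 he1')

/-- the constant of the lower bound -/
noncomputable def Clx_A (K N mP M : ℕ) (Γ S1 μ : ℝ) : ℝ :=
  (K : ℝ) ^ 2 * (((2 * Γ * 2 ^ M) * S1) ^ (2 * K)) ^ 2 *
    ((1 + mP * (2 * Γ * 2 ^ M)) ^ (4 * N) * ((4 * N).factorial : ℝ) * 2 ^ (4 * N + 1) * (1 + μ) ^ (4 * N))

theorem Clx_A_pos {K N mP M : ℕ} {Γ S1 μ : ℝ} (hK : 1 ≤ K) (hΓ : 1 ≤ Γ) (hS : 0 < S1) (hμ : 0 ≤ μ) : 0 < Clx_A K N mP M Γ S1 μ := by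
  unfold Clx_A
  have : 0 < Γ := by linarith
  have : (0 : ℝ) < K := by exact_mod_cast hK
  positivity

theorem Clx_A_mono {K N mP M : ℕ} {Γ S1 μ μ' : ℝ} (hΓ : 1 ≤ Γ) (hμ : 0 ≤ μ) (h : μ ≤ μ') :
    Clx_A K N mP M Γ S1 μ ≤ Clx_A K N mP M Γ S1 μ' := by
  unfold Clx_A
  have : 0 < Γ := by linarith
  have h1 : (1 + μ) ^ (4 * N) ≤ (1 + μ') ^ (4 * N) := pow_le_pow_left₀ (by linarith) (by linarith) _
  exact mul_le_mul_of_nonneg_left (mul_le_mul_of_nonneg_left h1 (by positivity)) (by positivity)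

open Classical in
/-- the lower bound for one class and one cluster -/
theorem Clx_low {Cg Cv B Λ e1 x : ℝ} {m K N mP mH M J0 b0 b : ℕ} (hCg : 1 ≤ Cg) (hCv : 1 ≤ Cv) (hB : 2 ≤ B) (hΛ : 1 ≤ Λ)
    (hmH : 1 ≤ mH) (hmP : 1 ≤ mP) (hN : 1 ≤ N) (hK0 : 1 ≤ K) (hJ : K + 4 * N + 2 ≤ J0)
    (hK1 : (K : ℝ) * (1024 * Cg ^ 2 * mH * sc (1 / 64) B mH 1) ≤ 1)
    (hK2 : 256 * ((m : ℝ) + 1) * Cg ^ 3 * Cv ≤ (K : ℝ) * (mH : ℝ) ^ 2 * sc (1 / 64) B mH 1)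
    (hPar : (K : ℝ) * (2048 * Cg ^ 2 * Λ ^ 2 * Cv ^ 2 / mP * (1 / (sc (1 / 64) B mP 1 * N) + 64 / 3)) ≤ 1 / 4)
    (he1 : 0 < e1) (heH : 4 * Cg * e1 ≤ sc (1 / 64) B mH 1) (heP : 4 * Cg * e1 ≤ sc (1 / 64) B mP 1)
    (hη1 : 8 * Real.exp (-(b0 : ℝ)) * (4 * (2 * Cg / e1) ^ 5) ^ J0 ≤ 1)
    (hη2 : (K : ℝ) * ((8 * Real.exp (-(b0 : ℝ)) * (4 * (2 * Cg / e1) ^ 5) ^ J0 *
      ((2 * Cg / e1) * (∑ a ∈ Icc 1 mH, 1 / sc (1 / 64) B mH a) ^ K) ^ 2) * ((2 * (N : ℝ) + 1) *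
      (1 + ((mP : ℝ) + 1) ^ 2 * (2 * Λ * Cv / e1)) ^ (2 * N + 1))) ≤ 1 / 8)
    (hx1 : 1 ≤ x) (hz2 : 2 ≤ ⌊x ^ e1⌋₊) (hzM2 : 2 * M ≤ ⌊x ^ e1⌋₊) (hzM : x ≤ (⌊x ^ e1⌋₊ : ℝ) ^ M)
    (hwx : ((yy x : ℕ) : ℝ) < x / 3) (hRx : ((⌊x ^ (1 / 64 : ℝ)⌋₊ : ℕ) : ℝ) < x / 3) (hzR : ⌊x ^ e1⌋₊ ≤ ⌊x ^ (1 / 64 : ℝ)⌋₊)
    (hTo : 1 ≤ To x)
    (hrg : ∀ k : ℕ, (k : ℝ) ≤ Λ * Real.log x → x / 3 ≤ ((Xo x + b + k : ℕ) : ℝ) ∧ ((Xo x + b + k : ℕ) : ℝ) ≤ 2 * x / 3 ∧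
      ∀ t < To x, ((WW (yy x) * t + (Xo x + b + k) : ℕ) : ℝ) ≤ x)
    (hwH : ∀ a ∈ Icc 1 mH, sc (1 / 64) B mH a / (4 * Cg * e1) ≤ wA (Zs x (1 / 64) B mH) (primorial ⌊x ^ e1⌋₊) a ∧
      wA (Zs x (1 / 64) B mH) (primorial ⌊x ^ e1⌋₊) a ≤ 2 * Cg * sc (1 / 64) B mH a / e1 ∧
      GG (primorial ⌊x ^ e1⌋₊) (Zs x (1 / 64) B mH a) ≤ 2 * Cg * sc (1 / 64) B mH a / e1)
    (hwP : ∀ a ∈ Icc 1 mP, sc (1 / 64) B mP a / (4 * Cg * e1) ≤ wA (Zs x (1 / 64) B mP) (primorial ⌊x ^ e1⌋₊) a ∧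
      wA (Zs x (1 / 64) B mP) (primorial ⌊x ^ e1⌋₊) a ≤ 2 * Cg * sc (1 / 64) B mP a / e1 ∧
      GG (primorial ⌊x ^ e1⌋₊) (Zs x (1 / 64) B mP a) ≤ 2 * Cg * sc (1 / 64) B mP a / e1)
    (hG1 : (1 / 64) / (2 * Cg * e1) ≤ GG (primorial ⌊x ^ e1⌋₊) ⌊x ^ (1 / 64 : ℝ)⌋₊)
    (hG2 : GG (primorial ⌊x ^ e1⌋₊) ⌊x ^ (1 / 64 : ℝ)⌋₊ ≤ 2 * Cg * (1 / 64) / e1)
    (hVo : 0 < Vo x) (hv1 : Vo x / (Cv * e1) ≤ VV (yy x) ⌊x ^ e1⌋₊ 1) (hv2 : VV (yy x) ⌊x ^ e1⌋₊ 1 ≤ Cv / e1 * Vo x)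
    (hmu : ((Rk x Λ b).card : ℝ) * VV (yy x) ⌊x ^ e1⌋₊ 1 ≤ 2 * Λ * Cv / e1)
    {H : Finset ℕ} (hHK : H.card = K) (hHR : H ⊆ Rk x Λ b)
    (hMv : Mv (yy x) ⌊x ^ e1⌋₊ (WW (yy x)) (2 * M) J0 ⌊x ^ (7 / 32 : ℝ)⌋₊ (2 * Cg / e1)
      (8 * Real.exp (-(b0 : ℝ)) * (4 * (2 * Cg / e1) ^ 5) ^ J0) (range (To x)) (To x : ℝ) univ (cf x Λ b H))
    (hMp : ∀ h0 : {h // h ∈ H}, ∃ Yp : ℝ, (To x : ℝ) * Vo x ≤ Yp ∧
      Mv (yy x) ⌊x ^ e1⌋₊ (WW (yy x)) (2 * M) J0 ⌊x ^ (7 / 32 : ℝ)⌋₊ (2 * Cg / e1)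
        (8 * Real.exp (-(b0 : ℝ)) * (4 * (2 * Cg / e1) ^ 5) ^ J0)
        ((range (To x)).filter (fun t => (WW (yy x) * t + (Xo x + b + h0)).Prime)) Yp (univ.erase (Sum.inl h0)) (cf x Λ b H)) :
    (To x : ℝ) * (Vo x / (Cv * e1)) ^ K ≤
      Clx_A K N mP M (2 * Cg / e1) (∑ a ∈ Icc 1 mH, 1 / sc (1 / 64) B mH a) (2 * Λ * Cv / e1) *
      (((range (To x)).filter (fun t =>
        m + 1 ≤ (H.filter (fun h => (Xo x + b + WW (yy x) * t + h).Prime)).card ∧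
        (∀ k : ℕ, 1 ≤ k → (k : ℝ) ≤ Λ * Real.log x → k ∉ H → ¬ (Xo x + b + WW (yy x) * t + k).Prime) ∧
        ∀ h ∈ H, Ro (yy x) (x ^ e1) (Xo x + b + WW (yy x) * t + h))).card : ℝ) := by
  have hx0 : 0 < x := by linarith
  have hCg0 : 0 < Cg := by linarith
  have hCv0 : 0 < Cv := by linarith
  have hscH := Clx_sc_pos hB (m := mH) (a := 1) le_rfl
  have hscH' := Clx_sc_le hB mH 1
  have he64 : 4 * Cg * e1 ≤ 1 / 64 := heH.trans hscH'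
  have hΓ1 : 1 ≤ 2 * Cg / e1 := by
    rw [le_div_iff₀ he1]
    have h8 := le_mul_of_one_le_left he1.le (by linarith : (1 : ℝ) ≤ 4 * Cg)
    linarith
  have hcardκ : Fintype.card {h // h ∈ H} = K := by
    rw [Fintype.card_coe, hHK]
  have hv0 : 0 < VV (yy x) ⌊x ^ e1⌋₊ 1 := lt_of_lt_of_le (by positivity) hv1
  -- norms
  set Q := primorial ⌊x ^ e1⌋₊ with hQ
  have hZmH : Monotone (Zs x (1 / 64) B mH) := Clx_Zs_mono hB hx1 mH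
  have hZmP : Monotone (Zs x (1 / 64) B mP) := Clx_Zs_mono hB hx1 mP
  have hw0H : ∀ a, 0 ≤ wA (Zs x (1 / 64) B mH) Q a := wA_nonneg Q hZmH
  have hw0P : ∀ a, 0 ≤ wA (Zs x (1 / 64) B mP) Q a := wA_nonneg Q hZmP
  have hbd : ∀ s : ℝ, s ≤ 1 / 64 → 2 * Cg * s / e1 ≤ 2 * Cg / e1 := by
    intro s hs
    apply div_le_div_of_nonneg_right _ he1.le
    have h8 := mul_le_mul_of_nonneg_left hs (by linarith : (0 : ℝ) ≤ 2 * Cg)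
    linarith
  have hGH : ∀ a ≤ mH, GG Q (Zs x (1 / 64) B mH a) ≤ 2 * Cg / e1 := by
    intro a ha
    rcases Nat.eq_zero_or_pos a with h | h
    · subst h
      rw [Clx_Zs_zero, gg_one]
      exact hΓ1
    · exact (hwH a (mem_Icc.2 ⟨h, ha⟩)).2.2.trans (hbd _ (Clx_sc_le hB mH a))
  have hGP : ∀ a ≤ mP, GG Q (Zs x (1 / 64) B mP a) ≤ 2 * Cg / e1 := by
    intro a ha
    rcases Nat.eq_zero_or_pos a with h | h
    · subst h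
      rw [Clx_Zs_zero, gg_one]
      exact hΓ1
    · exact (hwP a (mem_Icc.2 ⟨h, ha⟩)).2.2.trans (hbd _ (Clx_sc_le hB mP a))
  have hwm : ∀ a ≤ mH, wA (Zs x (1 / 64) B mH) Q a ≤ 2 * Cg / e1 := by
    intro a ha
    rcases Nat.eq_zero_or_pos a with h | h
    · subst h
      unfold wA
      rw [if_pos rfl]
      exact hΓ1
    · exact (hwH a (mem_Icc.2 ⟨h, ha⟩)).2.1.trans (hbd _ (Clx_sc_le hB mH a))
  -- the number of other shifts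
  obtain ⟨μ, hμ⟩ : ∃ μ : ℝ, μ = (Fintype.card {k // k ∈ Rk x Λ b \ H} : ℝ) * VV (yy x) ⌊x ^ e1⌋₊ 1 := ⟨_, rfl⟩
  have hμ0 : 0 ≤ μ := by
    rw [hμ]
    positivity
  have hμ1 : μ ≤ 2 * Λ * Cv / e1 := by
    rw [hμ]
    refine le_trans (mul_le_mul_of_nonneg_right ?_ hv0.le) hmu
    rw [Fintype.card_coe]
    exact_mod_cast Finset.card_le_card Finset.sdiff_subset
  -- the amplitudes outside of the cluster
  have hRob := rob (Λ := Λ) (μ := μ) (G := 1 / GG Q ⌊x ^ (1 / 64 : ℝ)⌋₊) hCg hCv hΛ hB hmP hN he1 heP hw0P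
    (fun a ha => (hwP a ha).1) hμ0 hμ1 (by
      have : 0 < GG Q ⌊x ^ (1 / 64 : ℝ)⌋₊ := lt_of_lt_of_le (by positivity) hG1
      positivity) (by
      have h1 : 0 < (1 / 64) / (2 * Cg * e1) := by positivity
      calc 1 / GG Q ⌊x ^ (1 / 64 : ℝ)⌋₊ ≤ 1 / ((1 / 64) / (2 * Cg * e1)) := one_div_le_one_div_of_le h1 hG1
        _ = 128 * Cg * e1 := by
          field_simp
          ring)
  obtain ⟨hf0, hf1, hfB⟩ := hRob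
  -- the data
  have hSd := sdX {h // h ∈ H} {k // k ∈ Rk x Λ b \ H} (x := x) (e1 := e1) (B := B) (Γ := 2 * Cg / e1) (N := N) (mP := mP) (mH := mH)
    (M := M) (f0 := f0r B mP (wA (Zs x (1 / 64) B mP) Q)) hx1 (by linarith) hz2 hzM2
    ((Real.rpow_le_rpow_of_exponent_le hx1 (by norm_num : (1 / 64 : ℝ) ≤ 1)).trans (by rw [Real.rpow_one]; exact hzM)) hΓ1
    hGP hGH (hG2.trans (hbd _ le_rfl)) hf0
  -- the ratio
  have hrat := rat (κ := {h // h ∈ H}) (m' := m) hCg hCv hB hmH he1 (by linarith) hw0H (fun a ha => ⟨(hwH a ha).1, (hwH a ha).2.1⟩)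
    (by rw [hcardκ]; exact hK0) (by rw [hcardκ]; exact hK1) (by rw [hcardκ]; exact hK2)
  obtain ⟨hI0, hIp, hratio⟩ := hrat
  choose Yp hYp hMp' using hMp
  have hHk : ∀ h : {h // h ∈ H}, ((h : ℕ) : ℝ) ≤ Λ * Real.log x := by
    intro h
    have h1 := hHR h.2
    unfold Rk at h1
    rw [mem_filter, mem_Icc] at h1
    exact (Nat.le_floor_iff (by
      have := Real.log_nonneg hx1
      positivity)).1 h1.1.2
  have hRkk : ∀ k : {k // k ∈ Rk x Λ b \ H}, ((k : ℕ) : ℝ) ≤ Λ * Real.log x := by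
    intro h
    have h1 := (Finset.mem_sdiff.1 h.2).1
    unfold Rk at h1
    rw [mem_filter, mem_Icc] at h1
    exact (Nat.le_floor_iff (by
      have := Real.log_nonneg hx1
      positivity)).1 h1.1.2
  have hbig : ∀ k : ℕ, (k : ℝ) ≤ Λ * Real.log x → ⌊x ^ (1 / 64 : ℝ)⌋₊ < Xo x + b + k := by
    intro k hk
    have h1 := (hrg k hk).1
    have : ((⌊x ^ (1 / 64 : ℝ)⌋₊ : ℕ) : ℝ) < ((Xo x + b + k : ℕ) : ℝ) := lt_of_lt_of_le hRx h1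
    exact_mod_cast this
  have hLM : ∀ k : ℕ, (k : ℝ) ≤ Λ * Real.log x → ∀ t < To x, WW (yy x) * t + (Xo x + b + k) ≤ ⌊x ^ e1⌋₊ ^ M := by
    intro k hk t ht
    have h1 := (hrg k hk).2.2 t ht
    have h2 := h1.trans hzM
    exact_mod_cast h2
  have hE0 : 0 ≤ (8 * Real.exp (-(b0 : ℝ)) * (4 * (2 * Cg / e1) ^ 5) ^ J0 *
      ((2 * Cg / e1) * (∑ a ∈ Icc 1 mH, 1 / sc (1 / 64) B mH a) ^ K) ^ 2) := by positivity
  have hX1 : 1 ≤ 1 + ((mP : ℝ) + 1) ^ 2 * μ := by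
    have : 0 ≤ ((mP : ℝ) + 1) ^ 2 * μ := by positivity
    linarith
  have hX2 : 1 + ((mP : ℝ) + 1) ^ 2 * μ ≤ 1 + ((mP : ℝ) + 1) ^ 2 * (2 * Λ * Cv / e1) := by
    have := mul_le_mul_of_nonneg_left hμ1 (by positivity : 0 ≤ ((mP : ℝ) + 1) ^ 2)
    linarith
  have hKr : (1 : ℝ) ≤ K := by exact_mod_cast hK0
  have hE2 : (K : ℝ) * ((8 * Real.exp (-(b0 : ℝ)) * (4 * (2 * Cg / e1) ^ 5) ^ J0 *
      ((2 * Cg / e1) * (∑ a ∈ Icc 1 mH, 1 / sc (1 / 64) B mH a) ^ K) ^ 2) * ((2 * (N : ℝ) + 1) *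
      (1 + ((mP : ℝ) + 1) ^ 2 * μ) ^ (2 * N + 1))) ≤ 1 / 8 := by
    refine le_trans ?_ hη2
    have : (1 + ((mP : ℝ) + 1) ^ 2 * μ) ^ (2 * N + 1) ≤ (1 + ((mP : ℝ) + 1) ^ 2 * (2 * Λ * Cv / e1)) ^ (2 * N + 1) :=
      pow_le_pow_left₀ (by linarith) hX2 _
    gcongr
  have hE1 : (8 * Real.exp (-(b0 : ℝ)) * (4 * (2 * Cg / e1) ^ 5) ^ J0 *
      ((2 * Cg / e1) * (∑ a ∈ Icc 1 mH, 1 / sc (1 / 64) B mH a) ^ K) ^ 2) *
      (1 + ((mP : ℝ) + 1) ^ 2 * μ) ^ (2 * N) ≤ 1 / 8 := by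
    refine le_trans ?_ hE2
    have h1 : (1 + ((mP : ℝ) + 1) ^ 2 * μ) ^ (2 * N) ≤ (1 + ((mP : ℝ) + 1) ^ 2 * μ) ^ (2 * N + 1) :=
      pow_le_pow_right₀ hX1 (by omega)
    have h2 : (0 : ℝ) ≤ (1 + ((mP : ℝ) + 1) ^ 2 * μ) ^ (2 * N + 1) := by positivity
    have h3 : (1 + ((mP : ℝ) + 1) ^ 2 * μ) ^ (2 * N + 1) ≤ (2 * (N : ℝ) + 1) * (1 + ((mP : ℝ) + 1) ^ 2 * μ) ^ (2 * N + 1) := by
      have : (0 : ℝ) ≤ 2 * (N : ℝ) * (1 + ((mP : ℝ) + 1) ^ 2 * μ) ^ (2 * N + 1) := by positivity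
      linarith
    calc _ ≤ (8 * Real.exp (-(b0 : ℝ)) * (4 * (2 * Cg / e1) ^ 5) ^ J0 *
        ((2 * Cg / e1) * (∑ a ∈ Icc 1 mH, 1 / sc (1 / 64) B mH a) ^ K) ^ 2) *
        ((2 * (N : ℝ) + 1) * (1 + ((mP : ℝ) + 1) ^ 2 * μ) ^ (2 * N + 1)) :=
          mul_le_mul_of_nonneg_left (h1.trans h3) hE0
      _ = 1 * ((8 * Real.exp (-(b0 : ℝ)) * (4 * (2 * Cg / e1) ^ 5) ^ J0 *
        ((2 * Cg / e1) * (∑ a ∈ Icc 1 mH, 1 / sc (1 / 64) B mH a) ^ K) ^ 2) *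
        ((2 * (N : ℝ) + 1) * (1 + ((mP : ℝ) + 1) ^ 2 * μ) ^ (2 * N + 1))) := by ring
      _ ≤ _ := mul_le_mul_of_nonneg_right hKr (by positivity)
  -- the ratio
  obtain ⟨I, hI⟩ : ∃ I : ℝ, I = I0 {h // h ∈ H} mH (sc (1 / 64) B mH) (1 / 32) (fun a => 1 / sc (1 / 64) B mH a)
    (wA (Zs x (1 / 64) B mH) Q) := ⟨_, rfl⟩
  obtain ⟨v, hv⟩ : ∃ v : ℝ, v = VV (yy x) ⌊x ^ e1⌋₊ 1 := ⟨_, rfl⟩
  have hTr : (0 : ℝ) < To x := by exact_mod_cast hTo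
  have hratF : 2 * ((m : ℝ) + 1) * (I * ((To x : ℝ) * v ^ K)) ≤
      ∑ h0 : {h // h ∈ H}, Ip mH (sc (1 / 64) B mH) (1 / 32) (fun a => 1 / sc (1 / 64) B mH a) (wA (Zs x (1 / 64) B mH) Q) h0 *
        (Yp h0 * v ^ (K - 1)) := by
    have hvp : 0 < v := by rw [hv]; exact hv0
    have hI1 : 1 ≤ I := by rw [hI]; exact hI0
    have hterm : ∀ h0 : {h // h ∈ H}, 2 * ((m : ℝ) + 1) * (I * ((To x : ℝ) * v ^ K)) / K ≤
        Ip mH (sc (1 / 64) B mH) (1 / 32) (fun a => 1 / sc (1 / 64) B mH a) (wA (Zs x (1 / 64) B mH) Q) h0 *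
          (Yp h0 * v ^ (K - 1)) := by
      intro h0
      obtain ⟨P, hP⟩ : ∃ P : ℝ, P = Ip mH (sc (1 / 64) B mH) (1 / 32) (fun a => 1 / sc (1 / 64) B mH a)
        (wA (Zs x (1 / 64) B mH) Q) h0 := ⟨_, rfl⟩
      have h1 := hratio h0
      rw [hcardκ] at h1
      rw [← hI, ← hP] at h1
      have hP1 : 1 ≤ P := by rw [hP]; exact hIp h0
      rw [← hP]
      have hKpos : (0 : ℝ) < K := by linarith
      rw [div_le_iff₀ hKpos]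
      have h2 : v ^ K = v ^ (K - 1) * v := by
        rw [← pow_succ, Nat.sub_add_cancel hK0]
      have h3 : v ≤ Cv / e1 * Vo x := by rw [hv]; exact hv2
      have h4 := hYp h0
      have h5 : 0 ≤ v ^ (K - 1) := by positivity
      have h6 : I * v ≤ I * (Cv / e1 * Vo x) := mul_le_mul_of_nonneg_left h3 (by linarith)
      calc 2 * ((m : ℝ) + 1) * (I * ((To x : ℝ) * v ^ K)) = (2 * ((m : ℝ) + 1) * (To x : ℝ) * v ^ (K - 1)) * (I * v) := by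
            rw [h2]; ring
        _ ≤ (2 * ((m : ℝ) + 1) * (To x : ℝ) * v ^ (K - 1)) * (I * (Cv / e1 * Vo x)) :=
            mul_le_mul_of_nonneg_left h6 (by positivity)
        _ = ((To x : ℝ) * Vo x * v ^ (K - 1)) * (2 * ((m : ℝ) + 1) * I * (Cv / e1)) := by ring
        _ ≤ ((To x : ℝ) * Vo x * v ^ (K - 1)) * ((K : ℝ) * P) := mul_le_mul_of_nonneg_left h1 (by positivity)
        _ = (P * v ^ (K - 1) * K) * ((To x : ℝ) * Vo x) := by ring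
        _ ≤ (P * v ^ (K - 1) * K) * Yp h0 := mul_le_mul_of_nonneg_left h4 (by positivity)
        _ = P * (Yp h0 * v ^ (K - 1)) * K := by ring
    have h7 := Finset.sum_le_sum (fun h0 (_ : h0 ∈ (univ : Finset {h // h ∈ H})) => hterm h0)
    rw [Finset.sum_const, Finset.card_univ, hcardκ, nsmul_eq_mul] at h7
    refine le_trans (le_of_eq ?_) h7
    field_simp
  have hmain := coB (κ := {h // h ∈ H}) (ι := {k // k ∈ Rk x Λ b \ H}) (M' := M) (w := yy x) (W := WW (yy x)) (J := J0) (T := To x) (m' := m)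
    (y0 := ⌊x ^ (1 / 64 : ℝ)⌋₊) (vm := 1 / 64) (Wm := 2 * Cg / e1) (Yp := Yp)
    (cH := fun h => Xo x + b + h) (c := fun k => Xo x + b + k) hSd hN hη1 hΓ1 hwm hv0 hTo (by rw [hcardκ]; exact hK0)
    (by rw [hcardκ]; exact hJ) hMv hMp' (fun h => ⟨lt_of_le_of_lt hzR (hbig h (hHk h)),
      fun a _ => lt_of_le_of_lt (Clx_Zs_le hB hx1 mH a) (hbig h (hHk h))⟩)
    (fun i => by have := hbig i (hRkk i); omega) (fun h t ht => hLM h (hHk h) t ht) (fun i t ht => hLM i (hRkk i) t ht)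
    hI0 hIp (Clx_sc_nonneg hB mP) (by unfold sc; simp) (fun a _ => Clx_sc_le hB mP a) (by norm_num) (by norm_num) hf1 le_rfl hzR
    (fun a _ => Clx_Zs_le hB hx1 mP a) (by
      rw [hcardκ, ← hI, ← hv]
      exact hratF) (by rw [hcardκ, ← hμ]; exact hE1) (by rw [hcardκ, ← hμ]; exact hE2) (by
      rw [hcardκ, ← hμ]
      exact (mul_le_mul_of_nonneg_left hfB (Nat.cast_nonneg K)).trans hPar)
  rw [hcardκ, ← hμ] at hmain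
  have hbk := Upz_bkl_sub (m := m) (y0 := ⌊x ^ (1 / 64 : ℝ)⌋₊) (e1 := e1) hx1 hwx hRx (by
    have := (hrg 0 (by
      have := Real.log_nonneg hx1
      push_cast
      positivity)).1
    simpa using this) hHR
  have hA := Clx_A_mono (K := K) (N := N) (mP := mP) (M := M) (S1 := ∑ a ∈ Icc 1 mH, 1 / sc (1 / 64) B mH a) hΓ1 hμ0 hμ1
  have hlo : (To x : ℝ) * (Vo x / (Cv * e1)) ^ K ≤ (To x : ℝ) * VV (yy x) ⌊x ^ e1⌋₊ 1 ^ K :=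
    mul_le_mul_of_nonneg_left (pow_le_pow_left₀ (by positivity) hv1 K) hTr.le
  have hA0 : 0 ≤ Clx_A K N mP M (2 * Cg / e1) (∑ a ∈ Icc 1 mH, 1 / sc (1 / 64) B mH a) μ := by
    unfold Clx_A
    positivity
  refine hlo.trans (hmain.trans ?_)
  have hfin : ∀ a b1 b2 : ℝ, 0 ≤ b1 → 0 ≤ b2 → b1 ≤ b2 →
      Clx_A K N mP M (2 * Cg / e1) (∑ a ∈ Icc 1 mH, 1 / sc (1 / 64) B mH a) μ * b1 ≤
      Clx_A K N mP M (2 * Cg / e1) (∑ a ∈ Icc 1 mH, 1 / sc (1 / 64) B mH a) (2 * Λ * Cv / e1) * b2 := by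
    intro a b1 b2 h1 h2 h3
    exact mul_le_mul hA h3 h1 (hA0.trans hA)
  exact hfin 0 _ _ (Nat.cast_nonneg _) (Nat.cast_nonneg _) hbk

end H73PC
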