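import Pool.Agent.H73.PC.HyA
import Pool.Agent.H73.PC.HyB
import Pool.Agent.H91.CH.AbsW

/-!
# ROW CoB: the abstract theorem applied to the cluster

`absw` (`Pool/Agent/H91/CH/AbsW.lean`) with `T = range T`, `V = Vj j = Vu v1` (`v1 = VV w z 1`), `μ = card ι * v1` (`vuh`), `s = sA ZP Q f0`, `q a = f0 a * wA ZP Q a`, `g = gA w z W ZP f0 c`, `β = bA w z W R c`, `th i t = th0 w z (W t + c i)`,
`ρ i t` = no prime `p ≤ y0` divides `W t + c i`, `pr h t = (W t + cH h).Prime`, `w t = La(t)²`, `wH t = ∏_h th0 w z (W t + cH h)`, `C0 = 2 Γ 2^M'`, `CM = (C0 S1)^(2K)` (`La_abs`, with `|Bl| ≤ C0 th0`: `Bl = - gA` for `f0 = 1`, `gA_abs` in `Pool/Agent/H69/PG/H4v.lean`),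
`X = I0 (T v1^K)`, `X4 = T v1^K`, `Xj h = Ip h (Yp h v1^(K-1))`, `M = m' + 1`, `G = 1/GG Q R`, `η' = η (Wm S1^K)²`.
Hypotheses: `h1`: `hyA1` (`Ts = range T`, `Y = T`), `h1j`: `hyB` (`∑_{t ∈ T} (if pr then w else 0) ∏ = ∑_{t ∈ filter} w ∏`), `h2`: `hyA2`, `h4`: `evC` with `κ0 = univ`. `hρ`: `rough`. `X > 0`: `T ≥ 1`, `v1 > 0`.
Conclusion: `(I0 Tv)² ≤ K² CM² Tv C4 #good`, `Tv = T v1^K`, and `I0 ≥ 1`.
-/

open Finset EG H69PG

namespace H73PC

variable {κ ι : Type} [Fintype κ] [DecidableEq κ] [Fintype ι] [DecidableEq ι]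

theorem vuh {v1 : ℝ} (hv : 0 ≤ v1) (M : ℕ) : Vh (Vu v1 : Finset ι → ℝ) ((Fintype.card ι : ℝ) * v1) M := by
  refine ⟨fun U => pow_nonneg hv _, ?_, mul_nonneg (Nat.cast_nonneg _) hv, ?_⟩
  · unfold Vu
    simp
  · intro A _
    have h1 : ∀ k ∈ Aᶜ, Vu v1 (insert k A) = v1 * v1 ^ A.card := by
      intro k hk
      unfold Vu
      rw [Finset.card_insert_of_notMem (Finset.mem_compl.1 hk), pow_succ]
      ring
    rw [Finset.sum_congr rfl h1, Finset.sum_const, nsmul_eq_mul]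
    unfold Vu
    have h2 : ((Aᶜ).card : ℝ) ≤ (Fintype.card ι : ℝ) := by exact_mod_cast Finset.card_le_univ _
    have h3 : 0 ≤ v1 * v1 ^ A.card := mul_nonneg hv (pow_nonneg hv _)
    have h4 := mul_le_mul_of_nonneg_right h2 h3
    linarith

theorem CoB_th (w z L : ℕ) : th0 w z L = 0 ∨ th0 w z L = 1 := by
  classical
  unfold th0
  split_ifs
  · exact Or.inr rfl
  · exact Or.inl rfl

theorem CoB_GG (Q R : ℕ) : 0 ≤ GG Q R := by
  unfold GG
  exact Finset.sum_nonneg fun r _ => by positivity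

theorem CoB_bA {ι : Type} (w z W R : ℕ) (c : ι → ℕ) (i : ι) (t : ℕ) : 0 ≤ bA w z W R c i t := by
  unfold bA be
  rcases CoB_th w z (W * t + c i) with h | h <;> rw [h]
  · simp
  · rw [one_mul]
    exact sq_nonneg _

omit [DecidableEq κ] in
theorem CoB_prod {f : κ → ℝ} (h : ∀ i, f i = 0 ∨ f i = 1) :
    ((∏ i, f i) = 0 ∨ (∏ i, f i) = 1) ∧ ((∏ i, f i) = 1 → ∀ i, f i = 1) := by
  by_cases h1 : ∀ i, f i = 1
  · exact ⟨Or.inr (Finset.prod_eq_one fun i _ => h1 i), fun _ => h1⟩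
  · push Not at h1
    obtain ⟨i, hi⟩ := h1
    have h0 : f i = 0 := (h i).resolve_right hi
    have h2 : ∏ i, f i = 0 := Finset.prod_eq_zero (Finset.mem_univ i) h0
    refine ⟨Or.inl h2, fun h3 => ?_⟩
    rw [h2] at h3
    exact absurd h3 zero_ne_one

theorem CoB_Sm {N mP mH M z R Sm : ℕ} {ZP ZH : ℕ → ℕ} {vP vH f0 y w : ℕ → ℝ} {lP lH Γ : ℝ}
    (hS : Sd κ ι N mP mH M z R Sm ZP ZH vP vH f0 y lP lH Γ) (hI0 : 1 ≤ I0 κ mH vH lH y w)
    (hv00 : vP 0 = 0) (hl0 : 0 ≤ lP) : 1 ≤ Sm := by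
  classical
  have h1 : (Ad κ mH vH lH).Nonempty := by
    by_contra hne
    rw [Finset.not_nonempty_iff_eq_empty] at hne
    unfold I0 at hI0
    rw [hne, Finset.sum_empty] at hI0
    linarith
  obtain ⟨n1, hn1⟩ := h1
  have h2 : (fun _ => 0 : ι → Fin (mP + 1)) ∈ Cf ι mP N vP lP := by
    unfold Cf
    rw [Finset.mem_filter]
    refine ⟨Finset.mem_univ _, ?_, ?_⟩
    · have : sp (fun _ => 0 : ι → Fin (mP + 1)) = ∅ := by
        unfold sp
        rw [Finset.filter_eq_empty_iff]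
        intro i _
        simp
      rw [this]
      simp
    · simp only [Fin.val_zero, hv00, Finset.sum_const_zero]
      exact hl0
  have h3 := hS.lev n1 hn1 n1 hn1 _ h2 _ h2
  refine le_trans ?_ h3
  have hZH : ∀ a, 1 ≤ ZH a := fun a => by
    have := hS.ZmH (Nat.zero_le a)
    rw [hS.Z0H] at this
    exact this
  have hZP : ∀ a, 1 ≤ ZP a := fun a => by
    have := hS.ZmP (Nat.zero_le a)
    rw [hS.Z0P] at this
    exact this
  have hR := hS.R_pos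
  have a1 : 1 ≤ ∏ h, ZH (n1 h) * ZH (n1 h) :=
    Finset.one_le_prod' fun h _ => Nat.one_le_iff_ne_zero.2 (by
      have := hZH (n1 h)
      positivity)
  have a2 : 1 ≤ ∏ i : ι, ZP ((fun _ => 0 : ι → Fin (mP + 1)) i) * ZP ((fun _ => 0 : ι → Fin (mP + 1)) i) :=
    Finset.one_le_prod' fun i _ => Nat.one_le_iff_ne_zero.2 (by
      have := hZP ((fun _ => 0 : ι → Fin (mP + 1)) i)
      positivity)
  exact Nat.one_le_iff_ne_zero.2 (by positivity)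

omit [Fintype κ] [DecidableEq κ] in
theorem CoB_Bl {mH M M' w z W : ℕ} {ZH : ℕ → ℕ} {Γ : ℝ} (hz : 2 ≤ z) (hM : 2 * M ≤ z) (hΓ : 1 ≤ Γ)
    (hZM : ∀ a ≤ mH, ZH a ≤ z ^ M) (hG : ∀ a ≤ mH, GG (primorial z) (ZH a) ≤ Γ) {cH : κ → ℕ} {h : κ} {t : ℕ}
    (hL1 : 1 ≤ W * t + cH h) (hL : W * t + cH h ≤ z ^ M') {a : ℕ} (ha : a ∈ Icc 1 mH) :
    |Bl w z W ZH cH h a t| ≤ (2 * Γ * 2 ^ M') * th0 w z (W * t + cH h) := by
  have h1 := gA_abs (K := w) (z := z) (Q0 := W) (m := mH) (M := M) (M' := M') (Z := ZH) (f0 := fun _ => 1)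
    (Γ := Γ) (c := cH) hz hM hΓ hZM hG (fun a => by simp) (i := h) (t := t) hL1 hL ha
  have h2 : gA w z W ZH (fun _ => 1) cH h a t = - Bl w z W ZH cH h a t := by
    have ha1 := (Finset.mem_Icc.1 ha).1
    unfold gA Bl
    rw [if_neg (by omega)]
    ring
  rw [h2, abs_neg] at h1
  exact h1

open Classical in
theorem coB {N mP mH M M' w z W R Sm J T m' y0 : ℕ} {ZP ZH : ℕ → ℕ} {vP vH f0 y : ℕ → ℝ} {lP lH vm Γ η Wm : ℝ} {Yp : κ → ℝ}
    (hS : Sd κ ι N mP mH M z R Sm ZP ZH vP vH f0 y lP lH Γ) (hN : 1 ≤ N) (hη1 : η ≤ 1) (hWm : 1 ≤ Wm)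
    (hwm : ∀ a ≤ mH, wA ZH (primorial z) a ≤ Wm) (hv : 0 < VV w z 1) {cH : κ → ℕ} {c : ι → ℕ} (hT : 1 ≤ T) (hκ : 1 ≤ Fintype.card κ)
    (hJ : Fintype.card κ + 4 * N + 2 ≤ J) (hMv : Mv w z W (2 * M) J Sm Γ η (range T) (T : ℝ) univ (Sum.elim cH c))
    (hMp : ∀ h0 : κ, Mv w z W (2 * M) J Sm Γ η ((range T).filter (fun t => (W * t + cH h0).Prime)) (Yp h0)
      (univ.erase (Sum.inl h0)) (Sum.elim cH c))
    (hc : ∀ h, z < cH h ∧ ∀ a ≤ mH, ZH a < cH h) (hc' : ∀ i, 1 ≤ c i)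
    (hcM : ∀ h, ∀ t < T, W * t + cH h ≤ z ^ M') (hcM' : ∀ i, ∀ t < T, W * t + c i ≤ z ^ M')
    (hI0 : 1 ≤ I0 κ mH vH lH y (wA ZH (primorial z))) (hIp : ∀ h0 : κ, 1 ≤ Ip mH vH lH y (wA ZH (primorial z)) h0)
    (hv0 : ∀ a, 0 ≤ vP a) (hv00 : vP 0 = 0) (hvm : ∀ a ∈ Icc 1 mP, vP a ≤ vm) (hl : vm < lP) (hl0 : 0 ≤ lP)
    (hq1 : ∑ a ∈ Icc 1 mP, f0 a * wA ZP (primorial z) a = 1) (hRy : R ≤ y0) (hzy : z ≤ y0) (hZy : ∀ a ≤ mP, ZP a ≤ y0)
    (hrat : 2 * ((m' : ℝ) + 1) * (I0 κ mH vH lH y (wA ZH (primorial z)) * ((T : ℝ) * VV w z 1 ^ Fintype.card κ)) ≤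
      ∑ h0 : κ, Ip mH vH lH y (wA ZH (primorial z)) h0 * (Yp h0 * VV w z 1 ^ (Fintype.card κ - 1)))
    (hE1 : (η * (Wm * (∑ a ∈ Icc 1 mH, y a) ^ Fintype.card κ) ^ 2) *
      (1 + ((mP : ℝ) + 1) ^ 2 * ((Fintype.card ι : ℝ) * VV w z 1)) ^ (2 * N) ≤ 1 / 8)
    (hE2 : (Fintype.card κ : ℝ) * ((η * (Wm * (∑ a ∈ Icc 1 mH, y a) ^ Fintype.card κ) ^ 2) * ((2 * (N : ℝ) + 1) *
      (1 + ((mP : ℝ) + 1) ^ 2 * ((Fintype.card ι : ℝ) * VV w z 1)) ^ (2 * N + 1))) ≤ 1 / 8)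
    (hB : (Fintype.card κ : ℝ) * (1 / GG (primorial z) R * (((Fintype.card ι : ℝ) * VV w z 1) *
      (((Fintype.card ι : ℝ) * VV w z 1) * (∑ a ∈ Icc 1 mP, f0 a ^ 2 * wA ZP (primorial z) a) / N +
        ((Fintype.card ι : ℝ) * VV w z 1) * (∑ a ∈ Icc 1 mP, f0 a ^ 2 * wA ZP (primorial z) a * vP a) / (lP - vm)))) ≤ 1 / 4) :
    (T : ℝ) * VV w z 1 ^ Fintype.card κ ≤ (Fintype.card κ : ℝ) ^ 2 *
      (((2 * Γ * 2 ^ M') * ∑ a ∈ Icc 1 mH, y a) ^ (2 * Fintype.card κ)) ^ 2 *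
      ((1 + mP * (2 * Γ * 2 ^ M')) ^ (4 * N) * ((4 * N).factorial : ℝ) * 2 ^ (4 * N + 1) *
        (1 + (Fintype.card ι : ℝ) * VV w z 1) ^ (4 * N)) *
      (((range T).filter (fun t => (∀ h, th0 w z (W * t + cH h) = 1) ∧
        (∀ i, ∃ p : ℕ, p.Prime ∧ p ≤ y0 ∧ p ∣ W * t + c i) ∧
        m' + 1 ≤ ((univ : Finset κ).filter (fun h => (W * t + cH h).Prime)).card)).card : ℝ) := by
  have hv' := hv.le
  have hη : 0 ≤ η := hMv.2.1
  have hz := hS.z2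
  have hΓ := hS.Γ_one
  have hΓ0 : 0 ≤ Γ := by linarith
  set K := Fintype.card κ with hK
  set Q := primorial z with hQ
  set v1 := VV w z 1 with hv1
  set S1 := ∑ a ∈ Icc 1 mH, y a with hS1
  have hS10 : 0 ≤ S1 := Finset.sum_nonneg fun a _ => hS.y_nonneg a
  have hTr : (1 : ℝ) ≤ T := by exact_mod_cast hT
  set X4 : ℝ := (T : ℝ) * v1 ^ K with hX4
  have hX4p : 0 < X4 := by positivity
  have hf0 := hS.f0_nonneg
  have hs0 : ∀ a, 0 ≤ sA ZP Q f0 a := by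
    intro a
    unfold sA
    split_ifs
    · exact zero_le_one
    · exact mul_nonneg (sq_nonneg _) (wA_nonneg _ hS.ZmP a)
  have hsum1 : ∑ a ∈ Icc 1 mP, sA ZP Q f0 a = ∑ a ∈ Icc 1 mP, f0 a ^ 2 * wA ZP Q a := by
    refine Finset.sum_congr rfl fun a ha => ?_
    unfold sA
    rw [if_neg (by have := (Finset.mem_Icc.1 ha).1; omega)]
  have hsum2 : ∑ a ∈ Icc 1 mP, sA ZP Q f0 a * vP a = ∑ a ∈ Icc 1 mP, f0 a ^ 2 * wA ZP Q a * vP a := by
    refine Finset.sum_congr rfl fun a ha => ?_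
    unfold sA
    rw [if_neg (by have := (Finset.mem_Icc.1 ha).1; omega)]
  have hC0 : (1 : ℝ) ≤ 2 * Γ * 2 ^ M' := by
    have h2 : (1 : ℝ) ≤ 2 ^ M' := one_le_pow₀ (by norm_num)
    nlinarith
  have hC00 : (0 : ℝ) ≤ 2 * Γ * 2 ^ M' := by linarith
  have hSm : 1 ≤ Sm := CoB_Sm hS hI0 hv00 hl0
  have hthH : ∀ t, (∀ h, th0 w z (W * t + cH h) = 0 ∨ th0 w z (W * t + cH h) = 1) :=
    fun t h => CoB_th w z _
  have hvu := fun M => vuh (ι := ι) hv' M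
  have hres := H91CH.absw (ι := ι) (m := mP) (N := N) hN (v := vP) (l := lP) (vm := vm)
    (V := Vu v1) (μ := (Fintype.card ι : ℝ) * v1) (hvu (4 * N))
    (s := sA ZP Q f0) (q := fun a => f0 a * wA ZP Q a)
    hs0 (by unfold sA; simp) hv0 hv00 hvm hl hl0
    (fun a => mul_nonneg (hf0 a) (wA_nonneg _ hS.ZmP a)) hq1
    (κ := κ) (M := m' + 1) (Nat.succ_le_succ (Nat.zero_le m')) hκ
    (T := range T) (g := gA w z W ZP f0 c) (β := bA w z W R c)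
    (th := fun i t => th0 w z (W * t + c i))
    (ρ := fun i t => ∀ p : ℕ, p.Prime → p ≤ y0 → ¬ p ∣ W * t + c i)
    (η := η * (Wm * S1 ^ K) ^ 2) (G := 1 / GG Q R) (C0 := 2 * Γ * 2 ^ M')
    (mul_nonneg hη (sq_nonneg _)) (by have := CoB_GG Q R; positivity) hC0
    (fun i t => by unfold gA; simp)
    (fun i t => CoB_bA w z W R c i t)
    (fun i t => CoB_th w z _)
    (fun i t ht a ha => gA_abs (M := M) (M' := M') hz hS.hM hΓ hS.ZMP hS.ΓP
      (fun a => by rw [abs_of_nonneg (hf0 a)]; exact hS.f0_le a)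
      (by have := hc' i; omega) (hcM' i t (Finset.mem_range.1 ht)) ha)
    (fun i t _ hr => rough hS.Z0P hS.ZmP hS.R_pos hRy hzy hZy hr)
    (pr := fun h t => (W * t + cH h).Prime)
    (w := fun t => La mH vH lH y (Bl w z W ZH cH) t ^ 2)
    (wH := fun t => ∏ h, th0 w z (W * t + cH h))
    (fun t => sq_nonneg _) (fun t => (CoB_prod (hthH t)).1)
    (CM := ((2 * Γ * 2 ^ M') * S1) ^ (2 * K)) (by positivity)
    (fun t ht => by
      have ht' := Finset.mem_range.1 ht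
      have h1 := La_abs (κ := κ) (m := mH) (v := vH) (l := lH) hS.y_nonneg (Bf := Bl w z W ZH cH) (t := t)
        hC00 (th := fun h => th0 w z (W * t + cH h)) (hthH t)
        (fun h a ha => CoB_Bl hz hS.hM hΓ hS.ZMH hS.ΓH (by have := (hc h).1; omega) (hcM h t ht') ha)
      have h2 : La mH vH lH y (Bl w z W ZH cH) t ^ 2 ≤
          (((2 * Γ * 2 ^ M') * S1) ^ K * ∏ h, th0 w z (W * t + cH h)) ^ 2 := by
        rw [← sq_abs (La mH vH lH y (Bl w z W ZH cH) t)]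
        exact pow_le_pow_left₀ (abs_nonneg _) h1 2
      refine h2.trans (le_of_eq ?_)
      rcases (CoB_prod (hthH t)).1 with h3 | h3
      · rw [h3]
        ring
      · rw [h3, mul_one, mul_one, ← pow_mul, mul_comm K 2])
    (X := I0 κ mH vH lH y (wA ZH Q) * X4) (X4 := X4)
    (Xj := fun h => Ip mH vH lH y (wA ZH Q) h * (Yp h * v1 ^ (K - 1)))
    (by positivity) hX4p.le
    (fun h => mul_nonneg (by linarith [hIp h]) (mul_nonneg (hMp h).1 (pow_nonneg hv' _)))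
    (Vj := fun _ => Vu v1) (fun _ => hvu (4 * N)) (fun _ _ => le_rfl)
    (fun n hn n' hn' => hyA1 hS hWm hv' hJ hMv hI0 hn hn')
    (fun h n hn n' hn' => by
      have h1 := hyB hS hWm hwm hv' h (fun t ht => by
        rw [Finset.mem_filter] at ht
        refine ⟨ht.2, ?_, fun a ha => ?_⟩
        · have := (hc h).1
          exact lt_of_lt_of_le this (Nat.le_add_left _ _)
        · have := (hc h).2 a ha
          exact lt_of_lt_of_le this (Nat.le_add_left _ _)) hJ (hMp h) (hIp h) hn hn'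
      rw [Finset.sum_filter] at h1
      have h2 : ∑ t ∈ range T, (if (W * t + cH h).Prime then
          La mH vH lH y (Bl w z W ZH cH) t ^ 2 else 0) *
            ∏ i, (gA w z W ZP f0 c i (n i) t * gA w z W ZP f0 c i (n' i) t) =
          ∑ t ∈ range T, (if (W * t + cH h).Prime then
          La mH vH lH y (Bl w z W ZH cH) t ^ 2 *
            ∏ i, (gA w z W ZP f0 c i (n i) t * gA w z W ZP f0 c i (n' i) t) else 0) := by
        refine Finset.sum_congr rfl fun t _ => ?_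
        by_cases hp : (W * t + cH h).Prime
        · rw [if_pos hp, if_pos hp]
        · rw [if_neg hp, if_neg hp, zero_mul]
      rw [← h2] at h1
      refine le_trans (le_of_eq ?_) h1
      refine congrArg abs (congrArg₂ (· - ·) ?_ rfl)
      refine Finset.sum_congr rfl fun t _ => ?_
      by_cases hp : (W * t + cH h).Prime
      · simp only [hp, if_true]
      · simp only [hp, if_false])
    (fun k n hn n' hn' hk hk' => hyA2 hS hWm hv' hJ hMv hI0 hn hn' k hk hk')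
    (fun U hU => by
      have h1 := evC (κ := κ) (ι := ι) (by omega) hΓ hSm hMv hη1 univ U
        (by rw [Finset.card_univ]; omega) (fun h _ => Finset.mem_univ _) (fun i => Finset.mem_univ _)
      rw [Finset.card_univ] at h1
      exact h1)
    (by
      push_cast
      exact hrat)
    hE1 hE2 (by rw [hsum1, hsum2]; exact hB)
  set C4 : ℝ := (1 + mP * (2 * Γ * 2 ^ M')) ^ (4 * N) * ((4 * N).factorial : ℝ) * 2 ^ (4 * N + 1) *
    (1 + (Fintype.card ι : ℝ) * v1) ^ (4 * N) with hC4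
  have hC40 : 0 ≤ C4 := by
    have : 0 ≤ (Fintype.card ι : ℝ) * v1 := by positivity
    positivity
  have hI : X4 ≤ I0 κ mH vH lH y (wA ZH Q) * X4 := by nlinarith
  have hsq := pow_le_pow_left₀ hX4p.le hI 2
  have hfin := hsq.trans hres
  set g1 : ℝ := (((range T).filter (fun t => (∀ h, th0 w z (W * t + cH h) = 1) ∧
        (∀ i, ∃ p : ℕ, p.Prime ∧ p ≤ y0 ∧ p ∣ W * t + c i) ∧
        m' + 1 ≤ ((univ : Finset κ).filter (fun h => (W * t + cH h).Prime)).card)).card : ℝ) with hg1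
  have hE : 0 ≤ (K : ℝ) ^ 2 * (((2 * Γ * 2 ^ M') * S1) ^ (2 * K)) ^ 2 * X4 * C4 := by positivity
  have h5 : X4 ^ 2 ≤ (K : ℝ) ^ 2 * (((2 * Γ * 2 ^ M') * S1) ^ (2 * K)) ^ 2 * X4 * C4 * g1 := by
    refine hfin.trans (mul_le_mul_of_nonneg_left ?_ hE)
    rw [hg1]
    refine Nat.cast_le.2 (Finset.card_le_card ?_)
    intro t ht
    rw [Finset.mem_filter] at ht ⊢
    refine ⟨ht.1, (CoB_prod (hthH t)).2 ht.2.1, fun i => ?_, ?_⟩
    · have h1 := ht.2.2.1 i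
      push Not at h1
      exact h1
    · have h7 := ht.2.2.2
      refine le_trans h7 (le_of_eq (congrArg Finset.card ?_))
      ext h
      simp only [Finset.mem_filter]
  have h6 : X4 * X4 ≤ ((K : ℝ) ^ 2 * (((2 * Γ * 2 ^ M') * S1) ^ (2 * K)) ^ 2 * C4 * g1) * X4 := by
    calc X4 * X4 = X4 ^ 2 := by ring
      _ ≤ _ := h5
      _ = _ := by ring
  exact le_of_mul_le_mul_right h6 hX4p

end H73PC
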