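import Pool.Agent.H73.PC.Df

/-!
# ROW Sq: counting residues with conditions modulo different primes

PROOF. Induction on `P`. Step `insert q P`, `M = ∏_{p ∈ P} p`, `(q, M) = 1`: the map `r ↦ (r % q, r % M)` is a bijection from `range (q M)` to
`range q × range M` (`Nat.chineseRemainder`, or injectivity by `Nat.ModEq` + equal cardinalities), `(r % M) % p = r % p` for `p ∣ M`, so the filtered
set is in bijection with the product of the two filtered sets.
-/

open Finset

namespace H73PC

open Classical in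
theorem sqc (P : Finset ℕ) (hP : ∀ p ∈ P, p.Prime) (A : ℕ → ℕ → Prop) :
    ((range (∏ p ∈ P, p)).filter (fun r => ∀ p ∈ P, A p (r % p))).card =
      ∏ p ∈ P, ((range p).filter (fun a => A p a)).card := by
  induction P using Finset.induction_on with
  | empty => simp
  | insert q P hq ih =>
    have hq' : q.Prime := hP q (mem_insert_self q P)
    have hP' : ∀ p ∈ P, p.Prime := fun p hp => hP p (mem_insert_of_mem hp)
    have ih' := ih hP'
    rw [prod_insert hq, prod_insert hq, ← ih', ← card_product]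
    have hco : Nat.Coprime q (∏ p ∈ P, p) :=
      Nat.Coprime.prod_right fun p hp =>
        (Nat.coprime_primes hq' (hP' p hp)).2 (fun h => hq (h ▸ hp))
    have hM0 : (∏ p ∈ P, p) ≠ 0 := prod_ne_zero_iff.2 fun p hp => (hP' p hp).ne_zero
    have hdvd : ∀ p ∈ P, p ∣ ∏ p ∈ P, p := fun p hp => dvd_prod_of_mem _ hp
    refine card_nbij' (fun r => (r % q, r % (∏ p ∈ P, p)))
      (fun x => (Nat.chineseRemainder hco x.1 x.2 : ℕ)) ?_ ?_ ?_ ?_
    · intro r hr
      simp only [coe_filter, Set.mem_ofPred_eq, mem_range] at hr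
      simp only [coe_product, Set.mem_prod, coe_filter, Set.mem_ofPred_eq, mem_range]
      refine ⟨⟨Nat.mod_lt _ hq'.pos, hr.2 q (mem_insert_self q P)⟩,
        Nat.mod_lt _ (Nat.pos_of_ne_zero hM0), fun p hp => ?_⟩
      rw [Nat.mod_mod_of_dvd _ (hdvd p hp)]
      exact hr.2 p (mem_insert_of_mem hp)
    · intro x hx
      simp only [coe_product, Set.mem_prod, coe_filter, Set.mem_ofPred_eq, mem_range] at hx
      simp only [coe_filter, Set.mem_ofPred_eq, mem_range]
      have h1 := (Nat.chineseRemainder hco x.1 x.2).2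
      refine ⟨Nat.chineseRemainder_lt_mul hco x.1 x.2 hq'.ne_zero hM0, fun p hp => ?_⟩
      rcases mem_insert.1 hp with rfl | hp
      · have h2 : (Nat.chineseRemainder hco x.1 x.2 : ℕ) % p = x.1 % p := h1.1
        rw [h2, Nat.mod_eq_of_lt hx.1.1]
        exact hx.1.2
      · have h2 : (Nat.chineseRemainder hco x.1 x.2 : ℕ) % p = x.2 % p :=
          h1.2.of_dvd (hdvd p hp)
        rw [h2]
        exact hx.2.2 p hp
    · intro r hr
      simp only [coe_filter, Set.mem_ofPred_eq, mem_range] at hr
      have h3 : r ≡ (Nat.chineseRemainder hco (r % q) (r % (∏ p ∈ P, p)) : ℕ)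
          [MOD q * (∏ p ∈ P, p)] :=
        Nat.chineseRemainder_modEq_unique hco (Nat.mod_modEq r q).symm (Nat.mod_modEq r _).symm
      exact (Nat.ModEq.eq_of_lt_of_lt h3 hr.1
        (Nat.chineseRemainder_lt_mul hco _ _ hq'.ne_zero hM0)).symm
    · intro x hx
      simp only [coe_product, Set.mem_prod, coe_filter, Set.mem_ofPred_eq, mem_range] at hx
      have h1 := (Nat.chineseRemainder hco x.1 x.2).2
      have h2 : (Nat.chineseRemainder hco x.1 x.2 : ℕ) % q = x.1 % q := h1.1
      have h4 : (Nat.chineseRemainder hco x.1 x.2 : ℕ) % (∏ p ∈ P, p) = x.2 % (∏ p ∈ P, p) := h1.2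
      refine Prod.ext ?_ ?_
      · show (Nat.chineseRemainder hco x.1 x.2 : ℕ) % q = x.1
        rw [h2, Nat.mod_eq_of_lt hx.1.1]
      · show (Nat.chineseRemainder hco x.1 x.2 : ℕ) % (∏ p ∈ P, p) = x.2
        rw [h4, Nat.mod_eq_of_lt hx.2.1]

end H73PC
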