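import Pool.Agent.H73.PC.Cr
import Pool.Agent.H67.GT.MERT
import Pool.Agent.H69.PG.VVf

/-!
# ROW Vg: the local factors, and the size of `VV (yy x) z 1`

Write `w = yy x`, `W = primorial w`, `j = card ι ≤ J0`.
* `vgc`. PROOF. Let `Δ` be the product of all `|c i - c i'|` (`i ≠ i'`) and of all `|c i - k|` (`k ∈ c0`), a positive integer with `Δ ≤ D^((J0+1)^2)`, `D ≤ (log x)^2`. For a prime `p ∈ (w, z]` with `p ∤ Δ`: the classes `-c i/W` (`p ∤ W`)
are different and alive, so `nu = j` and the factor is `1 - j/p` or `1 - j/(p-1)`; compare with `(1 - 1/p)^j`: both are in `[1 - j/p - 2j²/p², 1 - j/p + 2 j²/p²]`-type ranges, so the quotient is `exp(O(j²/p²))`, e.g.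
`|log(quotient)| ≤ 8 (j+1)²/p²` for `p ≥ 8 (j+1)²`. `∑_{p > w} 1/p² ≤ 1/w`. For `p ∣ Δ` the factor is in `[1 - 2j/p, 1]` (`gd_bd`) and `(1 - 1/p)^j` in `[1 - j/p, 1]`, so `|log(quotient)| ≤ 8 j/p` (`p ≥ 8 (j+1)`); the number `s` of prime factors
`> w` of `Δ` satisfies `w^s ≤ Δ`, so `s ≤ (J0+1)² 2 loglog x/log w ≤ 400 (J0+1)² w/log w` (`yy_lower`: `loglog x ≤ 200 w`), and `∑_{p ∣ Δ, p > w} 1/p ≤ s/w ≤ 400 (J0+1)²/log w → 0`. Total: `|log(VG/VV^j)| ≤ 8 (j+1)²/w + 3200 (J0+1)^3/log w → 0`.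
* `v1b`. PROOF. `V univ z = V univ w * VV w z 1` (products over primes), `V univ w = φ(W)/W` (`W = primorial w`; squarefree), so `VV w z 1 = (W/φ(W)) V univ z`, and by `Mert` (`Pool/Agent/H67/GT/MERT.lean`: `mert`) `1/(c log z) ≤ V univ z ≤ c/log z`;
`e1 log x/2 ≤ log z ≤ e1 log x` for large `x` (`z = ⌊x^e1⌋`).
-/

open Finset EG H69PG Pool.Agent.H17

namespace H73PC

theorem Vg_cnt {w m : ℕ} (hw : 1 ≤ w) (hm : 1 ≤ m) (S : Finset ℕ)
    (hS : ∀ p ∈ S, p.Prime ∧ w < p ∧ p ∣ m) : (S.card : ℝ) * Real.log w ≤ Real.log m := by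
  have h1 : ∏ p ∈ S, p ∣ m :=
    Finset.prod_primes_dvd m (fun p hp => (hS p hp).1.prime) (fun p hp => (hS p hp).2.2)
  have h2 : w ^ S.card ≤ ∏ p ∈ S, p := by
    rw [← Finset.prod_const]
    exact Finset.prod_le_prod' (fun p hp => (hS p hp).2.1.le)
  have h3 : w ^ S.card ≤ m := h2.trans (Nat.le_of_dvd (by omega) h1)
  have h4 : ((w : ℝ)) ^ S.card ≤ m := by exact_mod_cast h3
  rw [← Real.log_pow]
  refine Real.log_le_log ?_ h4
  have : (0 : ℝ) < w := by exact_mod_cast (by omega : 0 < w)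
  positivity

theorem Vg_inv {w z : ℕ} (hw : 1 ≤ w) : ∑ p ∈ PK w z, 1 / (p : ℝ) ^ 2 ≤ 1 / (w : ℝ) := by
  rcases le_or_gt w z with h | h
  · calc ∑ p ∈ PK w z, 1 / (p : ℝ) ^ 2 ≤ ∑ p ∈ Ioc w z, 1 / (p : ℝ) ^ 2 :=
          Finset.sum_le_sum_of_subset_of_nonneg (Finset.filter_subset _ _)
            fun _ _ _ => by positivity
      _ = ∑ p ∈ Ioc w z, ((p : ℝ) ^ 2)⁻¹ := by simp only [one_div]
      _ ≤ (w : ℝ)⁻¹ - (z : ℝ)⁻¹ := sum_Ioc_inv_sq_le_sub (by omega) h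
      _ ≤ 1 / (w : ℝ) := by
          have : (0 : ℝ) ≤ (z : ℝ)⁻¹ := by positivity
          rw [one_div]; linarith
  · have : PK w z = ∅ := by
      unfold PK
      rw [Finset.Ioc_eq_empty (by omega)]
      simp
    rw [this]
    simp

theorem Vg_nu {ι : Type} [Fintype ι] [DecidableEq ι] {w z D W : ℕ} {c0 : Option ℕ} {c : ι → ℕ}
    (hF : Fw w z D W c0 c) {p : ℕ} (hp : p.Prime) (hpw : w < p)
    (h1 : ∀ i i', i ≠ i' → ¬ (p : ℤ) ∣ (c i : ℤ) - c i')
    (h2 : ∀ k ∈ c0, ∀ i, ¬ (p : ℤ) ∣ (c i : ℤ) - k) : nu W c0 c p = Fintype.card ι := by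
  have hfact : Fact p.Prime := ⟨hp⟩
  have hW : (W : ZMod p) ≠ 0 := by
    intro h
    rw [ZMod.natCast_eq_zero_iff] at h
    have := hF.pr p hp h
    omega
  set a : ι → ℕ := fun i => (-(c i : ZMod p) * (W : ZMod p)⁻¹).val with ha
  have hac : ∀ i, ((a i : ℕ) : ZMod p) = -(c i : ZMod p) * (W : ZMod p)⁻¹ := fun i => by
    rw [ha]; simp
  have hdv : ∀ i, p ∣ W * a i + c i := by
    intro i
    rw [← ZMod.natCast_eq_zero_iff]
    push_cast
    rw [hac]
    field_simp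
    ring
  have hun : ∀ i b, b < p → p ∣ W * b + c i → a i = b := by
    intro i b hb hbd
    rw [← ZMod.natCast_eq_zero_iff] at hbd
    push_cast at hbd
    have h3 : (b : ZMod p) = -(c i : ZMod p) * (W : ZMod p)⁻¹ := by
      field_simp
      linear_combination hbd
    have h4 : ((a i : ℕ) : ZMod p) = (b : ZMod p) := by rw [hac, h3]
    rw [ZMod.natCast_eq_natCast_iff'] at h4
    have h5 : a i < p := ZMod.val_lt _
    rwa [Nat.mod_eq_of_lt h5, Nat.mod_eq_of_lt hb] at h4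
  unfold nu
  rw [← Finset.card_univ]
  symm
  refine Finset.card_bij (fun i _ => a i) (fun i _ => ?_) (fun i _ i' _ hii => ?_) (fun b hb => ?_)
  · simp only [Finset.mem_filter, Finset.mem_range]
    refine ⟨ZMod.val_lt _, fun k hk hpk => h2 k hk i ?_, i, hdv i⟩
    have h3 : ((p : ℕ) : ℤ) ∣ ((W * a i + c i : ℕ) : ℤ) := by exact_mod_cast hdv i
    have h4 : ((p : ℕ) : ℤ) ∣ ((W * a i + k : ℕ) : ℤ) := by exact_mod_cast hpk
    have h5 := dvd_sub h3 h4
    push_cast at h5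
    have h6 : (W : ℤ) * (a i : ℤ) + c i - (W * (a i : ℤ) + k) = c i - k := by ring
    rwa [h6] at h5
  · by_contra hne
    refine h1 i i' hne ?_
    have h3 : ((p : ℕ) : ℤ) ∣ ((W * a i + c i : ℕ) : ℤ) := by exact_mod_cast hdv i
    have h4 : ((p : ℕ) : ℤ) ∣ ((W * a i' + c i' : ℕ) : ℤ) := by exact_mod_cast hdv i'
    have hii' : a i = a i' := hii
    rw [← hii'] at h4
    have h5 := dvd_sub h3 h4
    push_cast at h5
    have h6 : (W : ℤ) * (a i : ℤ) + c i - (W * (a i : ℤ) + c i') = c i - c i' := by ring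
    rwa [h6] at h5
  · simp only [Finset.mem_filter, Finset.mem_range] at hb
    obtain ⟨hb1, _, i, hi⟩ := hb
    exact ⟨i, Finset.mem_univ _, hun i b hb1 hi⟩

theorem Vg_pow {P : ℝ} (hP : 2 ≤ P) (j : ℕ) :
    1 - j / P ≤ (1 - 1 / P) ^ j ∧ (1 - 1 / P) ^ j ≤ 1 - j / P + (j : ℝ) ^ 2 / P ^ 2 := by
  have hP0 : 0 < P := by linarith
  have hi : 1 / P ≤ 1 / 2 := one_div_le_one_div_of_le (by norm_num) hP
  have hi0 : 0 < 1 / P := by positivity
  constructor
  · have h1 := one_add_mul_le_pow (a := -(1 / P)) (by linarith) j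
    have h2 : 1 + (j : ℝ) * -(1 / P) = 1 - j / P := by ring
    rw [h2] at h1
    exact h1
  · induction j with
    | zero => simp
    | succ j ih =>
      rw [pow_succ]
      have h1 : 0 ≤ 1 - 1 / P := by linarith
      have h2 := mul_le_mul_of_nonneg_right ih h1
      refine h2.trans ?_
      push_cast
      have h3 : (1 - (j : ℝ) / P + (j : ℝ) ^ 2 / P ^ 2) * (1 - 1 / P) =
          1 - ((j : ℝ) + 1) / P + ((j : ℝ) ^ 2 + j) / P ^ 2 - (j : ℝ) ^ 2 / P ^ 3 := by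
        field_simp
        ring
      rw [h3]
      have h4 : 0 ≤ (j : ℝ) ^ 2 / P ^ 3 := by positivity
      have h5 : ((j : ℝ) ^ 2 + j) / P ^ 2 ≤ ((j : ℝ) + 1) ^ 2 / P ^ 2 := by
        refine div_le_div_of_nonneg_right ?_ (by positivity)
        have : (0 : ℝ) ≤ j := Nat.cast_nonneg j
        nlinarith
      linarith

theorem Vg_half {P : ℝ} {j : ℕ} (hP : 2 ≤ P) (hj : 2 * (j : ℝ) ≤ P) : 1 / 2 ≤ (1 - 1 / P) ^ j := by
  have h1 := (Vg_pow hP j).1
  have h2 : (j : ℝ) / P ≤ 1 / 2 := by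
    rw [div_le_iff₀ (by linarith)]; linarith
  linarith

/-- generic primes -/
theorem Vg_gen {P q : ℝ} {j : ℕ} (hP : 2 ≤ P) (hj : 2 * (j : ℝ) ≤ P) (hq : q = P ∨ q = P - 1) :
    |(1 - j / q) / (1 - 1 / P) ^ j - 1| ≤ 2 * ((j : ℝ) ^ 2 + 2 * j) / P ^ 2 := by
  have hP0 : 0 < P := by linarith
  obtain ⟨h1, h2⟩ := Vg_pow hP j
  have h3 := Vg_half hP hj
  have hj0 : (0 : ℝ) ≤ j := Nat.cast_nonneg j
  have hb0 : 0 < (1 - 1 / P) ^ j := by linarith
  set b := (1 - 1 / P) ^ j with hb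
  have ha1 : 1 - (j : ℝ) / q ≤ 1 - j / P := by
    rcases hq with rfl | rfl
    · exact le_rfl
    · have : (j : ℝ) / P ≤ j / (P - 1) := div_le_div_of_nonneg_left hj0 (by linarith) (by linarith)
      linarith
  have ha2 : 1 - j / P - 2 * j / P ^ 2 ≤ 1 - (j : ℝ) / q := by
    rcases hq with rfl | rfl
    · have : 0 ≤ 2 * (j : ℝ) / q ^ 2 := by positivity
      linarith
    · have h4 : (j : ℝ) / (P - 1) ≤ j / P + 2 * j / P ^ 2 := by
        rw [div_add_div _ _ hP0.ne' (by positivity), div_le_div_iff₀ (by linarith) (by positivity)]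
        have h5 : 0 ≤ (j : ℝ) * P * (P - 2) := mul_nonneg (mul_nonneg hj0 hP0.le) (by linarith)
        nlinarith
      linarith
  have e1 : (1 - (j : ℝ) / q) / b - 1 = ((1 - j / q) - b) / b := by
    field_simp
  rw [e1, abs_div, abs_of_pos hb0, div_le_iff₀ hb0]
  have h5 : |(1 - (j : ℝ) / q) - b| ≤ ((j : ℝ) ^ 2 + 2 * j) / P ^ 2 := by
    have h6 : ((j : ℝ) ^ 2 + 2 * j) / P ^ 2 = (j : ℝ) ^ 2 / P ^ 2 + 2 * j / P ^ 2 := by ring
    have h7 : 0 ≤ (j : ℝ) ^ 2 / P ^ 2 := by positivity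
    have h8 : 0 ≤ 2 * (j : ℝ) / P ^ 2 := by positivity
    rw [abs_le, h6]
    constructor <;> linarith
  have h6 : 0 ≤ ((j : ℝ) ^ 2 + 2 * j) / P ^ 2 := by positivity
  calc _ ≤ ((j : ℝ) ^ 2 + 2 * j) / P ^ 2 := h5
    _ = 2 * (((j : ℝ) ^ 2 + 2 * j) / P ^ 2) * (1 / 2) := by ring
    _ ≤ 2 * (((j : ℝ) ^ 2 + 2 * j) / P ^ 2) * b := mul_le_mul_of_nonneg_left h3 (by linarith)
    _ = _ := by ring

/-- special primes -/
theorem Vg_spe {P g : ℝ} {j : ℕ} (hP : 2 ≤ P) (hj : 2 * (j : ℝ) ≤ P) (hg0 : 0 ≤ g) (hg : g ≤ 2 * j / P) :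
    |(1 - g) / (1 - 1 / P) ^ j - 1| ≤ 4 * (j : ℝ) / P := by
  have hP0 : 0 < P := by linarith
  obtain ⟨h1, h2⟩ := Vg_pow hP j
  have h3 := Vg_half hP hj
  have hj0 : (0 : ℝ) ≤ j := Nat.cast_nonneg j
  have hb0 : 0 < (1 - 1 / P) ^ j := by linarith
  have hb1 : (1 - 1 / P) ^ j ≤ 1 := by
    have hi : 1 / P ≤ 1 / 2 := one_div_le_one_div_of_le (by norm_num) hP
    have hi0 : 0 < 1 / P := by positivity
    exact pow_le_one₀ (by linarith) (by linarith)
  set b := (1 - 1 / P) ^ j with hb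
  have hjP : 0 ≤ (j : ℝ) / P := by positivity
  have e2 : 2 * (j : ℝ) / P = 2 * (j / P) := by ring
  have e1 : (1 - g) / b - 1 = ((1 - g) - b) / b := by
    field_simp
  rw [e1, abs_div, abs_of_pos hb0, div_le_iff₀ hb0]
  have h5 : |(1 - g) - b| ≤ 2 * (j / P) := by
    rw [e2] at hg
    rw [abs_le]
    constructor <;> linarith
  calc _ ≤ 2 * (j / P) := h5
    _ = 2 * (2 * (j / P)) * (1 / 2) := by ring
    _ ≤ 2 * (2 * (j / P)) * b := mul_le_mul_of_nonneg_left h3 (by linarith)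
    _ = _ := by ring

/-- the differences -/
def Vg_mm {ι : Type} [DecidableEq ι] (c0 : Option ℕ) (c : ι → ℕ) : ι × Option ι → ℕ
  | (i, some i') => if i = i' then 1 else ((c i : ℤ) - c i').natAbs
  | (i, none) => match c0 with
    | none => 1
    | some k => ((c i : ℤ) - k).natAbs

theorem Vg_mm_bd {ι : Type} [Fintype ι] [DecidableEq ι] {w z D W : ℕ} {c0 : Option ℕ} {c : ι → ℕ}
    (hF : Fw w z D W c0 c) (o : ι × Option ι) : 1 ≤ Vg_mm c0 c o ∧ Vg_mm c0 c o ≤ max 1 D := by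
  obtain ⟨i, o⟩ := o
  rcases o with _ | i'
  · rcases c0 with _ | k
    · simp [Vg_mm]
    · have h1 := hF.df0 k rfl i
      simp only [Vg_mm]
      have h2 : ((c i : ℤ) - k).natAbs ≠ 0 := by
        rw [Int.natAbs_ne_zero]
        intro h
        exact h1.1 (by exact_mod_cast sub_eq_zero.1 h)
      have h3 : (((c i : ℤ) - k).natAbs : ℤ) ≤ D := by
        rw [Int.natCast_natAbs]; exact h1.2
      have h4 : ((c i : ℤ) - k).natAbs ≤ D := by exact_mod_cast h3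
      exact ⟨by omega, h4.trans (le_max_right _ _)⟩
  · simp only [Vg_mm]
    split_ifs with h
    · simp
    · have h2 : ((c i : ℤ) - c i').natAbs ≠ 0 := by
        rw [Int.natAbs_ne_zero]
        intro h'
        exact h (hF.inj (by exact_mod_cast sub_eq_zero.1 h'))
      have h3 : (((c i : ℤ) - c i').natAbs : ℤ) ≤ D := by
        rw [Int.natCast_natAbs]; exact hF.df i i'
      have h4 : ((c i : ℤ) - c i').natAbs ≤ D := by exact_mod_cast h3
      exact ⟨by omega, h4.trans (le_max_right _ _)⟩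

theorem Vg_gd {ι : Type} [Fintype ι] [DecidableEq ι] {w z D W : ℕ} {c0 : Option ℕ} {c : ι → ℕ}
    (hF : Fw w z D W c0 c) {p : ℕ} (hp : p.Prime) (hpw : w < p)
    (h : ∀ o, ¬ p ∣ Vg_mm c0 c o) : gd W c0 c p = (Fintype.card ι : ℝ) / ph c0 p := by
  unfold gd
  rw [Vg_nu hF hp hpw]
  · intro i i' hne hd
    have h1 := h (i, some i')
    simp only [Vg_mm, if_neg hne] at h1
    exact h1 (Int.natCast_dvd.1 hd)
  · intro k hk i hd
    have h1 := h (i, none)
    rcases c0 with _ | k'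
    · simp at hk
    · have : k' = k := by simpa using hk
      subst this
      simp only [Vg_mm] at h1
      exact h1 (Int.natCast_dvd.1 hd)

theorem vgc (J0 : ℕ) {ε : ℝ} (hε : 0 < ε) : ∃ x0 : ℝ, ∀ x : ℝ, x0 ≤ x → ∀ z D : ℕ, (D : ℝ) ≤ Real.log x ^ 2 → yy x ≤ z →
    ∀ (ι : Type) [Fintype ι] [DecidableEq ι], Fintype.card ι ≤ J0 → ∀ (c0 : Option ℕ) (c : ι → ℕ),
    Fw (yy x) z D (primorial (yy x)) c0 c →
    |VG (yy x) z (primorial (yy x)) c0 c - VV (yy x) z 1 ^ Fintype.card ι| ≤ ε * VV (yy x) z 1 ^ Fintype.card ι := by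
  have hlog : Filter.Tendsto (fun x : ℝ => Real.log (yy x)) Filter.atTop Filter.atTop :=
    Real.tendsto_log_atTop.comp (tendsto_natCast_atTop_atTop.comp tendsto_yy)
  have hcast : Filter.Tendsto (fun x : ℝ => ((yy x : ℕ) : ℝ)) Filter.atTop Filter.atTop :=
    tendsto_natCast_atTop_atTop.comp tendsto_yy
  have hT : Filter.Tendsto (fun x : ℝ => 2 * ((J0 : ℝ) ^ 2 + 2 * J0) / (yy x : ℝ) +
      1600 * (J0 : ℝ) ^ 2 * (J0 + 1) / Real.log (yy x)) Filter.atTop (nhds 0) := by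
    have h1 := hcast.const_div_atTop (2 * ((J0 : ℝ) ^ 2 + 2 * J0))
    have h2 := hlog.const_div_atTop (1600 * (J0 : ℝ) ^ 2 * (J0 + 1))
    simpa using h1.add h2
  have hle : 0 < Real.log (1 + ε) := Real.log_pos (by linarith)
  have hev := (hT.eventually_lt_const hle).and
    ((tendsto_yy.eventually_ge_atTop (2 * J0 + 2)).and (Real.tendsto_log_atTop.eventually_ge_atTop 1))
  obtain ⟨x0, hx0⟩ := Filter.eventually_atTop.1 hev
  refine ⟨x0, ?_⟩
  intro x hx z D hD hyz ι _ _ hcard c0 c hF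
  obtain ⟨hsum, hw2, hlogx⟩ := hx0 x hx
  set w := yy x with hw
  set W := primorial w with hW
  set j := Fintype.card ι with hj
  have hw1 : 1 ≤ w := by omega
  have hwr : (0 : ℝ) < w := by exact_mod_cast (by omega : 0 < w)
  have hlw : 0 < Real.log w := Real.log_pos (by exact_mod_cast (by omega : 1 < w))
  have hmem : ∀ p ∈ PK w z, w < p ∧ p ≤ z ∧ p.Prime := fun p hp => VVFaux.mem_PK.1 hp
  have hPr : ∀ p ∈ PK w z, (2 : ℝ) ≤ p ∧ 2 * (j : ℝ) ≤ p ∧ (w : ℝ) ≤ p := by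
    intro p hp
    have h1 := (hmem p hp).1
    refine ⟨by exact_mod_cast (by omega : 2 ≤ p), ?_, by exact_mod_cast h1.le⟩
    have : 2 * j ≤ p := by omega
    exact_mod_cast this
  classical
  set Sp := (PK w z).filter (fun p => ∃ o, p ∣ Vg_mm c0 c o) with hSp
  set f : ℕ → ℝ := fun p => (1 - gd W c0 c p) / (1 - 1 / (p : ℝ)) ^ j - 1 with hf
  have hb : ∀ p ∈ PK w z, 0 < (1 - 1 / (p : ℝ)) ^ j := by
    intro p hp
    have := Vg_half (hPr p hp).1 (hPr p hp).2.1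
    linarith
  have hVV : VV w z 1 ^ j = ∏ p ∈ PK w z, (1 - 1 / (p : ℝ)) ^ j := by
    unfold VV
    rw [← Finset.prod_pow]
    simp
  have hVV0 : 0 < VV w z 1 ^ j := by
    rw [hVV]
    exact Finset.prod_pos hb
  have hVG : VG w z W c0 c = VV w z 1 ^ j * ∏ p ∈ PK w z, (1 + f p) := by
    unfold VG
    rw [hVV, ← Finset.prod_mul_distrib]
    refine Finset.prod_congr rfl fun p hp => ?_
    have := (hb p hp).ne'
    simp only [hf]
    field_simp
    ring
  have hfb : ∀ p ∈ PK w z, |f p| ≤ 2 * ((J0 : ℝ) ^ 2 + 2 * J0) * (1 / (p : ℝ) ^ 2) +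
      if p ∈ Sp then 4 * (J0 : ℝ) / w else 0 := by
    intro p hp
    have hjJ : (j : ℝ) ≤ J0 := by exact_mod_cast hcard
    have hj0 : (0 : ℝ) ≤ j := Nat.cast_nonneg j
    have hp0 : (0 : ℝ) < p := by linarith [(hPr p hp).1]
    by_cases hs : p ∈ Sp
    · rw [if_pos hs]
      have h1 := gd_bd hF hp
      have h2 := Vg_spe (hPr p hp).1 (hPr p hp).2.1 h1.1 h1.2
      have h3 : 4 * (j : ℝ) / p ≤ 4 * (J0 : ℝ) / w :=
        div_le_div₀ (by positivity) (by linarith) hwr (hPr p hp).2.2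
      have h4 : 0 ≤ 2 * ((J0 : ℝ) ^ 2 + 2 * J0) * (1 / (p : ℝ) ^ 2) := by positivity
      linarith
    · rw [if_neg hs, add_zero]
      have h1 : ∀ o, ¬ p ∣ Vg_mm c0 c o := by
        intro o ho
        exact hs (Finset.mem_filter.2 ⟨hp, o, ho⟩)
      have h2 := Vg_gd hF (hmem p hp).2.2 (hmem p hp).1 h1
      have h3 : ph c0 p = p ∨ ph c0 p = (p : ℝ) - 1 := by
        unfold ph; split_ifs <;> simp
      have h4 := Vg_gen (hPr p hp).1 (hPr p hp).2.1 h3
      simp only [hf]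
      rw [h2]
      refine h4.trans ?_
      rw [mul_one_div]
      refine div_le_div_of_nonneg_right ?_ (by positivity)
      nlinarith
  have hSpc : (Sp.card : ℝ) ≤ (J0 : ℝ) * (J0 + 1) * (400 * w / Real.log w) := by
    have h1 : Sp ⊆ univ.biUnion fun o : ι × Option ι =>
        (PK w z).filter fun p => p ∣ Vg_mm c0 c o := by
      intro p hp
      rw [hSp, Finset.mem_filter] at hp
      obtain ⟨hp1, o, ho⟩ := hp
      rw [Finset.mem_biUnion]
      exact ⟨o, Finset.mem_univ _, Finset.mem_filter.2 ⟨hp1, ho⟩⟩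
    have h2 : ∀ o : ι × Option ι, (((PK w z).filter fun p => p ∣ Vg_mm c0 c o).card : ℝ) ≤
        400 * w / Real.log w := by
      intro o
      have h3 := Vg_mm_bd hF o
      have h4 := Vg_cnt (m := Vg_mm c0 c o) hw1 h3.1 ((PK w z).filter fun p => p ∣ Vg_mm c0 c o)
        (fun p hp => by
          rw [Finset.mem_filter] at hp
          exact ⟨(hmem p hp.1).2.2, (hmem p hp.1).1, hp.2⟩)
      have h5 : ((Vg_mm c0 c o : ℕ) : ℝ) ≤ Real.log x ^ 2 := by
        have h6 : ((Vg_mm c0 c o : ℕ) : ℝ) ≤ ((max 1 D : ℕ) : ℝ) := by exact_mod_cast h3.2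
        refine h6.trans ?_
        rw [Nat.cast_max]
        refine max_le ?_ hD
        rw [Nat.cast_one]
        nlinarith
      have h6 : Real.log ((Vg_mm c0 c o : ℕ) : ℝ) ≤ 2 * Real.log (Real.log x) := by
        have h7 : Real.log (Real.log x ^ 2) = 2 * Real.log (Real.log x) := by
          rw [Real.log_pow]; norm_num
        rw [← h7]
        refine Real.log_le_log ?_ h5
        exact_mod_cast h3.1
      have h7 : Real.log (Real.log x) ≤ 200 * (w : ℝ) := yy_lower hw1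
      rw [le_div_iff₀ hlw]
      linarith
    have h3 : Sp.card ≤ ∑ o : ι × Option ι, ((PK w z).filter fun p => p ∣ Vg_mm c0 c o).card :=
      (Finset.card_le_card h1).trans Finset.card_biUnion_le
    have h4 : (Sp.card : ℝ) ≤ ∑ o : ι × Option ι,
        (((PK w z).filter fun p => p ∣ Vg_mm c0 c o).card : ℝ) := by exact_mod_cast h3
    refine h4.trans ((Finset.sum_le_sum fun o _ => h2 o).trans ?_)
    rw [Finset.sum_const, Finset.card_univ, Fintype.card_prod, Fintype.card_option, nsmul_eq_mul]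
    push_cast
    have h5 : (j : ℝ) ≤ J0 := by exact_mod_cast hcard
    have h6 : 0 ≤ 400 * (w : ℝ) / Real.log w := by positivity
    refine mul_le_mul_of_nonneg_right ?_ h6
    have h7 : (0 : ℝ) ≤ (Fintype.card ι : ℝ) := Nat.cast_nonneg _
    have h8 : (Fintype.card ι : ℝ) ≤ J0 := h5
    exact mul_le_mul h8 (by linarith) (by linarith) (Nat.cast_nonneg _)
  have hfl : (PK w z).filter (fun p => p ∈ Sp) = Sp := by
    ext p
    simp only [hSp, Finset.mem_filter]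
    tauto
  have hfs : ∑ p ∈ PK w z, |f p| ≤ Real.log (1 + ε) := by
    calc ∑ p ∈ PK w z, |f p| ≤ ∑ p ∈ PK w z, (2 * ((J0 : ℝ) ^ 2 + 2 * J0) * (1 / (p : ℝ) ^ 2) +
          if p ∈ Sp then 4 * (J0 : ℝ) / w else 0) := Finset.sum_le_sum hfb
      _ = 2 * ((J0 : ℝ) ^ 2 + 2 * J0) * ∑ p ∈ PK w z, 1 / (p : ℝ) ^ 2 +
          (Sp.card : ℝ) * (4 * (J0 : ℝ) / w) := by
          rw [Finset.sum_add_distrib, ← Finset.mul_sum, ← Finset.sum_filter, hfl, Finset.sum_const,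
            nsmul_eq_mul]
      _ ≤ 2 * ((J0 : ℝ) ^ 2 + 2 * J0) * (1 / w) +
          (J0 : ℝ) * (J0 + 1) * (400 * w / Real.log w) * (4 * (J0 : ℝ) / w) := by
          refine add_le_add (mul_le_mul_of_nonneg_left (Vg_inv hw1) (by positivity)) ?_
          exact mul_le_mul_of_nonneg_right hSpc (by positivity)
      _ = 2 * ((J0 : ℝ) ^ 2 + 2 * J0) / (w : ℝ) +
          1600 * (J0 : ℝ) ^ 2 * (J0 + 1) / Real.log w := by
          field_simp
          ring
      _ ≤ Real.log (1 + ε) := hsum.le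
  have hprod : |∏ p ∈ PK w z, (1 + f p) - 1| ≤ ε := by
    have h1 := Finset.norm_prod_one_add_sub_one_le (PK w z) f
    rw [Real.norm_eq_abs] at h1
    refine h1.trans ?_
    have h2 : ∑ p ∈ PK w z, ‖f p‖ ≤ Real.log (1 + ε) := hfs
    have h3 := Real.exp_le_exp.2 h2
    rw [Real.exp_log (by linarith)] at h3
    linarith
  rw [hVG]
  have e1 : VV w z 1 ^ j * ∏ p ∈ PK w z, (1 + f p) - VV w z 1 ^ j =
      VV w z 1 ^ j * (∏ p ∈ PK w z, (1 + f p) - 1) := by ring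
  rw [e1, abs_mul, abs_of_pos hVV0, mul_comm ε]
  exact mul_le_mul_of_nonneg_left hprod hVV0.le

theorem Vg_z {e1 : ℝ} (he1 : 0 < e1) : ∀ᶠ x : ℝ in Filter.atTop,
    yy x ≤ ⌊x ^ e1⌋₊ ∧ 2 ≤ ⌊x ^ e1⌋₊ ∧ 2 ≤ yy x ∧ 1 ≤ Real.log x ∧
    e1 * Real.log x / 2 ≤ Real.log (⌊x ^ e1⌋₊ : ℝ) ∧ Real.log (⌊x ^ e1⌋₊ : ℝ) ≤ e1 * Real.log x := by
  have h1 : ∀ᶠ x : ℝ in Filter.atTop, Real.log x ≤ x ^ e1 := by
    have := (isLittleO_log_rpow_atTop he1).bound (show (0 : ℝ) < 1 by norm_num)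
    filter_upwards [this, Filter.eventually_ge_atTop 1] with x hx hx1
    rw [Real.norm_of_nonneg (Real.log_nonneg hx1), Real.norm_of_nonneg (by positivity), one_mul] at hx
    exact hx
  have h2 : ∀ᶠ x : ℝ in Filter.atTop, 4 ≤ e1 * Real.log x :=
    (Real.tendsto_log_atTop.const_mul_atTop he1).eventually_ge_atTop 4
  filter_upwards [h1, h2, Filter.eventually_ge_atTop 1, Real.tendsto_log_atTop.eventually_ge_atTop 1,
    tendsto_yy.eventually_ge_atTop 2] with x hx1 hx2 hx3 hx4 hx5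
  have hx0 : 0 < x := by linarith
  have hxe : 0 < x ^ e1 := by positivity
  have hloge : Real.log (x ^ e1) = e1 * Real.log x := Real.log_rpow hx0 _
  have h4 : 4 ≤ x ^ e1 := by
    have h5 : Real.exp 4 ≤ x ^ e1 := by
      rw [← Real.le_log_iff_exp_le hxe, hloge]; exact hx2
    have h6 := Real.add_one_le_exp (4 : ℝ)
    linarith
  have h5 : 2 ≤ ⌊x ^ e1⌋₊ := Nat.le_floor (by push_cast; linarith)
  have h6 : (⌊x ^ e1⌋₊ : ℝ) ≤ x ^ e1 := Nat.floor_le hxe.le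
  have h7 : x ^ e1 / 2 ≤ (⌊x ^ e1⌋₊ : ℝ) := by
    have := Nat.lt_floor_add_one (x ^ e1)
    linarith
  have hf0 : (0 : ℝ) < ⌊x ^ e1⌋₊ := by exact_mod_cast (by omega : 0 < ⌊x ^ e1⌋₊)
  refine ⟨?_, h5, hx5, hx4, ?_, ?_⟩
  · unfold yy
    refine Nat.floor_le_floor ?_
    have h8 : Real.log (Real.log x) ≤ Real.log x - 1 := Real.log_le_sub_one_of_pos (by linarith)
    linarith
  · have h8 : Real.log (x ^ e1 / 2) ≤ Real.log (⌊x ^ e1⌋₊ : ℝ) :=
      Real.log_le_log (by linarith) h7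
    rw [Real.log_div hxe.ne' (by norm_num), hloge] at h8
    have := Real.log_two_lt_d9
    linarith
  · rw [← hloge]
    exact Real.log_le_log hf0 h6

theorem v1b : ∃ C : ℝ, 1 ≤ C ∧ ∀ e1 : ℝ, 0 < e1 → e1 ≤ 1 → ∃ x0 : ℝ, ∀ x : ℝ, x0 ≤ x →
    (primorial (yy x) : ℝ) / ((Nat.totient (primorial (yy x)) : ℝ) * Real.log x) / (C * e1) ≤ VV (yy x) ⌊x ^ e1⌋₊ 1 ∧
    VV (yy x) ⌊x ^ e1⌋₊ 1 ≤ C / e1 * ((primorial (yy x) : ℝ) / ((Nat.totient (primorial (yy x)) : ℝ) * Real.log x)) := by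
  obtain ⟨c, hc, _, _, _, h4, h5⟩ := Pool.Agent.H67.GT.MERT.mert
  refine ⟨2 * c, by linarith, fun e1 he1 he1' => ?_⟩
  obtain ⟨x0, hx0⟩ := Filter.eventually_atTop.1 (Vg_z he1)
  refine ⟨x0, fun x hx => ?_⟩
  obtain ⟨hyz, hz2, hy2, hlx, hl1, hl2⟩ := hx0 x hx
  set z := ⌊x ^ e1⌋₊ with hz
  set w := yy x with hw
  have hlx0 : 0 < Real.log x := by linarith
  have hlz : 0 < Real.log z := Real.log_pos (by exact_mod_cast (by omega : 1 < z))
  have hφ : (0 : ℝ) < (Nat.totient (primorial w) : ℝ) := by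
    exact_mod_cast Nat.totient_pos.2 (primorial_pos w)
  have hW : (0 : ℝ) < (primorial w : ℝ) := by exact_mod_cast primorial_pos w
  have hVw : Pool.Agent.H67.GT.V Set.univ w = (Nat.totient (primorial w) : ℝ) / (primorial w : ℝ) :=
    (VVFaux.tot_primorial w).symm
  have hsp := VVFaux.vuniv_split hyz
  have hVV : VV w z 1 = (primorial w : ℝ) / (Nat.totient (primorial w) : ℝ) *
      Pool.Agent.H67.GT.V Set.univ z := by
    rw [hsp, hVw]
    field_simp
  have hVl := h4 Set.univ z hz2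
  have hVu := h5 z hz2
  have hc0 : 0 < c := by linarith
  set R := (primorial w : ℝ) / (Nat.totient (primorial w) : ℝ) with hR
  have hR0 : 0 < R := by positivity
  have e2 : (primorial w : ℝ) / ((Nat.totient (primorial w) : ℝ) * Real.log x) = R / Real.log x := by
    rw [hR, div_div]
  rw [hVV, e2]
  constructor
  · have h6 : 1 / (c * (e1 * Real.log x)) ≤ Pool.Agent.H67.GT.V Set.univ z := by
      refine le_trans ?_ hVl
      exact one_div_le_one_div_of_le (by positivity) (mul_le_mul_of_nonneg_left hl2 hc0.le)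
    have h7 : R / Real.log x / (2 * c * e1) ≤ R * (1 / (c * (e1 * Real.log x))) := by
      have h8 : R / Real.log x / (2 * c * e1) = R * (1 / (c * (e1 * Real.log x))) / 2 := by
        field_simp
      rw [h8]
      have : 0 ≤ R * (1 / (c * (e1 * Real.log x))) := by positivity
      linarith
    exact h7.trans (mul_le_mul_of_nonneg_left h6 hR0.le)
  · have h6 : Pool.Agent.H67.GT.V Set.univ z ≤ c / (e1 * Real.log x / 2) := by
      rw [le_div_iff₀ (by positivity)]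
      have h7 : 0 ≤ Pool.Agent.H67.GT.V Set.univ z := (VVFaux.vuniv_pos z).le
      exact (mul_le_mul_of_nonneg_left hl1 h7).trans hVu
    refine (mul_le_mul_of_nonneg_left h6 hR0.le).trans (le_of_eq ?_)
    field_simp

/-- `VV` is positive (`1 - 1/p ≥ 1/2`) and at least `c/log x` -/
theorem v1low (e1 : ℝ) (he1 : 0 < e1) (he1' : e1 ≤ 1) : ∃ c x0 : ℝ, 0 < c ∧ ∀ x : ℝ, x0 ≤ x →
    c / Real.log x ≤ VV (yy x) ⌊x ^ e1⌋₊ 1 ∧ VV (yy x) ⌊x ^ e1⌋₊ 1 ≤ 1 := by
  obtain ⟨C, hC, h⟩ := v1b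
  obtain ⟨x1, hx1⟩ := h e1 he1 he1'
  obtain ⟨x0, hx0⟩ := Filter.eventually_atTop.1 (Vg_z he1)
  have hC0 : 0 < C := by linarith
  refine ⟨1 / (C * e1), max x0 x1, by positivity, fun x hx => ?_⟩
  obtain ⟨hyz, hz2, hy2, hlx, hl1, hl2⟩ := hx0 x ((le_max_left _ _).trans hx)
  have hlx0 : 0 < Real.log x := by linarith
  refine ⟨le_trans ?_ (hx1 x ((le_max_right _ _).trans hx)).1, vv_le_one (by omega)⟩
  have hφ : (0 : ℝ) < (Nat.totient (primorial (yy x)) : ℝ) := by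
    exact_mod_cast Nat.totient_pos.2 (primorial_pos _)
  have hW : (Nat.totient (primorial (yy x)) : ℝ) ≤ (primorial (yy x) : ℝ) := by
    exact_mod_cast Nat.totient_le _
  have h1 : 1 / Real.log x ≤
      (primorial (yy x) : ℝ) / ((Nat.totient (primorial (yy x)) : ℝ) * Real.log x) := by
    rw [div_le_div_iff₀ hlx0 (by positivity)]
    nlinarith
  calc 1 / (C * e1) / Real.log x = 1 / Real.log x / (C * e1) := by ring
    _ ≤ _ := div_le_div_of_nonneg_right h1 (by positivity)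

end H73PC
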