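import Pool.Agent.H73.PC.If0
import Pool.Agent.H73.PC.Vg

/-!
# ROW Fx: the forms

`Rk`: the shifts `k ≤ Λ log x` in the class `b` which are coprime to `W`; `cf`: the forms of the cluster `H` and the other forms.
* `fwX`. PROOF. `D = ⌊Λ log x⌋ ≤ z = ⌊x^e1⌋` for large `x`; `p ∣ primorial w → p ≤ w`; the values `Xo x + b + k`, `k` in `H ∪ (Rk \ H)`, are different, their differences are `≤ Λ log x`. `Xo x = ⌊x/2⌋ ≥ 1`.
* `rgX`. PROOF. `b < W ≤ log x`, `k ≤ Λ log x`, `W To x ≤ x/4`: `x/3 ≤ Xo x + b + k ≤ 2x/3`, `Xo x + b + k + W t ≤ x`.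
* `mub`. PROOF. Every block of `W` consecutive integers has `φ(W)` numbers coprime to `W`, so `|Rk| ≤ (Λ L/W + 1) φ(W) ≤ 2 Λ L φ(W)/W` (`W ≤ L`, `L = log x`, `Λ ≥ 1`); multiply by `VV ≤ (Cv/e1) Vo x`, `Vo x = W/(φ(W) L)` (`v1b`, whose constant is `Cv`).
-/

open Finset EG H69PG Pool.Agent.H17

namespace H73PC

/-- the shifts in the class `b` -/
noncomputable def Rk (x Λ : ℝ) (b : ℕ) : Finset ℕ :=
  (Icc 1 ⌊Λ * Real.log x⌋₊).filter (fun k => Nat.Coprime (Xo x + b + k) (WW (yy x)))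

/-- the forms -/
noncomputable def cf (x Λ : ℝ) (b : ℕ) (H : Finset ℕ) : {h // h ∈ H} ⊕ {k // k ∈ Rk x Λ b \ H} → ℕ :=
  Sum.elim (fun h => Xo x + b + h) (fun k => Xo x + b + k)

theorem Fx_mem {x Λ : ℝ} {b : ℕ} {H : Finset ℕ} (hH : H ⊆ Rk x Λ b)
    (i : {h // h ∈ H} ⊕ {k // k ∈ Rk x Λ b \ H}) :
    ∃ k : ℕ, 1 ≤ k ∧ k ≤ ⌊Λ * Real.log x⌋₊ ∧ cf x Λ b H i = Xo x + b + k := by
  have hR : ∀ k ∈ Rk x Λ b, 1 ≤ k ∧ k ≤ ⌊Λ * Real.log x⌋₊ := by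
    intro k hk
    unfold Rk at hk
    rw [Finset.mem_filter, Finset.mem_Icc] at hk
    exact hk.1
  rcases i with h | k
  · obtain ⟨h1, h2⟩ := hR h (hH h.2)
    exact ⟨h, h1, h2, rfl⟩
  · obtain ⟨h1, h2⟩ := hR k (Finset.mem_sdiff.1 k.2).1
    exact ⟨k, h1, h2, rfl⟩

theorem Fx_inj {x Λ : ℝ} {b : ℕ} {H : Finset ℕ} : Function.Injective (cf x Λ b H) := by
  intro i j hij
  rcases i with h | k <;> rcases j with h' | k'
  · have h1 : Xo x + b + (h : ℕ) = Xo x + b + (h' : ℕ) := hij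
    have h2 : (h : ℕ) = h' := by omega
    rw [Subtype.ext h2]
  · have h1 : Xo x + b + (h : ℕ) = Xo x + b + (k' : ℕ) := hij
    have h2 : (h : ℕ) = k' := by omega
    exact absurd (h2 ▸ h.2) (Finset.mem_sdiff.1 k'.2).2
  · have h1 : Xo x + b + (k : ℕ) = Xo x + b + (h' : ℕ) := hij
    have h2 : (h' : ℕ) = k := by omega
    exact absurd (h2 ▸ h'.2) (Finset.mem_sdiff.1 k.2).2
  · have h1 : Xo x + b + (k : ℕ) = Xo x + b + (k' : ℕ) := hij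
    have h2 : (k : ℕ) = k' := by omega
    rw [Subtype.ext h2]

theorem Fx_df {x Λ : ℝ} {b : ℕ} {H : Finset ℕ} (hH : H ⊆ Rk x Λ b)
    (i j : {h // h ∈ H} ⊕ {k // k ∈ Rk x Λ b \ H}) :
    |(cf x Λ b H i : ℤ) - cf x Λ b H j| ≤ (⌊Λ * Real.log x⌋₊ : ℕ) := by
  obtain ⟨k, h1, h2, h3⟩ := Fx_mem hH i
  obtain ⟨k', h1', h2', h3'⟩ := Fx_mem hH j
  rw [h3, h3', abs_le]
  push_cast
  constructor <;> omega

theorem Fx_cpos {x Λ : ℝ} {b : ℕ} {H : Finset ℕ} (hH : H ⊆ Rk x Λ b)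
    (i : {h // h ∈ H} ⊕ {k // k ∈ Rk x Λ b \ H}) : 1 ≤ cf x Λ b H i := by
  obtain ⟨k, h1, h2, h3⟩ := Fx_mem hH i
  rw [h3]
  omega

theorem fwX (Λ e1 : ℝ) (hΛ : 1 ≤ Λ) (he1 : 0 < e1) : ∃ x0 : ℝ, ∀ x : ℝ, x0 ≤ x → ∀ b : ℕ, b < WW (yy x) → ∀ H : Finset ℕ, H ⊆ Rk x Λ b →
    Fw (yy x) ⌊x ^ e1⌋₊ ⌊Λ * Real.log x⌋₊ (primorial (yy x)) none
      (fun i : {i // i ∈ (univ : Finset ({h // h ∈ H} ⊕ {k // k ∈ Rk x Λ b \ H}))} => cf x Λ b H i) ∧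
    ∀ h0 : {h // h ∈ H}, Fw (yy x) ⌊x ^ e1⌋₊ ⌊Λ * Real.log x⌋₊ (primorial (yy x)) (some (Xo x + b + h0))
      (fun i : {i // i ∈ (univ : Finset ({h // h ∈ H} ⊕ {k // k ∈ Rk x Λ b \ H})).erase (Sum.inl h0)} => cf x Λ b H i) := by
  have hΛ0 : 0 < Λ := by linarith
  have hev : ∀ᶠ x : ℝ in Filter.atTop, Λ * Real.log x ≤ x ^ e1 := by
    have h1 := (isLittleO_log_rpow_atTop he1).bound (inv_pos.2 hΛ0)
    filter_upwards [h1, Filter.eventually_ge_atTop (1 : ℝ)] with x hx hx1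
    rw [Real.norm_eq_abs, Real.norm_eq_abs, abs_of_nonneg (Real.log_nonneg hx1),
      abs_of_nonneg (Real.rpow_nonneg (by linarith) _)] at hx
    calc Λ * Real.log x ≤ Λ * (Λ⁻¹ * x ^ e1) := mul_le_mul_of_nonneg_left hx hΛ0.le
      _ = x ^ e1 := by
        field_simp
  obtain ⟨x0, hx0⟩ := Filter.eventually_atTop.1 hev
  refine ⟨x0, fun x hx b _ H hH => ?_⟩
  have hDz : ⌊Λ * Real.log x⌋₊ ≤ ⌊x ^ e1⌋₊ := Nat.floor_mono (hx0 x hx)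
  have hpr : ∀ p : ℕ, p.Prime → p ∣ primorial (yy x) → p ≤ yy x := fun p hp h =>
    hp.dvd_primorial_iff.1 h
  constructor
  · exact
      { pos := primorial_pos _
        pr := hpr
        inj := fun i j h => Subtype.ext (Fx_inj h)
        df := fun i j => Fx_df hH i j
        Dz := hDz
        cpos := fun i => Fx_cpos hH i
        df0 := fun k hk => by simp at hk }
  · intro h0
    exact
      { pos := primorial_pos _
        pr := hpr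
        inj := fun i j h => Subtype.ext (Fx_inj h)
        df := fun i j => Fx_df hH i j
        Dz := hDz
        cpos := fun i => Fx_cpos hH i
        df0 := fun k hk i => by
          have hk' : Xo x + b + h0 = k := Option.some.inj hk
          have hc : cf x Λ b H (Sum.inl h0) = k := hk'
          have hi : (i : {h // h ∈ H} ⊕ {k // k ∈ Rk x Λ b \ H}) ≠ Sum.inl h0 :=
            (Finset.mem_erase.1 i.2).1
          rw [← hc]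
          exact ⟨fun h => hi (Fx_inj h), Fx_df hH i _⟩ }

/-- facts for large `x` -/
theorem Fx_big (Λ : ℝ) (hΛ : 1 ≤ Λ) : ∃ x0 : ℝ, ∀ x : ℝ, x0 ≤ x → 6 ≤ x ∧ 1 ≤ Real.log x ∧
    (1 + Λ) * Real.log x ≤ x / 6 ∧ (WW (yy x) : ℝ) ≤ Real.log x := by
  have hΛ0 : 0 < 6 * (1 + Λ) := by linarith
  have hev := eventually_log_pow_le 1 (δ := 1 / (6 * (1 + Λ))) (by positivity)
  have hev2 := Real.tendsto_log_atTop.eventually_ge_atTop (1 : ℝ)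
  obtain ⟨x0, hx0⟩ := Filter.eventually_atTop.1 (hev.and (hev2.and (Filter.eventually_ge_atTop (6 : ℝ))))
  refine ⟨x0, fun x hx => ?_⟩
  obtain ⟨h1, h2, h3⟩ := hx0 x hx
  refine ⟨h3, h2, ?_, ?_⟩
  · rw [pow_one] at h1
    have h4 : (1 + Λ) * Real.log x ≤ (1 + Λ) * (1 / (6 * (1 + Λ)) * x) :=
      mul_le_mul_of_nonneg_left h1 (by linarith)
    have h5 : (1 + Λ) * (1 / (6 * (1 + Λ)) * x) = x / 6 := by
      have : 1 + Λ ≠ 0 := by linarith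
      field_simp
    linarith
  · have h4 := WW_yy_pow_le h2
    have hW : (1 : ℝ) ≤ (WW (yy x) : ℕ) := by exact_mod_cast WW_pos (yy x)
    have h5 : ((WW (yy x) : ℕ) : ℝ) ≤ ((WW (yy x) : ℕ) : ℝ) ^ 34 := le_self_pow₀ hW (by norm_num)
    have h6 : Real.sqrt (Real.log x) ≤ Real.log x := by
      rw [Real.sqrt_le_left (by linarith)]
      nlinarith
    linarith

theorem rgX (Λ : ℝ) (hΛ : 1 ≤ Λ) : ∃ x0 : ℝ, ∀ x : ℝ, x0 ≤ x → 1 ≤ To x ∧ (WW (yy x) : ℝ) ≤ Real.log x ∧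
    ∀ b : ℕ, b < WW (yy x) → ∀ k : ℕ, (k : ℝ) ≤ Λ * Real.log x → x / 3 ≤ ((Xo x + b + k : ℕ) : ℝ) ∧ ((Xo x + b + k : ℕ) : ℝ) ≤ 2 * x / 3 ∧
      ∀ t < To x, ((WW (yy x) * t + (Xo x + b + k) : ℕ) : ℝ) ≤ x := by
  obtain ⟨x0, hx0⟩ := Fx_big Λ hΛ
  refine ⟨x0, fun x hx => ?_⟩
  obtain ⟨h6, hL, hb, hW⟩ := hx0 x hx
  have hW1 : (1 : ℝ) ≤ (WW (yy x) : ℕ) := by exact_mod_cast WW_pos (yy x)
  have hΛL : Real.log x ≤ Λ * Real.log x := by nlinarith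
  have hb' : Real.log x + Λ * Real.log x ≤ x / 6 := by linarith
  have hT : (To x : ℝ) ≤ x / (4 * (WW (yy x) : ℝ)) := Nat.floor_le (by positivity)
  have hWT : (WW (yy x) : ℝ) * To x ≤ x / 4 := by
    have h1 := mul_le_mul_of_nonneg_left hT (by linarith : (0 : ℝ) ≤ (WW (yy x) : ℕ))
    have h2 : ((WW (yy x) : ℕ) : ℝ) * (x / (4 * (WW (yy x) : ℝ))) = x / 4 := by
      field_simp
    linarith
  refine ⟨?_, hW, fun b hbW k hk => ?_⟩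
  · unfold To
    rw [Nat.one_le_floor_iff, le_div_iff₀ (by linarith)]
    linarith
  · have hX1 : (Xo x : ℝ) ≤ x / 2 := Nat.floor_le (by linarith)
    have hX2 : x / 2 < (Xo x : ℝ) + 1 := Nat.lt_floor_add_one _
    have hbL : (b : ℝ) ≤ Real.log x := by
      have : (b : ℝ) ≤ (WW (yy x) : ℕ) := by exact_mod_cast hbW.le
      linarith
    have hb0 : (0 : ℝ) ≤ b := Nat.cast_nonneg b
    have hk0 : (0 : ℝ) ≤ k := Nat.cast_nonneg k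
    refine ⟨?_, ?_, fun t ht => ?_⟩
    · push_cast
      linarith
    · push_cast
      linarith
    · push_cast
      have h1 : ((WW (yy x) : ℕ) : ℝ) * t ≤ (WW (yy x) : ℝ) * To x := by
        refine mul_le_mul_of_nonneg_left ?_ (by linarith)
        exact_mod_cast ht.le
      linarith

theorem Fx_card (x Λ : ℝ) (b : ℕ) : (Rk x Λ b).card ≤
    Nat.totient (WW (yy x)) * (⌊Λ * Real.log x⌋₊ / WW (yy x) + 1) := by
  have hW : WW (yy x) ≠ 0 := (WW_pos (yy x)).ne'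
  refine le_trans ?_ (Nat.Ico_filter_coprime_le (Xo x + b + 1) ⌊Λ * Real.log x⌋₊ hW)
  refine Finset.card_le_card_of_injOn (fun k => Xo x + b + k) ?_ ?_
  · intro k hk
    have hk' : k ∈ Rk x Λ b := hk
    unfold Rk at hk'
    rw [Finset.mem_filter, Finset.mem_Icc] at hk'
    have h1 : Xo x + b + k ∈ (Finset.Ico (Xo x + b + 1) (Xo x + b + 1 + ⌊Λ * Real.log x⌋₊)).filter
        (fun y => (WW (yy x)).Coprime y) := by
      rw [Finset.mem_filter, Finset.mem_Ico]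
      exact ⟨⟨by omega, by omega⟩, hk'.2.symm⟩
    exact h1
  · intro k _ k' _ h
    have h1 : Xo x + b + k = Xo x + b + k' := h
    omega

theorem mub : ∃ Cv : ℝ, 1 ≤ Cv ∧ ∀ Λ e1 : ℝ, 1 ≤ Λ → 0 < e1 → e1 ≤ 1 → ∃ x0 : ℝ, ∀ x : ℝ, x0 ≤ x →
    0 < Vo x ∧ Vo x / (Cv * e1) ≤ VV (yy x) ⌊x ^ e1⌋₊ 1 ∧ VV (yy x) ⌊x ^ e1⌋₊ 1 ≤ Cv / e1 * Vo x ∧
    ∀ b : ℕ, ((Rk x Λ b).card : ℝ) * VV (yy x) ⌊x ^ e1⌋₊ 1 ≤ 2 * Λ * Cv / e1 := by
  obtain ⟨C, hC1, hC⟩ := v1b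
  refine ⟨C, hC1, fun Λ e1 hΛ he1 he1' => ?_⟩
  obtain ⟨x1, hx1⟩ := hC e1 he1 he1'
  obtain ⟨x2, hx2⟩ := Fx_big Λ hΛ
  refine ⟨max x1 x2, fun x hx => ?_⟩
  obtain ⟨h1, h2⟩ := hx1 x ((le_max_left _ _).trans hx)
  obtain ⟨h6, hL, hb, hW⟩ := hx2 x ((le_max_right _ _).trans hx)
  have hWp : primorial (yy x) = WW (yy x) := rfl
  rw [hWp] at h1 h2
  have hW1 : (1 : ℝ) ≤ (WW (yy x) : ℕ) := by exact_mod_cast WW_pos (yy x)
  have hφ : (0 : ℝ) < (Nat.totient (WW (yy x)) : ℝ) := by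
    exact_mod_cast Nat.totient_pos.2 (WW_pos (yy x))
  have hV0 : 0 < Vo x := by
    unfold Vo
    positivity
  have hVV : VV (yy x) ⌊x ^ e1⌋₊ 1 ≤ C / e1 * Vo x := h2
  have hVV1 : Vo x / (C * e1) ≤ VV (yy x) ⌊x ^ e1⌋₊ 1 := h1
  refine ⟨hV0, hVV1, hVV, fun b => ?_⟩
  have hc : ((Rk x Λ b).card : ℝ) ≤ Nat.totient (WW (yy x)) * (2 * (Λ * Real.log x) / WW (yy x)) := by
    have h3 : ((Rk x Λ b).card : ℝ) ≤
        ((Nat.totient (WW (yy x)) * (⌊Λ * Real.log x⌋₊ / WW (yy x) + 1) : ℕ) : ℝ) := by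
      exact_mod_cast Fx_card x Λ b
    refine h3.trans ?_
    push_cast
    refine mul_le_mul_of_nonneg_left ?_ hφ.le
    have h4 : ((⌊Λ * Real.log x⌋₊ / WW (yy x) : ℕ) : ℝ) ≤ (⌊Λ * Real.log x⌋₊ : ℝ) / WW (yy x) :=
      Nat.cast_div_le
    have h5 : (⌊Λ * Real.log x⌋₊ : ℝ) ≤ Λ * Real.log x := Nat.floor_le (by positivity)
    have h6 : (⌊Λ * Real.log x⌋₊ : ℝ) / WW (yy x) ≤ Λ * Real.log x / WW (yy x) := by gcongr
    have h7 : 1 ≤ Λ * Real.log x / WW (yy x) := by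
      rw [one_le_div (by linarith)]
      nlinarith
    have h8 : 2 * (Λ * Real.log x) / WW (yy x) =
        Λ * Real.log x / WW (yy x) + Λ * Real.log x / WW (yy x) := by ring
    rw [h8]
    linarith
  calc ((Rk x Λ b).card : ℝ) * VV (yy x) ⌊x ^ e1⌋₊ 1
      ≤ ((Rk x Λ b).card : ℝ) * (C / e1 * Vo x) := mul_le_mul_of_nonneg_left hVV (Nat.cast_nonneg _)
    _ ≤ (Nat.totient (WW (yy x)) * (2 * (Λ * Real.log x) / WW (yy x))) * (C / e1 * Vo x) :=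
        mul_le_mul_of_nonneg_right hc (by positivity)
    _ = 2 * Λ * C / e1 := by
        unfold Vo
        have hL0 : Real.log x ≠ 0 := by linarith
        have hW0 : (WW (yy x) : ℝ) ≠ 0 := by linarith
        field_simp

end H73PC
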