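import Pool.Agent.H73.PC.Clf

/-!
# Interface of the analytic machine with the sum over tuples and classes: the statement
-/

open Finset EG H69PG Pool.Agent.H17

namespace H73PC

open Classical in
/-- the two statements needed for the sum over tuples: lower bound for the good `t` with cluster `H`, upper bound for the rough tuples -/
theorem clx (m : ℕ) : ∃ K : ℕ, m + 1 ≤ K ∧ ∀ Λ : ℝ, 1 ≤ Λ → ∃ e1 c C x0 : ℝ, 0 < e1 ∧ e1 ≤ 1 ∧ 0 < c ∧ 0 < C ∧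
    ∀ x : ℝ, x0 ≤ x → ∀ b : ℕ, b < WW (yy x) →
    (∀ H : Finset ℕ, H.card = K → (∀ h ∈ H, 1 ≤ h ∧ (h : ℝ) ≤ Λ * Real.log x ∧ Nat.Coprime (Xo x + b + h) (WW (yy x))) →
      c * (To x : ℝ) * Vo x ^ K ≤ (((range (To x)).filter (fun t =>
        m + 1 ≤ (H.filter (fun h => (Xo x + b + WW (yy x) * t + h).Prime)).card ∧
        (∀ k : ℕ, 1 ≤ k → (k : ℝ) ≤ Λ * Real.log x → k ∉ H → ¬ (Xo x + b + WW (yy x) * t + k).Prime) ∧
        ∀ h ∈ H, Ro (yy x) (x ^ e1) (Xo x + b + WW (yy x) * t + h))).card : ℝ)) ∧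
    (∀ U : Finset ℕ, U.card ≤ 2 * K → (∀ h ∈ U, 1 ≤ h ∧ (h : ℝ) ≤ Λ * Real.log x ∧ Nat.Coprime (Xo x + b + h) (WW (yy x))) →
      (((range (To x)).filter (fun t => ∀ h ∈ U, Ro (yy x) (x ^ e1) (Xo x + b + WW (yy x) * t + h))).card : ℝ) ≤
        C * (To x : ℝ) * Vo x ^ U.card) := clxf m

end H73PC
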