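import Pool.Agent.H73.PC.Df

/-!
# Interface of the analytic machine with the sum over tuples and classes

`w = yy x`, `W = WW w` (the product of the primes `≤ w`), `T = ⌊x/(4W)⌋`, `X0 = ⌊x/2⌋`; numbers `n = X0 + b + W t` (`b < W`, `t < T`).
-/

open Finset EG H69PG Pool.Agent.H17

namespace H73PC

noncomputable def Xo (x : ℝ) : ℕ := ⌊x / 2⌋₊

noncomputable def To (x : ℝ) : ℕ := ⌊x / (4 * (WW (yy x) : ℝ))⌋₊

/-- the expected density of `x^e1`-rough numbers in a reduced class modulo `W`, up to a constant -/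
noncomputable def Vo (x : ℝ) : ℝ := (WW (yy x) : ℝ) / ((Nat.totient (WW (yy x)) : ℝ) * Real.log x)

/-- `n` has no prime factor in `(w, y]` -/
def Ro (w : ℕ) (y : ℝ) (n : ℕ) : Prop := ∀ p : ℕ, p.Prime → p ∣ n → w < p → y < p

end H73PC
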