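import Pool.Agent.H73.PC.Eg
import Pool.Agent.H73.PC.Pb
import Pool.Agent.H73.PC.Vg
import Pool.Agent.H73.PC.Dg
import Pool.Agent.H69.PG.Elu

/-!
# ROW Mns: mean values with the main term in product form

Write `w = yy x`, `z = ⌊x^e1⌋`, `W = primorial w`, `j = card ι ≤ J0`, `v1 = VV w z 1`, `L = log x`, `Γ1 = 10 Γ`, `Fc = 4 Γ²`, `A1 = 4 Γ^5`.
PROOF. `C` = the maximum of the constants of `ega j`, `j ≤ J0` (rounded up). For large `x`: `C ≤ w`, `2 ≤ w ≤ z`, `j M ≤ z` (`tendsto_yy` in `Pool/Agent/H17/AvgMain.lean`, `z → ∞` faster: `w ≤ loglog x ≤ z`). By `ega`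
`∑_t ∏ (th0 Fn) = Y VG S1 + O(e^(-b0) Y VG S2) + O((3 log z + 4) S3)`, `S1 = ∑_{PC} ∏ f/Ph`, `S2 = ∑_{PC} ∏ |f|/Ph ≤ 3 A1^j` (`phb`), `|S1 - Mm| ≤ 2 j M/z A1^j` (`phb`), `|Mm - ∏ SS| ≤ C'/√z Γ1^j` (`Elu_s3`),
`S3 ≤ Fc^j ErS Dm ((j+1)² 3) E` (`erg`, `C0 = 3`) `≤ Fc^j Y/L^(J0+2)`; `|VG - v1^j| ≤ ε v1^j` (`vgc`), `|∏ SS| ≤ A1^j` (`|SS D f 1| ≤ ∑ |f B|/B`). Hence
`|∑_t ... - Y v1^j ∏ SS| ≤ Y VG (2 j M/z A1^j + C'/√z Γ1^j) + ε Y v1^j A1^j + e^(-b0) Y VG 3 A1^j + (3 L + 4) Fc^j Y/L^(J0+2)`, and `VG ≤ (1 + ε) v1^j`, `v1^j ≥ (c/L)^j ≥ c^J0/L^J0` (`v1low`, `c ≤ 1`), so with `ε = e^(-b0)/4`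
and `x` large each of the first two terms and the last one is at most `e^(-b0)/4 · Y v1^j A1^j` and the third is `≤ 4 e^(-b0) Y v1^j A1^j`. Total `≤ 8 e^(-b0) A1^J0 Y v1^j` (`A1 ≥ 1`).
(`ErS` is monotone in `C`: `(j+1)² 3 ≤ (J0+1)² 3`.)
-/

open Finset EG H69PG Pool.Agent.H17

namespace H73PC

theorem Mns_SS {D : Finset ℕ} {f : ℕ → ℝ} {A : ℝ} (h : ∑ B ∈ D, |f B| / (B : ℝ) ≤ A) : |SS D f 1| ≤ A := by
  refine le_trans ?_ h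
  unfold SS
  refine (Finset.abs_sum_le_sum_abs _ _).trans ?_
  refine (Finset.sum_le_sum_of_subset_of_nonneg (Finset.filter_subset _ _) fun B _ _ => abs_nonneg _).trans ?_
  refine le_of_eq (Finset.sum_congr rfl fun B _ => ?_)
  rw [abs_div, abs_of_nonneg (Nat.cast_nonneg B : (0 : ℝ) ≤ B)]

theorem Mns_ErS {Dm : ℕ} {C C' : ℝ} {E : ℕ → ℝ} (hC : 0 ≤ C) (hCC : C ≤ C') (hE : ∀ d, 0 ≤ E d) :
    ErS Dm C E ≤ ErS Dm C' E := by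
  unfold ErS
  exact Finset.sum_le_sum fun d _ => mul_le_mul_of_nonneg_right (pow_le_pow_left₀ hC hCC _) (hE d)

theorem Mns_ztop {e1 : ℝ} (he1 : 0 < e1) (K : ℝ) : ∀ᶠ x : ℝ in Filter.atTop, K ≤ (⌊x ^ e1⌋₊ : ℝ) :=
  (tendsto_natCast_atTop_atTop.comp (tendsto_nat_floor_atTop.comp (tendsto_rpow_atTop he1))).eventually_ge_atTop K

theorem Mns_v {e1 : ℝ} (he1 : 0 < e1) (he1' : e1 ≤ 1) : ∃ c : ℝ, 0 < c ∧ c ≤ 1 ∧ ∀ᶠ x : ℝ in Filter.atTop,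
    c / Real.log x ≤ VV (yy x) ⌊x ^ e1⌋₊ 1 ∧ VV (yy x) ⌊x ^ e1⌋₊ 1 ≤ 1 := by
  obtain ⟨c, x0, hc, h⟩ := v1low e1 he1 he1'
  refine ⟨min c 1, lt_min hc one_pos, min_le_right _ _, ?_⟩
  filter_upwards [Filter.eventually_ge_atTop x0, Real.tendsto_log_atTop.eventually_ge_atTop 1] with x hx hL
  obtain ⟨h1, h2⟩ := h x hx
  refine ⟨le_trans ?_ h1, h2⟩
  exact div_le_div_of_nonneg_right (min_le_left _ _) (by linarith)

/-- the final numerical estimate -/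
theorem Mns_num {T Y VGv v S1 S2 S3 M0 P A e δ2 : ℝ} (hY : 0 ≤ Y) (hv : 0 ≤ v) (hA : 1 ≤ A) (he : 0 < e) (he1 : e ≤ 1)
    (hVG : 0 ≤ VGv) (h1 : |T - Y * VGv * S1| ≤ e * (Y * VGv * S2) + δ2 * S3)
    (h2 : |S1 - M0| ≤ e / 10 * A) (h3 : S2 ≤ 3 * A) (h4 : |M0 - P| ≤ e / 10 * A)
    (h5 : |VGv - v| ≤ e / 4 * v) (h6 : |P| ≤ A) (h7 : δ2 * S3 ≤ e / 4 * (Y * v * A)) :
    |T - Y * v * P| ≤ 8 * e * A * (Y * v) := by
  have hVGv : VGv ≤ 5 / 4 * v := by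
    have := (abs_le.1 h5).2
    nlinarith
  have e1 : T - Y * v * P = (T - Y * VGv * S1) + Y * VGv * (S1 - M0) + Y * VGv * (M0 - P) + Y * (VGv - v) * P := by ring
  rw [e1]
  have hYV : 0 ≤ Y * VGv := mul_nonneg hY hVG
  have hYv : 0 ≤ Y * v := mul_nonneg hY hv
  have hYVv : Y * VGv ≤ 5 / 4 * (Y * v) := by
    have := mul_le_mul_of_nonneg_left hVGv hY
    linarith
  have a1 : e * (Y * VGv * S2) ≤ e * (5 / 4 * (Y * v) * (3 * A)) := by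
    apply mul_le_mul_of_nonneg_left _ he.le
    calc Y * VGv * S2 ≤ Y * VGv * (3 * A) := mul_le_mul_of_nonneg_left h3 hYV
      _ ≤ 5 / 4 * (Y * v) * (3 * A) := mul_le_mul_of_nonneg_right hYVv (by linarith)
  have a2 : |Y * VGv * (S1 - M0)| ≤ 5 / 4 * (Y * v) * (e / 10 * A) := by
    rw [abs_mul, abs_of_nonneg hYV]
    exact mul_le_mul hYVv h2 (abs_nonneg _) (by positivity)
  have a3 : |Y * VGv * (M0 - P)| ≤ 5 / 4 * (Y * v) * (e / 10 * A) := by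
    rw [abs_mul, abs_of_nonneg hYV]
    exact mul_le_mul hYVv h4 (abs_nonneg _) (by positivity)
  have a4 : |Y * (VGv - v) * P| ≤ Y * (e / 4 * v) * A := by
    rw [abs_mul, abs_mul, abs_of_nonneg hY]
    exact mul_le_mul (mul_le_mul_of_nonneg_left h5 hY) h6 (abs_nonneg _) (by positivity)
  have a5 : 0 ≤ Y * v * A * e := by positivity
  calc |(T - Y * VGv * S1) + Y * VGv * (S1 - M0) + Y * VGv * (M0 - P) + Y * (VGv - v) * P|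
      ≤ |T - Y * VGv * S1| + |Y * VGv * (S1 - M0)| + |Y * VGv * (M0 - P)| + |Y * (VGv - v) * P| := by
        refine (abs_add_le _ _).trans (add_le_add_left ?_ _)
        refine (abs_add_le _ _).trans (add_le_add_left ?_ _)
        exact abs_add_le _ _
    _ ≤ (e * (5 / 4 * (Y * v) * (3 * A)) + e / 4 * (Y * v * A)) + 5 / 4 * (Y * v) * (e / 10 * A) +
        5 / 4 * (Y * v) * (e / 10 * A) + Y * (e / 4 * v) * A := by
        refine add_le_add (add_le_add (add_le_add ?_ a2) a3) a4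
        exact h1.trans (add_le_add a1 h7)
    _ = 9 / 2 * (Y * v * A * e) := by ring
    _ ≤ 8 * e * A * (Y * v) := by nlinarith

theorem mns (J0 : ℕ) : ∃ C : ℕ, ∀ b0 : ℕ, C ≤ b0 → ∀ (M : ℕ) (e1 Γ : ℝ), 0 < e1 → e1 ≤ 1 → 1 ≤ Γ → ∃ x0 : ℝ, ∀ x : ℝ, x0 ≤ x →
    ∀ (ι : Type) [Fintype ι] [DecidableEq ι], Fintype.card ι ≤ J0 → ∀ (D Dm : ℕ) (c0 : Option ℕ) (c : ι → ℕ) (Ts : Finset ℕ)
    (Y : ℝ) (E : ℕ → ℝ), (D : ℝ) ≤ Real.log x ^ 2 → Fw (yy x) ⌊x ^ e1⌋₊ D (primorial (yy x)) c0 c →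
    Dst (yy x) Dm (primorial (yy x)) c0 Ts Y E → ErS Dm (((J0 : ℝ) + 1) ^ 2 * 3) E ≤ Y / Real.log x ^ (J0 + 2) →
    ∀ (Ds : ι → Finset ℕ) (f : ι → ℕ → ℝ), (∀ i, Good (primorial ⌊x ^ e1⌋₊) (Ds i)) →
    (∀ i, ∀ B ∈ Ds i, B ≤ ⌊x ^ e1⌋₊ ^ M) → (∀ i, Ctrl 10 (10 * Γ) 1 (Ds i) (f i)) →
    (∀ i, ∀ B ∈ Ds i, |f i B| ≤ 4 * Γ ^ 2 * 3 ^ B.primeFactors.card) → (∀ i, ∑ B ∈ Ds i, |f i B| / (B : ℝ) ≤ 4 * Γ ^ 5) →
    (∀ B ∈ Fintype.piFinset Ds, (∏ i, B i) * ⌊x ^ e1⌋₊ ^ (4 * b0 + 10) ≤ Dm) →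
    |∑ t ∈ Ts, ∏ i, (th0 (yy x) ⌊x ^ e1⌋₊ (primorial (yy x) * t + c i) * Fn (Ds i) (f i) (primorial (yy x) * t + c i)) -
        Y * VV (yy x) ⌊x ^ e1⌋₊ 1 ^ Fintype.card ι * ∏ i, SS (Ds i) (f i) 1| ≤
      8 * Real.exp (-(b0 : ℝ)) * (4 * Γ ^ 5) ^ J0 * (Y * VV (yy x) ⌊x ^ e1⌋₊ 1 ^ Fintype.card ι) := by
  classical
  choose Ce hCe using ega
  choose Cs hCs1 hCs using Elu_s3
  refine ⟨∑ j ∈ range (J0 + 1), Ce j, ?_⟩
  intro b0 hb0 M e1 Γ he1 he1' hΓ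
  set e : ℝ := Real.exp (-(b0 : ℝ)) with he
  have he0 : 0 < e := Real.exp_pos _
  have hele : e ≤ 1 := by
    rw [he]
    exact Real.exp_le_one_iff.2 (by have : (0 : ℝ) ≤ b0 := Nat.cast_nonneg _; linarith)
  obtain ⟨cv, hcv0, hcv1, hcv⟩ := Mns_v he1 he1'
  obtain ⟨xv, hxv⟩ := vgc J0 (ε := e / 4) (by positivity)
  have hCsum : ∀ j ≤ J0, Cs j ≤ ∑ j ∈ range (J0 + 1), Cs j := fun j hj =>
    Finset.single_le_sum (f := Cs) (fun i _ => (zero_le_one.trans (hCs1 i))) (Finset.mem_range.2 (by omega))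
  set CS : ℝ := ∑ j ∈ range (J0 + 1), Cs j with hCS
  have hCS0 : 0 ≤ CS := (zero_le_one.trans (hCs1 0)).trans (hCsum 0 (Nat.zero_le _))
  have hCe' : ∀ j ≤ J0, Ce j ≤ ∑ j ∈ range (J0 + 1), Ce j := fun j hj =>
    Finset.single_le_sum (f := Ce) (fun i _ => Nat.zero_le _) (Finset.mem_range.2 (by omega))
  set CC : ℕ := ∑ j ∈ range (J0 + 1), Ce j with hCC
  have hΓ0 : 0 < Γ := by linarith
  set Kz : ℝ := (J0 : ℝ) * M + CS + 20 * ((J0 : ℝ) * M) / e + (10 * CS * (10 * Γ) ^ J0 / e) ^ 2 with hKz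
  set KL : ℝ := 28 * (4 * Γ ^ 2) ^ J0 / (e * cv ^ J0) with hKL
  have hev := ((Vg_z he1).and (Mns_ztop he1 Kz)).and
    ((hcv.and (tendsto_yy.eventually_ge_atTop CC)).and (Real.tendsto_log_atTop.eventually_ge_atTop KL))
  obtain ⟨x1, hx1⟩ := Filter.eventually_atTop.1 hev
  refine ⟨max xv x1, ?_⟩
  intro x hx ι _ _ hcard D Dm c0 c Ts Y E hD hF hDst hErS Ds f hG hM hCt hfb hfA hDm
  obtain ⟨⟨⟨hwz, hz2, hw2, hL1, -, hlz⟩, hzK⟩, ⟨⟨hcvl, hv1⟩, hwC⟩, hLK⟩ := hx1 x ((le_max_right _ _).trans hx)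
  have hvgc := hxv x ((le_max_left _ _).trans hx) ⌊x ^ e1⌋₊ D hD hwz ι hcard c0 c hF
  set z : ℕ := ⌊x ^ e1⌋₊ with hz
  set w : ℕ := yy x with hw
  set j : ℕ := Fintype.card ι with hj
  set L : ℝ := Real.log x with hL
  have hL0 : 0 < L := by linarith
  have hz0 : (0 : ℝ) < z := by exact_mod_cast (by omega : 0 < z)
  have hJM : (0 : ℝ) ≤ (J0 : ℝ) * M := by positivity
  have hY := hDst.Y_nonneg
  -- consequences of `Kz ≤ z`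
  have t1 : 0 ≤ 20 * ((J0 : ℝ) * M) / e := by positivity
  have t2 : 0 ≤ (10 * CS * (10 * Γ) ^ J0 / e) ^ 2 := sq_nonneg _
  have hz1 : (J0 : ℝ) * M ≤ z := by rw [hKz] at hzK; linarith
  have hz3 : CS ≤ z := by rw [hKz] at hzK; linarith
  have hz4 : 20 * ((J0 : ℝ) * M) / e ≤ z := by rw [hKz] at hzK; linarith
  have hz5 : (10 * CS * (10 * Γ) ^ J0 / e) ^ 2 ≤ z := by rw [hKz] at hzK; linarith
  have hjM : j * M ≤ z := by
    have h1 : J0 * M ≤ z := by exact_mod_cast hz1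
    exact (Nat.mul_le_mul_right _ hcard).trans h1
  have hjJ : (j : ℝ) ≤ J0 := by exact_mod_cast hcard
  set A1 : ℝ := 4 * Γ ^ 5 with hA1
  have hΓ5 : 1 ≤ Γ ^ 5 := one_le_pow₀ hΓ
  have hΓ2 : 1 ≤ Γ ^ 2 := one_le_pow₀ hΓ
  have hA1' : 1 ≤ A1 := by rw [hA1]; linarith
  have hA1j : 1 ≤ A1 ^ j := one_le_pow₀ hA1'
  set v : ℝ := VV w z 1 with hv
  have hv0 : 0 < v := lt_of_lt_of_le (by positivity) hcvl
  have hvj : 0 < v ^ j := pow_pos hv0 _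
  -- the four inputs
  have i1 := hCe j b0 ((hCe' j hcard).trans hb0) ι rfl w z D (primorial w) Dm ((hCe' j hcard).trans hwC) hw2 hwz
    c0 c Ts Y E hF hDst Ds f hG hDm
  obtain ⟨hVG0, i1⟩ := i1
  obtain ⟨i2, i3⟩ := phb (z := z) (M := M) (by omega) hjM c0 hG hM hfA
  have i4 := hCs j ι rfl z ((hCsum j hcard).trans hz3) Ds f (fun _ => 10 * Γ) (fun _ => by positivity) hG hCt
  have i5 := erg (w := w) (z := z) (Dm := Dm) (e := 4 * b0 + 10) hwz (Ds := Ds) (f := f) (Fc := 4 * Γ ^ 2) (C0 := 3)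
    (by linarith) (by norm_num) hG hfb hDst.E_nonneg hDm
  rw [Finset.prod_const, Finset.card_univ] at i4
  -- estimates
  have b2 : |∑ B ∈ PC Ds, ∏ i, (f i (B i) / Ph c0 (B i)) - Mm Ds f 1| ≤ e / 10 * A1 ^ j := by
    refine i2.trans (mul_le_mul_of_nonneg_right ?_ (by linarith))
    rw [div_le_iff₀ hz0]
    rw [div_le_iff₀ he0] at hz4
    have h1 : (j : ℝ) * M ≤ (J0 : ℝ) * M := mul_le_mul_of_nonneg_right hjJ (Nat.cast_nonneg _)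
    linarith
  have b4 : |Mm Ds f 1 - ∏ i, SS (Ds i) (f i) 1| ≤ e / 10 * A1 ^ j := by
    refine i4.trans ?_
    have h0 : 0 < Real.sqrt z := Real.sqrt_pos.2 hz0
    have h1 : 10 * CS * (10 * Γ) ^ J0 / e ≤ Real.sqrt z := Real.le_sqrt_of_sq_le hz5
    have h2 : (10 * Γ) ^ j ≤ (10 * Γ) ^ J0 := pow_le_pow_right₀ (by linarith) hcard
    have h3 : Cs j / Real.sqrt z * (10 * Γ) ^ j ≤ e / 10 := by
      rw [div_mul_eq_mul_div, div_le_iff₀ h0]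
      rw [div_le_iff₀ he0] at h1
      have h4 : Cs j * (10 * Γ) ^ j ≤ CS * (10 * Γ) ^ J0 :=
        mul_le_mul (hCsum j hcard) h2 (by positivity) hCS0
      linarith
    refine h3.trans ?_
    have : 0 ≤ e / 10 := by positivity
    exact le_mul_of_one_le_right this hA1j
  have b6 : |∏ i, SS (Ds i) (f i) 1| ≤ A1 ^ j := by
    rw [Finset.abs_prod]
    calc ∏ i, |SS (Ds i) (f i) 1| ≤ ∏ _i : ι, A1 :=
          Finset.prod_le_prod (fun i _ => abs_nonneg _) fun i _ => Mns_SS (hfA i)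
      _ = A1 ^ j := by rw [Finset.prod_const, Finset.card_univ]
  set S3 : ℝ := ∑ B ∈ PC Ds, (∏ i, |f i (B i)|) *
          ∑ S ∈ Sb w z (4 * b0 + 10), (j : ℝ) ^ S.card * E ((∏ i, B i) * ∏ p ∈ S, p) with hS3
  have hS3b : S3 ≤ (4 * Γ ^ 2) ^ J0 * (Y / L ^ (J0 + 2)) := by
    refine i5.trans ?_
    have h1 : ErS Dm (((Fintype.card ι : ℝ) + 1) ^ 2 * 3) E ≤ ErS Dm (((J0 : ℝ) + 1) ^ 2 * 3) E := by
      apply Mns_ErS (by positivity) _ hDst.E_nonneg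
      have h2 : (Fintype.card ι : ℝ) + 1 ≤ (J0 : ℝ) + 1 := by linarith
      have h3 : ((Fintype.card ι : ℝ) + 1) ^ 2 ≤ ((J0 : ℝ) + 1) ^ 2 := pow_le_pow_left₀ (by positivity) h2 2
      linarith
    have h4 : (4 * Γ ^ 2) ^ Fintype.card ι ≤ (4 * Γ ^ 2) ^ J0 := pow_le_pow_right₀ (by linarith) hcard
    have h5 : 0 ≤ Y / L ^ (J0 + 2) := by positivity
    calc (4 * Γ ^ 2) ^ Fintype.card ι * ErS Dm (((Fintype.card ι : ℝ) + 1) ^ 2 * 3) E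
        ≤ (4 * Γ ^ 2) ^ Fintype.card ι * (Y / L ^ (J0 + 2)) :=
          mul_le_mul_of_nonneg_left (h1.trans hErS) (by positivity)
      _ ≤ _ := mul_le_mul_of_nonneg_right h4 h5
  have hlogz : 3 * Real.log z + 4 ≤ 7 * L := by
    have h1 : e1 * L ≤ L := (mul_le_mul_of_nonneg_right (by linarith : e1 ≤ 1) hL0.le).trans (one_mul L).le
    linarith
  have hlogz0 : 0 ≤ 3 * Real.log z + 4 := by
    have : 0 ≤ Real.log z := Real.log_natCast_nonneg z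
    linarith
  have hvJ : cv ^ J0 / L ^ J0 ≤ v ^ j := by
    have h1 : (cv / L) ^ J0 ≤ (cv / L) ^ j := by
      apply pow_le_pow_of_le_one (by positivity) _ hcard
      rw [div_le_one hL0]
      linarith
    have h2 : (cv / L) ^ j ≤ v ^ j := pow_le_pow_left₀ (by positivity) hcvl j
    rw [← div_pow]
    exact h1.trans h2
  have b7 : (3 * Real.log z + 4) * S3 ≤ e / 4 * (Y * v ^ j * A1 ^ j) := by
    have h1 : (3 * Real.log z + 4) * S3 ≤ 7 * L * ((4 * Γ ^ 2) ^ J0 * (Y / L ^ (J0 + 2))) := by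
      calc (3 * Real.log z + 4) * S3 ≤ (3 * Real.log z + 4) * ((4 * Γ ^ 2) ^ J0 * (Y / L ^ (J0 + 2))) :=
            mul_le_mul_of_nonneg_left hS3b hlogz0
        _ ≤ _ := mul_le_mul_of_nonneg_right hlogz (by positivity)
    have h2 : 7 * L * ((4 * Γ ^ 2) ^ J0 * (Y / L ^ (J0 + 2))) =
        (7 * (4 * Γ ^ 2) ^ J0 / L) * (Y * (1 / L ^ J0)) := by
      have h9 : L ^ (J0 + 2) = L ^ J0 * L * L := by ring
      have h10 : L ^ J0 ≠ 0 := by positivity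
      have h11 : L ≠ 0 := hL0.ne'
      rw [h9]
      generalize L ^ J0 = q at h10 ⊢
      field_simp
    have h3 : 7 * (4 * Γ ^ 2) ^ J0 / L ≤ e / 4 * cv ^ J0 := by
      rw [div_le_iff₀ hL0]
      rw [hKL, div_le_iff₀ (by positivity)] at hLK
      linarith
    have h4 : (7 * (4 * Γ ^ 2) ^ J0 / L) * (Y * (1 / L ^ J0)) ≤ e / 4 * cv ^ J0 * (Y * (1 / L ^ J0)) :=
      mul_le_mul_of_nonneg_right h3 (by positivity)
    have h5 : e / 4 * cv ^ J0 * (Y * (1 / L ^ J0)) = e / 4 * (Y * (cv ^ J0 / L ^ J0)) := by ring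
    have h6 : e / 4 * (Y * (cv ^ J0 / L ^ J0)) ≤ e / 4 * (Y * v ^ j) :=
      mul_le_mul_of_nonneg_left (mul_le_mul_of_nonneg_left hvJ hY) (by positivity)
    have h7 : e / 4 * (Y * v ^ j) ≤ e / 4 * (Y * v ^ j * A1 ^ j) := by
      apply mul_le_mul_of_nonneg_left _ (by positivity)
      have h8 : 0 ≤ Y * v ^ j := by positivity
      exact le_mul_of_one_le_right h8 hA1j
    linarith
  have hfin := Mns_num (T := ∑ t ∈ Ts, ∏ i, (th0 w z (primorial w * t + c i) * Fn (Ds i) (f i) (primorial w * t + c i)))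
    (e := e) hY hvj.le hA1j he0 hele hVG0 i1 b2 i3 b4 hvgc b6 b7
  refine hfin.trans ?_
  have hAJ : A1 ^ j ≤ A1 ^ J0 := pow_le_pow_right₀ hA1' hcard
  have h8 : 0 ≤ Y * v ^ j := by positivity
  exact mul_le_mul_of_nonneg_right (mul_le_mul_of_nonneg_left hAJ (by positivity)) h8

end H73PC
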