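import Pool.Agent.H73.PC.Mns

/-!
# ROW Mnu: mean values for subsets of the forms

PROOF. `mns` for the index type `{i // i ∈ U}` (`Fintype.card_coe`), with `c`, `D i`, `f i` (from `Cd`, `choose`) restricted, as in the proof of `elu` (`Pool/Agent/H69/PG/Elu.lean`). `Fw` for `U` follows from `Fw` for `S ⊇ U`. The size condition:
`∏_{i ∈ U} B i ≤ ∏_{i ∈ U} sz i ≤ Sm`. `0 ≤ Y` is `Dst.Y_nonneg`. `P i (W t + c i) = th0 .. * Fn ..` by `Cd`.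
-/

open Finset EG H69PG Pool.Agent.H17

namespace H73PC

theorem mnu (J0 : ℕ) : ∃ C : ℕ, ∀ b0 : ℕ, C ≤ b0 → ∀ (M : ℕ) (e1 Γ : ℝ), 0 < e1 → e1 ≤ 1 → 1 ≤ Γ → ∃ x0 : ℝ, ∀ x : ℝ, x0 ≤ x →
    ∀ (ι : Type) [Fintype ι] [DecidableEq ι] (S : Finset ι) (D Dm Sm : ℕ) (c0 : Option ℕ) (c : ι → ℕ) (Ts : Finset ℕ)
    (Y : ℝ) (E : ℕ → ℝ), (D : ℝ) ≤ Real.log x ^ 2 →
    Fw (yy x) ⌊x ^ e1⌋₊ D (primorial (yy x)) c0 (fun i : {i // i ∈ S} => c i) →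
    Dst (yy x) Dm (primorial (yy x)) c0 Ts Y E → ErS Dm (((J0 : ℝ) + 1) ^ 2 * 3) E ≤ Y / Real.log x ^ (J0 + 2) →
    Sm * ⌊x ^ e1⌋₊ ^ (4 * b0 + 10) ≤ Dm →
    Mv (yy x) ⌊x ^ e1⌋₊ (primorial (yy x)) M J0 Sm Γ (8 * Real.exp (-(b0 : ℝ)) * (4 * Γ ^ 5) ^ J0) Ts Y S c := by
  obtain ⟨C, hC⟩ := mns J0
  refine ⟨C, fun b0 hb0 M e1 Γ he1 he1' hΓ => ?_⟩
  obtain ⟨x0, hx0⟩ := hC b0 hb0 M e1 Γ he1 he1' hΓ
  refine ⟨x0, fun x hx ι _ _ S D Dm Sm c0 c Ts Y E hD hF hDst hEr hSm => ?_⟩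
  refine ⟨hDst.Y_nonneg, by positivity, fun U hU hcard P s sz hCd hsz => ?_⟩
  have key : ∀ i : {i // i ∈ U}, Cd (yy x) ⌊x ^ e1⌋₊ M Γ (sz i) (P i) (s i) := fun i => hCd i i.2
  choose Ds f g1 g2 g3 g4 g5 g6 g7 using key
  have hc : Fintype.card {i // i ∈ U} = U.card := Fintype.card_coe U
  have hF' : Fw (yy x) ⌊x ^ e1⌋₊ D (primorial (yy x)) c0 (fun i : {i // i ∈ U} => c i) :=
    ⟨hF.pos, hF.pr, fun i i' h => Subtype.ext (congrArg (fun u : {i // i ∈ S} => (u : ι))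
      (hF.inj (a₁ := ⟨i.1, hU i.2⟩) (a₂ := ⟨i'.1, hU i'.2⟩) h)),
      fun i i' => hF.df ⟨i.1, hU i.2⟩ ⟨i'.1, hU i'.2⟩, hF.Dz, fun i => hF.cpos ⟨i.1, hU i.2⟩,
      fun k hk i => hF.df0 k hk ⟨i.1, hU i.2⟩⟩
  have h1 := hx0 x hx {i // i ∈ U} (by rw [hc]; exact hcard) D Dm c0 (fun i => c i) Ts Y E hD hF' hDst hEr
    Ds f g1 (fun i B hB => (g2 i B hB).1) g3 g4 g5 (fun B hB => by
      refine le_trans (Nat.mul_le_mul_right _ ?_) hSm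
      refine le_trans ?_ hsz
      rw [← Finset.prod_coe_sort U sz]
      refine Finset.prod_le_prod' fun i _ => ?_
      exact (g2 i (B i) (Fintype.mem_piFinset.1 hB i)).2)
  rw [hc] at h1
  have e1' : (∑ t ∈ Ts, ∏ i : {i // i ∈ U}, (th0 (yy x) ⌊x ^ e1⌋₊ (primorial (yy x) * t + c i) *
      Fn (Ds i) (f i) (primorial (yy x) * t + c i))) = ∑ t ∈ Ts, ∏ i ∈ U, P i (primorial (yy x) * t + c i) := by
    refine Finset.sum_congr rfl fun t _ => ?_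
    rw [← Finset.prod_coe_sort U (fun i => P i (primorial (yy x) * t + c i))]
    refine Finset.prod_congr rfl fun i _ => ?_
    exact (g6 i _).symm
  have e2' : (∏ i : {i // i ∈ U}, SS (Ds i) (f i) 1) = ∏ i ∈ U, s i := by
    rw [← Finset.prod_coe_sort U s]
    exact Finset.prod_congr rfl fun i _ => g7 i
  rw [e1', e2'] at h1
  exact h1

end H73PC
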