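import Pool.Agent.H73.PC.Mnu
import Pool.Agent.H73.PC.Fx
import Pool.Agent.H73.PC.DsA
import Pool.Agent.H73.PC.DsB

/-!
# ROW MvX: the mean values for the forms of the problem

PROOF. `C` from `mnu J0`. First part: `mnu` with `ι = κ ⊕ ι'` (the index type of `cf`), `S = univ`, `D = ⌊Λ log x⌋ ≤ (log x)²`, `Dm = ⌊x^(3/8)⌋`, `Sm = ⌊x^(7/32)⌋`, `c0 = none`, `Ts = range (To x)`, `Y = To x`, `E = 1` (`dsA`, `erA` with `C = (J0+1)² 3`, `A = J0 + 2`, `fwX`).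
`Sm z^(4 b0 + 10) ≤ x^(7/32 + e1 (4 b0 + 10)) ≤ x^(10/32) ≤ ⌊x^(3/8)⌋` for large `x`. Second part: `S = univ.erase (inl h0)`, `c0 = some (Xo x + b + h0)`, `dsB` with `k = Xo x + b + h0` (`rgX` for `x/3 ≤ k ≤ 2x/3`; `h0 ∈ Rk` gives `(k, W) = 1`).
(`WW = primorial` by definition.)
-/

open Finset EG H69PG Pool.Agent.H17

namespace H73PC

theorem mvX (J0 : ℕ) : ∃ C : ℕ, ∀ b0 : ℕ, C ≤ b0 → ∀ (M : ℕ) (e1 Γ Λ : ℝ), 0 < e1 → e1 ≤ 1 → 1 ≤ Γ → 1 ≤ Λ → e1 * (4 * b0 + 10) ≤ 3 / 32 →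
    ∃ x0 : ℝ, ∀ x : ℝ, x0 ≤ x → ∀ b : ℕ, b < WW (yy x) → ∀ H : Finset ℕ, H ⊆ Rk x Λ b →
    Mv (yy x) ⌊x ^ e1⌋₊ (WW (yy x)) M J0 ⌊x ^ (7 / 32 : ℝ)⌋₊ Γ (8 * Real.exp (-(b0 : ℝ)) * (4 * Γ ^ 5) ^ J0) (range (To x)) (To x : ℝ)
      univ (cf x Λ b H) ∧
    ∀ h0 : {h // h ∈ H}, ∃ Yp : ℝ, (To x : ℝ) * Vo x ≤ Yp ∧
      Mv (yy x) ⌊x ^ e1⌋₊ (WW (yy x)) M J0 ⌊x ^ (7 / 32 : ℝ)⌋₊ Γ (8 * Real.exp (-(b0 : ℝ)) * (4 * Γ ^ 5) ^ J0)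
        ((range (To x)).filter (fun t => (WW (yy x) * t + (Xo x + b + h0)).Prime)) Yp (univ.erase (Sum.inl h0)) (cf x Λ b H) := by
  obtain ⟨C, hC⟩ := mnu J0
  refine ⟨C, fun b0 hb0 M e1 Γ Λ he1 he1' hΓ hΛ hsz => ?_⟩
  obtain ⟨xm, hm⟩ := hC b0 hb0 M e1 Γ he1 he1' hΓ
  have hC1 : (1 : ℝ) ≤ ((J0 : ℝ) + 1) ^ 2 * 3 := by
    have h0 : (0 : ℝ) ≤ J0 := Nat.cast_nonneg _
    nlinarith
  obtain ⟨xa, ha⟩ := erA (((J0 : ℝ) + 1) ^ 2 * 3) hC1 (J0 + 2)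
  obtain ⟨xb, hb⟩ := dsB (((J0 : ℝ) + 1) ^ 2 * 3) hC1 (J0 + 2)
  obtain ⟨xf, hf⟩ := fwX Λ e1 hΛ he1
  obtain ⟨xr, hr⟩ := rgX Λ hΛ
  have hev : ∀ᶠ x : ℝ in Filter.atTop, Λ ≤ Real.log x ∧ 1 ≤ x :=
    (Real.tendsto_log_atTop.eventually_ge_atTop Λ).and (Filter.eventually_ge_atTop 1)
  obtain ⟨xe, he⟩ := Filter.eventually_atTop.1 hev
  refine ⟨max (max (max xm xa) (max xb xf)) (max xr xe), fun x hx b hbW H hH => ?_⟩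
  have hxm : xm ≤ x := le_trans (le_trans (le_max_left _ _) (le_trans (le_max_left _ _) (le_max_left _ _))) hx
  have hxa : xa ≤ x := le_trans (le_trans (le_max_right _ _) (le_trans (le_max_left _ _) (le_max_left _ _))) hx
  have hxb : xb ≤ x := le_trans (le_trans (le_max_left _ _) (le_trans (le_max_right _ _) (le_max_left _ _))) hx
  have hxf : xf ≤ x := le_trans (le_trans (le_max_right _ _) (le_trans (le_max_right _ _) (le_max_left _ _))) hx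
  have hxr : xr ≤ x := le_trans (le_trans (le_max_left _ _) (le_max_right _ _)) hx
  have hxe : xe ≤ x := le_trans (le_trans (le_max_right _ _) (le_max_right _ _)) hx
  obtain ⟨hΛL, hx1⟩ := he x hxe
  have hx0 : (0 : ℝ) < x := by linarith
  have hL0 : 0 ≤ Real.log x := Real.log_nonneg hx1
  have hD : ((⌊Λ * Real.log x⌋₊ : ℕ) : ℝ) ≤ Real.log x ^ 2 := by
    refine (Nat.floor_le (by positivity)).trans ?_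
    rw [pow_two]
    exact mul_le_mul_of_nonneg_right hΛL hL0
  have hDm : ((⌊x ^ (3 / 8 : ℝ)⌋₊ : ℕ) : ℝ) ≤ x ^ (3 / 8 : ℝ) := Nat.floor_le (by positivity)
  have hSm : ⌊x ^ (7 / 32 : ℝ)⌋₊ * ⌊x ^ e1⌋₊ ^ (4 * b0 + 10) ≤ ⌊x ^ (3 / 8 : ℝ)⌋₊ := by
    apply Nat.le_floor
    push_cast
    have h1 : ((⌊x ^ (7 / 32 : ℝ)⌋₊ : ℕ) : ℝ) ≤ x ^ (7 / 32 : ℝ) := Nat.floor_le (by positivity)
    have h2 : ((⌊x ^ e1⌋₊ : ℕ) : ℝ) ^ (4 * b0 + 10) ≤ (x ^ e1) ^ (4 * b0 + 10) :=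
      pow_le_pow_left₀ (Nat.cast_nonneg _) (Nat.floor_le (by positivity)) _
    calc ((⌊x ^ (7 / 32 : ℝ)⌋₊ : ℕ) : ℝ) * ((⌊x ^ e1⌋₊ : ℕ) : ℝ) ^ (4 * b0 + 10)
        ≤ x ^ (7 / 32 : ℝ) * (x ^ e1) ^ (4 * b0 + 10) := mul_le_mul h1 h2 (by positivity) (by positivity)
      _ = x ^ ((7 / 32 : ℝ) + e1 * (4 * b0 + 10)) := by
        rw [← Real.rpow_natCast (x ^ e1), ← Real.rpow_mul hx0.le, ← Real.rpow_add hx0]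
        push_cast
        ring_nf
      _ ≤ x ^ (3 / 8 : ℝ) := Real.rpow_le_rpow_of_exponent_le hx1 (by linarith)
  have hWW : WW (yy x) = primorial (yy x) := rfl
  obtain ⟨hf1, hf2⟩ := hf x hxf b hbW H hH
  refine ⟨?_, fun h0 => ?_⟩
  · rw [hWW]
    exact hm x hxm _ univ ⌊Λ * Real.log x⌋₊ ⌊x ^ (3 / 8 : ℝ)⌋₊ ⌊x ^ (7 / 32 : ℝ)⌋₊ none (cf x Λ b H) (range (To x)) (To x : ℝ) (fun _ => 1)
      hD hf1 (dsA _ _ _ _) (ha x hxa _ hDm) hSm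
  · have hh0 := hH h0.2
    rw [Rk, mem_filter, mem_Icc] at hh0
    obtain ⟨⟨hh1, hh2⟩, hh3⟩ := hh0
    have hh4 : ((h0 : ℕ) : ℝ) ≤ Λ * Real.log x := by
      have : ((h0 : ℕ) : ℝ) ≤ ((⌊Λ * Real.log x⌋₊ : ℕ) : ℝ) := by exact_mod_cast hh2
      exact this.trans (Nat.floor_le (by positivity))
    obtain ⟨hr1, hr2, -⟩ := (hr x hxr).2.2 b hbW h0 hh4
    obtain ⟨Y, E, hY1, hY2, hY3⟩ := hb x hxb (Xo x + b + h0) hr1 hr2 hh3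
    refine ⟨Y, hY2, ?_⟩
    rw [hWW]
    exact hm x hxm _ (univ.erase (Sum.inl h0)) ⌊Λ * Real.log x⌋₊ ⌊x ^ (3 / 8 : ℝ)⌋₊ ⌊x ^ (7 / 32 : ℝ)⌋₊ (some (Xo x + b + h0)) (cf x Λ b H)
      _ Y E hD (hf2 h0) hY1 hY3 hSm

end H73PC
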