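import Pool.Agent.H73.PC.Df

/-!
# ROW Ra: the ratio of the masses

`A2 = ∑_{a=1}^m y(a)² w(a)`, `Y = ∑_{a=1}^m y(a) w(a)`, `y(a) v(a) = 1`, so `∑ y² w v = Y`.
PROOF of `i0_le`: `Ad` is a subset of the functions with values in `1..m`; `Finset.prod_univ_sum`.
PROOF of `ip_ge`: keep only the pairs `(n, n')` in `Ad` which agree off `h0` and whose cost off `h0` is at most `l/2`: with `n0` = the common restriction to
`κ \ {h0}` (a function with values in `1..m` and cost `≤ l/2`) and any values `a, a' ∈ {1..m}` at `h0` (`v a ≤ l/2`, so both `n, n'` are in `Ad`): the sum is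
`≥ (∑_a y_a w_a)² ∑_{n0 : cost ≤ l/2} ∏ (y² w) = Y² (A2^(K-1) - ∑_{n0 : cost > l/2} ∏(y² w))`, and by Markov
`∑_{n0 : cost > l/2} ∏ (y² w) ≤ (2/l) ∑_{n0} cost(n0) ∏ (y² w) = (2/l) (K-1) (∑ v y² w) A2^(K-2) = (2/l) (K-1) Y A2^(K-2) ≤ A2^(K-1)/2`
by `4 (K-1) Y ≤ l A2`. (For `K = 1` the only `n0` is the empty function, cost `0`.) It is convenient to write functions on `κ \ {h0}` as functions `n0` on `κ` with `n0 h0 = 0`
or as functions on the subtype.
-/

open Finset H69PG

namespace H73PC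

variable {κ : Type} [Fintype κ] [DecidableEq κ]

theorem Ra_sum {m : ℕ} (f : ℕ → ℝ) :
    ∑ a ∈ (univ.filter fun a : Fin (m + 1) => a ≠ 0), f a = ∑ a ∈ Icc 1 m, f a := by
  rw [sum_filter]
  have h1 : (∑ a : Fin (m + 1), if a ≠ 0 then f a else 0) =
      ∑ a : Fin (m + 1), (fun i : ℕ => if i ≠ 0 then f i else 0) a := by
    refine sum_congr rfl fun a _ => ?_
    by_cases ha : a = 0
    · simp [ha]
    · have ha' : (a : ℕ) ≠ 0 := fun h => ha (Fin.ext h)
      simp [ha, ha']
  rw [h1, Fin.sum_univ_eq_sum_range (fun i : ℕ => if i ≠ 0 then f i else 0) (m + 1), ← sum_filter]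
  refine sum_congr ?_ fun _ _ => rfl
  ext i
  simp only [mem_filter, mem_range, mem_Icc]
  omega

/-- all functions with values in `1..m` -/
def Ra_P (κ : Type) [Fintype κ] [DecidableEq κ] (m : ℕ) : Finset (κ → Fin (m + 1)) :=
  Fintype.piFinset fun _ => univ.filter fun a => a ≠ 0

theorem Ra_mem {m : ℕ} {n : κ → Fin (m + 1)} : n ∈ Ra_P κ m ↔ ∀ h, n h ≠ 0 := by
  unfold Ra_P
  simp [Fintype.mem_piFinset]

theorem Ra_prod {m : ℕ} (g : κ → ℕ → ℝ) :
    ∑ n ∈ Ra_P κ m, ∏ h, g h (n h) = ∏ h, ∑ a ∈ Icc 1 m, g h a := by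
  unfold Ra_P
  rw [← prod_univ_sum (fun _ : κ => univ.filter fun a : Fin (m + 1) => a ≠ 0)
    (fun h a => g h (a : ℕ))]
  exact prod_congr rfl fun h _ => Ra_sum (g h)

theorem i0_le {m : ℕ} {v : ℕ → ℝ} {l : ℝ} {y w : ℕ → ℝ} (hw : ∀ a, 0 ≤ w a) :
    I0 κ m v l y w ≤ (∑ a ∈ Icc 1 m, y a ^ 2 * w a) ^ Fintype.card κ := by
  have h1 : (∑ a ∈ Icc 1 m, y a ^ 2 * w a) ^ Fintype.card κ =
      ∑ n ∈ Ra_P κ m, ∏ h, (fun (_ : κ) (a : ℕ) => y a ^ 2 * w a) h (n h) := by
    rw [Ra_prod (m := m) (fun (_ : κ) (a : ℕ) => y a ^ 2 * w a), prod_const, card_univ]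
  rw [h1]
  unfold I0
  refine sum_le_sum_of_subset_of_nonneg ?_ ?_
  · intro n hn
    unfold Ad at hn
    rw [mem_filter] at hn
    exact Ra_mem.2 hn.2.1
  · intro n _ _
    exact prod_nonneg fun h _ => mul_nonneg (sq_nonneg _) (hw _)

theorem ip_ge {m : ℕ} {v : ℕ → ℝ} {l : ℝ} {y w : ℕ → ℝ} (hy : ∀ a, 0 ≤ y a) (hw : ∀ a, 0 ≤ w a) (hv : ∀ a, 0 ≤ v a)
    (hl : 0 < l) (hvl : ∀ a ∈ Icc 1 m, v a ≤ l / 2) (hyv : ∀ a ∈ Icc 1 m, y a * v a = 1) (h0 : κ)
    (hK : 4 * ((Fintype.card κ : ℝ) - 1) * (∑ a ∈ Icc 1 m, y a * w a) ≤ l * ∑ a ∈ Icc 1 m, y a ^ 2 * w a) :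
    (∑ a ∈ Icc 1 m, y a * w a) ^ 2 / 2 * (∑ a ∈ Icc 1 m, y a ^ 2 * w a) ^ (Fintype.card κ - 1) ≤ Ip m v l y w h0 := by
  classical
  set Y : ℝ := ∑ a ∈ Icc 1 m, y a * w a with hYdef
  set A : ℝ := ∑ a ∈ Icc 1 m, y a ^ 2 * w a with hAdef
  have hY0 : 0 ≤ Y := sum_nonneg fun a _ => mul_nonneg (hy a) (hw a)
  have hA0 : 0 ≤ A := sum_nonneg fun a _ => mul_nonneg (sq_nonneg _) (hw a)
  -- the weights
  obtain ⟨g, hg⟩ : ∃ g : κ → ℕ → ℝ, g = fun h a => if h = h0 then y a * w a else y a ^ 2 * w a := ⟨_, rfl⟩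
  have hg0 : ∀ a, g h0 a = y a * w a := fun a => by rw [hg]; exact if_pos rfl
  have hg1 : ∀ h, h ≠ h0 → ∀ a, g h a = y a ^ 2 * w a := fun h hh a => by rw [hg]; exact if_neg hh
  have hgn : ∀ h a, 0 ≤ g h a := by
    intro h a
    by_cases hh : h = h0
    · rw [hh, hg0]
      exact mul_nonneg (hy a) (hw a)
    · rw [hg1 h hh]
      exact mul_nonneg (sq_nonneg _) (hw a)
  have hX : ∀ n : κ → Fin (m + 1), y (n h0) * w (n h0) * ∏ h ∈ univ.erase h0, (y (n h) ^ 2 * w (n h)) =
      ∏ h, g h (n h) := by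
    intro n
    rw [← mul_prod_erase univ (fun h => g h (n h)) (mem_univ h0), hg0]
    congr 1
    exact prod_congr rfl fun h hh => (hg1 h (ne_of_mem_erase hh) _).symm
  have hXn : ∀ n : κ → Fin (m + 1), 0 ≤ ∏ h, g h (n h) := fun n => prod_nonneg fun h _ => hgn h _
  -- the cost off h0
  obtain ⟨off, hoff⟩ : ∃ off : (κ → Fin (m + 1)) → ℝ, off = fun n => ∑ h ∈ univ.erase h0, v (n h) := ⟨_, rfl⟩
  have hoffn : ∀ n, 0 ≤ off n := fun n => by
    rw [hoff]
    exact sum_nonneg fun h _ => hv _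
  have hval : ∀ a : Fin (m + 1), a ≠ 0 → (a : ℕ) ∈ Icc 1 m := by
    intro a ha
    have ha' : (a : ℕ) ≠ 0 := fun h => ha (Fin.ext h)
    have := a.2
    rw [mem_Icc]
    omega
  have hAd : ∀ n : κ → Fin (m + 1), n ∈ Ra_P κ m → off n ≤ l / 2 → n ∈ Ad κ m v l := by
    intro n hn hc
    unfold Ad
    rw [mem_filter]
    refine ⟨mem_univ _, Ra_mem.1 hn, ?_⟩
    rw [← add_sum_erase univ (fun h => v (n h)) (mem_univ h0)]
    rw [hoff] at hc
    have h1 := hvl _ (hval _ (Ra_mem.1 hn h0))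
    have h2 : v (n h0) + ∑ h ∈ univ.erase h0, v (n h) ≤ l / 2 + l / 2 := add_le_add h1 hc
    linarith
  -- the inner sum
  have hin : ∀ n ∈ (Ra_P κ m).filter (fun n => off n ≤ l / 2), (∏ h, g h (n h)) * Y ≤
      ∑ n' ∈ Ad κ m v l, if (∀ h, h ≠ h0 → n h = n' h) then
        (y (n h0) * w (n h0)) * (y (n' h0) * w (n' h0)) * ∏ h ∈ univ.erase h0, (y (n h) ^ 2 * w (n h)) else 0 := by
    intro n hn
    rw [mem_filter] at hn
    have hsub : ((univ.filter fun a : Fin (m + 1) => a ≠ 0).image fun a => Function.update n h0 a) ⊆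
        Ad κ m v l := by
      intro n' hn'
      rw [mem_image] at hn'
      obtain ⟨a, ha, rfl⟩ := hn'
      rw [mem_filter] at ha
      apply hAd
      · rw [Ra_mem]
        intro h
        by_cases hh : h = h0
        · rw [hh, Function.update_self]
          exact ha.2
        · rw [Function.update_of_ne hh]
          exact Ra_mem.1 hn.1 h
      · have h1 : off (Function.update n h0 a) = off n := by
          rw [hoff]
          exact sum_congr rfl fun h hh => by rw [Function.update_of_ne (ne_of_mem_erase hh)]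
        rw [h1]
        exact hn.2
    have hterm : ∀ n' : κ → Fin (m + 1), 0 ≤ (if (∀ h, h ≠ h0 → n h = n' h) then
        (y (n h0) * w (n h0)) * (y (n' h0) * w (n' h0)) * ∏ h ∈ univ.erase h0, (y (n h) ^ 2 * w (n h)) else 0) := by
      intro n'
      split_ifs
      · exact mul_nonneg (mul_nonneg (mul_nonneg (hy _) (hw _)) (mul_nonneg (hy _) (hw _)))
          (prod_nonneg fun h _ => mul_nonneg (sq_nonneg _) (hw _))
      · exact le_rfl
    refine le_trans (le_of_eq ?_) (sum_le_sum_of_subset_of_nonneg hsub fun n' _ _ => hterm n')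
    rw [sum_image]
    · have h2 : ∀ a : Fin (m + 1), (if (∀ h, h ≠ h0 → n h = Function.update n h0 a h) then
          (y (n h0) * w (n h0)) * (y (Function.update n h0 a h0) * w (Function.update n h0 a h0)) *
            ∏ h ∈ univ.erase h0, (y (n h) ^ 2 * w (n h)) else 0) =
          (∏ h, g h (n h)) * (y a * w a) := by
        intro a
        rw [if_pos (fun h hh => by rw [Function.update_of_ne hh]), Function.update_self, ← hX n]
        ring
      rw [sum_congr rfl fun a _ => h2 a, ← mul_sum, Ra_sum (fun a => y a * w a)]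
    · intro a _ b _ hab
      have h3 := congrFun hab h0
      simpa using h3
  -- step 1
  have s1 : ∑ n ∈ (Ra_P κ m).filter (fun n => off n ≤ l / 2), (∏ h, g h (n h)) * Y ≤ Ip m v l y w h0 := by
    unfold Ip
    refine (sum_le_sum hin).trans ?_
    refine sum_le_sum_of_subset_of_nonneg ?_ ?_
    · intro n hn
      rw [mem_filter] at hn
      exact hAd n hn.1 hn.2
    · intro n _ _
      refine sum_nonneg fun n' _ => ?_
      split_ifs
      · exact mul_nonneg (mul_nonneg (mul_nonneg (hy _) (hw _)) (mul_nonneg (hy _) (hw _)))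
          (prod_nonneg fun h _ => mul_nonneg (sq_nonneg _) (hw _))
      · exact le_rfl
  -- step 2: Markov
  have s2 : ∑ n ∈ Ra_P κ m, ∏ h, g h (n h) - 2 / l * ∑ n ∈ Ra_P κ m, off n * ∏ h, g h (n h) ≤
      ∑ n ∈ (Ra_P κ m).filter (fun n => off n ≤ l / 2), ∏ h, g h (n h) := by
    rw [mul_sum, ← sum_sub_distrib, sum_filter]
    refine sum_le_sum fun n _ => ?_
    split_ifs with hc
    · have : 0 ≤ 2 / l * (off n * ∏ h, g h (n h)) :=
        mul_nonneg (by positivity) (mul_nonneg (hoffn n) (hXn n))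
      linarith
    · have h3 : 1 ≤ 2 / l * off n := by
        rw [div_mul_eq_mul_div, le_div_iff₀ hl]
        push Not at hc
        linarith
      have h4 := mul_le_mul_of_nonneg_right h3 (hXn n)
      linarith
  -- the total mass
  have s3 : ∑ n ∈ Ra_P κ m, ∏ h, g h (n h) = Y * A ^ (Fintype.card κ - 1) := by
    rw [Ra_prod, ← mul_prod_erase univ _ (mem_univ h0)]
    congr 1
    · exact sum_congr rfl fun a _ => hg0 a
    · rw [prod_congr rfl fun h hh => sum_congr rfl fun a _ => hg1 h (ne_of_mem_erase hh) a, prod_const,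
        card_erase_of_mem (mem_univ h0), card_univ]
  -- the mass with the cost
  have s4 : ∀ h1 ∈ univ.erase h0, ∑ n ∈ Ra_P κ m, v (n h1) * ∏ h, g h (n h) =
      Y * (Y * A ^ (Fintype.card κ - 1 - 1)) := by
    intro h1 hh1
    have hne : h1 ≠ h0 := ne_of_mem_erase hh1
    have h5 : ∀ n : κ → Fin (m + 1), v (n h1) * ∏ h, g h (n h) =
        ∏ h, (fun (h : κ) (a : ℕ) => if h = h1 then v a * g h a else g h a) h (n h) := by
      intro n
      rw [← mul_prod_erase univ (fun h => g h (n h)) (mem_univ h1),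
        ← mul_prod_erase univ (fun h => (fun (h : κ) (a : ℕ) => if h = h1 then v a * g h a else g h a) h (n h))
          (mem_univ h1), ← mul_assoc]
      congr 1
      · exact (if_pos rfl).symm
      · exact prod_congr rfl fun h hh => (if_neg (ne_of_mem_erase hh)).symm
    rw [sum_congr rfl fun n _ => h5 n,
      Ra_prod (m := m) (fun (h : κ) (a : ℕ) => if h = h1 then v a * g h a else g h a),
      ← mul_prod_erase univ _ (mem_univ h0),
      ← mul_prod_erase (univ.erase h0) _ hh1]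
    congr 1
    · exact sum_congr rfl fun a _ => by
        show (if h0 = h1 then v a * g h0 a else g h0 a) = _
        rw [if_neg (Ne.symm hne), hg0]
    · congr 1
      · refine sum_congr rfl fun a ha => ?_
        show (if h1 = h1 then v a * g h1 a else g h1 a) = _
        rw [if_pos rfl, hg1 h1 hne]
        have := hyv a ha
        calc v a * (y a ^ 2 * w a) = (y a * v a) * (y a * w a) := by ring
          _ = y a * w a := by rw [this, one_mul]
      · have h6 : ∀ h ∈ (univ.erase h0).erase h1, (∑ a ∈ Icc 1 m,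
            (fun (h : κ) (a : ℕ) => if h = h1 then v a * g h a else g h a) h a) = A := by
          intro h hh
          have e1 : h ≠ h1 := ne_of_mem_erase hh
          have e2 : h ≠ h0 := ne_of_mem_erase (mem_of_mem_erase hh)
          refine sum_congr rfl fun a _ => ?_
          show (if h = h1 then v a * g h a else g h a) = _
          rw [if_neg e1, hg1 h e2]
        rw [prod_congr rfl h6, prod_const, card_erase_of_mem hh1, card_erase_of_mem (mem_univ h0), card_univ]
  have s5 : ∑ n ∈ Ra_P κ m, off n * ∏ h, g h (n h) =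
      ((Fintype.card κ - 1 : ℕ) : ℝ) * (Y * (Y * A ^ (Fintype.card κ - 1 - 1))) := by
    have h7 : ∀ n : κ → Fin (m + 1), off n * ∏ h, g h (n h) =
        ∑ h1 ∈ univ.erase h0, v (n h1) * ∏ h, g h (n h) := by
      intro n
      rw [hoff, sum_mul]
    rw [sum_congr rfl fun n _ => h7 n, sum_comm, sum_congr rfl s4, sum_const,
      card_erase_of_mem (mem_univ h0), card_univ, nsmul_eq_mul]
  -- conclusion
  have hcard : 1 ≤ Fintype.card κ := Fintype.card_pos_iff.2 ⟨h0⟩
  have s6 : 2 / l * (((Fintype.card κ - 1 : ℕ) : ℝ) * (Y * (Y * A ^ (Fintype.card κ - 1 - 1)))) ≤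
      Y * A ^ (Fintype.card κ - 1) / 2 := by
    rcases Nat.eq_zero_or_pos (Fintype.card κ - 1) with hz | hz
    · rw [hz]
      simp only [Nat.cast_zero, zero_mul, mul_zero]
      positivity
    · obtain ⟨k, hk⟩ : ∃ k, Fintype.card κ - 1 = k + 1 := ⟨Fintype.card κ - 1 - 1, by omega⟩
      have hk' : (Fintype.card κ : ℝ) - 1 = ((k + 1 : ℕ) : ℝ) := by
        have h8 : Fintype.card κ = k + 2 := by omega
        rw [h8]
        push_cast
        ring
      rw [hk'] at hK
      rw [hk, Nat.add_sub_cancel, pow_succ]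
      have h9 : 2 / l * (((k + 1 : ℕ) : ℝ) * Y) ≤ A / 2 := by
        rw [div_mul_eq_mul_div, div_le_iff₀ hl]
        linarith
      have h10 : 0 ≤ Y * A ^ k := by positivity
      have h11 := mul_le_mul_of_nonneg_right h9 h10
      calc 2 / l * (((k + 1 : ℕ) : ℝ) * (Y * (Y * A ^ k))) = 2 / l * (((k + 1 : ℕ) : ℝ) * Y) * (Y * A ^ k) := by ring
        _ ≤ A / 2 * (Y * A ^ k) := h11
        _ = Y * (A ^ k * A) / 2 := by ring
  have s7 : Y * A ^ (Fintype.card κ - 1) / 2 ≤
      ∑ n ∈ (Ra_P κ m).filter (fun n => off n ≤ l / 2), ∏ h, g h (n h) := by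
    rw [s3, s5] at s2
    linarith
  have s8 := mul_le_mul_of_nonneg_right s7 hY0
  rw [← sum_mul] at s1
  refine le_trans (le_of_eq ?_) (s8.trans s1)
  ring

end H73PC
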